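import Mathlib

/-!
# Polarized Lie groups, endpoint map, abnormal curves (general definitions)
-/

namespace SRSard

open MeasureTheory Set
open scoped Manifold ContDiff

noncomputable section

variable {E : Type} [NormedAddCommGroup E] [NormedSpace ℝ E]
  {H : Type} [TopologicalSpace H] (I : ModelWithCorners ℝ E H)
  {G : Type} [TopologicalSpace G] [ChartedSpace H G] [Group G]

/-- `V` is bracket generating: every subspace of the Lie algebra which contains `V` and is closed
under the Lie bracket is everything. -/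
def BracketGenerating (V : Submodule ℝ (GroupLieAlgebra I G)) : Prop :=
  ∀ W : Submodule ℝ (GroupLieAlgebra I G), V ≤ W → (∀ x ∈ W, ∀ y ∈ W, ⁅x, y⁆ ∈ W) → W = ⊤

/-- The space of controls `L²([0,1]; ℝᵐ)`. -/
abbrev Controls (m : ℕ) : Type :=
  Lp (EuclideanSpace ℝ (Fin m)) 2 (volume.restrict (Icc (0:ℝ) 1))

/-- `γ` is the horizontal curve issued from the identity with control `w`, i.e.
`γ' (s) = ∑ j, w j (s) • (b j)_{γ(s)}` for almost all `s ∈ [0,1]`, where `b j` is extended to a left
invariant vector field.  The differential equation is written in integral form, tested against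
smooth functions (no chart is needed). -/
def IsHorizontalCurve {m : ℕ} (b : Fin m → GroupLieAlgebra I G) (w : Controls m) (γ : ℝ → G) :
    Prop :=
  ContinuousOn γ (Icc 0 1) ∧ γ 0 = 1 ∧
  ∀ f : G → ℝ, ContMDiff I 𝓘(ℝ, ℝ) ∞ f → ∀ t ∈ Icc (0:ℝ) 1,
    IntervalIntegrable (fun s => (mfderiv I 𝓘(ℝ, ℝ) f (γ s)
      (∑ j, w s j • (mulInvariantVectorField (b j) (γ s) : TangentSpace I (γ s))) : ℝ)) volume 0 t ∧
    f (γ t) - f (γ 0) = ∫ s in (0:ℝ)..t, (mfderiv I 𝓘(ℝ, ℝ) f (γ s)
      (∑ j, w s j • (mulInvariantVectorField (b j) (γ s) : TangentSpace I (γ s))) : ℝ)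

/-- `Φ : L²([0,1]; ℝᵐ) → G` is the endpoint map of the polarization spanned by `b`. -/
def IsEndpointMap {m : ℕ} (b : Fin m → GroupLieAlgebra I G) (Φ : Controls m → G) : Prop :=
  ContMDiff 𝓘(ℝ, Controls m) I ∞ Φ ∧ ∀ w, ∃ γ : ℝ → G, IsHorizontalCurve I b w γ ∧ γ 1 = Φ w

/-- The set `Abn(e)` of endpoints of abnormal curves: images of the critical points of the endpoint
map `Φ`. -/
def Abn {m : ℕ} (Φ : Controls m → G) : Set G :=
  {q | ∃ w, Φ w = q ∧ ¬ Function.Surjective (mfderiv 𝓘(ℝ, Controls m) I Φ w)}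

end

end SRSard
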