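import Mathlib

/-!
# Polarized Lie groups, endpoint map, abnormal curves (general definitions, short terms)
-/

namespace SRS

open MeasureTheory Set
open scoped Manifold ContDiff

noncomputable section

/-- Lebesgue measure on `[0,1]`. -/
def lebUnit : Measure ℝ := volume.restrict (Icc (0:ℝ) 1)

/-- The Euclidean space `ℝᵐ`. -/
def Vec (m : ℕ) : Type := EuclideanSpace ℝ (Fin m)

/-- The norm and addition of `ℝᵐ`. -/
@[reducible] def vecGroup (m : ℕ) : NormedAddCommGroup (EuclideanSpace ℝ (Fin m)) := inferInstance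

instance instGroupVec (m : ℕ) : NormedAddCommGroup (Vec m) := vecGroup m

/-- The space of controls `L²([0,1]; ℝᵐ)`. -/
def Controls (m : ℕ) : Type := Lp (Vec m) 2 lebUnit

/-- The scalar multiplication of `ℝᵐ`. -/
@[reducible] def vecSpace (m : ℕ) : NormedSpace ℝ (EuclideanSpace ℝ (Fin m)) := inferInstance

instance instSpaceVec (m : ℕ) : NormedSpace ℝ (Vec m) := vecSpace m

/-- The norm and addition of `L²([0,1]; ℝᵐ)`. -/
@[reducible] def lpGroup (m : ℕ) : NormedAddCommGroup (Lp (Vec m) 2 lebUnit) := inferInstance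

instance instGroupControls (m : ℕ) : NormedAddCommGroup (Controls m) := lpGroup m

/-- The scalar multiplication of `L²([0,1]; ℝᵐ)`. -/
@[reducible] def lpSpace (m : ℕ) : NormedSpace ℝ (Lp (Vec m) 2 lebUnit) := inferInstance

instance instSpaceControls (m : ℕ) : NormedSpace ℝ (Controls m) := lpSpace m

/-- The value of the control `w` at time `s`. -/
def Controls.val {m : ℕ} (w : Controls m) (s : ℝ) : EuclideanSpace ℝ (Fin m) :=
  (show Lp (Vec m) 2 lebUnit from w) s

variable {E : Type} [NormedAddCommGroup E] [NormedSpace ℝ E]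
  {G : Type} [TopologicalSpace G] [ChartedSpace E G] [Group G]

/-- `W` is closed under the Lie bracket. -/
def BracketClosed (W : Set (GroupLieAlgebra 𝓘(ℝ, E) G)) : Prop :=
  ∀ x ∈ W, ∀ y ∈ W, ⁅x, y⁆ ∈ W

/-- `W` is closed under addition. -/
def AddClosed (W : Set (GroupLieAlgebra 𝓘(ℝ, E) G)) : Prop :=
  ∀ x ∈ W, ∀ y ∈ W, x + y ∈ W

/-- `W` is closed under multiplication by real numbers. -/
def SmulClosed (W : Set (GroupLieAlgebra 𝓘(ℝ, E) G)) : Prop :=
  ∀ c : ℝ, ∀ x ∈ W, c • x ∈ W

/-- The family `b` generates the Lie algebra: every set `W` of elements of the Lie algebra which is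
closed under addition, multiplication by real numbers and the Lie bracket, and which contains all
`b j`, is everything. -/
def BracketGenerating {m : ℕ} (b : Fin m → GroupLieAlgebra 𝓘(ℝ, E) G) : Prop :=
  ∀ W : Set (GroupLieAlgebra 𝓘(ℝ, E) G), AddClosed (E := E) (G := G) W →
    SmulClosed (E := E) (G := G) W → BracketClosed (E := E) (G := G) W →
    (∀ j, b j ∈ W) → ∀ x, x ∈ W

/-- The horizontal velocity `∑ j, w j (s) • (b j)_g`, where `b j` is extended to a left invariant
vector field. -/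
def velocity {m : ℕ} (b : Fin m → GroupLieAlgebra 𝓘(ℝ, E) G) (w : Controls m) (s : ℝ) (g : G) :
    TangentSpace 𝓘(ℝ, E) g :=
  ∑ j, w.val s j • (mulInvariantVectorField (b j) g : TangentSpace 𝓘(ℝ, E) g)

/-- The derivative of the function `f` at `γ s` in the direction of the horizontal velocity. -/
def derivAlong {m : ℕ} (b : Fin m → GroupLieAlgebra 𝓘(ℝ, E) G) (w : Controls m) (γ : ℝ → G)
    (f : G → ℝ) (s : ℝ) : ℝ :=
  mfderiv 𝓘(ℝ, E) 𝓘(ℝ, ℝ) f (γ s) (velocity b w s (γ s))

/-- `γ` is the horizontal curve issued from the identity with control `w`, i.e.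
`γ' (s) = ∑ j, w j (s) • (b j)_{γ(s)}` for almost all `s ∈ [0,1]`.  The differential equation is
written in integral form, tested against smooth functions (no chart is needed). -/
def IsHorizontalCurve {m : ℕ} (b : Fin m → GroupLieAlgebra 𝓘(ℝ, E) G) (w : Controls m)
    (γ : ℝ → G) : Prop :=
  ContinuousOn γ (Icc 0 1) ∧ γ 0 = 1 ∧
  ∀ f : G → ℝ, ContMDiff 𝓘(ℝ, E) 𝓘(ℝ, ℝ) ∞ f → ∀ t ∈ Icc (0:ℝ) 1,
    IntervalIntegrable (derivAlong b w γ f) volume 0 t ∧
    f (γ t) - f (γ 0) = ∫ s in (0:ℝ)..t, derivAlong b w γ f s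

/-- The map `Φ : L²([0,1]; ℝᵐ) → G` is smooth. -/
def SmoothOnControls {m : ℕ} (Φ : Controls m → G) : Prop :=
  ContMDiff 𝓘(ℝ, Controls m) 𝓘(ℝ, E) ∞ Φ

/-- `Φ : L²([0,1]; ℝᵐ) → G` is the endpoint map of the polarization spanned by `b`. -/
def IsEndpointMap {m : ℕ} (b : Fin m → GroupLieAlgebra 𝓘(ℝ, E) G) (Φ : Controls m → G) : Prop :=
  SmoothOnControls (E := E) Φ ∧ ∀ w, ∃ γ : ℝ → G, IsHorizontalCurve b w γ ∧ γ 1 = Φ w

/-- The derivative of `Φ` at the control `w` in the direction `u`. -/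
def derivEnd (E : Type) [NormedAddCommGroup E] [NormedSpace ℝ E]
    {G : Type} [TopologicalSpace G] [ChartedSpace E G] {m : ℕ} (Φ : Controls m → G)
    (w u : Controls m) : TangentSpace 𝓘(ℝ, E) (Φ w) :=
  mfderiv 𝓘(ℝ, Controls m) 𝓘(ℝ, E) Φ w u

/-- The control `w` is a critical point of `Φ`: the derivative of `Φ` at `w` is not surjective. -/
def IsCritical (E : Type) [NormedAddCommGroup E] [NormedSpace ℝ E]
    {G : Type} [TopologicalSpace G] [ChartedSpace E G] {m : ℕ} (Φ : Controls m → G)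
    (w : Controls m) : Prop :=
  ¬ Function.Surjective (derivEnd E Φ w)

/-- The set `Abn(e)` of endpoints of abnormal curves: images of the critical points of the endpoint
map `Φ`. -/
def Abn (E : Type) [NormedAddCommGroup E] [NormedSpace ℝ E]
    {G : Type} [TopologicalSpace G] [ChartedSpace E G] {m : ℕ} (Φ : Controls m → G) : Set G :=
  {q | ∃ w, Φ w = q ∧ IsCritical E Φ w}

end

end SRS
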