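import Pool.Agent.Lib.SRSard.SteerA

/-!
# Chunk SB (steer_step): a pair `i, k` is steered to the singular point

`ep i = 1, gg i = 1`, `ep k = -1, gg k = 101` (`(i,k) = (0,1)` or `(2,3)`), `p i = p k = π > 0`.

* `hop1`: from `node a 0 p` to `node (a + n η e_j) 0 p`, `η = sqrt (2 π)`, `n : ℤ`
  (induction on `|n|`: at each step go to the tuned value of `T`, switch; consecutive tuned values
  of `T` differ by `3 η / gg j`); final cost `≤ C (|a j| + (|n| + 1) η) (1 + η^2)`.
* `hop2`: from `node a 0 p`, if `c = 3 (a k - 101 a i) / 100` and `ρ + π / ρ = c` (`ρ > 0`), to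
  `node (a + ρ e_i + ρ e_k) 0 p'`, `p' = ρ^2 - π`.
* `steer_step`: with `s = sqrt π`: first `hop1` brings `a i` into `[-η, η]`, then `hop1` brings `a k`
  into the interval `101 a i + (100/3) [2.01 s, 2.06 s]` (its length is `5/3 s > η`); then
  `ρ = (c + sqrt (c^2 - 4 s^2))/2` satisfies `1.1 s ≤ ρ ≤ 1.28 s`, so
  `0.2 s^2 ≤ ρ^2 - s^2 ≤ 0.64 s^2`.
* `steer_pair`: iterate (`s_{n+1} ≤ 0.8 s_n`), costs are summable, `Reach.infinite`.
-/

namespace SRSard

open MeasureTheory Set Filter Topology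
open scoped ContDiff

noncomputable section

theorem sb_sq_le {x y : ℝ} (h : x ^ 2 ≤ y ^ 2) (hy : 0 ≤ y) : x ≤ y :=
  (abs_le_of_sq_le_sq' h hy).2

/-- choose an integer which brings `b` close to `0` -/
theorem sb_round (b : ℝ) {η : ℝ} (hη : 0 < η) :
    ∃ n : ℤ, |b + n * η| ≤ η / 2 ∧ |(n:ℝ)| * η ≤ |b| + η / 2 := by
  refine ⟨- round (b / η), ?_, ?_⟩
  · have h := abs_sub_round (b / η)
    have e : b + ((- round (b / η) : ℤ) : ℝ) * η = (b / η - round (b / η)) * η := by
      push_cast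
      field_simp
      ring
    rw [e, abs_mul, abs_of_pos hη]
    nlinarith
  · have h := abs_sub_round (b / η)
    have h1 : |(round (b / η) : ℝ)| ≤ |b / η| + 1 / 2 := by
      have : (round (b / η) : ℝ) = b / η - (b / η - round (b / η)) := by ring
      rw [this]
      exact (abs_sub _ _).trans (by linarith)
    have h2 : |b / η| * η = |b| := by
      rw [abs_div, abs_of_pos hη]
      field_simp
    push_cast
    rw [abs_neg]
    nlinarith

/-- choose an integer which brings `b` into `[l, l + η)` -/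
theorem sb_ceil (b l : ℝ) {η : ℝ} (hη : 0 < η) :
    ∃ n : ℤ, l ≤ b + n * η ∧ b + n * η ≤ l + η ∧ |(n:ℝ)| * η ≤ |l| + |b| + η := by
  refine ⟨⌈(l - b) / η⌉, ?_, ?_, ?_⟩
  · have h := Int.le_ceil ((l - b) / η)
    have := mul_le_mul_of_nonneg_right h hη.le
    rw [div_mul_cancel₀ _ hη.ne'] at this
    linarith
  · have h := (Int.ceil_lt_add_one ((l - b) / η)).le
    have := mul_le_mul_of_nonneg_right h hη.le
    rw [add_mul, div_mul_cancel₀ _ hη.ne'] at this
    linarith
  · have h := Int.le_ceil ((l - b) / η)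
    have h1 := mul_le_mul_of_nonneg_right h hη.le
    rw [div_mul_cancel₀ _ hη.ne'] at h1
    have h' := (Int.ceil_lt_add_one ((l - b) / η)).le
    have h2 := mul_le_mul_of_nonneg_right h' hη.le
    rw [add_mul, div_mul_cancel₀ _ hη.ne'] at h2
    have e : |(⌈(l - b) / η⌉ : ℝ)| * η = |(⌈(l - b) / η⌉ : ℝ) * η| := by
      rw [abs_mul, abs_of_pos hη]
    rw [e, abs_le]
    have a1 := neg_abs_le l
    have a2 := le_abs_self l
    have a3 := neg_abs_le b
    have a4 := le_abs_self b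
    constructor <;> linarith

theorem sb_rho {s c : ℝ} (hs : 0 < s) (hc1 : 2.01 * s ≤ c) (hc2 : c ≤ 2.06 * s) :
    ∃ ρ : ℝ, 1.1 * s ≤ ρ ∧ ρ ≤ 1.28 * s ∧ ρ + s ^ 2 / ρ = c := by
  have hcc : 0 ≤ c ^ 2 - 4 * s ^ 2 := by nlinarith
  obtain ⟨d, hd⟩ : ∃ d, d = Real.sqrt (c ^ 2 - 4 * s ^ 2) := ⟨_, rfl⟩
  have hd0 : 0 ≤ d := by rw [hd]; exact Real.sqrt_nonneg _
  have hd2 : d ^ 2 = c ^ 2 - 4 * s ^ 2 := by rw [hd]; exact Real.sq_sqrt hcc
  have hd1 : d ≤ 0.5 * s := by
    apply sb_sq_le _ (by positivity)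
    rw [hd2]; nlinarith
  have hd3 : 0.2 * s ≤ d := by
    apply sb_sq_le _ hd0
    rw [hd2]; nlinarith
  have h0 : (c + d) / 2 ≠ 0 := by
    have : 0 < c + d := by linarith
    positivity
  refine ⟨(c + d) / 2, by linarith, by linarith, ?_⟩
  have : s ^ 2 = (c + d) / 2 * (c - (c + d) / 2) := by linarith
  rw [this, mul_div_cancel_left₀ _ h0]
  ring

theorem sb_cost {A B s L1 L2 L3 : ℝ} (hA : 0 ≤ A) (hB : 0 ≤ B) (hs : 0 ≤ s)
    (h1 : L1 ≤ 30 * (2 * A + 3 * s) * (1 + 2 * s ^ 2))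
    (h2 : L2 ≤ 30 * (2 * B + 150 * s) * (1 + 2 * s ^ 2)) (h3 : L3 ≤ 40 * s) :
    L1 + L2 + L3 ≤ 100000 * (A + B + s) * (1 + s ^ 2) := by
  have e : 100000 * (A + B + s) * (1 + s ^ 2) - (30 * (2 * A + 3 * s) * (1 + 2 * s ^ 2)
      + 30 * (2 * B + 150 * s) * (1 + 2 * s ^ 2) + 40 * s)
      = 99940 * A + 99940 * B + 95370 * s + 99880 * (A * s ^ 2) + 99880 * (B * s ^ 2)
        + 90820 * s ^ 3 := by ring
  have e2 : 0 ≤ 99940 * A + 99940 * B + 95370 * s + 99880 * (A * s ^ 2) + 99880 * (B * s ^ 2)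
        + 90820 * s ^ 3 := by positivity
  linarith

theorem steer_step (a : Fin 4 → ℝ) {p : Fin 4 → ℝ} (hp : pe p) {i k : Fin 4} (hG : GoodPair i k)
    (hpp : p k = p i) {s : ℝ} (hs : 0 < s) (hps : p i = s ^ 2) :
    ∃ (L ai ak s' : ℝ), L ≤ 100000 * (|a i| + |a k| + s) * (1 + s ^ 2) ∧
      0 < s' ∧ s' ≤ 4 / 5 * s ∧ |ai| ≤ 300 * s ∧ |ak| ≤ 300 * s ∧
      Reach L (node a 0 p)
      (node (Function.update (Function.update a i ai) k ak) 0
      (Function.update (Function.update p i (s' ^ 2)) k (s' ^ 2))) := by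
  have hik : i ≠ k := hG.1
  have hpi : 0 < p i := by rw [hps]; positivity
  have hpk : 0 < p k := by rw [hpp]; exact hpi
  set η : ℝ := Real.sqrt (2 * p i) with hη
  have hη0 : 0 < η := Real.sqrt_pos.2 (by linarith)
  have hη2 : η ^ 2 = 2 * s ^ 2 := by rw [hη, Real.sq_sqrt (by linarith), hps]
  have hη_le : η ≤ 1.415 * s := by
    apply sb_sq_le _ (by positivity)
    rw [hη2]; nlinarith [sq_nonneg s]
  obtain ⟨n1, hn1, hn1'⟩ := sb_round (a i) hη0
  set b : ℝ := a i + n1 * η with hb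
  obtain ⟨n2, hn2, hn2', hn2''⟩ := sb_ceil (a k) (101 * b + 67 * s) hη0
  set c' : ℝ := a k + n2 * η with hc'
  obtain ⟨L1, hL1, R1⟩ := hop1 a hp i hpi n1
  obtain ⟨L2, hL2, R2⟩ := hop1 (Function.update a i b) hp k hpk n2
  have eη : Real.sqrt (2 * p k) = η := by rw [hpp]
  rw [eη] at hL2 R2
  rw [← hη] at hL1 R1
  rw [Function.update_of_ne hik.symm] at hL2 R2
  set c : ℝ := 3 * (c' - 101 * b) / 100 with hc
  have hc1 : 2.01 * s ≤ c := by rw [hc]; linarith
  have hc2 : c ≤ 2.06 * s := by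
    rw [hc]
    have : c' - 101 * b ≤ 67 * s + η := by linarith
    nlinarith
  obtain ⟨ρ, hρ1, hρ2, hρc'⟩ := sb_rho hs hc1 hc2
  have hρ0 : 0 < ρ := by linarith
  have hρc : ρ + p i / ρ = c := by rw [hps, hρc']
  obtain ⟨L3, hL3, R3⟩ := hop2 (Function.update (Function.update a i b) k c') hp hG hpp hρ0
    (by rw [Function.update_self, Function.update_of_ne hik, Function.update_self, hρc])
  simp only [Function.update_self, Function.update_of_ne hik] at hL3 R3
  have hsq : 0 < ρ ^ 2 - s ^ 2 := by nlinarith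
  refine ⟨L1 + L2 + L3, b + ρ, c' + ρ, Real.sqrt (ρ ^ 2 - s ^ 2), ?_, Real.sqrt_pos.2 hsq, ?_,
    ?_, ?_, ?_⟩
  · have h3 : |ρ| = ρ := abs_of_pos hρ0
    have h4 : |p i / ρ| ≤ s := by
      have : p i / ρ = c - ρ := by linarith
      rw [this, abs_le]
      constructor <;> linarith
    have h5 : |101 * b + 67 * s| ≤ 139 * s := by
      have := abs_le.1 hn1
      rw [abs_le]
      constructor <;> linarith [this.1, this.2]
    have h6 : L1 ≤ 30 * (2 * |a i| + 3 * s) * (1 + 2 * s ^ 2) := by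
      refine hL1.trans ?_
      rw [hps]
      have : |a i| + (|(n1:ℝ)| + 1) * η ≤ 2 * |a i| + 3 * s := by
        have : (|(n1:ℝ)| + 1) * η = |(n1:ℝ)| * η + η := by ring
        rw [this]; linarith
      have h7 : 0 ≤ 1 + 2 * s ^ 2 := by positivity
      exact mul_le_mul_of_nonneg_right (by linarith) h7
    have h8 : L2 ≤ 30 * (2 * |a k| + 150 * s) * (1 + 2 * s ^ 2) := by
      refine hL2.trans ?_
      rw [hpp, hps]
      have : |a k| + (|(n2:ℝ)| + 1) * η ≤ 2 * |a k| + 150 * s := by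
        have : (|(n2:ℝ)| + 1) * η = |(n2:ℝ)| * η + η := by ring
        rw [this]; linarith
      have h7 : 0 ≤ 1 + 2 * s ^ 2 := by positivity
      exact mul_le_mul_of_nonneg_right (by linarith) h7
    have h9 : L3 ≤ 40 * s := by
      refine hL3.trans ?_
      rw [h3]
      linarith
    exact sb_cost (abs_nonneg (a i)) (abs_nonneg (a k)) hs.le h6 h8 h9
  · rw [Real.sqrt_le_left (by positivity)]
    nlinarith
  · have := abs_le.1 hn1
    rw [abs_le]
    constructor <;> linarith [this.1, this.2]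
  · have := abs_le.1 hn1
    rw [abs_le]
    constructor <;> linarith [this.1, this.2]
  · rw [Real.sq_sqrt hsq.le, ← hps]
    have e : Function.update (Function.update (Function.update (Function.update a i b) k c')
        i (b + ρ)) k (c' + ρ) = Function.update (Function.update a i (b + ρ)) k (c' + ρ) := by
      funext j
      by_cases hjk : j = k
      · subst hjk; simp
      · by_cases hji : j = i
        · subst hji; simp [hjk]
        · simp [hjk, hji]
    rw [e] at R3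
    exact (R1.trans R2).trans R3

end

end SRSard
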