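import Mathlib

/-!
# The group

`SG` is `ℝ²²` with coordinates `x 0..3, u, v, t, m1 0..3, m2 0..3, m3 0..3, mu, mv, z`
and a polynomial group law.  It is a simply connected nilpotent Lie group (of step 5).
The horizontal directions are `x i`, `u`, `v`, `t`.

Meaning of the coordinates for a horizontal curve with control `w` issued from `1`:
`x i = ∫ w (x i)`, `u = ∫ w u`, `v = ∫ w v`, `t = ∫ w t`,
`mk i = ∫ w t * (x i)^k`, `mu = ∫ w t * u`, `mv = ∫ w t * v`, `z = ∫ w t * Phi`.
-/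

namespace SRSard

open scoped BigOperators

noncomputable section

/-- names of the 22 coordinates -/
inductive Idx
  | x (i : Fin 4) | u | v | t
  | m1 (i : Fin 4) | m2 (i : Fin 4) | m3 (i : Fin 4)
  | mu | mv | z
  deriving DecidableEq, Fintype

/-- The underlying space of the group. -/
def SG : Type := Idx → ℝ

instance : NormedAddCommGroup SG := inferInstanceAs (NormedAddCommGroup (Idx → ℝ))
instance : NormedSpace ℝ SG := inferInstanceAs (NormedSpace ℝ (Idx → ℝ))
instance : FiniteDimensional ℝ SG := inferInstanceAs (FiniteDimensional ℝ (Idx → ℝ))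
instance : MeasurableSpace SG := inferInstanceAs (MeasurableSpace (Idx → ℝ))
instance : BorelSpace SG := inferInstanceAs (BorelSpace (Idx → ℝ))

@[ext] theorem SG.ext {a b : SG} (h : ∀ i, a i = b i) : a = b := funext h

/-- signs -/
def ep : Fin 4 → ℝ := ![1, -1, 1, -1]
/-- ratios -/
def gg : Fin 4 → ℝ := ![1, 101, 1, 101]

/-- The multiplication. -/
def mulFun (a b : SG) : SG := fun k => match k with
  | .x i => a (.x i) + b (.x i)
  | .u => a .u + b .u
  | .v => a .v + b .v
  | .t => a .t + b .t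
  | .m1 i => a (.m1 i) + (b (.m1 i) + a (.x i) * b .t)
  | .m2 i => a (.m2 i) + (b (.m2 i) + 2 * a (.x i) * b (.m1 i) + a (.x i) ^ 2 * b .t)
  | .m3 i => a (.m3 i) + (b (.m3 i) + 3 * a (.x i) * b (.m2 i) + 3 * a (.x i) ^ 2 * b (.m1 i)
      + a (.x i) ^ 3 * b .t)
  | .mu => a .mu + b .mu + a .u * b .t
  | .mv => a .mv + b .mv + a .v * b .t
  | .z => a .z + b .z + a .u * b .mv + a .v * b .mu + a .u * a .v * b .t
      + ∑ i, (ep i / 4 * (4 * a (.x i) * b (.m3 i) + 6 * a (.x i) ^ 2 * b (.m2 i)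
          + 4 * a (.x i) ^ 3 * b (.m1 i) + a (.x i) ^ 4 * b .t)
        + ep i * gg i / 6 *
          ((b (.m3 i) + 3 * a (.x i) * b (.m2 i) + 3 * a (.x i) ^ 2 * b (.m1 i)
              + a (.x i) ^ 3 * b .t) * a .t
            - 3 * (b (.m2 i) + 2 * a (.x i) * b (.m1 i) + a (.x i) ^ 2 * b .t) * a (.m1 i)
            + 3 * (b (.m1 i) + a (.x i) * b .t) * a (.m2 i)
            - b .t * a (.m3 i)))

/-- The inverse. -/
def invFun (a : SG) : SG := fun k => match k with
  | .x i => - a (.x i)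
  | .u => - a .u
  | .v => - a .v
  | .t => - a .t
  | .m1 i => - a (.m1 i) + a (.x i) * a .t
  | .m2 i => - a (.m2 i) + 2 * a (.x i) * a (.m1 i) - a (.x i) ^ 2 * a .t
  | .m3 i => - a (.m3 i) + 3 * a (.x i) * a (.m2 i) - 3 * a (.x i) ^ 2 * a (.m1 i)
      + a (.x i) ^ 3 * a .t
  | .mu => - a .mu + a .u * a .t
  | .mv => - a .mv + a .v * a .t
  | .z => - a .z + a .u * a .mv + a .v * a .mu - a .u * a .v * a .t
      + ∑ i, (ep i / 4 * (4 * a (.x i) * a (.m3 i) - 6 * a (.x i) ^ 2 * a (.m2 i)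
          + 4 * a (.x i) ^ 3 * a (.m1 i) - a (.x i) ^ 4 * a .t))

instance : Mul SG := ⟨mulFun⟩
instance : One SG := ⟨fun _ => 0⟩
instance : Inv SG := ⟨invFun⟩

theorem mul_apply (a b : SG) (k : Idx) : (a * b) k = mulFun a b k := rfl
theorem one_apply (k : Idx) : (1 : SG) k = 0 := rfl
theorem inv_apply (a : SG) (k : Idx) : (a⁻¹) k = invFun a k := rfl
theorem one_eq_zero : (1 : SG) = 0 := rfl

theorem mul_assoc' (a b c : SG) : a * b * c = a * (b * c) := by
  ext k
  cases k <;> simp only [mul_apply, mulFun, Fin.sum_univ_four] <;> ring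

theorem one_mul' (a : SG) : 1 * a = a := by
  ext k
  cases k <;> simp [mul_apply, one_apply, mulFun]

theorem inv_mul_cancel' (a : SG) : a⁻¹ * a = 1 := by
  ext k
  cases k <;> simp only [mul_apply, one_apply, inv_apply, mulFun, invFun, Fin.sum_univ_four] <;> ring

instance : Group SG := Group.ofLeftAxioms mul_assoc' one_mul' inv_mul_cancel'

/-- Left invariant vector field with horizontal value `c` at the identity (only the coordinates
`x i, u, v, t` of `c` are used), evaluated at `g`. -/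
def hor (g c : SG) : SG := fun k => match k with
  | .x i => c (.x i)
  | .u => c .u
  | .v => c .v
  | .t => c .t
  | .m1 i => c .t * g (.x i)
  | .m2 i => c .t * g (.x i) ^ 2
  | .m3 i => c .t * g (.x i) ^ 3
  | .mu => c .t * g .u
  | .mv => c .t * g .v
  | .z => c .t * (g .u * g .v + ∑ i, (ep i / 4 * g (.x i) ^ 4 + ep i * gg i / 6 *
      (g (.x i) ^ 3 * g .t - 3 * g (.x i) ^ 2 * g (.m1 i) + 3 * g (.x i) * g (.m2 i)
        - g (.m3 i))))

/-- The horizontal subspace. -/
def V : Submodule ℝ SG where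
  carrier := {c | (∀ i, c (.m1 i) = 0) ∧ (∀ i, c (.m2 i) = 0) ∧ (∀ i, c (.m3 i) = 0) ∧
    c .mu = 0 ∧ c .mv = 0 ∧ c .z = 0}
  add_mem' := by
    rintro a b ⟨h1, h2, h3, h4, h5, h6⟩ ⟨k1, k2, k3, k4, k5, k6⟩
    refine ⟨fun i => ?_, fun i => ?_, fun i => ?_, ?_, ?_, ?_⟩
    · change a _ + b _ = 0; rw [h1, k1]; simp
    · change a _ + b _ = 0; rw [h2, k2]; simp
    · change a _ + b _ = 0; rw [h3, k3]; simp
    · change a _ + b _ = 0; rw [h4, k4]; simp
    · change a _ + b _ = 0; rw [h5, k5]; simp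
    · change a _ + b _ = 0; rw [h6, k6]; simp
  zero_mem' := ⟨fun _ => rfl, fun _ => rfl, fun _ => rfl, rfl, rfl, rfl⟩
  smul_mem' := by
    rintro c a ⟨h1, h2, h3, h4, h5, h6⟩
    refine ⟨fun i => ?_, fun i => ?_, fun i => ?_, ?_, ?_, ?_⟩
    · change c * a _ = 0; rw [h1]; simp
    · change c * a _ = 0; rw [h2]; simp
    · change c * a _ = 0; rw [h3]; simp
    · change c * a _ = 0; rw [h4]; simp
    · change c * a _ = 0; rw [h5]; simp
    · change c * a _ = 0; rw [h6]; simp

/-- The potential at the point `g`, evaluated at the position of `g`. -/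
def phi (g : SG) : ℝ := g .u * g .v + ∑ i, (ep i / 4 * g (.x i) ^ 4 + ep i * gg i / 3 *
      (g (.x i) ^ 3 * g .t - 3 * g (.x i) ^ 2 * g (.m1 i) + 3 * g (.x i) * g (.m2 i)
        - g (.m3 i)))

/-- The momentum in direction `x i` (up to sign). -/
def chi (g : SG) (i : Fin 4) : ℝ := g (.m3 i) + gg i * (g .t * g (.m2 i) - g (.m1 i) ^ 2)

/-- The set of all `g` such that the covector `z*` annihilates `Ad_g V`. -/
def Z : Set SG := {g | phi g = 0 ∧ (∀ i, chi g i = 0) ∧ g .mu = 0 ∧ g .mv = 0}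

end

end SRSard
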