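import Pool.Agent.Lib.SRSard.LTwo

/-!
# Chunk CRIT: curves inside `Z` are critical

Let `g t = g0 * gam (ctl w) t` and, for another control `w'`, `h t = g0 * gam (ctl w') t`.
`zq h g := (h * g⁻¹) z` is a polynomial.  Its derivative along the two curves is
`∑ j, w' j * P j (h, g) + ∑ j, w j * Q j (h, g)` with polynomials `P j`, `Q j`, and `P j + Q j = 0`
identically (left invariance: if `w' = w` then `h g⁻¹` is constant).  Hence
`zq (h 1) (g 1) = ∫ ∑ j, (w' j - w j) * P j (h t, g t) dt`  (`AbsolutelyContinuousOnInterval`: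
product rule, `const_of_ae_hasDerivAt_zero`), where `P j (g, g)` is `0` for all `j` if `g ∈ Z`.
For `w' = w + s • δ` this is `s * ∫ ∑ δ j * P j (h_s, g) = o(s)` by uniform convergence
`h_s → g` (`gam_tendsto`).  On the other hand it is `Λ (End (w + s δ))` with
`Λ e = (g0 * e * (g0 * End w)⁻¹) z`, a polynomial with `D Λ (End w) ≠ 0` (`∂ Λ/∂z = 1`).
So `D Λ (End w) ∘ D End w = 0` and `D End w` is not surjective.
-/

namespace SRSard

open MeasureTheory Set Filter Topology
open scoped ContDiff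

noncomputable section

theorem C_add_apply (a b : SG) (k : Idx) : (a + b) k = a k + b k := rfl
theorem C_sub_apply (a b : SG) (k : Idx) : (a - b) k = a k - b k := rfl
theorem C_smul_apply (r : ℝ) (a : SG) (k : Idx) : (r • a) k = r * a k := rfl

/-- coordinate projection -/
def C_pr (k : Idx) : SG →L[ℝ] ℝ := (ContinuousLinearMap.proj k : (Idx → ℝ) →L[ℝ] ℝ)

theorem C_pr_apply (k : Idx) (a : SG) : C_pr k a = a k := rfl

theorem C_hasDerivAt_iff {η : ℝ → SG} {v : SG} {t : ℝ} :
    HasDerivAt η v t ↔ ∀ k, HasDerivAt (fun s => (η s k : ℝ)) (v k) t :=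
  hasDerivAt_pi (E' := fun _ : Idx => ℝ)

/-- the last coordinate of `a b⁻¹` -/
def C_m (p : SG × SG) : ℝ := (p.1 * p.2⁻¹) .z

theorem C_m_contDiff : ContDiff ℝ 1 C_m := by
  have h1 : ∀ k : Idx, ContDiff ℝ 1 (fun p : SG × SG => (p.1 k : ℝ)) := fun k =>
    (C_pr k).contDiff.comp contDiff_fst
  have h2 : ∀ k : Idx, ContDiff ℝ 1 (fun p : SG × SG => (p.2 k : ℝ)) := fun k =>
    (C_pr k).contDiff.comp contDiff_snd
  unfold C_m
  simp only [mul_apply, inv_apply, mulFun, invFun]
  fun_prop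

theorem C_hor_cont : Continuous (fun p : SG × SG => hor p.1 p.2) := by
  have h1 : ∀ k : Idx, Continuous (fun p : SG × SG => (p.1 k : ℝ)) := fun k =>
    (C_pr k).continuous.comp continuous_fst
  have h2 : ∀ k : Idx, Continuous (fun p : SG × SG => (p.2 k : ℝ)) := fun k =>
    (C_pr k).continuous.comp continuous_snd
  have h : ∀ k : Idx, Continuous (fun p : SG × SG => (hor p.1 p.2 k : ℝ)) := by
    intro k
    cases k <;> simp only [hor] <;> fun_prop
  exact continuous_pi h

theorem C_hor_add (g a b : SG) : hor g (a + b) = hor g a + hor g b := by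
  ext k
  rw [C_add_apply]
  cases k <;> simp only [hor, C_add_apply] <;> ring

theorem C_hor_smul (g : SG) (r : ℝ) (a : SG) : hor g (r • a) = r • hor g a := by
  ext k
  rw [C_smul_apply]
  cases k <;> simp only [hor, C_smul_apply] <;> ring

theorem C_hor_sub (g a b : SG) : hor g (a - b) = hor g a - hor g b := by
  ext k
  rw [C_sub_apply]
  cases k <;> simp only [hor, C_sub_apply] <;> ring

theorem C_hor_sum {ι : Type*} (s : Finset ι) (g : SG) (f : ι → SG) :
    hor g (∑ j ∈ s, f j) = ∑ j ∈ s, hor g (f j) := by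
  classical
  induction s using Finset.induction_on with
  | empty =>
    simp only [Finset.sum_empty]
    have := C_hor_smul g 0 0
    simpa using this
  | insert a s ha ih => rw [Finset.sum_insert ha, Finset.sum_insert ha, C_hor_add, ih]

/-- the horizontal part as a curve -/
theorem C_curve (g c : SG) :
    HasDerivAt (fun s : ℝ => g * (s • hor 1 c)) (hor g c) 0 := by
  have h : HasDerivAt (fun s : ℝ => s • hor 1 c) (hor ((0 : ℝ) • hor 1 c) c) 0 := by
    have := (hasDerivAt_id (0 : ℝ)).smul_const (hor 1 c)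
    simp only [id_eq, one_smul] at this
    rw [zero_smul, ← one_eq_zero]
    exact this
  have h2 := hor_left_invariant g h
  rw [zero_smul, ← one_eq_zero, mul_one] at h2
  exact h2

theorem C_curve_zero (g c : SG) : g * ((0 : ℝ) • hor 1 c) = g := by
  rw [zero_smul, ← one_eq_zero, mul_one]

theorem C_left_inv (h g c : SG) : fderiv ℝ C_m (h, g) (hor h c, hor g c) = 0 := by
  have hd := (C_m_contDiff.differentiable one_ne_zero (h, g)).hasFDerivAt
  have h1 := (C_curve h c).prodMk (C_curve g c)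
  have h2 : HasDerivAt (fun s : ℝ => C_m (h * (s • hor 1 c), g * (s • hor 1 c)))
      (fderiv ℝ C_m (h, g) (hor h c, hor g c)) 0 := by
    have hd' : HasFDerivAt C_m (fderiv ℝ C_m (h, g))
        ((fun s : ℝ => (h * (s • hor 1 c), g * (s • hor 1 c))) 0) := by
      simp only [C_curve_zero]
      exact hd
    exact hd'.comp_hasDerivAt (0 : ℝ) h1
  have h3 : (fun s : ℝ => C_m (h * (s • hor 1 c), g * (s • hor 1 c))) = fun _ => C_m (h, g) := by
    funext s
    unfold C_m
    simp only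
    rw [mul_inv_rev, mul_assoc, mul_inv_cancel_left]
  rw [h3] at h2
  exact h2.unique (hasDerivAt_const _ _)

/-- derivative of the last coordinate of `a k` in the direction `v` -/
def C_dz (a k v : SG) : ℝ :=
  v .z + v .u * k .mv + v .v * k .mu + (v .u * a .v + a .u * v .v) * k .t
      + ∑ i, (ep i / 4 * (4 * v (.x i) * k (.m3 i) + 12 * a (.x i) * v (.x i) * k (.m2 i)
          + 12 * a (.x i) ^ 2 * v (.x i) * k (.m1 i) + 4 * a (.x i) ^ 3 * v (.x i) * k .t)
        + ep i * gg i / 6 *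
          ((3 * v (.x i) * k (.m2 i) + 6 * a (.x i) * v (.x i) * k (.m1 i)
              + 3 * a (.x i) ^ 2 * v (.x i) * k .t) * a .t
            + (k (.m3 i) + 3 * a (.x i) * k (.m2 i) + 3 * a (.x i) ^ 2 * k (.m1 i)
              + a (.x i) ^ 3 * k .t) * v .t
            - 3 * (2 * v (.x i) * k (.m1 i) + 2 * a (.x i) * v (.x i) * k .t) * a (.m1 i)
            - 3 * (k (.m2 i) + 2 * a (.x i) * k (.m1 i) + a (.x i) ^ 2 * k .t) * v (.m1 i)
            + 3 * (v (.x i) * k .t) * a (.m2 i)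
            + 3 * (k (.m1 i) + a (.x i) * k .t) * v (.m2 i)
            - k .t * v (.m3 i)))

theorem C_hasDerivAt_mul_z {η : ℝ → SG} {v : SG} {t : ℝ} (k : SG) (h : HasDerivAt η v t) :
    HasDerivAt (fun s => ((η s * k) .z : ℝ)) (C_dz (η t) k v) t := by
  rw [C_hasDerivAt_iff] at h
  simp only [mul_apply, mulFun]
  unfold C_dz
  have hsum : HasDerivAt (fun s => ∑ i, (ep i / 4 * (4 * η s (.x i) * k (.m3 i)
          + 6 * η s (.x i) ^ 2 * k (.m2 i)
          + 4 * η s (.x i) ^ 3 * k (.m1 i) + η s (.x i) ^ 4 * k .t)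
        + ep i * gg i / 6 *
          ((k (.m3 i) + 3 * η s (.x i) * k (.m2 i) + 3 * η s (.x i) ^ 2 * k (.m1 i)
              + η s (.x i) ^ 3 * k .t) * η s .t
            - 3 * (k (.m2 i) + 2 * η s (.x i) * k (.m1 i) + η s (.x i) ^ 2 * k .t) * η s (.m1 i)
            + 3 * (k (.m1 i) + η s (.x i) * k .t) * η s (.m2 i)
            - k .t * η s (.m3 i))))
      (∑ i, (ep i / 4 * (4 * v (.x i) * k (.m3 i) + 12 * η t (.x i) * v (.x i) * k (.m2 i)
          + 12 * η t (.x i) ^ 2 * v (.x i) * k (.m1 i) + 4 * η t (.x i) ^ 3 * v (.x i) * k .t)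
        + ep i * gg i / 6 *
          ((3 * v (.x i) * k (.m2 i) + 6 * η t (.x i) * v (.x i) * k (.m1 i)
              + 3 * η t (.x i) ^ 2 * v (.x i) * k .t) * η t .t
            + (k (.m3 i) + 3 * η t (.x i) * k (.m2 i) + 3 * η t (.x i) ^ 2 * k (.m1 i)
              + η t (.x i) ^ 3 * k .t) * v .t
            - 3 * (2 * v (.x i) * k (.m1 i) + 2 * η t (.x i) * v (.x i) * k .t) * η t (.m1 i)
            - 3 * (k (.m2 i) + 2 * η t (.x i) * k (.m1 i) + η t (.x i) ^ 2 * k .t) * v (.m1 i)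
            + 3 * (v (.x i) * k .t) * η t (.m2 i)
            + 3 * (k (.m1 i) + η t (.x i) * k .t) * v (.m2 i)
            - k .t * v (.m3 i)))) t := by
    refine HasDerivAt.fun_sum (fun i _ => ?_)
    have hX := h (.x i)
    have hT := h .t
    have h1 := h (.m1 i)
    have h2 := h (.m2 i)
    have h3 := h (.m3 i)
    have hX2 := hX.fun_pow 2
    have hX3 := hX.fun_pow 3
    have hX4 := hX.fun_pow 4
    have A := ((((hX.const_mul 4).mul_const (k (.m3 i))).add
      ((hX2.const_mul 6).mul_const (k (.m2 i)))).add ((hX3.const_mul 4).mul_const (k (.m1 i)))).add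
      (hX4.mul_const (k .t))
    have B1 := (((hX.const_mul 3).mul_const (k (.m2 i))).const_add (k (.m3 i))).add
      ((hX2.const_mul 3).mul_const (k (.m1 i))) |>.add (hX3.mul_const (k .t))
    have B2 := (((hX.const_mul 2).mul_const (k (.m1 i))).const_add (k (.m2 i))).add
      (hX2.mul_const (k .t))
    have B3 := (hX.mul_const (k .t)).const_add (k (.m1 i))
    have B := (((B1.mul hT).sub ((B2.const_mul 3).mul h1)).add ((B3.const_mul 3).mul h2)).sub
      (h3.const_mul (k .t))
    have := (A.const_mul (ep i / 4)).add (B.const_mul (ep i * gg i / 6))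
    refine this.congr_deriv ?_
    simp only [Pi.add_apply]
    push_cast
    ring
  have hz := h .z
  have hu := h .u
  have hv := h .v
  have := ((((hz.add_const (k .z)).add (hu.mul_const (k .mv))).add (hv.mul_const (k .mu))).add
    ((hu.mul hv).mul_const (k .t))).add hsum
  refine this.congr_deriv ?_
  ring

theorem C_dz_zero {g : SG} (hg : g ∈ Z) (c : SG) : C_dz g g⁻¹ (hor g c) = 0 := by
  obtain ⟨h1, h2, h3, h4⟩ := hg
  have c0 := h2 0
  have c1 := h2 1
  have c2 := h2 2
  have c3 := h2 3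
  unfold phi at h1
  unfold chi at c0 c1 c2 c3
  simp only [C_dz, hor, inv_apply, invFun, Fin.sum_univ_four] at *
  linear_combination c .t * h1 - ep 0 * c (.x 0) * c0 - ep 1 * c (.x 1) * c1
    - ep 2 * c (.x 2) * c2 - ep 3 * c (.x 3) * c3 - c .u * h4 - c .v * h3

theorem C_fderiv_zero {g : SG} (hg : g ∈ Z) (c : SG) : fderiv ℝ C_m (g, g) (hor g c, 0) = 0 := by
  have hd := (C_m_contDiff.differentiable one_ne_zero (g, g)).hasFDerivAt
  have h1 := (C_curve g c).prodMk (hasDerivAt_const (0 : ℝ) g)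
  have hd' : HasFDerivAt C_m (fderiv ℝ C_m (g, g))
      ((fun s : ℝ => (g * (s • hor 1 c), g)) 0) := by
    simp only [C_curve_zero]
    exact hd
  have h2 : HasDerivAt (fun s : ℝ => C_m (g * (s • hor 1 c), g))
      (fderiv ℝ C_m (g, g) (hor g c, 0)) 0 :=
    HasFDerivAt.comp_hasDerivAt (0 : ℝ) (f := fun s : ℝ => (g * (s • hor 1 c), g)) hd' h1
  have h3 := C_hasDerivAt_mul_z g⁻¹ (C_curve g c)
  rw [C_curve_zero, C_dz_zero hg] at h3
  exact h2.unique h3

/-- the coefficient functions -/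
def C_P (g0 : SG) (j : Fin 7) (p : SG × SG) : ℝ :=
  fderiv ℝ C_m (g0 * p.1, g0 * p.2) (hor (g0 * p.1) (bas j), 0)

theorem C_mul_cont : Continuous (fun p : SG × SG => p.1 * p.2) := by
  have h1 : ∀ k : Idx, Continuous (fun p : SG × SG => (p.1 k : ℝ)) := fun k =>
    (C_pr k).continuous.comp continuous_fst
  have h2 : ∀ k : Idx, Continuous (fun p : SG × SG => (p.2 k : ℝ)) := fun k =>
    (C_pr k).continuous.comp continuous_snd
  have h : ∀ k : Idx, Continuous (fun p : SG × SG => ((p.1 * p.2) k : ℝ)) := by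
    intro k
    cases k <;> simp only [mul_apply, mulFun] <;> fun_prop
  exact continuous_pi h

theorem C_P_cont (g0 : SG) (j : Fin 7) : Continuous (C_P g0 j) := by
  have hL : Continuous (fun a : SG => g0 * a) := C_mul_cont.comp (Continuous.prodMk_right g0)
  have hf : Continuous (fderiv ℝ C_m) := C_m_contDiff.continuous_fderiv one_ne_zero
  have h1 : Continuous (fun p : SG × SG => fderiv ℝ C_m (g0 * p.1, g0 * p.2)) :=
    hf.comp ((hL.comp continuous_fst).prodMk (hL.comp continuous_snd))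
  have h2 : Continuous (fun p : SG × SG => ((hor (g0 * p.1) (bas j), 0) : SG × SG)) :=
    (C_hor_cont.comp ((hL.comp continuous_fst).prodMk continuous_const)).prodMk continuous_const
  exact h1.clm_apply h2

/-- the function on pairs of curves -/
def C_F (g0 : SG) (a b : SG) : ℝ := C_m (g0 * a, g0 * b)

theorem C_gam_hasDerivAt (g0 : SG) (w : L2) : ∀ᵐ t ∂mu01,
    HasDerivAt (fun t => g0 * gam (ctl w) t) (hor (g0 * gam (ctl w) t) (ctl w t)) t := by
  filter_upwards [gam_deriv w] with t ht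
  exact hor_left_invariant g0 (C_hasDerivAt_iff.mpr ht)

theorem C_F_deriv (g0 : SG) (w w' : L2) : ∀ᵐ t ∂mu01,
    HasDerivAt (fun t => C_F g0 (gam (ctl w') t) (gam (ctl w) t))
      (∑ j, (w' - w) t j * C_P g0 j (gam (ctl w') t, gam (ctl w) t)) t := by
  filter_upwards [C_gam_hasDerivAt g0 w, C_gam_hasDerivAt g0 w', Lp.coeFn_sub w' w] with t h1 h2 h3
  set h := g0 * gam (ctl w') t with hh
  set g := g0 * gam (ctl w) t with hg
  have hd := (C_m_contDiff.differentiable one_ne_zero (h, g)).hasFDerivAt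
  have hF : HasDerivAt (fun t => C_F g0 (gam (ctl w') t) (gam (ctl w) t))
      (fderiv ℝ C_m (h, g) (hor h (ctl w' t), hor g (ctl w t))) t :=
    HasFDerivAt.comp_hasDerivAt t (f := fun t => (g0 * gam (ctl w') t, g0 * gam (ctl w) t)) hd
      (h2.prodMk h1)
  refine hF.congr_deriv ?_
  have e1 : ((hor h (ctl w' t), hor g (ctl w t)) : SG × SG) =
      (hor h (ctl w' t - ctl w t), 0) + (hor h (ctl w t), hor g (ctl w t)) := by
    rw [Prod.mk_add_mk, C_hor_sub, sub_add_cancel, zero_add]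
  rw [e1, map_add, C_left_inv, add_zero]
  have e2 : ctl w' t - ctl w t = ∑ j, (w' - w) t j • bas j := by
    unfold ctl
    rw [← Finset.sum_sub_distrib]
    apply Finset.sum_congr rfl
    intro j _
    rw [h3, ← sub_smul]
    rfl
  rw [e2, C_hor_sum]
  have e3 : ((∑ j, hor h ((w' - w) t j • bas j), 0) : SG × SG) =
      ∑ j, (w' - w) t j • ((hor h (bas j), 0) : SG × SG) := by
    rw [Prod.ext_iff]
    constructor
    · rw [Prod.fst_sum]
      change ∑ j, hor h ((w' - w) t j • bas j) = _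
      apply Finset.sum_congr rfl
      intro j _
      rw [C_hor_smul]
      rfl
    · rw [Prod.snd_sum]
      simp
  rw [e3, map_sum]
  apply Finset.sum_congr rfl
  intro j _
  rw [map_smul, smul_eq_mul]
  rfl

theorem C_ac_comp {f : ℝ → SG × SG} (h1 : ∀ k : Idx, AbsolutelyContinuousOnInterval
      (fun t => ((f t).1 k : ℝ)) 0 1) (h2 : ∀ k : Idx, AbsolutelyContinuousOnInterval
      (fun t => ((f t).2 k : ℝ)) 0 1) {F : SG × SG → ℝ} (hF : ContDiff ℝ 1 F) :
    AbsolutelyContinuousOnInterval (fun t => F (f t)) 0 1 := by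
  have hc : ContinuousOn f (uIcc 0 1) := by
    refine ContinuousOn.prodMk ?_ ?_
    · exact continuousOn_pi.mpr (fun k => (h1 k).continuousOn)
    · exact continuousOn_pi.mpr (fun k => (h2 k).continuousOn)
  -- Lipschitz on a ball
  obtain ⟨R, hR⟩ := (isCompact_uIcc.image_of_continuousOn hc).isBounded.subset_closedBall
    (0 : SG × SG)
  obtain ⟨K, hK⟩ := (hF.contDiffOn (s := Metric.closedBall (0 : SG × SG) R)).exists_lipschitzOnWith
    (by decide) (convex_closedBall _ _) (isCompact_closedBall _ _)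
  have hdist : ∀ x ∈ uIcc (0:ℝ) 1, ∀ y ∈ uIcc (0:ℝ) 1, dist (F (f x)) (F (f y)) ≤
      K * ∑ k : Idx, (dist ((f x).1 k : ℝ) ((f y).1 k) + dist ((f x).2 k : ℝ) ((f y).2 k)) := by
    intro x hx y hy
    refine (hK.dist_le_mul _ (hR (mem_image_of_mem f hx)) _ (hR (mem_image_of_mem f hy))).trans ?_
    refine mul_le_mul_of_nonneg_left ?_ K.2
    have hnn : ∀ k : Idx, 0 ≤ dist ((f x).1 k : ℝ) ((f y).1 k) + dist ((f x).2 k : ℝ) ((f y).2 k) :=
      fun k => add_nonneg dist_nonneg dist_nonneg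
    rw [Prod.dist_eq]
    refine max_le ?_ ?_
    · refine (dist_pi_le_iff (Finset.sum_nonneg fun k _ => hnn k)).mpr (fun k => ?_)
      refine le_trans ?_ (Finset.single_le_sum (fun k _ => hnn k) (Finset.mem_univ k))
      exact le_add_of_nonneg_right dist_nonneg
    · refine (dist_pi_le_iff (Finset.sum_nonneg fun k _ => hnn k)).mpr (fun k => ?_)
      refine le_trans ?_ (Finset.single_le_sum (fun k _ => hnn k) (Finset.mem_univ k))
      exact le_add_of_nonneg_left dist_nonneg
  have hlim : Tendsto (fun E : ℕ × (ℕ → ℝ × ℝ) => (K : ℝ) * ∑ k : Idx,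
      (∑ i ∈ Finset.range E.1, dist ((f (E.2 i).1).1 k : ℝ) ((f (E.2 i).2).1 k) +
        ∑ i ∈ Finset.range E.1, dist ((f (E.2 i).1).2 k : ℝ) ((f (E.2 i).2).2 k)))
      (AbsolutelyContinuousOnInterval.totalLengthFilter ⊓
        𝓟 (AbsolutelyContinuousOnInterval.disjWithin 0 1)) (𝓝 0) := by
    have t1 : ∀ k : Idx, Tendsto (fun E : ℕ × (ℕ → ℝ × ℝ) =>
        ∑ i ∈ Finset.range E.1, dist ((f (E.2 i).1).1 k : ℝ) ((f (E.2 i).2).1 k))
        (AbsolutelyContinuousOnInterval.totalLengthFilter ⊓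
        𝓟 (AbsolutelyContinuousOnInterval.disjWithin 0 1)) (𝓝 0) := h1
    have t2 : ∀ k : Idx, Tendsto (fun E : ℕ × (ℕ → ℝ × ℝ) =>
        ∑ i ∈ Finset.range E.1, dist ((f (E.2 i).1).2 k : ℝ) ((f (E.2 i).2).2 k))
        (AbsolutelyContinuousOnInterval.totalLengthFilter ⊓
        𝓟 (AbsolutelyContinuousOnInterval.disjWithin 0 1)) (𝓝 0) := h2
    have t3 := Tendsto.const_mul (K : ℝ)
      (tendsto_finsetSum (Finset.univ : Finset Idx) (fun k _ => Tendsto.add (t1 k) (t2 k)))
    simp only [add_zero, Finset.sum_const_zero, mul_zero] at t3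
    exact t3
  unfold AbsolutelyContinuousOnInterval
  refine squeeze_zero' ?_ ?_ hlim
  · exact Eventually.of_forall fun E => Finset.sum_nonneg fun i _ => dist_nonneg
  · rw [eventually_inf_principal]
    refine Eventually.of_forall fun E hE => ?_
    have e1 : ∑ i ∈ Finset.range E.1, dist (F (f (E.2 i).1)) (F (f (E.2 i).2)) ≤
        ∑ i ∈ Finset.range E.1, (K : ℝ) * ∑ k : Idx, (dist ((f (E.2 i).1).1 k : ℝ) ((f (E.2 i).2).1 k)
          + dist ((f (E.2 i).1).2 k : ℝ) ((f (E.2 i).2).2 k)) := by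
      apply Finset.sum_le_sum
      intro i hi
      exact hdist _ (hE.1 i hi).1 _ (hE.1 i hi).2
    refine e1.trans (le_of_eq ?_)
    rw [← Finset.mul_sum, Finset.sum_comm]
    congr 1
    apply Finset.sum_congr rfl
    intro k _
    rw [Finset.sum_add_distrib]

theorem C_F_ac (g0 : SG) (w w' : L2) :
    AbsolutelyContinuousOnInterval (fun t => C_F g0 (gam (ctl w') t) (gam (ctl w) t)) 0 1 := by
  have hL : ContDiff ℝ 1 (fun a : SG => g0 * a) := by
    have h2 : ∀ k : Idx, ContDiff ℝ 1 (fun p : SG => (p k : ℝ)) := fun k => (C_pr k).contDiff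
    have h : ∀ k : Idx, ContDiff ℝ 1 (fun p : SG => ((g0 * p) k : ℝ)) := by
      intro k
      cases k <;> simp only [mul_apply, mulFun] <;> fun_prop
    exact contDiff_pi.mpr h
  exact C_ac_comp (f := fun t => (gam (ctl w') t, gam (ctl w) t)) (fun k => gam_ac w' k)
    (fun k => gam_ac w k) (F := fun p => C_m (g0 * p.1, g0 * p.2))
    (C_m_contDiff.comp ((hL.comp contDiff_fst).prodMk (hL.comp contDiff_snd)))

theorem C_F_one (g0 : SG) (w w' : L2) :
    C_F g0 (gam (ctl w') 1) (gam (ctl w) 1) =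
      ∫ t in (0:ℝ)..1, ∑ j, (w' - w) t j * C_P g0 j (gam (ctl w') t, gam (ctl w) t) := by
  have h := (C_F_ac g0 w w').integral_deriv_eq_sub
  have h0 : C_F g0 (gam (ctl w') 0) (gam (ctl w) 0) = 0 := by
    unfold C_F C_m
    rw [gam_zero, gam_zero]
    simp only
    rw [mul_inv_cancel, one_apply]
  rw [h0, sub_zero] at h
  rw [← h]
  apply intervalIntegral.integral_congr_ae
  have h2 := C_F_deriv g0 w w'
  rw [ae_restrict_iff' measurableSet_Icc] at h2
  filter_upwards [h2] with t ht hm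
  rw [uIoc_of_le zero_le_one] at hm
  exact (ht ⟨hm.1.le, hm.2⟩).deriv

theorem C_norm_int (δ : L2) : IntervalIntegrable (fun t => 7 * ‖δ t‖) volume 0 1 := by
  have h1 : MemLp δ 2 mu01 := Lp.memLp δ
  have h3 : Integrable δ mu01 := h1.integrable one_le_two
  rw [intervalIntegrable_iff_integrableOn_Icc_of_le zero_le_one]
  exact (h3.norm).const_mul 7

/-- small coefficients -/
theorem C_P_small {w : L2} {g0 : SG} (h : ∀ t ∈ Icc (0:ℝ) 1, g0 * gam (ctl w) t ∈ Z) (δ : L2)
    {e : ℝ} (he : 0 < e) : ∀ᶠ s in 𝓝 (0:ℝ), ∀ t ∈ Icc (0:ℝ) 1, ∀ j,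
      |C_P g0 j (gam (ctl (w + s • δ)) t, gam (ctl w) t)| < e := by
  have hW : Tendsto (fun s : ℝ => w + s • δ) (𝓝 0) (𝓝 w) := by
    have : Continuous (fun s : ℝ => w + s • δ) := by fun_prop
    have h2 := this.tendsto 0
    simpa using h2
  have hU := gam_tendsto hW
  have hKc : IsCompact ((fun t => ((gam (ctl w) t, gam (ctl w) t) : SG × SG)) '' Icc (0:ℝ) 1) :=
    isCompact_Icc.image_of_continuousOn ((gam_continuousOn w).prodMk (gam_continuousOn w))
  have hzero : ∀ j, ∀ t ∈ Icc (0:ℝ) 1, C_P g0 j (gam (ctl w) t, gam (ctl w) t) = 0 := by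
    intro j t ht
    unfold C_P
    exact C_fderiv_zero (h t ht) (bas j)
  have key : ∀ j, ∀ᶠ s in 𝓝 (0:ℝ), ∀ t ∈ Icc (0:ℝ) 1,
      |C_P g0 j (gam (ctl (w + s • δ)) t, gam (ctl w) t)| < e := by
    intro j
    have hu := hKc.uniformContinuousAt_of_continuousAt (C_P g0 j)
      (fun a _ => (C_P_cont g0 j).continuousAt) (Metric.dist_mem_uniformity he)
    rw [Metric.mem_uniformity_dist] at hu
    obtain ⟨r, hr, hr2⟩ := hu
    rw [Metric.tendstoUniformlyOn_iff] at hU
    filter_upwards [hU r hr] with s hs t ht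
    have h1 := hr2 (a := (gam (ctl w) t, gam (ctl w) t))
      (b := (gam (ctl (w + s • δ)) t, gam (ctl w) t)) (by
        rw [Prod.dist_eq]
        simp only [dist_self]
        exact max_lt (hs t ht) hr) (mem_image_of_mem _ ht)
    simp only [mem_ofPred_eq] at h1
    rw [hzero j t ht, dist_comm, Real.dist_eq, sub_zero] at h1
    exact h1
  filter_upwards [eventually_all.mpr key] with s hs t ht j
  exact hs j t ht

theorem C_phi_deriv {w : L2} {g0 : SG} (h : ∀ t ∈ Icc (0:ℝ) 1, g0 * gam (ctl w) t ∈ Z) (δ : L2) :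
    HasDerivAt (fun s : ℝ => C_m (g0 * End (w + s • δ), g0 * End w)) 0 0 := by
  rw [hasDerivAt_iff_isLittleO]
  have h0 : C_m (g0 * End (w + (0:ℝ) • δ), g0 * End w) = 0 := by
    rw [zero_smul, add_zero]
    unfold C_m
    simp only
    rw [mul_inv_cancel, one_apply]
  simp only [h0, smul_zero, sub_zero]
  set C := ∫ t in (0:ℝ)..1, 7 * ‖δ t‖ with hC
  have hC0 : 0 ≤ C := intervalIntegral.integral_nonneg zero_le_one (fun t _ => by positivity)
  rw [Asymptotics.isLittleO_iff]
  intro c hc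
  have he : 0 < c / (C + 1) := by positivity
  filter_upwards [C_P_small h δ he] with s hs
  have h1 := C_F_one g0 w (w + s • δ)
  have h2 : C_m (g0 * End (w + s • δ), g0 * End w) =
      C_F g0 (gam (ctl (w + s • δ)) 1) (gam (ctl w) 1) := rfl
  rw [h2, h1, add_sub_cancel_left]
  have h3 : ‖∫ t in (0:ℝ)..1, ∑ j, (s • δ) t j * C_P g0 j (gam (ctl (w + s • δ)) t, gam (ctl w) t)‖
      ≤ ∫ t in (0:ℝ)..1, |s| * (c / (C + 1)) * (7 * ‖δ t‖) := by
    refine intervalIntegral.norm_integral_le_of_norm_le zero_le_one ?_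
      ((C_norm_int δ).const_mul _)
    have h4 := Lp.coeFn_smul s δ
    rw [Filter.EventuallyEq, ae_restrict_iff' measurableSet_Icc] at h4
    filter_upwards [h4] with t ht hm
    have hm' : t ∈ Icc (0:ℝ) 1 := ⟨hm.1.le, hm.2⟩
    rw [ht hm']
    refine (norm_sum_le _ _).trans ?_
    have h5 : ∀ j ∈ (Finset.univ : Finset (Fin 7)), ‖(s • (δ : ℝ → EuclideanSpace ℝ (Fin 7))) t j *
        C_P g0 j (gam (ctl (w + s • δ)) t, gam (ctl w) t)‖ ≤ |s| * (c / (C + 1)) * ‖δ t‖ := by
      intro j _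
      rw [norm_mul]
      have e1 : ‖(s • (δ : ℝ → EuclideanSpace ℝ (Fin 7))) t j‖ ≤ |s| * ‖δ t‖ := by
        refine (PiLp.norm_apply_le _ j).trans ?_
        rw [Pi.smul_apply, norm_smul, Real.norm_eq_abs]
      have e2 : ‖C_P g0 j (gam (ctl (w + s • δ)) t, gam (ctl w) t)‖ ≤ c / (C + 1) :=
        (hs t hm' j).le
      calc _ ≤ (|s| * ‖δ t‖) * (c / (C + 1)) := by
            apply mul_le_mul e1 e2 (norm_nonneg _) (by positivity)
        _ = |s| * (c / (C + 1)) * ‖δ t‖ := by ring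
    refine (Finset.sum_le_sum h5).trans ?_
    rw [Finset.sum_const, Finset.card_univ, Fintype.card_fin, nsmul_eq_mul]
    apply le_of_eq
    push_cast
    ring
  refine h3.trans ?_
  rw [intervalIntegral.integral_const_mul, ← hC, Real.norm_eq_abs]
  have h6 : c / (C + 1) * C ≤ c := by
    rw [div_mul_eq_mul_div, div_le_iff₀ (by positivity)]
    nlinarith
  calc |s| * (c / (C + 1)) * C = |s| * (c / (C + 1) * C) := by ring
    _ ≤ |s| * c := mul_le_mul_of_nonneg_left h6 (abs_nonneg s)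
    _ = c * |s| := by ring

theorem crit {w : L2} {g0 : SG} (h : ∀ t ∈ Icc (0:ℝ) 1, g0 * gam (ctl w) t ∈ Z) :
    ¬ Function.Surjective (fderiv ℝ End w) := by
  intro hs
  set k := (g0 * End w)⁻¹ with hk
  -- the functional
  have hL : ContDiff ℝ 1 (fun a : SG => C_m (g0 * a, g0 * End w)) := by
    have h2 : ∀ k : Idx, ContDiff ℝ 1 (fun p : SG => (p k : ℝ)) := fun k => (C_pr k).contDiff
    have h : ∀ k : Idx, ContDiff ℝ 1 (fun p : SG => ((g0 * p) k : ℝ)) := by
      intro k
      cases k <;> simp only [mul_apply, mulFun] <;> fun_prop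
    have h3 : ContDiff ℝ 1 (fun a : SG => g0 * a) := contDiff_pi.mpr h
    exact C_m_contDiff.comp (h3.prodMk contDiff_const)
  set Lam : SG → ℝ := fun a => C_m (g0 * a, g0 * End w) with hLam
  have hLd : HasFDerivAt Lam (fderiv ℝ Lam (End w)) (End w) :=
    (hL.differentiable one_ne_zero (End w)).hasFDerivAt
  let ez : SG := Pi.single (M := fun _ : Idx => ℝ) Idx.z 1
  obtain ⟨δ, hδ⟩ := hs ez
  -- derivative along the line in L2
  have hline : HasDerivAt (fun s : ℝ => w + s • δ) δ 0 := by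
    have := ((hasDerivAt_id (0:ℝ)).smul_const δ).const_add w
    simpa using this
  have hEnd : HasFDerivAt End (fderiv ℝ End w) (w + (0:ℝ) • δ) := by
    rw [zero_smul, add_zero]
    exact (contDiff_End.differentiable (by simp) w).hasFDerivAt
  have h1 : HasDerivAt (fun s : ℝ => End (w + s • δ)) (fderiv ℝ End w δ) 0 :=
    HasFDerivAt.comp_hasDerivAt (0:ℝ) (f := fun s : ℝ => w + s • δ) hEnd hline
  have hLd' : HasFDerivAt Lam (fderiv ℝ Lam (End w)) ((fun s : ℝ => End (w + s • δ)) 0) := by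
    simp only [zero_smul, add_zero]
    exact hLd
  have h2 : HasDerivAt (fun s : ℝ => Lam (End (w + s • δ)))
      (fderiv ℝ Lam (End w) (fderiv ℝ End w δ)) 0 :=
    HasFDerivAt.comp_hasDerivAt (0:ℝ) (f := fun s : ℝ => End (w + s • δ)) hLd' h1
  have h3 := h2.unique (C_phi_deriv h δ)
  rw [hδ] at h3
  -- derivative along ez
  have hline2 : HasDerivAt (fun s : ℝ => End w + s • ez) ez 0 := by
    have := ((hasDerivAt_id (0:ℝ)).smul_const ez).const_add (End w)
    simpa using this
  have hLd2 : HasFDerivAt Lam (fderiv ℝ Lam (End w)) ((fun s : ℝ => End w + s • ez) 0) := by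
    simp only [zero_smul, add_zero]
    exact hLd
  have h4 : HasDerivAt (fun s : ℝ => Lam (End w + s • ez)) (fderiv ℝ Lam (End w) ez) 0 :=
    HasFDerivAt.comp_hasDerivAt (0:ℝ) (f := fun s : ℝ => End w + s • ez) hLd2 hline2
  have h5 : ∀ s : ℝ, Lam (End w + s • ez) = s + Lam (End w) := by
    intro s
    have ezz : ez .z = 1 := by simp [ez]
    have ezn : ∀ k : Idx, k ≠ .z → ez k = 0 := by
      intro k hk
      simp [ez, hk]
    simp only [hLam, C_m, mul_apply, mulFun, C_add_apply, C_smul_apply, ezz, ezn _ (by simp : Idx.u ≠ .z),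
      ezn _ (by simp : Idx.v ≠ .z), ezn _ (by simp : Idx.t ≠ .z), ezn _ (by simp : Idx.mu ≠ .z),
      ezn _ (by simp : Idx.mv ≠ .z), ezn _ (by simp : Idx.x _ ≠ .z), ezn _ (by simp : Idx.m1 _ ≠ .z),
      ezn _ (by simp : Idx.m2 _ ≠ .z), ezn _ (by simp : Idx.m3 _ ≠ .z), mul_zero, add_zero, mul_one]
    ring
  simp_rw [h5] at h4
  have h6 := h4.unique ((hasDerivAt_id (0:ℝ)).add_const (Lam (End w)))
  rw [h3] at h6
  exact zero_ne_one h6

end

end SRSard
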