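import Pool.Agent.Lib.SRSard.Basic

/-!
# Horizontal curves and constrained reachability
-/

namespace SRSard

open MeasureTheory Set

noncomputable section

/-- position of the curve with control `w` issued from `1` -/
def gx (w : ℝ → SG) (k : Idx) (t : ℝ) : ℝ := ∫ s in (0:ℝ)..t, w s k

/-- moments -/
def gm (w : ℝ → SG) (n : ℕ) (k : Idx) (t : ℝ) : ℝ := ∫ s in (0:ℝ)..t, w s .t * gx w k s ^ n

/-- density of the last coordinate -/
def gPhi (w : ℝ → SG) (s : ℝ) : ℝ :=
  gx w .u s * gx w .v s + ∑ i, (ep i / 4 * gx w (.x i) s ^ 4 + ep i * gg i / 6 *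
      (gx w (.x i) s ^ 3 * gx w .t s - 3 * gx w (.x i) s ^ 2 * gm w 1 (.x i) s
        + 3 * gx w (.x i) s * gm w 2 (.x i) s - gm w 3 (.x i) s))

/-- The horizontal curve with control `w` issued from the identity (explicit solution). -/
def gam (w : ℝ → SG) (t : ℝ) : SG := fun k => match k with
  | .x i => gx w (.x i) t
  | .u => gx w .u t
  | .v => gx w .v t
  | .t => gx w .t t
  | .m1 i => gm w 1 (.x i) t
  | .m2 i => gm w 2 (.x i) t
  | .m3 i => gm w 3 (.x i) t
  | .mu => gm w 1 .u t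
  | .mv => gm w 1 .v t
  | .z => ∫ s in (0:ℝ)..t, w s .t * gPhi w s

/-- Controls for finite curves: measurable and bounded by `1`. -/
structure Ctrl (w : ℝ → SG) : Prop where
  meas : Measurable w
  bound : ∀ t, ‖w t‖ ≤ 1

/-- `Reach L g h`: there is a horizontal curve from `g` to `h`, parametrized by `[0, L]`, with
control bounded by `1`, all of whose points lie in `Z`. -/
def Reach (L : ℝ) (g h : SG) : Prop :=
  0 ≤ L ∧ ∃ w : ℝ → SG, Ctrl w ∧ g * gam w L = h ∧ ∀ t ∈ Icc (0:ℝ) L, g * gam w t ∈ Z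

/-- The node point with positions `a`, total charge `T`, parameters `p`. -/
def ndM1 (g a T p : ℝ) : ℝ := (3 * a ^ 2 + 2 * g * T * a - p) / (2 * g)
def ndM2 (g a T p : ℝ) : ℝ := (2 * a ^ 3 + g * T * a ^ 2 - p * a) / g
def ndM3 (g a T p : ℝ) : ℝ := - g * (T * ndM2 g a T p - ndM1 g a T p ^ 2)

def node (a : Fin 4 → ℝ) (T : ℝ) (p : Fin 4 → ℝ) : SG := fun k => match k with
  | .x i => a i
  | .u => 0
  | .v => 0
  | .t => T
  | .m1 i => ndM1 (gg i) (a i) T (p i)
  | .m2 i => ndM2 (gg i) (a i) T (p i)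
  | .m3 i => ndM3 (gg i) (a i) T (p i)
  | .mu => 0
  | .mv => 0
  | .z => - (1 / 10) * ∑ i, ep i * gg i * (T * ndM3 (gg i) (a i) T (p i)
      - ndM1 (gg i) (a i) T (p i) * ndM2 (gg i) (a i) T (p i))

/-- `p` is equal on the pairs `{0,1}` and `{2,3}`. -/
def prs (pA pB : ℝ) : Fin 4 → ℝ := ![pA, pA, pB, pB]

/-- Replace the position coordinates `x, u, v` of `g`. -/
def setPos (g : SG) (x : Fin 4 → ℝ) (u v : ℝ) : SG := fun k => match k with
  | .x i => x i
  | .u => u
  | .v => v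
  | k => g k

/-- The value of the potential of `g` at position `x` (without the `u v` part). -/
def pot (g : SG) (x : Fin 4 → ℝ) : ℝ := ∑ i, (ep i / 4 * x i ^ 4 + ep i * gg i / 3 *
      (x i ^ 3 * g .t - 3 * x i ^ 2 * g (.m1 i) + 3 * x i * g (.m2 i) - g (.m3 i)))

end

end SRSard
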