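import Pool.Agent.Lib.SRSard.TrajB

/-!
# The space of controls `L²([0,1]; ℝ⁷)` and the endpoint map
-/

namespace SRSard

open MeasureTheory Set Filter Topology
open scoped ContDiff

noncomputable section

/-- Lebesgue measure on `[0,1]` -/
abbrev mu01 : Measure ℝ := volume.restrict (Icc (0:ℝ) 1)

/-- the space of controls -/
abbrev L2 : Type := Lp (EuclideanSpace ℝ (Fin 7)) 2 mu01

/-- the standard basis of the horizontal space: `x 0, x 1, x 2, x 3, u, v, t` -/
def bas : Fin 7 → SG := ![Pi.single (Idx.x 0) 1, Pi.single (Idx.x 1) 1, Pi.single (Idx.x 2) 1,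
  Pi.single (Idx.x 3) 1, Pi.single Idx.u 1, Pi.single Idx.v 1, Pi.single Idx.t 1]

/-- the control as a function -/
def ctl (w : L2) : ℝ → SG := fun s => ∑ j, w s j • bas j

/-- the endpoint map -/
def End (w : L2) : SG := gam (ctl w) 1


end

end SRSard
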