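import Pool.Agent.Lib.SRSard.General
import Pool.Agent.Lib.SRSard.LDefs

/-!
# Chunk FA: `SG` is a simply connected Lie group; its invariant vector fields; bracket generation

`mfderiv` on a vector space is `fderiv`; `mlieBracket` is `lieBracket`
(`VectorField.mlieBracket_eq_lieBracket` or similar).  The bracket at the identity of the invariant
fields of `v`, `w` is `β v w - β w v` with `β` the bilinear part of the multiplication:
`[x i, t] = m1 i`, `[x i, m1 i] = 2 m2 i`, `[x i, m2 i] = 3 m3 i`,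
`[x i, m3 i] = ep i z` (up to signs).
-/

namespace SRSard

open MeasureTheory Set Filter Topology
open scoped Manifold ContDiff

noncomputable section

/-- coordinates are continuous linear -/
def faCo (k : Idx) : SG →L[ℝ] ℝ := (ContinuousLinearMap.proj k : (Idx → ℝ) →L[ℝ] ℝ)

theorem faCo_apply (k : Idx) (g : SG) : faCo k g = g k := rfl

theorem fa_contDiff_iff {E : Type*} [NormedAddCommGroup E] [NormedSpace ℝ E] {n : WithTop ℕ∞}
    {f : E → SG} : ContDiff ℝ n f ↔ ∀ k, ContDiff ℝ n (fun e => f e k) :=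
  contDiff_pi (𝕜 := ℝ) (n := n) (F' := fun _ : Idx => ℝ) (Φ := f)

theorem fa_contDiff_fst (k : Idx) : ContDiff ℝ ∞ (fun p : SG × SG => p.1 k) :=
  (faCo k).contDiff.comp contDiff_fst

theorem fa_contDiff_snd (k : Idx) : ContDiff ℝ ∞ (fun p : SG × SG => p.2 k) :=
  (faCo k).contDiff.comp contDiff_snd

theorem fa_contDiff_co (k : Idx) : ContDiff ℝ ∞ (fun p : SG => p k) :=
  (faCo k).contDiff

theorem fa_contDiff_mul : ContDiff ℝ ∞ (fun p : SG × SG => p.1 * p.2) := by
  rw [fa_contDiff_iff]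
  have h1 := fa_contDiff_fst
  have h2 := fa_contDiff_snd
  intro k
  cases k <;> simp only [mul_apply, mulFun, Fin.sum_univ_four] <;> fun_prop (disch := assumption)

theorem fa_contDiff_inv : ContDiff ℝ ∞ (fun p : SG => p⁻¹) := by
  rw [fa_contDiff_iff]
  have h1 := fa_contDiff_co
  intro k
  cases k <;> simp only [inv_apply, invFun, Fin.sum_univ_four] <;> fun_prop (disch := assumption)

instance : LieGroup 𝓘(ℝ, SG) ∞ SG where
  contMDiff_mul := by
    rw [← modelWithCornersSelf_prod, chartedSpaceSelf_prod]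
    exact fa_contDiff_mul.contMDiff
  contMDiff_inv := fa_contDiff_inv.contMDiff

instance : SimplyConnectedSpace SG := inferInstance

/-- the linear part of left multiplication, as a function -/
def faLFun (a b : SG) : SG := fun k => match k with
  | .x i => b (.x i)
  | .u => b .u
  | .v => b .v
  | .t => b .t
  | .m1 i => b (.m1 i) + a (.x i) * b .t
  | .m2 i => b (.m2 i) + 2 * a (.x i) * b (.m1 i) + a (.x i) ^ 2 * b .t
  | .m3 i => b (.m3 i) + 3 * a (.x i) * b (.m2 i) + 3 * a (.x i) ^ 2 * b (.m1 i)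
      + a (.x i) ^ 3 * b .t
  | .mu => b .mu + a .u * b .t
  | .mv => b .mv + a .v * b .t
  | .z => b .z + a .u * b .mv + a .v * b .mu + a .u * a .v * b .t
      + ∑ i, (ep i / 4 * (4 * a (.x i) * b (.m3 i) + 6 * a (.x i) ^ 2 * b (.m2 i)
          + 4 * a (.x i) ^ 3 * b (.m1 i) + a (.x i) ^ 4 * b .t)
        + ep i * gg i / 6 *
          ((b (.m3 i) + 3 * a (.x i) * b (.m2 i) + 3 * a (.x i) ^ 2 * b (.m1 i)
              + a (.x i) ^ 3 * b .t) * a .t
            - 3 * (b (.m2 i) + 2 * a (.x i) * b (.m1 i) + a (.x i) ^ 2 * b .t) * a (.m1 i)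
            + 3 * (b (.m1 i) + a (.x i) * b .t) * a (.m2 i)
            - b .t * a (.m3 i)))

theorem fa_add_apply (a b : SG) (k : Idx) : (a + b) k = a k + b k := rfl
theorem fa_smul_apply (c : ℝ) (b : SG) (k : Idx) : (c • b) k = c * b k := rfl
theorem fa_sub_apply (a b : SG) (k : Idx) : (a - b) k = a k - b k := rfl
theorem fa_zero_apply (k : Idx) : (0 : SG) k = 0 := rfl

theorem fa_mul_eq (a b : SG) : a * b = a + faLFun a b := by
  ext k
  cases k <;> simp only [mul_apply, mulFun, faLFun, fa_add_apply] <;> ring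

/-- the linear part of left multiplication -/
def faL (a : SG) : SG →ₗ[ℝ] SG where
  toFun := faLFun a
  map_add' b c := by
    ext k
    cases k <;> simp only [faLFun, fa_add_apply, Fin.sum_univ_four] <;> ring
  map_smul' r c := by
    ext k
    cases k <;> simp only [faLFun, fa_smul_apply, Fin.sum_univ_four, RingHom.id_apply] <;> ring

theorem fa_hasFDerivAt (g a : SG) :
    HasFDerivAt (fun b : SG => g * b) (LinearMap.toContinuousLinearMap (faL g)) a := by
  have h : (fun b : SG => g * b) = fun b => g + LinearMap.toContinuousLinearMap (faL g) b := by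
    funext b
    exact fa_mul_eq g b
  rw [h]
  exact (LinearMap.toContinuousLinearMap (faL g)).hasFDerivAt.const_add g

theorem fa_field (v : SG) (g : SG) :
    (mulInvariantVectorField (I := 𝓘(ℝ, SG)) (G := SG) v g : SG) = faLFun g v := by
  have h : (mulInvariantVectorField (I := 𝓘(ℝ, SG)) (G := SG) v g : SG)
      = mfderiv 𝓘(ℝ, SG) 𝓘(ℝ, SG) (fun b : SG => g * b) 1 v := rfl
  rw [h, mfderiv_eq_fderiv, (fa_hasFDerivAt g 1).fderiv]
  rfl

/-- the left invariant vector fields of the horizontal basis -/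
theorem invariant_field (g : SG) (j : Fin 7) :
    (mulInvariantVectorField (I := 𝓘(ℝ, SG)) (G := SG) (bas j) g : SG) = hor g (bas j) := by
  rw [fa_field]
  have h : ∀ v ∈ V, faLFun g v = hor g v := by
    intro v hv
    obtain ⟨h1, h2, h3, h4, h5, h6⟩ := hv
    ext k
    cases k <;> simp only [faLFun, hor, h1, h2, h3, h4, h5, h6, Fin.sum_univ_four] <;> ring
  apply h
  refine ⟨fun i => ?_, fun i => ?_, fun i => ?_, ?_, ?_, ?_⟩ <;>
    fin_cases j <;> simp [bas]

/-- the bilinear part -/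
def faB (a b : SG) : SG := fun k => match k with
  | .x _ => 0
  | .u => 0
  | .v => 0
  | .t => 0
  | .m1 i => a (.x i) * b .t
  | .m2 i => 2 * a (.x i) * b (.m1 i)
  | .m3 i => 3 * a (.x i) * b (.m2 i)
  | .mu => a .u * b .t
  | .mv => a .v * b .t
  | .z => a .u * b .mv + a .v * b .mu
      + ∑ i, (ep i / 4 * (4 * a (.x i) * b (.m3 i))
        + ep i * gg i / 6 *
          (b (.m3 i) * a .t - 3 * b (.m2 i) * a (.m1 i) + 3 * b (.m1 i) * a (.m2 i)
            - b .t * a (.m3 i)))

theorem fa_poly (v β a b c : ℝ) (f : ℝ → ℝ)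
    (h : ∀ t, f t = v + t * β + t ^ 2 * (a + b * t + c * t ^ 2)) : HasDerivAt f β 0 := by
  have h1 : f = fun t => v + t * β + t ^ 2 * (a + b * t + c * t ^ 2) := funext h
  rw [h1]
  have h2 : HasDerivAt (fun t : ℝ => v + t * β + t ^ 2 * (a + b * t + c * t ^ 2))
      (0 + 1 * β + (((2:ℕ):ℝ) * 0 ^ (2 - 1) * 1 * (a + b * 0 + c * 0 ^ 2) +
        0 ^ 2 * (0 + b * 1 + c * (((2:ℕ):ℝ) * 0 ^ (2 - 1) * 1)))) 0 := by
    have i := hasDerivAt_id (0:ℝ)
    exact (((hasDerivAt_const (0:ℝ) v).add (i.mul_const β))).add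
      ((i.pow 2).mul (((hasDerivAt_const (0:ℝ) a).add (i.const_mul b)).add ((i.pow 2).const_mul c)))
  simpa using h2

theorem fa_line (v w : SG) (k : Idx) :
    HasDerivAt (fun t : ℝ => faLFun (0 + t • w) v k) (faB w v k) 0 := by
  cases k with
  | x i => exact fa_poly (v (.x i)) _ 0 0 0 _ (fun t => by simp [faLFun, faB])
  | u => exact fa_poly (v .u) _ 0 0 0 _ (fun t => by simp [faLFun, faB])
  | v => exact fa_poly (v .v) _ 0 0 0 _ (fun t => by simp [faLFun, faB])
  | t => exact fa_poly (v .t) _ 0 0 0 _ (fun t => by simp [faLFun, faB])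
  | m1 i =>
    refine fa_poly (v (.m1 i)) _ 0 0 0 _ (fun t => ?_)
    simp only [faLFun, faB, fa_add_apply, fa_zero_apply, fa_smul_apply]
    ring
  | m2 i =>
    refine fa_poly (v (.m2 i)) _ (w (.x i) ^ 2 * v .t) 0 0 _ (fun t => ?_)
    simp only [faLFun, faB, fa_add_apply, fa_zero_apply, fa_smul_apply]
    ring
  | m3 i =>
    refine fa_poly (v (.m3 i)) _ (3 * w (.x i) ^ 2 * v (.m1 i)) (w (.x i) ^ 3 * v .t) 0 _
      (fun t => ?_)
    simp only [faLFun, faB, fa_add_apply, fa_zero_apply, fa_smul_apply]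
    ring
  | mu =>
    refine fa_poly (v .mu) _ 0 0 0 _ (fun t => ?_)
    simp only [faLFun, faB, fa_add_apply, fa_zero_apply, fa_smul_apply]
    ring
  | mv =>
    refine fa_poly (v .mv) _ 0 0 0 _ (fun t => ?_)
    simp only [faLFun, faB, fa_add_apply, fa_zero_apply, fa_smul_apply]
    ring
  | z =>
    refine fa_poly (v .z) _
      (w .u * w .v * v .t + ∑ i, (ep i / 4 * (6 * w (.x i) ^ 2 * v (.m2 i)) +
        ep i * gg i / 6 * (3 * w (.x i) * v (.m2 i) * w .t - 6 * w (.x i) * v (.m1 i) * w (.m1 i)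
          + 3 * w (.x i) * v .t * w (.m2 i))))
      (∑ i, (ep i / 4 * (4 * w (.x i) ^ 3 * v (.m1 i)) +
        ep i * gg i / 6 * (3 * w (.x i) ^ 2 * v (.m1 i) * w .t
          - 3 * w (.x i) ^ 2 * v .t * w (.m1 i))))
      (∑ i, (ep i / 4 * (w (.x i) ^ 4 * v .t) +
        ep i * gg i / 6 * (w (.x i) ^ 3 * v .t * w .t))) _ (fun t => ?_)
    simp only [faLFun, faB, fa_add_apply, fa_zero_apply, fa_smul_apply, Fin.sum_univ_four]
    ring

theorem fa_contDiff_faLFun (v : SG) : ContDiff ℝ ∞ (fun g : SG => faLFun g v) := by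
  rw [fa_contDiff_iff]
  have h1 := fa_contDiff_co
  intro k
  cases k <;> simp only [faLFun, Fin.sum_univ_four] <;> fun_prop (disch := assumption)

theorem fa_fderiv (v w : SG) : fderiv ℝ (fun g : SG => faLFun g v) 0 w = faB w v := by
  have hd : DifferentiableAt ℝ (fun g : SG => faLFun g v) 0 :=
    (fa_contDiff_faLFun v).differentiable (by simp) 0
  ext k
  have h1 : HasFDerivAt (fun g : SG => faLFun g v k)
      ((faCo k).comp (fderiv ℝ (fun g : SG => faLFun g v) 0)) 0 :=
    (faCo k).hasFDerivAt.comp (0 : SG) hd.hasFDerivAt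
  have h2 : HasLineDerivAt ℝ (fun g : SG => faLFun g v k)
      ((faCo k).comp (fderiv ℝ (fun g : SG => faLFun g v) 0) w) 0 w := h1.hasLineDerivAt w
  exact h2.unique (fa_line v w k)

theorem fa_bracket (v w : GroupLieAlgebra 𝓘(ℝ, SG) SG) :
    (⁅v, w⁆ : GroupLieAlgebra 𝓘(ℝ, SG) SG) = (faB v w - faB w v : SG) := by
  rw [GroupLieAlgebra.bracket_def]
  rw [← VectorField.mlieBracketWithin_univ, VectorField.mlieBracketWithin_eq_lieBracketWithin,
    VectorField.lieBracketWithin_univ]
  have h1 : ∀ v : SG, (fun g : SG =>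
      (mulInvariantVectorField (I := 𝓘(ℝ, SG)) (G := SG) v g : SG)) = fun g => faLFun g v :=
    fun v => funext (fa_field v)
  have h2 : VectorField.lieBracket ℝ (fun g : SG => faLFun g v) (fun g : SG => faLFun g w) 0
      = (faB v w - faB w v : SG) := by
    rw [VectorField.lieBracket]
    have h3 : ∀ v : SG, faLFun 0 v = v := by
      intro v
      ext k
      cases k <;> simp [faLFun, fa_zero_apply]
    rw [fa_fderiv, fa_fderiv, h3, h3]
  rw [← h2]
  change VectorField.lieBracket ℝ (fun g : SG =>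
      (mulInvariantVectorField (I := 𝓘(ℝ, SG)) (G := SG) v g : SG)) (fun g : SG =>
      (mulInvariantVectorField (I := 𝓘(ℝ, SG)) (G := SG) w g : SG)) 0 = _
  rw [h1 v, h1 w]

/-- basis vectors -/
def faE (k : Idx) : SG := (Pi.single k 1 : Idx → ℝ)

theorem faE_apply (k l : Idx) : faE k l = if l = k then 1 else 0 := by
  rw [faE, Pi.single_apply]

theorem fa_br_m1 (i : Fin 4) : faB (faE (.x i)) (faE .t) - faB (faE .t) (faE (.x i)) =
    faE (.m1 i) := by
  ext k
  cases k <;> simp [faB, fa_sub_apply, faE_apply, eq_comm]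

theorem fa_br_m2 (i : Fin 4) : faB (faE (.x i)) (faE (.m1 i)) - faB (faE (.m1 i)) (faE (.x i)) =
    (2:ℝ) • faE (.m2 i) := by
  ext k
  cases k with
  | m2 j => by_cases h : i = j <;> simp [faB, fa_sub_apply, faE_apply, fa_smul_apply, h, eq_comm]
  | _ => simp [faB, fa_sub_apply, faE_apply, fa_smul_apply]

theorem fa_br_m3 (i : Fin 4) : faB (faE (.x i)) (faE (.m2 i)) - faB (faE (.m2 i)) (faE (.x i)) =
    (3:ℝ) • faE (.m3 i) := by
  ext k
  cases k with
  | m3 j => by_cases h : i = j <;> simp [faB, fa_sub_apply, faE_apply, fa_smul_apply, h, eq_comm]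
  | _ => simp [faB, fa_sub_apply, faE_apply, fa_smul_apply]

theorem fa_br_z : faB (faE (.x 0)) (faE (.m3 0)) - faB (faE (.m3 0)) (faE (.x 0)) =
    faE .z := by
  ext k
  cases k with
  | z => simp [faB, fa_sub_apply, faE_apply, ep]
  | _ => simp [faB, fa_sub_apply, faE_apply]

theorem fa_br_mu : faB (faE .u) (faE .t) - faB (faE .t) (faE .u) = faE .mu := by
  ext k
  cases k <;> simp [faB, fa_sub_apply, faE_apply]

theorem fa_br_mv : faB (faE .v) (faE .t) - faB (faE .t) (faE .v) = faE .mv := by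
  ext k
  cases k <;> simp [faB, fa_sub_apply, faE_apply]

theorem fa_sum (g : SG) : g = ∑ k, g k • faE k := by
  ext l
  have h : faCo l (∑ k, g k • faE k) = ∑ k, g k * (if l = k then 1 else 0) := by
    rw [map_sum]
    refine Finset.sum_congr rfl (fun k _ => ?_)
    rw [faCo_apply, fa_smul_apply, faE_apply]
  rw [← faCo_apply l (∑ k, g k • faE k), h]
  simp

theorem bracketGenerating :
    BracketGenerating 𝓘(ℝ, SG) (Submodule.span ℝ (Set.range bas) :
      Submodule ℝ (GroupLieAlgebra 𝓘(ℝ, SG) SG)) := by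
  intro W hW hbr
  have hb : ∀ j : Fin 7, (bas j : SG) ∈ W := fun j => hW (Submodule.subset_span ⟨j, rfl⟩)
  have hx : ∀ i : Fin 4, (faE (.x i) : SG) ∈ W := by
    intro i
    fin_cases i
    · exact hb 0
    · exact hb 1
    · exact hb 2
    · exact hb 3
  have hu : (faE .u : SG) ∈ W := hb 4
  have hv : (faE .v : SG) ∈ W := hb 5
  have ht : (faE .t : SG) ∈ W := hb 6
  have hbr' : ∀ a b : SG, a ∈ W → b ∈ W → (faB a b - faB b a : SG) ∈ W := by
    intro a b ha hb
    have := hbr a ha b hb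
    rw [fa_bracket] at this
    exact this
  have hm1 : ∀ i : Fin 4, (faE (.m1 i) : SG) ∈ W := by
    intro i
    have := hbr' _ _ (hx i) ht
    rwa [fa_br_m1] at this
  have hm2 : ∀ i : Fin 4, (faE (.m2 i) : SG) ∈ W := by
    intro i
    have := hbr' _ _ (hx i) (hm1 i)
    rw [fa_br_m2] at this
    exact (W.smul_mem_iff (s := (2:ℝ)) (by norm_num)).1 this
  have hm3 : ∀ i : Fin 4, (faE (.m3 i) : SG) ∈ W := by
    intro i
    have := hbr' _ _ (hx i) (hm2 i)
    rw [fa_br_m3] at this
    exact (W.smul_mem_iff (s := (3:ℝ)) (by norm_num)).1 this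
  have hz : (faE .z : SG) ∈ W := by
    have := hbr' _ _ (hx 0) (hm3 0)
    rwa [fa_br_z] at this
  have hmu : (faE .mu : SG) ∈ W := by
    have := hbr' _ _ hu ht
    rwa [fa_br_mu] at this
  have hmv : (faE .mv : SG) ∈ W := by
    have := hbr' _ _ hv ht
    rwa [fa_br_mv] at this
  have hall : ∀ k : Idx, (faE k : SG) ∈ W := by
    intro k
    cases k with
    | x i => exact hx i
    | u => exact hu
    | v => exact hv
    | t => exact ht
    | m1 i => exact hm1 i
    | m2 i => exact hm2 i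
    | m3 i => exact hm3 i
    | mu => exact hmu
    | mv => exact hmv
    | z => exact hz
  rw [eq_top_iff]
  intro g _
  have h : (∑ k, (g : SG) k • (faE k : SG) : SG) ∈ W :=
    Submodule.sum_mem W (fun k _ => W.smul_mem _ (hall k))
  rw [← fa_sum] at h
  exact h

end

end SRSard
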