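import Pool.Agent.Lib.SRSard.LDefs

/-!
# Chunk LA: smoothness of the endpoint map, and uniform continuity of the curves

Suggested method.  Let `μ = volume.restrict (Icc 0 1)`, `I = Icc (0:ℝ) 1`.  The bilinear map
`B : Lp ℝ 2 μ → C(I, ℝ) → C(I, ℝ)`, `B f φ t = ∫ s in 0..t, f s * φ s`, is bounded
(Cauchy-Schwarz), so continuous.  With `x = B w_x 1`, `t = B w_t 1`, `m1 = B w_t x`, ...,
`z = B w_t Phi`, all coordinates of the curve are smooth functions of `w` with values in the Banach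
algebra `C(I, ℝ)`; evaluate at `1`.
-/

namespace SRSard

open MeasureTheory Set Filter Topology
open scoped ContDiff

noncomputable section

abbrev la_C : Type := C(Icc (0:ℝ) 1, ℝ)

instance la_prob : IsProbabilityMeasure mu01 := ⟨by simp [mu01]⟩

/-- extension of a continuous function on `[0,1]` -/
def la_ext (φ : la_C) : ℝ → ℝ := IccExtend (zero_le_one : (0:ℝ) ≤ 1) φ

theorem la_ext_cont (φ : la_C) : Continuous (la_ext φ) := φ.continuous.Icc_extend'

theorem la_ext_le (φ : la_C) (s : ℝ) : |la_ext φ s| ≤ ‖φ‖ := by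
  rw [← Real.norm_eq_abs]
  exact φ.norm_coe_le_norm _

theorem la_ext_apply (φ : la_C) {s : ℝ} (hs : s ∈ Icc (0:ℝ) 1) : la_ext φ s = φ ⟨s, hs⟩ :=
  IccExtend_of_mem _ _ hs

theorem la_f_int (f : Lp ℝ 2 mu01) : Integrable (fun s => f s) mu01 :=
  (Lp.memLp f).integrable one_le_two

theorem la_int (f : Lp ℝ 2 mu01) (φ : la_C) : Integrable (fun s => f s * la_ext φ s) mu01 :=
  (la_f_int f).mul_bdd (c := ‖φ‖) (la_ext_cont φ).aestronglyMeasurable
    (Eventually.of_forall fun s => by rw [Real.norm_eq_abs]; exact la_ext_le φ s)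

/-- primitive -/
def la_prim (g : ℝ → ℝ) (hg : Integrable g mu01) : la_C where
  toFun t := ∫ s in (0:ℝ)..t, g s
  continuous_toFun := by
    have h : ContinuousOn (fun x => ∫ t in (0:ℝ)..x, g t) (uIcc (0:ℝ) 1) := by
      apply intervalIntegral.continuousOn_primitive_interval
      rw [uIcc_of_le zero_le_one]
      exact hg
    rw [uIcc_of_le zero_le_one] at h
    exact continuousOn_iff_continuous_domRestrict.1 h

theorem la_ii {g : ℝ → ℝ} (hg : Integrable g mu01) {t : ℝ} (ht : t ∈ Icc (0:ℝ) 1) :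
    IntervalIntegrable g volume 0 t := by
  rw [intervalIntegrable_iff_integrableOn_Icc_of_le ht.1]
  exact IntegrableOn.mono_set (t := Icc (0:ℝ) 1) hg (Icc_subset_Icc_right ht.2)

theorem la_congr {g g' : ℝ → ℝ} (h : g =ᵐ[mu01] g') {t : ℝ} (ht : t ∈ Icc (0:ℝ) 1) :
    ∫ s in (0:ℝ)..t, g s = ∫ s in (0:ℝ)..t, g' s := by
  apply intervalIntegral.integral_congr_ae
  rw [uIoc_of_le ht.1]
  have h' : ∀ᵐ s ∂volume, s ∈ Icc (0:ℝ) 1 → g s = g' s :=
    (ae_restrict_iff' measurableSet_Icc).1 h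
  filter_upwards [h'] with s hs hs'
  exact hs ⟨hs'.1.le, hs'.2.trans ht.2⟩

theorem la_norm_one_le (f : Lp ℝ 2 mu01) : ∫ s, |f s| ∂mu01 ≤ ‖f‖ := by
  have h1 : ∫ s, |f s| ∂mu01 = (eLpNorm f 1 mu01).toReal := by
    rw [eLpNorm_one_eq_lintegral_enorm, ← integral_norm_eq_lintegral_enorm (Lp.aestronglyMeasurable f)]
    rfl
  rw [h1, Lp.norm_def]
  exact ENNReal.toReal_mono (Lp.eLpNorm_ne_top f)
    (eLpNorm_le_eLpNorm_of_exponent_le one_le_two (Lp.aestronglyMeasurable f))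

theorem la_bound (f : Lp ℝ 2 mu01) (φ : la_C) :
    ‖la_prim (fun s => f s * la_ext φ s) (la_int f φ)‖ ≤ ‖f‖ * ‖φ‖ := by
  rw [ContinuousMap.norm_le _ (by positivity)]
  rintro ⟨t, ht⟩
  change ‖∫ s in (0:ℝ)..t, f s * la_ext φ s‖ ≤ _
  calc ‖∫ s in (0:ℝ)..t, f s * la_ext φ s‖ ≤ ∫ s in (0:ℝ)..t, ‖f s * la_ext φ s‖ :=
        intervalIntegral.norm_integral_le_integral_norm ht.1
    _ ≤ ∫ s in (0:ℝ)..1, ‖f s * la_ext φ s‖ := by
        apply intervalIntegral.integral_mono_interval le_rfl ht.1 ht.2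
        · exact Eventually.of_forall fun s => norm_nonneg _
        · exact (la_ii (la_int f φ) ⟨zero_le_one, le_rfl⟩).norm
    _ ≤ ∫ s in (0:ℝ)..1, |f s| * ‖φ‖ := by
        apply intervalIntegral.integral_mono_on zero_le_one
        · exact (la_ii (la_int f φ) ⟨zero_le_one, le_rfl⟩).norm
        · exact ((la_ii (la_f_int f) ⟨zero_le_one, le_rfl⟩).norm).mul_const _
        · intro s _
          rw [Real.norm_eq_abs, abs_mul]
          exact mul_le_mul_of_nonneg_left (la_ext_le φ s) (abs_nonneg _)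
    _ = (∫ s in (0:ℝ)..1, |f s|) * ‖φ‖ := by rw [intervalIntegral.integral_mul_const]
    _ ≤ ‖f‖ * ‖φ‖ := by
        apply mul_le_mul_of_nonneg_right _ (norm_nonneg _)
        rw [intervalIntegral.integral_of_le zero_le_one, ← integral_Icc_eq_integral_Ioc]
        exact la_norm_one_le f

/-- the bilinear map -/
def la_B : Lp ℝ 2 mu01 →L[ℝ] la_C →L[ℝ] la_C :=
  LinearMap.mkContinuous₂
    (LinearMap.mk₂ ℝ (fun f φ => la_prim (fun s => f s * la_ext φ s) (la_int f φ))
      (by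
        intro f f' φ
        ext ⟨t, ht⟩
        change ∫ s in (0:ℝ)..t, (f + f' : Lp ℝ 2 mu01) s * la_ext φ s =
          (∫ s in (0:ℝ)..t, f s * la_ext φ s) + ∫ s in (0:ℝ)..t, f' s * la_ext φ s
        rw [← intervalIntegral.integral_add (la_ii (la_int f φ) ht) (la_ii (la_int f' φ) ht)]
        apply la_congr _ ht
        filter_upwards [Lp.coeFn_add f f'] with s hs
        rw [hs, Pi.add_apply]; ring)
      (by
        intro c f φ
        ext ⟨t, ht⟩
        change ∫ s in (0:ℝ)..t, (c • f : Lp ℝ 2 mu01) s * la_ext φ s =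
          c * (∫ s in (0:ℝ)..t, f s * la_ext φ s)
        rw [← intervalIntegral.integral_const_mul]
        apply la_congr _ ht
        filter_upwards [Lp.coeFn_smul c f] with s hs
        rw [hs, Pi.smul_apply, smul_eq_mul]; ring)
      (by
        intro f φ φ'
        ext ⟨t, ht⟩
        change ∫ s in (0:ℝ)..t, f s * la_ext (φ + φ') s =
          (∫ s in (0:ℝ)..t, f s * la_ext φ s) + ∫ s in (0:ℝ)..t, f s * la_ext φ' s
        rw [← intervalIntegral.integral_add (la_ii (la_int f φ) ht) (la_ii (la_int f φ') ht)]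
        apply la_congr _ ht
        refine Eventually.of_forall fun s => ?_
        change f s * (φ _ + φ' _) = f s * φ _ + f s * φ' _
        ring)
      (by
        intro c f φ
        ext ⟨t, ht⟩
        change ∫ s in (0:ℝ)..t, f s * la_ext (c • φ) s =
          c * (∫ s in (0:ℝ)..t, f s * la_ext φ s)
        rw [← intervalIntegral.integral_const_mul]
        apply la_congr _ ht
        refine Eventually.of_forall fun s => ?_
        change f s * (c * φ _) = c * (f s * φ _)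
        ring)) 1 (by
    intro f φ
    rw [one_mul]
    exact la_bound f φ)

theorem la_B_apply (f : Lp ℝ 2 mu01) (φ : la_C) {t : ℝ} (ht : t ∈ Icc (0:ℝ) 1) :
    la_B f φ ⟨t, ht⟩ = ∫ s in (0:ℝ)..t, f s * la_ext φ s := rfl

/-- coordinate of the control -/
def la_co (j : Fin 7) : L2 →L[ℝ] Lp ℝ 2 mu01 :=
  (EuclideanSpace.proj (𝕜 := ℝ) j : EuclideanSpace ℝ (Fin 7) →L[ℝ] ℝ).compLpL 2 mu01

theorem la_co_ae (j : Fin 7) (w : L2) : ∀ᵐ s ∂mu01, la_co j w s = w s j :=
  ContinuousLinearMap.coeFn_compLpL _ _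

/-- `x`-type coordinates -/
def la_X (j : Fin 7) (w : L2) : la_C := la_B (la_co j w) 1

/-- moments -/
def la_M (n : ℕ) (j : Fin 7) (w : L2) : la_C := la_B (la_co 6 w) (la_X j w ^ n)

/-- injection of the indices -/
def la_j (i : Fin 4) : Fin 7 := ⟨i.1, by omega⟩

def la_P (w : L2) : la_C := la_X 4 w * la_X 5 w + ∑ i : Fin 4, ((ep i / 4) • la_X (la_j i) w ^ 4 +
  (ep i * gg i / 6) • (la_X (la_j i) w ^ 3 * la_X 6 w
    - (3:ℝ) • (la_X (la_j i) w ^ 2 * la_M 1 (la_j i) w)
    + (3:ℝ) • (la_X (la_j i) w * la_M 2 (la_j i) w) - la_M 3 (la_j i) w))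

def la_Z (w : L2) : la_C := la_B (la_co 6 w) (la_P w)

/-- all coordinates as continuous functions -/
def la_G (w : L2) (k : Idx) : la_C := match k with
  | .x i => la_X (la_j i) w
  | .u => la_X 4 w
  | .v => la_X 5 w
  | .t => la_X 6 w
  | .m1 i => la_M 1 (la_j i) w
  | .m2 i => la_M 2 (la_j i) w
  | .m3 i => la_M 3 (la_j i) w
  | .mu => la_M 1 4 w
  | .mv => la_M 1 5 w
  | .z => la_Z w

theorem la_contDiff_X (j : Fin 7) : ContDiff ℝ ∞ (la_X j) :=
  ((la_B.flip 1).comp (la_co j)).contDiff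

theorem la_contDiff_B {φ : L2 → la_C} (h : ContDiff ℝ ∞ φ) :
    ContDiff ℝ ∞ (fun w => la_B (la_co 6 w) (φ w)) :=
  (la_B.comp (la_co 6)).contDiff.clm_apply h

theorem la_contDiff_M (n : ℕ) (j : Fin 7) : ContDiff ℝ ∞ (la_M n j) :=
  la_contDiff_B ((la_contDiff_X j).pow n)

theorem la_contDiff_P : ContDiff ℝ ∞ la_P := by
  unfold la_P
  refine ((la_contDiff_X 4).mul (la_contDiff_X 5)).add (ContDiff.sum fun i _ => ?_)
  have hx := la_contDiff_X (la_j i)
  have h1 := la_contDiff_M 1 (la_j i)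
  have h2 := la_contDiff_M 2 (la_j i)
  have h3 := la_contDiff_M 3 (la_j i)
  have ht := la_contDiff_X 6
  exact ((hx.pow 4).const_smul _).add (((((hx.pow 3).mul ht).sub
    (((hx.pow 2).mul h1).const_smul _)).add ((hx.mul h2).const_smul _)).sub h3 |>.const_smul _)

theorem la_contDiff_G (k : Idx) : ContDiff ℝ ∞ (fun w => la_G w k) := by
  cases k with
  | x i => exact la_contDiff_X _
  | u => exact la_contDiff_X _
  | v => exact la_contDiff_X _
  | t => exact la_contDiff_X _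
  | m1 i => exact la_contDiff_M _ _
  | m2 i => exact la_contDiff_M _ _
  | m3 i => exact la_contDiff_M _ _
  | mu => exact la_contDiff_M _ _
  | mv => exact la_contDiff_M _ _
  | z => exact la_contDiff_B la_contDiff_P

theorem la_add_apply (a b : SG) (k : Idx) : (a + b) k = a k + b k := rfl
theorem la_smul_apply (c : ℝ) (a : SG) (k : Idx) : (c • a) k = c * a k := rfl
theorem la_single_apply (i k : Idx) : (Pi.single i (1:ℝ) : SG) k = if k = i then 1 else 0 :=
  Pi.single_apply i (1:ℝ) k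

theorem la_ctl (w : L2) (s : ℝ) (k : Idx) : ctl w s k =
    w s 0 * (if k = .x 0 then 1 else 0) + w s 1 * (if k = .x 1 then 1 else 0)
    + w s 2 * (if k = .x 2 then 1 else 0) + w s 3 * (if k = .x 3 then 1 else 0)
    + w s 4 * (if k = .u then 1 else 0) + w s 5 * (if k = .v then 1 else 0)
    + w s 6 * (if k = .t then 1 else 0) := by
  unfold ctl
  rw [Fin.sum_univ_seven]
  simp only [la_add_apply, la_smul_apply]
  rw [← la_single_apply (.x 0) k, ← la_single_apply (.x 1) k, ← la_single_apply (.x 2) k,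
    ← la_single_apply (.x 3) k, ← la_single_apply .u k, ← la_single_apply .v k,
    ← la_single_apply .t k]
  rfl

theorem la_ctl_x (w : L2) (s : ℝ) (i : Fin 4) : ctl w s (.x i) = w s (la_j i) := by
  rw [la_ctl]
  fin_cases i <;> simp [la_j]

theorem la_ctl_u (w : L2) (s : ℝ) : ctl w s .u = w s 4 := by
  rw [la_ctl]; simp

theorem la_ctl_v (w : L2) (s : ℝ) : ctl w s .v = w s 5 := by
  rw [la_ctl]; simp

theorem la_ctl_t (w : L2) (s : ℝ) : ctl w s .t = w s 6 := by
  rw [la_ctl]; simp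

theorem la_gx {w : L2} {k : Idx} {j : Fin 7} (h : ∀ s, ctl w s k = w s j) {t : ℝ}
    (ht : t ∈ Icc (0:ℝ) 1) : gx (ctl w) k t = la_X j w ⟨t, ht⟩ := by
  unfold gx la_X
  rw [la_B_apply]
  apply la_congr _ ht
  filter_upwards [la_co_ae j w] with s hs
  rw [hs, h]
  simp [la_ext, IccExtend]

theorem la_gm {w : L2} {k : Idx} {j : Fin 7} (h : ∀ s, ctl w s k = w s j) (n : ℕ) {t : ℝ}
    (ht : t ∈ Icc (0:ℝ) 1) : gm (ctl w) n k t = la_M n j w ⟨t, ht⟩ := by
  unfold gm la_M
  rw [la_B_apply]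
  apply la_congr _ ht
  have h1 : ∀ᵐ s ∂mu01, s ∈ Icc (0:ℝ) 1 := ae_restrict_mem measurableSet_Icc
  filter_upwards [la_co_ae 6 w, h1] with s hs hs1
  rw [hs, la_ctl_t, la_gx h hs1, la_ext_apply _ hs1]
  rfl

theorem la_gPhi (w : L2) {t : ℝ} (ht : t ∈ Icc (0:ℝ) 1) : gPhi (ctl w) t = la_P w ⟨t, ht⟩ := by
  unfold gPhi la_P
  rw [la_gx (la_ctl_u w) ht, la_gx (la_ctl_v w) ht, la_gx (la_ctl_t w) ht]
  rw [ContinuousMap.add_apply, ContinuousMap.mul_apply, ContinuousMap.sum_apply]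
  congr 1
  apply Finset.sum_congr rfl
  intro i _
  have hx : ∀ s, ctl w s (.x i) = w s (la_j i) := fun s => la_ctl_x w s i
  rw [la_gx hx ht, la_gm hx 1 ht, la_gm hx 2 ht, la_gm hx 3 ht]
  simp only [ContinuousMap.add_apply, ContinuousMap.mul_apply, ContinuousMap.sub_apply,
    ContinuousMap.smul_apply, ContinuousMap.pow_apply, smul_eq_mul]
  ring

theorem la_gam (w : L2) {t : ℝ} (ht : t ∈ Icc (0:ℝ) 1) (k : Idx) :
    gam (ctl w) t k = la_G w k ⟨t, ht⟩ := by
  cases k with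
  | x i => exact la_gx (fun s => la_ctl_x w s i) ht
  | u => exact la_gx (la_ctl_u w) ht
  | v => exact la_gx (la_ctl_v w) ht
  | t => exact la_gx (la_ctl_t w) ht
  | m1 i => exact la_gm (fun s => la_ctl_x w s i) 1 ht
  | m2 i => exact la_gm (fun s => la_ctl_x w s i) 2 ht
  | m3 i => exact la_gm (fun s => la_ctl_x w s i) 3 ht
  | mu => exact la_gm (la_ctl_u w) 1 ht
  | mv => exact la_gm (la_ctl_v w) 1 ht
  | z =>
    change ∫ s in (0:ℝ)..t, ctl w s .t * gPhi (ctl w) s = la_B (la_co 6 w) (la_P w) ⟨t, ht⟩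
    rw [la_B_apply]
    apply la_congr _ ht
    have h1 : ∀ᵐ s ∂mu01, s ∈ Icc (0:ℝ) 1 := ae_restrict_mem measurableSet_Icc
    filter_upwards [la_co_ae 6 w, h1] with s hs hs1
    rw [hs, la_ctl_t, la_gPhi w hs1, la_ext_apply _ hs1]

theorem contDiff_End : ContDiff ℝ ∞ End := by
  have h : ContDiff ℝ ∞ (fun (w : L2) (k : Idx) => la_G w k ⟨1, zero_le_one, le_rfl⟩) := by
    rw [contDiff_pi]
    intro k
    exact (ContinuousMap.evalCLM ℝ (⟨1, zero_le_one, le_rfl⟩ : Icc (0:ℝ) 1)).contDiff.comp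
      (la_contDiff_G k)
  have h' : End = (fun (w : L2) => ((fun (k : Idx) => la_G w k ⟨1, zero_le_one, le_rfl⟩) : SG)) := by
    funext w
    exact SG.ext fun k => la_gam w _ k
  rw [h']
  exact h

/-- the curve depends continuously on the control, uniformly in `t ∈ [0,1]` -/
theorem gam_tendsto {w : L2} {ι : Type*} {l : Filter ι} {W : ι → L2} (h : Tendsto W l (𝓝 w)) :
    TendstoUniformlyOn (fun n t => gam (ctl (W n)) t) (gam (ctl w)) l (Icc (0:ℝ) 1) := by
  rw [Metric.tendstoUniformlyOn_iff]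
  intro ε hε
  have h1 : ∀ k : Idx, ∀ᶠ n in l, dist (la_G w k) (la_G (W n) k) < ε := by
    intro k
    have h2 : Tendsto (fun n => la_G (W n) k) l (𝓝 (la_G w k)) :=
      ((la_contDiff_G k).continuous.tendsto w).comp h
    filter_upwards [Metric.tendsto_nhds.1 h2 ε hε] with n hn
    rwa [dist_comm]
  filter_upwards [eventually_all.2 h1] with n hn t ht
  change dist (fun k => gam (ctl w) t k : Idx → ℝ) (fun k => gam (ctl (W n)) t k) < ε
  rw [dist_pi_lt_iff hε]
  intro k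
  rw [la_gam w ht, la_gam (W n) ht]
  exact (ContinuousMap.dist_apply_le_dist _).trans_lt (hn k)

end

end SRSard
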