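import Pool.Agent.Lib.SRSard.LDefs

/-!
# Chunk LB: the curves are absolutely continuous and solve the ODE almost everywhere

Use `IntervalIntegrable.absolutelyContinuousOnInterval_intervalIntegral` and the Lebesgue
differentiation theorem for interval integrals.
-/

namespace SRSard

open MeasureTheory Set Filter Topology
open scoped ContDiff

noncomputable section

theorem lb_gam_eq (w : ℝ → SG) (k : Idx) (t : ℝ) :
    gam w t k = ∫ s in (0:ℝ)..t, hor (gam w s) (w s) k := by
  cases k with
  | x i => rfl
  | u => rfl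
  | v => rfl
  | t => rfl
  | m1 i => simp only [gam, gm, hor, pow_one]
  | m2 i => rfl
  | m3 i => rfl
  | mu => simp only [gam, gm, hor, pow_one]
  | mv => simp only [gam, gm, hor, pow_one]
  | z => rfl

theorem lb_coord_int (w : L2) (j : Fin 7) : IntervalIntegrable (fun s => w s j) volume 0 1 := by
  have h1 : MemLp w 2 mu01 := Lp.memLp w
  have h2 : MemLp (fun s => w s j) 2 mu01 := by
    refine h1.mono ?_ (Eventually.of_forall fun s => ?_)
    · have hc : Continuous (fun x : EuclideanSpace ℝ (Fin 7) => x j) := by fun_prop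
      exact hc.comp_aestronglyMeasurable h1.1
    · exact PiLp.norm_apply_le (w s) j
  have h3 : Integrable (fun s => w s j) mu01 := h2.integrable one_le_two
  rw [intervalIntegrable_iff_integrableOn_Icc_of_le zero_le_one]
  exact h3

theorem lb_ctl_apply (w : L2) (s : ℝ) (k : Idx) : ctl w s k = ∑ j, w s j * bas j k := by
  unfold ctl
  have h : ∀ (f : Fin 7 → SG), (∑ j, f j) k = ∑ j, f j k := fun f => Finset.sum_apply k _ f
  rw [h]
  rfl

theorem lb_ctl_int (w : L2) (k : Idx) : IntervalIntegrable (fun s => ctl w s k) volume 0 1 := by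
  have e : (fun s => ctl w s k) = fun s => ∑ j, w s j * bas j k := by
    funext s; exact lb_ctl_apply w s k
  rw [e]
  have h := IntervalIntegrable.sum (μ := volume) (a := (0 : ℝ)) (b := 1) Finset.univ
    (f := fun j s => w s j * bas j k) (fun j _ => (lb_coord_int w j).mul_const _)
  have e2 : (fun s => ∑ j, w s j * bas j k) = ∑ j : Fin 7, fun s => w s j * bas j k := by
    funext s; rw [Finset.sum_apply]
  rw [e2]
  exact h

theorem lb_prim {f : ℝ → ℝ} (hf : IntervalIntegrable f volume 0 1) :
    ContinuousOn (fun t => ∫ s in (0:ℝ)..t, f s) (uIcc 0 1) :=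
  intervalIntegral.continuousOn_primitive_interval' hf left_mem_uIcc

theorem lb_gx (w : L2) (k : Idx) : ContinuousOn (gx (ctl w) k) (uIcc 0 1) :=
  lb_prim (lb_ctl_int w k)

theorem lb_gm_int (w : L2) (n : ℕ) (k : Idx) :
    IntervalIntegrable (fun s => ctl w s .t * gx (ctl w) k s ^ n) volume 0 1 :=
  (lb_ctl_int w .t).mul_continuousOn ((lb_gx w k).pow n)

theorem lb_gm (w : L2) (n : ℕ) (k : Idx) : ContinuousOn (gm (ctl w) n k) (uIcc 0 1) :=
  lb_prim (lb_gm_int w n k)

theorem lb_gPhi (w : L2) : ContinuousOn (gPhi (ctl w)) (uIcc 0 1) := by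
  unfold gPhi
  refine ((lb_gx w .u).mul (lb_gx w .v)).add (continuousOn_finsetSum _ fun i _ => ?_)
  have h1 := lb_gx w (.x i)
  have h2 := lb_gx w .t
  have h3 := lb_gm w 1 (.x i)
  have h4 := lb_gm w 2 (.x i)
  have h5 := lb_gm w 3 (.x i)
  exact (continuousOn_const.mul (h1.pow 4)).add (continuousOn_const.mul
    (((((h1.pow 3).mul h2).sub ((continuousOn_const.mul (h1.pow 2)).mul h3)).add
      ((continuousOn_const.mul h1).mul h4)).sub h5))

theorem lb_int (w : L2) (k : Idx) :
    IntervalIntegrable (fun s => hor (gam (ctl w) s) (ctl w s) k) volume 0 1 := by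
  cases k with
  | x i => exact lb_ctl_int w (.x i)
  | u => exact lb_ctl_int w .u
  | v => exact lb_ctl_int w .v
  | t => exact lb_ctl_int w .t
  | m1 i =>
    have := lb_gm_int w 1 (.x i)
    simp only [pow_one] at this
    exact this
  | m2 i => exact lb_gm_int w 2 (.x i)
  | m3 i => exact lb_gm_int w 3 (.x i)
  | mu =>
    have := lb_gm_int w 1 .u
    simp only [pow_one] at this
    exact this
  | mv =>
    have := lb_gm_int w 1 .v
    simp only [pow_one] at this
    exact this
  | z => exact (lb_ctl_int w .t).mul_continuousOn (lb_gPhi w)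

/-- coordinates of the curve are absolutely continuous, with the expected derivative -/
theorem gam_ac (w : L2) (k : Idx) :
    AbsolutelyContinuousOnInterval (fun t => gam (ctl w) t k) 0 1 := by
  simp only [lb_gam_eq]
  exact (lb_int w k).absolutelyContinuousOnInterval_intervalIntegral left_mem_uIcc

theorem gam_deriv (w : L2) : ∀ᵐ t ∂mu01, ∀ k : Idx,
    HasDerivAt (fun t => gam (ctl w) t k) (hor (gam (ctl w) t) (ctl w t) k) t := by
  rw [ae_all_iff]
  intro k
  rw [ae_restrict_iff' measurableSet_Icc]
  filter_upwards [(lb_int w k).ae_hasDerivAt_integral] with t ht hmem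
  have h1 : t ∈ uIcc (0 : ℝ) 1 := by rwa [uIcc_of_le zero_le_one]
  have h2 := ht h1 0 left_mem_uIcc
  have e : (fun t => gam (ctl w) t k) = fun t => ∫ s in (0:ℝ)..t, hor (gam (ctl w) s) (ctl w s) k :=
    funext fun t => lb_gam_eq _ _ _
  rw [e]
  exact h2

theorem gam_continuousOn (w : L2) : ContinuousOn (gam (ctl w)) (Icc (0:ℝ) 1) := by
  have h : ∀ k : Idx, ContinuousOn (fun t => gam (ctl w) t k) (Icc (0:ℝ) 1) := by
    intro k
    simp only [lb_gam_eq]
    have := lb_prim (lb_int w k)
    rwa [uIcc_of_le zero_le_one] at this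
  exact (continuousOn_pi (X := fun _ : Idx => ℝ)).2 h

end

end SRSard
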