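import Pool.Agent.Lib.SRSard.LA

/-!
# Chunk LC: bounded controls give elements of `L2`

`W` is the class of `s ↦ (L • w (L s)) (x 0), ...`; only the horizontal coordinates of `w` matter in
`gam w`; then `gam_scale` (if `L ≠ 0`; the case `L = 0` is trivial with `W = 0`).
`ctl W` is a.e. equal to this function on `[0,1]`, and `gam` only depends on the a.e. class.
-/

namespace SRSard

open MeasureTheory Set Filter Topology
open scoped ContDiff

noncomputable section

theorem lc_gx_congr {w w' : ℝ → SG} {k : Idx} (h : (fun s => w s k) =ᵐ[mu01] fun s => w' s k)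
    {t : ℝ} (ht : t ∈ Icc (0:ℝ) 1) : gx w k t = gx w' k t := la_congr h ht

theorem lc_gm_congr {w w' : ℝ → SG} {k : Idx} (h : (fun s => w s k) =ᵐ[mu01] fun s => w' s k)
    (h' : (fun s => w s .t) =ᵐ[mu01] fun s => w' s .t) (n : ℕ)
    {t : ℝ} (ht : t ∈ Icc (0:ℝ) 1) : gm w n k t = gm w' n k t := by
  apply la_congr _ ht
  have h1 : ∀ᵐ s ∂mu01, s ∈ Icc (0:ℝ) 1 := ae_restrict_mem measurableSet_Icc
  filter_upwards [h', h1] with s hs hs1
  rw [lc_gx_congr h hs1]
  exact congrArg (· * gx w' k s ^ n) hs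

theorem lc_gam_congr {w w' : ℝ → SG} (hx : ∀ i, (fun s => w s (.x i)) =ᵐ[mu01] fun s => w' s (.x i))
    (hu : (fun s => w s .u) =ᵐ[mu01] fun s => w' s .u)
    (hv : (fun s => w s .v) =ᵐ[mu01] fun s => w' s .v)
    (ht : (fun s => w s .t) =ᵐ[mu01] fun s => w' s .t)
    {t : ℝ} (h : t ∈ Icc (0:ℝ) 1) : gam w t = gam w' t := by
  have hP : ∀ s ∈ Icc (0:ℝ) 1, gPhi w s = gPhi w' s := by
    intro s hs
    unfold gPhi
    rw [lc_gx_congr hu hs, lc_gx_congr hv hs, lc_gx_congr ht hs]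
    congr 1
    apply Finset.sum_congr rfl
    intro i _
    rw [lc_gx_congr (hx i) hs, lc_gm_congr (hx i) ht 1 hs, lc_gm_congr (hx i) ht 2 hs,
      lc_gm_congr (hx i) ht 3 hs]
  ext k
  cases k with
  | x i => exact lc_gx_congr (hx i) h
  | u => exact lc_gx_congr hu h
  | v => exact lc_gx_congr hv h
  | t => exact lc_gx_congr ht h
  | m1 i => exact lc_gm_congr (hx i) ht 1 h
  | m2 i => exact lc_gm_congr (hx i) ht 2 h
  | m3 i => exact lc_gm_congr (hx i) ht 3 h
  | mu => exact lc_gm_congr hu ht 1 h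
  | mv => exact lc_gm_congr hv ht 1 h
  | z =>
    change ∫ s in (0:ℝ)..t, w s .t * gPhi w s = ∫ s in (0:ℝ)..t, w' s .t * gPhi w' s
    apply la_congr _ h
    have h1 : ∀ᵐ s ∂mu01, s ∈ Icc (0:ℝ) 1 := ae_restrict_mem measurableSet_Icc
    filter_upwards [ht, h1] with s hs hs1
    rw [hP s hs1]
    exact congrArg (· * gPhi w' s) hs

/-- the horizontal indices -/
def lc_h : Fin 7 → Idx := ![.x 0, .x 1, .x 2, .x 3, .u, .v, .t]

def lc_F (v : ℝ → SG) (s : ℝ) : EuclideanSpace ℝ (Fin 7) :=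
  (PiLp.continuousLinearEquiv 2 ℝ (fun _ : Fin 7 => ℝ)).symm (fun j => v s (lc_h j))

theorem lc_memLp {v : ℝ → SG} (hv : Measurable v) {C : ℝ} (hC : ∀ s, ‖v s‖ ≤ C) :
    MemLp (lc_F v) 2 mu01 := by
  have hC0 : 0 ≤ C := (norm_nonneg _).trans (hC 0)
  set A := (PiLp.continuousLinearEquiv 2 ℝ (fun _ : Fin 7 => ℝ)).symm with hA
  have hm : Measurable (fun s => (fun j => v s (lc_h j) : Fin 7 → ℝ)) := by
    apply measurable_pi_iff.2
    intro j
    exact (measurable_pi_apply (lc_h j)).comp hv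
  refine MemLp.of_bound (C := ‖(A : (Fin 7 → ℝ) →L[ℝ] EuclideanSpace ℝ (Fin 7))‖ * C) ?_ ?_
  · exact (A.continuous.measurable.comp hm).aestronglyMeasurable
  · refine Eventually.of_forall fun s => ?_
    refine ((A : (Fin 7 → ℝ) →L[ℝ] EuclideanSpace ℝ (Fin 7)).le_opNorm _).trans ?_
    refine mul_le_mul_of_nonneg_left ?_ (norm_nonneg _)
    rw [pi_norm_le_iff_of_nonneg hC0]
    intro j
    exact (norm_le_pi_norm (f := (v s : Idx → ℝ)) (lc_h j)).trans (hC s)

theorem lc_scale_zero (w : ℝ → SG) (t : ℝ) : gam (fun s => (0:ℝ) • w (0 * s)) t = gam w 0 := by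
  rw [gam_zero]
  have h0 : ∀ (k : Idx), (0 : SG) k = 0 := fun _ => rfl
  ext k
  cases k <;> simp [gam, gx, gm, one_apply, h0]

/-- every bounded measurable control restricted to `[0, L]` and rescaled to `[0,1]` is an element
of `L2` -/
theorem exists_L2_of_ctrl {w : ℝ → SG} (hw : Ctrl w) {L : ℝ} (hL : 0 ≤ L) :
    ∃ W : L2, ∀ t ∈ Icc (0:ℝ) 1, gam (ctl W) t = gam w (L * t) := by
  set v : ℝ → SG := fun s => L • w (L * s) with hv
  have hvm : Measurable v := by
    have : Measurable (fun s : ℝ => w (L * s)) := hw.meas.comp (measurable_const_mul L)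
    exact this.const_smul L
  have hvb : ∀ s, ‖v s‖ ≤ L := by
    intro s
    rw [hv]
    simp only
    rw [norm_smul, Real.norm_of_nonneg hL]
    calc L * ‖w (L * s)‖ ≤ L * 1 := mul_le_mul_of_nonneg_left (hw.bound _) hL
      _ = L := mul_one L
  have hM := lc_memLp hvm hvb
  refine ⟨hM.toLp, fun t ht => ?_⟩
  have hae : ∀ᵐ s ∂mu01, (hM.toLp : L2) s = lc_F v s := hM.coeFn_toLp
  have h1 : gam (ctl hM.toLp) t = gam v t := by
    refine lc_gam_congr (fun i => ?_) ?_ ?_ ?_ ht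
    · filter_upwards [hae] with s hs
      rw [la_ctl_x, hs]
      fin_cases i <;> rfl
    · filter_upwards [hae] with s hs
      rw [la_ctl_u, hs]
      rfl
    · filter_upwards [hae] with s hs
      rw [la_ctl_v, hs]
      rfl
    · filter_upwards [hae] with s hs
      rw [la_ctl_t, hs]
      rfl
  rw [h1]
  rcases hL.eq_or_lt with h0 | h0
  · rw [hv, ← h0, zero_mul]
    exact lc_scale_zero w t
  · have h2 := gam_scale w (c := L⁻¹) (inv_ne_zero h0.ne') (L * t)
    rw [inv_inv, ← mul_assoc, inv_mul_cancel₀ h0.ne', one_mul] at h2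
    exact h2

end

end SRSard
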