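import Pool.Agent.Lib.SRSard.FA
import Pool.Agent.Lib.SRSard.LA
import Pool.Agent.Lib.SRSard.LB
import Pool.Agent.Lib.SRSard.LC

/-!
# Chunk FB: `End` is the endpoint map in the sense of the general definition

For a smooth function `f` the composition `f ∘ γ` is absolutely continuous with derivative
`fderiv f (γ t) (γ' t)` almost everywhere (`gam_ac`, `gam_deriv`).
-/

namespace SRSard

open MeasureTheory Set Filter Topology
open scoped Manifold ContDiff

noncomputable section

theorem fb_hor_sum (g : SG) (w : L2) (s : ℝ) :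
    (∑ j, w s j • hor g (bas j) : SG) = hor g (ctl w s) := by
  have hadd : ∀ a b : SG, hor g (a + b) = hor g a + hor g b := by
    intro a b
    ext k
    cases k <;> simp only [hor, la_add_apply] <;> ring
  have hsmul : ∀ (c : ℝ) (a : SG), hor g (c • a) = c • hor g a := by
    intro c a
    ext k
    cases k <;> simp only [hor, la_smul_apply] <;> ring
  let A : SG →ₗ[ℝ] SG := { toFun := hor g, map_add' := hadd, map_smul' := hsmul }
  have : A (ctl w s) = ∑ j, w s j • A (bas j) := by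
    unfold ctl
    rw [map_sum]
    simp only [map_smul]
  exact this.symm

/-- absolutely continuous coordinates composed with a Lipschitz function -/
theorem fb_ac {γ : ℝ → SG} (hγ : ∀ k, AbsolutelyContinuousOnInterval (fun t => γ t k) 0 1)
    {f : SG → ℝ} {K : Set SG} {C : NNReal} (hf : LipschitzOnWith C f K)
    (hK : ∀ t ∈ Icc (0:ℝ) 1, γ t ∈ K) :
    AbsolutelyContinuousOnInterval (fun t => f (γ t)) 0 1 := by
  have h1 : Tendsto (fun E : ℕ × (ℕ → ℝ × ℝ) => (C:ℝ) * ∑ k : Idx, ∑ i ∈ Finset.range E.1,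
      dist (γ (E.2 i).1 k) (γ (E.2 i).2 k))
      (AbsolutelyContinuousOnInterval.totalLengthFilter ⊓
        𝓟 (AbsolutelyContinuousOnInterval.disjWithin 0 1)) (𝓝 0) := by
    have h2 : Tendsto (fun E : ℕ × (ℕ → ℝ × ℝ) => (C:ℝ) * ∑ k : Idx, ∑ i ∈ Finset.range E.1,
      dist (γ (E.2 i).1 k) (γ (E.2 i).2 k))
      (AbsolutelyContinuousOnInterval.totalLengthFilter ⊓
        𝓟 (AbsolutelyContinuousOnInterval.disjWithin 0 1)) (𝓝 ((C:ℝ) * ∑ k : Idx, 0)) :=
      (tendsto_finsetSum _ fun k _ => hγ k).const_mul _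
    simpa using h2
  refine squeeze_zero' ?_ ?_ h1
  · exact Eventually.of_forall fun E => Finset.sum_nonneg fun _ _ => dist_nonneg
  · have h3 : ∀ᶠ E : ℕ × (ℕ → ℝ × ℝ) in (AbsolutelyContinuousOnInterval.totalLengthFilter ⊓
        𝓟 (AbsolutelyContinuousOnInterval.disjWithin 0 1)),
        E ∈ AbsolutelyContinuousOnInterval.disjWithin 0 1 :=
      eventually_inf_principal.mpr (by simp)
    filter_upwards [h3] with E hE
    rw [Finset.sum_comm, Finset.mul_sum]
    refine Finset.sum_le_sum fun i hi => ?_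
    have hi' := hE.1 i hi
    rw [uIcc_of_le zero_le_one] at hi'
    have h4 : dist (f (γ (E.2 i).1)) (f (γ (E.2 i).2)) ≤ C * dist (γ (E.2 i).1) (γ (E.2 i).2) :=
      hf.dist_le_mul _ (hK _ hi'.1) _ (hK _ hi'.2)
    refine h4.trans (mul_le_mul_of_nonneg_left ?_ C.coe_nonneg)
    have h5 : ∀ a b : Idx → ℝ, dist a b ≤ ∑ k, dist (a k) (b k) := by
      intro a b
      rw [dist_pi_le_iff (Finset.sum_nonneg fun _ _ => dist_nonneg)]
      intro k
      exact Finset.single_le_sum (f := fun k => dist (a k) (b k)) (fun _ _ => dist_nonneg)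
        (Finset.mem_univ k)
    exact h5 _ _

theorem fb_comp_ac (w : L2) {f : SG → ℝ} (hf : ContDiff ℝ ∞ f) :
    AbsolutelyContinuousOnInterval (fun t => f (gam (ctl w) t)) 0 1 := by
  have hc : IsCompact (gam (ctl w) '' Icc (0:ℝ) 1) :=
    isCompact_Icc.image_of_continuousOn (gam_continuousOn w)
  obtain ⟨R, hR⟩ := hc.isBounded.subset_closedBall (0 : SG)
  have hK : IsCompact (Metric.closedBall (0:SG) R) := isCompact_closedBall _ _
  obtain ⟨C, hC⟩ := (hf.contDiffOn (s := Metric.closedBall (0:SG) R)).exists_lipschitzOnWith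
    (by decide) (convex_closedBall _ _) hK
  exact fb_ac (gam_ac w) hC fun t ht => hR ⟨t, ht, rfl⟩

theorem fb_deriv (w : L2) {f : SG → ℝ} (hf : ContDiff ℝ ∞ f) :
    ∀ᵐ t ∂mu01, HasDerivAt (fun t => f (gam (ctl w) t))
      (fderiv ℝ f (gam (ctl w) t) (hor (gam (ctl w) t) (ctl w t))) t := by
  filter_upwards [gam_deriv w] with t ht
  have h1 : HasDerivAt (gam (ctl w)) (hor (gam (ctl w) t) (ctl w t)) t :=
    hasDerivAt_pi.2 ht
  have h2 : HasFDerivAt f (fderiv ℝ f (gam (ctl w) t)) (gam (ctl w) t) :=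
    (hf.differentiable (by decide)).differentiableAt.hasFDerivAt
  exact h2.comp_hasDerivAt t h1

theorem fb_ftc (w : L2) {f : SG → ℝ} (hf : ContDiff ℝ ∞ f) {t : ℝ} (ht : t ∈ Icc (0:ℝ) 1) :
    IntervalIntegrable
      (fun s => fderiv ℝ f (gam (ctl w) s) (hor (gam (ctl w) s) (ctl w s))) volume 0 t ∧
    f (gam (ctl w) t) - f (gam (ctl w) 0) =
      ∫ s in (0:ℝ)..t, fderiv ℝ f (gam (ctl w) s) (hor (gam (ctl w) s) (ctl w s)) := by
  have hac : AbsolutelyContinuousOnInterval (fun t => f (gam (ctl w) t)) 0 t := by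
    apply (fb_comp_ac w hf).mono
    rw [uIcc_of_le ht.1, uIcc_of_le zero_le_one]
    exact Icc_subset_Icc_right ht.2
  have hd := fb_deriv w hf
  have hd' : ∀ᵐ s ∂volume, s ∈ Icc (0:ℝ) 1 → HasDerivAt (fun t => f (gam (ctl w) t))
      (fderiv ℝ f (gam (ctl w) s) (hor (gam (ctl w) s) (ctl w s))) s :=
    (ae_restrict_iff' measurableSet_Icc).1 hd
  have he : ∀ᵐ s ∂volume, s ∈ Set.uIoc (0:ℝ) t → deriv (fun t => f (gam (ctl w) t)) s =
      fderiv ℝ f (gam (ctl w) s) (hor (gam (ctl w) s) (ctl w s)) := by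
    filter_upwards [hd'] with s hs hs'
    rw [uIoc_of_le ht.1] at hs'
    exact (hs ⟨hs'.1.le, hs'.2.trans ht.2⟩).deriv
  constructor
  · refine hac.intervalIntegrable_deriv.congr_ae ?_
    exact (ae_restrict_iff' measurableSet_uIoc).2 he
  · rw [← hac.integral_deriv_eq_sub]
    exact intervalIntegral.integral_congr_ae he

theorem isEndpointMap_End : IsEndpointMap 𝓘(ℝ, SG) (G := SG) bas End := by
  refine ⟨contMDiff_iff_contDiff.2 contDiff_End, fun w => ⟨gam (ctl w), ⟨gam_continuousOn w,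
    gam_zero _, fun f hf t ht => ?_⟩, rfl⟩⟩
  have hf' : ContDiff ℝ ∞ f := contMDiff_iff_contDiff.1 hf
  have h := fb_ftc w hf' ht
  have key : ∀ s, (∑ j, w s j • (mulInvariantVectorField (I := 𝓘(ℝ, SG)) (G := SG) (bas j)
      (gam (ctl w) s) : SG) : SG) = hor (gam (ctl w) s) (ctl w s) := by
    intro s
    rw [← fb_hor_sum]
    refine Finset.sum_congr rfl fun j _ => ?_
    exact congrArg (fun x : SG => w s j • x) (invariant_field _ j)
  have he : (fun s => fderiv ℝ f (gam (ctl w) s) (hor (gam (ctl w) s) (ctl w s))) =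
      fun s => fderiv ℝ f (gam (ctl w) s) (∑ j, w s j •
        (mulInvariantVectorField (I := 𝓘(ℝ, SG)) (G := SG) (bas j) (gam (ctl w) s) : SG)) := by
    funext s
    rw [key]
  rw [he] at h
  simp only [mfderiv_eq_fderiv]
  exact h

end

end SRSard
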