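import Pool.Agent.Lib.SRSard.OpenData

/-!
# Chunk OPEN: the image of `(g, h) ↦ g⁻¹ * h` on the explicit points is a neighbourhood

`rpt` is a rational map of 12 parameters.  At an explicit rational point the derivative of
`(y, y') ↦ (rpt y)⁻¹ * rpt y'` has rank 22 (checked by exact arithmetic); then use
`HasStrictFDerivAt.map_nhds_eq_of_surj`.
-/

namespace SRSard

open Set Filter Topology

noncomputable section

set_option linter.unusedSimpArgs false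

/-- same as `rpt` in `Param.lean` -/
def rpt' (a : Fin 4 → ℝ) (T pA pB : ℝ) (x : Fin 4 → ℝ) (r : ℝ) : SG :=
  setPos (node a T (prs pA pB)) x (- pot (node a T (prs pA pB)) x / r) r

/-- the parameter space -/
abbrev OQ : Type := (Fin 4 → ℝ) × ℝ × ℝ × ℝ × (Fin 4 → ℝ) × ℝ

/-- the explicit points as a map on the parameter space -/
def om (y : OQ) : SG :=
  rpt' y.1 y.2.1 y.2.2.1 y.2.2.2.1 y.2.2.2.2.1 y.2.2.2.2.2

/-- its derivative -/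
def omD (y d : OQ) : SG :=
  odPt (oNd y.1 y.2.1 y.2.2.1 y.2.2.2.1)
    (oNdD y.1 y.2.1 y.2.2.1 y.2.2.2.1 d.1 d.2.1 d.2.2.1 d.2.2.2.1)
    y.2.2.2.2.1 d.2.2.2.2.1 y.2.2.2.2.2 d.2.2.2.2.2

def oyg : OQ := (![0, (-1), 0, 1], 1, 1, 1, ![0, (-1), (-1), 0], (-1))
def oyh : OQ := (![0, 0, 0, 0], 0, 1, 1, ![(-1), 1, (-1), 1], 1)

theorem om_g : om oyg = og := by
  rw [← og_eq, ← ong_eq]; rfl

theorem om_h : om oyh = oh := by
  rw [← oh_eq, ← onh_eq]; rfl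

/-- linear part of left multiplication as a linear map -/
def odRl (a : SG) : SG →ₗ[ℝ] SG where
  toFun := odR a
  map_add' := by
    intro b c
    have hp : ∀ (p q : SG) (j : Idx), (p + q) j = p j + q j := fun _ _ _ => rfl
    ext k
    cases k with
    | z =>
      simp only [odR, hp, Fin.sum_univ_four]
      ring
    | _ =>
      simp only [odR, hp] <;> ring
  map_smul' := by
    intro r b
    have hp : ∀ (p : SG) (j : Idx), (r • p) j = r * p j := fun _ _ => rfl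
    ext k
    cases k with
    | z =>
      simp only [odR, hp, Fin.sum_univ_four, RingHom.id_apply]
      ring
    | _ =>
      simp only [odR, hp, RingHom.id_apply] <;> ring

theorem odRl_inv (a b : SG) : odRl a⁻¹ (odR a b) = b := by
  have h1 : a⁻¹ * (a * b) = b := inv_mul_cancel_left a b
  rw [mul_eq_add_odR a b, mul_eq_add_odR a⁻¹] at h1
  have h2 : a⁻¹ * a = 1 := inv_mul_cancel a
  rw [mul_eq_add_odR a⁻¹, one_eq_zero] at h2
  have h3 : odR a⁻¹ (a + odR a b) = odR a⁻¹ a + odR a⁻¹ (odR a b) := (odRl a⁻¹).map_add _ _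
  rw [h3, ← add_assoc, h2, zero_add] at h1
  exact h1

theorem oidx_univ : (Finset.univ : Finset Idx) = {.x 0, .x 1, .x 2, .x 3, .u, .v, .t, .m1 0, .m1 1,
    .m1 2, .m1 3, .m2 0, .m2 1, .m2 2, .m2 3, .m3 0, .m3 1, .m3 2, .m3 3, .mu, .mv, .z} := by
  decide

theorem osum (f : Idx → ℝ) : ∑ k, f k = f (.x 0) + f (.x 1) + f (.x 2) + f (.x 3) + f .u + f .v + f .t + f (.m1 0) + f (.m1 1) + f (.m1 2) + f (.m1 3) + f (.m2 0) + f (.m2 1) + f (.m2 2) + f (.m2 3) + f (.m3 0) + f (.m3 1) + f (.m3 2) + f (.m3 3) + f .mu + f .mv + f .z := by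
  rw [oidx_univ]
  repeat rw [Finset.sum_insert (by decide)]
  rw [Finset.sum_singleton]
  ring

/-- basis vectors -/
def ob (k : Idx) : SG := fun j => if k = j then 1 else 0

theorem omu_eq (μ : SG →ₗ[ℝ] ℝ) (v : SG) : μ v = ∑ k, v k * μ (ob k) :=
  LinearMap.pi_apply_eq_sum_univ (R := ℝ) (M₂ := ℝ) μ v

theorem olit_apply {μ : SG →ₗ[ℝ] ℝ} {x : Fin 4 → ℝ} {u v t : ℝ} {m1 m2 m3 : Fin 4 → ℝ}
    {mu mv z : ℝ} (h : μ (olit x u v t m1 m2 m3 mu mv z) = 0) :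
    x 0 * μ (ob (.x 0)) + x 1 * μ (ob (.x 1)) + x 2 * μ (ob (.x 2)) + x 3 * μ (ob (.x 3)) + u * μ (ob .u) + v * μ (ob .v) + t * μ (ob .t) + m1 0 * μ (ob (.m1 0)) + m1 1 * μ (ob (.m1 1)) + m1 2 * μ (ob (.m1 2)) + m1 3 * μ (ob (.m1 3)) + m2 0 * μ (ob (.m2 0)) + m2 1 * μ (ob (.m2 1)) + m2 2 * μ (ob (.m2 2)) + m2 3 * μ (ob (.m2 3)) + m3 0 * μ (ob (.m3 0)) + m3 1 * μ (ob (.m3 1)) + m3 2 * μ (ob (.m3 2)) + m3 3 * μ (ob (.m3 3)) + mu * μ (ob .mu) + mv * μ (ob .mv) + z * μ (ob .z) = 0 := by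
  have h1 := omu_eq μ (olit x u v t m1 m2 m3 mu mv z)
  rw [h, osum] at h1
  exact h1.symm

theorem ofun {μ : SG →ₗ[ℝ] ℝ}
    (hg0 : μ (olit ![0, 0, 0, 0] 0 0 0 ![1, 0, 0, 0] ![(-1), 0, 0, 0] ![0, 0, 0, 0] 0 0 (1 / 20)) = 0)
    (hg1 : μ (olit ![0, 0, 0, 0] 0 0 0 ![0, (98 / 101), 0, 0] ![0, (-(197 / 101)), 0, 0] ![0, (297 / 101), 0, 0] 0 0 (-(981 / 2020))) = 0)
    (hg2 : μ (olit ![0, 0, 0, 0] 0 0 0 ![0, 0, 1, 0] ![0, 0, (-1), 0] ![0, 0, 0, 0] 0 0 (1 / 20)) = 0)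
    (hg5 : μ (olit ![0, 0, 0, 0] 0 0 0 ![(-(1 / 2)), (-(1 / 202)), 0, 0] ![0, (1 / 101), 0, 0] ![(1 / 2), (-(1 / 101)), 0, 0] 0 0 (7 / 2020)) = 0)
    (hg6 : μ (olit ![0, 0, 0, 0] 0 0 0 ![0, 0, (-(1 / 2)), (-(1 / 202))] ![0, 0, 0, (-(1 / 101))] ![0, 0, (1 / 2), (-(1 / 101))] 0 0 (-(7 / 2020))) = 0)
    (hg7 : μ (olit ![1, 0, 0, 0] 0 0 0 ![(-1), 0, 0, 0] ![0, 0, 0, 0] ![0, 0, 0, 0] 0 0 0) = 0)
    (hg8 : μ (olit ![0, 1, 0, 0] 0 0 0 ![0, (-1), 0, 0] ![0, (199 / 101), 0, 0] ![0, (-(300 / 101)), 0, 0] 0 0 (199 / 404)) = 0)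
    (hg9 : μ (olit ![0, 0, 1, 0] (-1) 0 0 ![0, 0, (-1), 0] ![0, 0, 0, 0] ![0, 0, 0, 0] 1 0 0) = 0)
    (hg10 : μ (olit ![0, 0, 0, 1] (-102) 0 0 ![0, 0, 0, (-1)] ![0, 0, 0, (-(205 / 101))] ![0, 0, 0, (-(306 / 101))] 102 0 (-(205 / 404))) = 0)
    (hg11 : μ (olit ![0, 0, 0, 0] (103 / 3) 1 0 ![0, 0, 0, 0] ![0, 0, 0, 0] ![0, 0, 0, 0] (-(103 / 3)) (-1) 0) = 0)
    (hh0 : μ (olit ![0, 0, 0, 0] (-1) 0 0 ![0, 0, 0, 0] ![(-1), 0, 0, 0] ![0, 0, 0, 0] 0 0 (1 / 20)) = 0)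
    (hh1 : μ (olit ![0, 0, 0, 0] (-1) 0 0 ![0, 0, 0, 0] ![0, (-(1 / 101)), 0, 0] ![0, 0, 0, 0] 0 0 (-(1 / 2020))) = 0)
    (hh2 : μ (olit ![0, 0, 0, 0] (-1) 0 0 ![0, 0, 0, 0] ![0, 0, (-1), 0] ![0, 0, 0, 0] 0 0 (1 / 20)) = 0)
    (hh3 : μ (olit ![0, 0, 0, 0] (-1) 0 0 ![0, 0, 0, 0] ![0, 0, 0, (-(1 / 101))] ![0, 0, 0, 0] 0 0 (-(1 / 2020))) = 0)
    (hh4 : μ (olit ![0, 0, 0, 0] 68 0 1 ![0, 0, 0, 0] ![0, 0, 0, 0] ![0, 0, 0, 0] 0 0 0) = 0)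
    (hh5 : μ (olit ![0, 0, 0, 0] 0 0 0 ![(-(1 / 2)), (-(1 / 202)), 0, 0] ![0, 0, 0, 0] ![(1 / 2), (1 / 202), 0, 0] 0 0 0) = 0)
    (hh6 : μ (olit ![0, 0, 0, 0] 0 0 0 ![0, 0, (-(1 / 2)), (-(1 / 202))] ![0, 0, 0, 0] ![0, 0, (1 / 2), (1 / 202)] 0 0 0) = 0)
    (hh7 : μ (olit ![1, 0, 0, 0] 2 0 0 ![0, 0, 0, 0] ![0, 0, 0, 0] ![0, 0, 0, 0] 0 0 0) = 0)
    (hh8 : μ (olit ![0, 1, 0, 0] 2 0 0 ![0, 0, 0, 0] ![0, 0, 0, 0] ![0, 0, 0, 0] 0 0 0) = 0)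
    (hh9 : μ (olit ![0, 0, 1, 0] 2 0 0 ![0, 0, 0, 0] ![0, 0, 0, 0] ![0, 0, 0, 0] 0 0 0) = 0)
    (hh10 : μ (olit ![0, 0, 0, 1] 2 0 0 ![0, 0, 0, 0] ![0, 0, 0, 0] ![0, 0, 0, 0] 0 0 0) = 0)
    (hh11 : μ (olit ![0, 0, 0, 0] 0 1 0 ![0, 0, 0, 0] ![0, 0, 0, 0] ![0, 0, 0, 0] 0 0 0) = 0) :
    ∀ k, μ (ob k) = 0 := by
  replace hg0 := olit_apply hg0
  simp only [Matrix.cons_val_zero, Matrix.cons_val_one, ov2, ov3, zero_mul, one_mul, zero_add, add_zero] at hg0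
  replace hg1 := olit_apply hg1
  simp only [Matrix.cons_val_zero, Matrix.cons_val_one, ov2, ov3, zero_mul, one_mul, zero_add, add_zero] at hg1
  replace hg2 := olit_apply hg2
  simp only [Matrix.cons_val_zero, Matrix.cons_val_one, ov2, ov3, zero_mul, one_mul, zero_add, add_zero] at hg2
  replace hg5 := olit_apply hg5
  simp only [Matrix.cons_val_zero, Matrix.cons_val_one, ov2, ov3, zero_mul, one_mul, zero_add, add_zero] at hg5
  replace hg6 := olit_apply hg6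
  simp only [Matrix.cons_val_zero, Matrix.cons_val_one, ov2, ov3, zero_mul, one_mul, zero_add, add_zero] at hg6
  replace hg7 := olit_apply hg7
  simp only [Matrix.cons_val_zero, Matrix.cons_val_one, ov2, ov3, zero_mul, one_mul, zero_add, add_zero] at hg7
  replace hg8 := olit_apply hg8
  simp only [Matrix.cons_val_zero, Matrix.cons_val_one, ov2, ov3, zero_mul, one_mul, zero_add, add_zero] at hg8
  replace hg9 := olit_apply hg9
  simp only [Matrix.cons_val_zero, Matrix.cons_val_one, ov2, ov3, zero_mul, one_mul, zero_add, add_zero] at hg9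
  replace hg10 := olit_apply hg10
  simp only [Matrix.cons_val_zero, Matrix.cons_val_one, ov2, ov3, zero_mul, one_mul, zero_add, add_zero] at hg10
  replace hg11 := olit_apply hg11
  simp only [Matrix.cons_val_zero, Matrix.cons_val_one, ov2, ov3, zero_mul, one_mul, zero_add, add_zero] at hg11
  replace hh0 := olit_apply hh0
  simp only [Matrix.cons_val_zero, Matrix.cons_val_one, ov2, ov3, zero_mul, one_mul, zero_add, add_zero] at hh0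
  replace hh1 := olit_apply hh1
  simp only [Matrix.cons_val_zero, Matrix.cons_val_one, ov2, ov3, zero_mul, one_mul, zero_add, add_zero] at hh1
  replace hh2 := olit_apply hh2
  simp only [Matrix.cons_val_zero, Matrix.cons_val_one, ov2, ov3, zero_mul, one_mul, zero_add, add_zero] at hh2
  replace hh3 := olit_apply hh3
  simp only [Matrix.cons_val_zero, Matrix.cons_val_one, ov2, ov3, zero_mul, one_mul, zero_add, add_zero] at hh3
  replace hh4 := olit_apply hh4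
  simp only [Matrix.cons_val_zero, Matrix.cons_val_one, ov2, ov3, zero_mul, one_mul, zero_add, add_zero] at hh4
  replace hh5 := olit_apply hh5
  simp only [Matrix.cons_val_zero, Matrix.cons_val_one, ov2, ov3, zero_mul, one_mul, zero_add, add_zero] at hh5
  replace hh6 := olit_apply hh6
  simp only [Matrix.cons_val_zero, Matrix.cons_val_one, ov2, ov3, zero_mul, one_mul, zero_add, add_zero] at hh6
  replace hh7 := olit_apply hh7
  simp only [Matrix.cons_val_zero, Matrix.cons_val_one, ov2, ov3, zero_mul, one_mul, zero_add, add_zero] at hh7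
  replace hh8 := olit_apply hh8
  simp only [Matrix.cons_val_zero, Matrix.cons_val_one, ov2, ov3, zero_mul, one_mul, zero_add, add_zero] at hh8
  replace hh9 := olit_apply hh9
  simp only [Matrix.cons_val_zero, Matrix.cons_val_one, ov2, ov3, zero_mul, one_mul, zero_add, add_zero] at hh9
  replace hh10 := olit_apply hh10
  simp only [Matrix.cons_val_zero, Matrix.cons_val_one, ov2, ov3, zero_mul, one_mul, zero_add, add_zero] at hh10
  replace hh11 := olit_apply hh11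
  simp only [Matrix.cons_val_zero, Matrix.cons_val_one, ov2, ov3, zero_mul, one_mul, zero_add, add_zero] at hh11
  have e0 : μ (ob (.x 0)) = 0 := by
    linear_combination 2 * hg0 + 2 * hg7 + (-2) * hh0 + (-1) * hh7
  have e1 : μ (ob (.x 1)) = 0 := by
    linear_combination 2 * hg0 + 2 * hg7 + (-2) * hh0 + (-2) * hh7 + 1 * hh8
  have e2 : μ (ob (.x 2)) = 0 := by
    linear_combination 2 * hg0 + 2 * hg7 + (-2) * hh0 + (-2) * hh7 + 1 * hh9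
  have e3 : μ (ob (.x 3)) = 0 := by
    linear_combination 2 * hg0 + 2 * hg7 + (-2) * hh0 + (-2) * hh7 + 1 * hh10
  have e4 : μ (ob .u) = 0 := by
    linear_combination (-1) * hg0 + (-1) * hg7 + 1 * hh0 + 1 * hh7
  have e5 : μ (ob .v) = 0 := by
    linear_combination 1 * hh11
  have e6 : μ (ob .t) = 0 := by
    linear_combination 68 * hg0 + 68 * hg7 + (-68) * hh0 + 1 * hh4 + (-68) * hh7
  have e7 : μ (ob (.m1 0)) = 0 := by
    linear_combination 2 * hg0 + 1 * hg7 + (-2) * hh0 + (-1) * hh7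
  have e8 : μ (ob (.m1 1)) = 0 := by
    linear_combination (202 / 3) * hg0 + (-(101 / 3)) * hg1 + (202 / 3) * hg5 + (202 / 3) * hg7 + (-(101 / 3)) * hg8 + (-(202 / 3)) * hh0 + (-(202 / 3)) * hh5 + (-(202 / 3)) * hh7 + (101 / 3) * hh8
  have e9 : μ (ob (.m1 2)) = 0 := by
    linear_combination 1 * hg0 + 1 * hg2 + 1 * hg7 + (-1) * hh0 + (-1) * hh2 + (-1) * hh7
  have e10 : μ (ob (.m1 3)) = 0 := by
    linear_combination (-(502 / 3)) * hg0 + (101 / 3) * hg1 + 102 * hg2 + (398 / 3) * hg5 + 204 * hg6 + (-(502 / 3)) * hg7 + (98 / 3) * hg8 + 102 * hg9 + (-1) * hg10 + (502 / 3) * hh0 + 1 * hh1 + (-102) * hh2 + 1 * hh3 + (-(398 / 3)) * hh5 + (-204) * hh6 + (502 / 3) * hh7 + (-(98 / 3)) * hh8 + (-102) * hh9 + 1 * hh10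
  have e11 : μ (ob (.m2 0)) = 0 := by
    linear_combination (-(187 / 12)) * hg0 + (101 / 12) * hg1 + (199 / 6) * hg5 + (-(187 / 12)) * hg7 + (49 / 6) * hg8 + (175 / 12) * hh0 + (1 / 4) * hh1 + (-(199 / 6)) * hh5 + (187 / 12) * hh7 + (-(49 / 6)) * hh8
  have e12 : μ (ob (.m2 1)) = 0 := by
    linear_combination (1411 / 12) * hg0 + (-(101 / 12)) * hg1 + (-(199 / 6)) * hg5 + (1411 / 12) * hg7 + (-(49 / 6)) * hg8 + (-(1411 / 12)) * hh0 + (-(405 / 4)) * hh1 + (199 / 6) * hh5 + (-(1411 / 12)) * hh7 + (49 / 6) * hh8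
  have e13 : μ (ob (.m2 2)) = 0 := by
    linear_combination (-(187 / 12)) * hg0 + (101 / 12) * hg1 + (199 / 6) * hg5 + (-(187 / 12)) * hg7 + (49 / 6) * hg8 + (187 / 12) * hh0 + (1 / 4) * hh1 + (-1) * hh2 + (-(199 / 6)) * hh5 + (187 / 12) * hh7 + (-(49 / 6)) * hh8
  have e14 : μ (ob (.m2 3)) = 0 := by
    linear_combination (1411 / 12) * hg0 + (-(101 / 12)) * hg1 + (-(199 / 6)) * hg5 + (1411 / 12) * hg7 + (-(49 / 6)) * hg8 + (-(1411 / 12)) * hh0 + (-(1 / 4)) * hh1 + (-101) * hh3 + (199 / 6) * hh5 + (-(1411 / 12)) * hh7 + (49 / 6) * hh8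
  have e15 : μ (ob (.m3 0)) = 0 := by
    linear_combination (805 / 303) * hg0 + (-(2 / 3)) * hg1 + (2 / 101) * hg5 + (502 / 303) * hg7 + (-(199 / 303)) * hg8 + (-(805 / 303)) * hh0 + (199 / 303) * hh1 + (200 / 101) * hh5 + (-(502 / 303)) * hh7 + (199 / 303) * hh8
  have e16 : μ (ob (.m3 1)) = 0 := by
    linear_combination 1 * hg0 + (101 / 3) * hg1 + (196 / 3) * hg5 + 1 * hg7 + (98 / 3) * hg8 + (-1) * hh0 + (-(199 / 3)) * hh1 + (-(196 / 3)) * hh5 + (-1) * hh7 + (-(98 / 3)) * hh8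
  have e17 : μ (ob (.m3 2)) = 0 := by
    linear_combination (-(196 / 303)) * hg0 + (2 / 3) * hg1 + (203 / 101) * hg2 + (796 / 303) * hg5 + (814 / 303) * hg6 + (-(196 / 303)) * hg7 + (196 / 303) * hg8 + (102 / 101) * hg9 + (-(1 / 101)) * hg10 + (196 / 303) * hh0 + (2 / 101) * hh1 + (-(203 / 101)) * hh2 + (-(199 / 303)) * hh3 + (-(796 / 303)) * hh5 + (-(208 / 303)) * hh6 + (196 / 303) * hh7 + (-(196 / 303)) * hh8 + (-(102 / 101)) * hh9 + (1 / 101) * hh10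
  have e18 : μ (ob (.m3 3)) = 0 := by
    linear_combination (-1) * hg0 + (-(101 / 3)) * hg1 + (-(398 / 3)) * hg5 + (-(202 / 3)) * hg6 + (-1) * hg7 + (-(98 / 3)) * hg8 + 1 * hh0 + (-1) * hh1 + (202 / 3) * hh3 + (398 / 3) * hh5 + (202 / 3) * hh6 + 1 * hh7 + (98 / 3) * hh8
  have e19 : μ (ob .mu) = 0 := by
    linear_combination (-2) * hg0 + 1 * hg2 + (-2) * hg7 + 1 * hg9 + 2 * hh0 + (-1) * hh2 + 2 * hh7 + (-1) * hh9
  have e20 : μ (ob .mv) = 0 := by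
    linear_combination (103 / 3) * hg0 + (-(103 / 3)) * hg2 + (103 / 3) * hg7 + (-(103 / 3)) * hg9 + (-1) * hg11 + (-(103 / 3)) * hh0 + (103 / 3) * hh2 + (-(103 / 3)) * hh7 + (103 / 3) * hh9 + 1 * hh11
  have e21 : μ (ob .z) = 0 := by
    linear_combination (-(995 / 3)) * hg0 + (505 / 3) * hg1 + (1990 / 3) * hg5 + (-(995 / 3)) * hg7 + (490 / 3) * hg8 + (995 / 3) * hh0 + 5 * hh1 + (-(1990 / 3)) * hh5 + (995 / 3) * hh7 + (-(490 / 3)) * hh8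
  intro k
  cases k with
  | x i => fin_cases i; exacts [e0, e1, e2, e3]
  | u => exact e4
  | v => exact e5
  | t => exact e6
  | m1 i => fin_cases i; exacts [e7, e8, e9, e10]
  | m2 i => fin_cases i; exacts [e11, e12, e13, e14]
  | m3 i => fin_cases i; exacts [e15, e16, e17, e18]
  | mu => exact e19
  | mv => exact e20
  | z => exact e21
theorem om_deriv (y d : OQ) (h : y.2.2.2.2.2 ≠ 0) (k : Idx) :
    HasDerivAt (fun t : ℝ => om (y + t • d) k) (omD y d k) 0 := by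
  have hl : ∀ a b : ℝ, HasDerivAt (fun t : ℝ => a + t * b) b 0 := by
    intro a b
    simpa using ((hasDerivAt_id (0:ℝ)).mul_const b).const_add a
  have h1 : ∀ i, HasDerivAt (fun t : ℝ => (y + t • d).1 i) (d.1 i) 0 := fun i => hl _ _
  have h2 : HasDerivAt (fun t : ℝ => (y + t • d).2.1) d.2.1 0 := hl _ _
  have h3 : HasDerivAt (fun t : ℝ => (y + t • d).2.2.1) d.2.2.1 0 := hl _ _
  have h4 : HasDerivAt (fun t : ℝ => (y + t • d).2.2.2.1) d.2.2.2.1 0 := hl _ _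
  have h5 : ∀ i, HasDerivAt (fun t : ℝ => (y + t • d).2.2.2.2.1 i) (d.2.2.2.2.1 i) 0 :=
    fun i => hl _ _
  have h6 : HasDerivAt (fun t : ℝ => (y + t • d).2.2.2.2.2) d.2.2.2.2.2 0 := hl _ _
  have hp : ∀ i, HasDerivAt (fun t : ℝ => prs (y + t • d).2.2.1 (y + t • d).2.2.2.1 i)
      (prs d.2.2.1 d.2.2.2.1 i) 0 := by
    intro i
    fin_cases i
    · exact h3
    · exact h3
    · exact h4
    · exact h4
  have hn := od_node h1 h2 hp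
  have hz : y + (0:ℝ) • d = y := by simp
  have h0 : (y + (0:ℝ) • d).2.2.2.2.2 ≠ 0 := by rw [hz]; exact h
  have := od_pt hn h5 h6 h0 k
  rw [hz] at this
  exact this

/-- the map whose image contains an open set -/
def oF (y : OQ × OQ) : SG := (om y.1)⁻¹ * om y.2

theorem oc_mul {E : Type} [NormedAddCommGroup E] [NormedSpace ℝ E] {a b : E → SG} {x : E}
    (ha : ∀ k, ContDiffAt ℝ 1 (fun t => a t k) x) (hb : ∀ k, ContDiffAt ℝ 1 (fun t => b t k) x)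
    (k : Idx) : ContDiffAt ℝ 1 (fun t => (a t * b t) k) x := by
  cases k with
  | z =>
    simp only [mul_apply, mulFun, Fin.sum_univ_four]
    fun_prop
  | _ =>
    simp only [mul_apply, mulFun]
    fun_prop

theorem oc_inv {E : Type} [NormedAddCommGroup E] [NormedSpace ℝ E] {a : E → SG} {x : E}
    (ha : ∀ k, ContDiffAt ℝ 1 (fun t => a t k) x)
    (k : Idx) : ContDiffAt ℝ 1 (fun t => (a t)⁻¹ k) x := by
  cases k with
  | z =>
    simp only [inv_apply, invFun, Fin.sum_univ_four]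
    fun_prop
  | _ =>
    simp only [inv_apply, invFun]
    fun_prop

theorem oc_node {E : Type} [NormedAddCommGroup E] [NormedSpace ℝ E] {a : E → Fin 4 → ℝ}
    {T : E → ℝ} {p : E → Fin 4 → ℝ} {x : E} (ha : ∀ i, ContDiffAt ℝ 1 (fun t => a t i) x)
    (hT : ContDiffAt ℝ 1 T x) (hp : ∀ i, ContDiffAt ℝ 1 (fun t => p t i) x) (k : Idx) :
    ContDiffAt ℝ 1 (fun t => node (a t) (T t) (p t) k) x := by
  cases k with
  | z =>
    simp only [node, ndM1, ndM2, ndM3, div_eq_mul_inv, Fin.sum_univ_four]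
    fun_prop
  | _ =>
    simp only [node, ndM1, ndM2, ndM3, div_eq_mul_inv]
    fun_prop

theorem oc_pt {E : Type} [NormedAddCommGroup E] [NormedSpace ℝ E] {g : E → SG}
    {y : E → Fin 4 → ℝ} {r : E → ℝ} {x : E} (hg : ∀ k, ContDiffAt ℝ 1 (fun t => g t k) x)
    (hy : ∀ i, ContDiffAt ℝ 1 (fun t => y t i) x) (hr : ContDiffAt ℝ 1 r x) (h0 : r x ≠ 0)
    (k : Idx) : ContDiffAt ℝ 1
      (fun t => setPos (g t) (y t) (- pot (g t) (y t) / r t) (r t) k) x := by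
  have hri : ContDiffAt ℝ 1 (fun t => (r t)⁻¹) x := hr.inv h0
  have hpot : ContDiffAt ℝ 1 (fun t => pot (g t) (y t)) x := by
    simp only [pot, Fin.sum_univ_four]
    fun_prop
  cases k with
  | x i => exact hy i
  | u =>
    simp only [setPos, div_eq_mul_inv]
    exact hpot.neg.mul hri
  | v => exact hr
  | t => exact hg _
  | m1 i => exact hg _
  | m2 i => exact hg _
  | m3 i => exact hg _
  | mu => exact hg _
  | mv => exact hg _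
  | z => exact hg _

theorem oc_om {E : Type} [NormedAddCommGroup E] [NormedSpace ℝ E] {y : E → OQ} {x : E}
    (hy : ContDiffAt ℝ 1 y x) (h : (y x).2.2.2.2.2 ≠ 0) (k : Idx) :
    ContDiffAt ℝ 1 (fun t => om (y t) k) x := by
  have h1 : ∀ i, ContDiffAt ℝ 1 (fun t => (y t).1 i) x := by intro i; fun_prop
  have h2 : ContDiffAt ℝ 1 (fun t => (y t).2.1) x := by fun_prop
  have h3 : ContDiffAt ℝ 1 (fun t => (y t).2.2.1) x := by fun_prop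
  have h4 : ContDiffAt ℝ 1 (fun t => (y t).2.2.2.1) x := by fun_prop
  have h5 : ∀ i, ContDiffAt ℝ 1 (fun t => (y t).2.2.2.2.1 i) x := by intro i; fun_prop
  have h6 : ContDiffAt ℝ 1 (fun t => (y t).2.2.2.2.2) x := by fun_prop
  have hp : ∀ i, ContDiffAt ℝ 1 (fun t => prs (y t).2.2.1 (y t).2.2.2.1 i) x := by
    intro i
    fin_cases i
    · exact h3
    · exact h3
    · exact h4
    · exact h4
  exact oc_pt (oc_node h1 h2 hp) h5 h6 h k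

theorem oF_contDiffAt : ContDiffAt ℝ 1 oF (oyg, oyh) := by
  have h1 : ∀ k, ContDiffAt ℝ 1 (fun y : OQ × OQ => om y.1 k) (oyg, oyh) := by
    intro k
    refine oc_om contDiffAt_fst ?_ k
    norm_num [oyg]
  have h2 : ∀ k, ContDiffAt ℝ 1 (fun y : OQ × OQ => om y.2 k) (oyg, oyh) := by
    intro k
    refine oc_om contDiffAt_snd ?_ k
    norm_num [oyh]
  have h3 : ∀ k, ContDiffAt ℝ 1 (fun y : OQ × OQ => oF y k) (oyg, oyh) :=
    fun k => oc_mul (fun k => oc_inv h1 k) h2 k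
  exact contDiffAt_pi.2 h3

theorem oF_key (d : OQ × OQ) :
    odL og (omD oyg d.1) oq + odR og (fderiv ℝ oF (oyg, oyh) d) = omD oyh d.2 := by
  have hdiff : HasFDerivAt oF (fderiv ℝ oF (oyg, oyh)) (oyg, oyh) :=
    (oF_contDiffAt.differentiableAt (by norm_num)).hasFDerivAt
  have hc : HasDerivAt (fun t : ℝ => ((oyg, oyh) : OQ × OQ) + t • d) d 0 := by
    have := ((hasDerivAt_id (0:ℝ)).smul_const d).const_add ((oyg, oyh) : OQ × OQ)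
    simpa using this
  have hz : ((oyg, oyh) : OQ × OQ) + (0:ℝ) • d = (oyg, oyh) := by simp
  have h1 : HasDerivAt (fun t : ℝ => oF (((oyg, oyh) : OQ × OQ) + t • d))
      (fderiv ℝ oF (oyg, oyh) d) 0 := by
    have h2 : HasFDerivAt oF (fderiv ℝ oF (oyg, oyh)) ((fun t : ℝ =>
        ((oyg, oyh) : OQ × OQ) + t • d) 0) := by
      simp only [hz]
      exact hdiff
    exact h2.comp_hasDerivAt 0 hc
  have h1' : ∀ k, HasDerivAt (fun t : ℝ => oF (((oyg, oyh) : OQ × OQ) + t • d) k)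
      (fderiv ℝ oF (oyg, oyh) d k) 0 := fun k => (hasDerivAt_pi.1 h1) k
  have h3 := om_deriv oyg d.1 (by norm_num [oyg])
  have h4 := om_deriv oyh d.2 (by norm_num [oyh])
  have h5 := od_mul h3 h1'
  funext k
  have h6 := h5 k
  have h7 : (fun t : ℝ => (om (oyg + t • d.1) * oF (((oyg, oyh) : OQ × OQ) + t • d)) k)
      = fun t : ℝ => om (oyh + t • d.2) k := by
    funext t
    have : om (oyg + t • d.1) * oF (((oyg, oyh) : OQ × OQ) + t • d) = om (oyh + t • d.2) := by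
      change om (oyg + t • d.1) * ((om (oyg + t • d.1))⁻¹ * om (oyh + t • d.2)) = _
      rw [mul_inv_cancel_left]
    rw [this]
  rw [h7] at h6
  have h8 := h6.unique (h4 k)
  have hq : oF ((oyg, oyh) : OQ × OQ) = oq := by
    change (om oyg)⁻¹ * om oyh = oq
    rw [om_g, om_h, ← oq_eq, inv_mul_cancel_left]
  rw [hz, hq] at h8
  have h9 : om (oyg + (0:ℝ) • d.1) = og := by
    rw [zero_smul, add_zero, om_g]
  rw [h9] at h8
  exact h8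

theorem omg_z : omD oyg (![0, 0, 0, 0], 0, 0, 0, ![0, 0, 0, 0], 0) = olit ![0, 0, 0, 0] 0 0 0 ![0, 0, 0, 0] ![0, 0, 0, 0] ![0, 0, 0, 0] 0 0 0 := by
  simp only [omD, oyg]
  rw [ong_eq, ondg_z, optg_z]

theorem omh_z : omD oyh (![0, 0, 0, 0], 0, 0, 0, ![0, 0, 0, 0], 0) = olit ![0, 0, 0, 0] 0 0 0 ![0, 0, 0, 0] ![0, 0, 0, 0] ![0, 0, 0, 0] 0 0 0 := by
  simp only [omD, oyh]
  rw [onh_eq, ondh_z, opth_z]

theorem oF_surj : (fderiv ℝ oF (oyg, oyh)).range = ⊤ := by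
  by_contra hne
  obtain ⟨f, hf0, hf⟩ := Submodule.exists_le_ker_of_lt_top _ (lt_top_iff_ne_top.2 hne)
  have hfA : ∀ d, f (fderiv ℝ oF (oyg, oyh) d) = 0 := fun d => hf ⟨d, rfl⟩
  set μ : SG →ₗ[ℝ] ℝ := f.comp (odRl og⁻¹) with hμdef
  have hμB : ∀ w, μ (odR og w) = f w := by
    intro w
    rw [hμdef, LinearMap.comp_apply, odRl_inv]
  have hμ : ∀ d : OQ × OQ, μ (omD oyh d.2) = μ (odL og (omD oyg d.1) oq) := by
    intro d
    rw [← oF_key d, map_add, hμB, hfA, add_zero]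
  have hz0 : μ (olit ![0, 0, 0, 0] 0 0 0 ![0, 0, 0, 0] ![0, 0, 0, 0] ![0, 0, 0, 0] 0 0 0) = 0 := by
    have : (olit ![0, 0, 0, 0] 0 0 0 ![0, 0, 0, 0] ![0, 0, 0, 0] ![0, 0, 0, 0] 0 0 0 : SG) = 0 := by
      ext k
      cases k with
      | x i => fin_cases i <;> rfl
      | m1 i => fin_cases i <;> rfl
      | m2 i => fin_cases i <;> rfl
      | m3 i => fin_cases i <;> rfl
      | _ => rfl
    rw [this, map_zero]
  have hg0 : μ (olit ![0, 0, 0, 0] 0 0 0 ![1, 0, 0, 0] ![(-1), 0, 0, 0] ![0, 0, 0, 0] 0 0 (1 / 20)) = 0 := by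
    have h1 := hμ ((![1, 0, 0, 0], 0, 0, 0, ![0, 0, 0, 0], 0), (![0, 0, 0, 0], 0, 0, 0, ![0, 0, 0, 0], 0))
    rw [omh_z, hz0] at h1
    simp only [omD, oyg] at h1
    rw [ong_eq, ondg0, optg0, olg0] at h1
    exact h1.symm
  have hg1 : μ (olit ![0, 0, 0, 0] 0 0 0 ![0, (98 / 101), 0, 0] ![0, (-(197 / 101)), 0, 0] ![0, (297 / 101), 0, 0] 0 0 (-(981 / 2020))) = 0 := by
    have h1 := hμ ((![0, 1, 0, 0], 0, 0, 0, ![0, 0, 0, 0], 0), (![0, 0, 0, 0], 0, 0, 0, ![0, 0, 0, 0], 0))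
    rw [omh_z, hz0] at h1
    simp only [omD, oyg] at h1
    rw [ong_eq, ondg1, optg1, olg1] at h1
    exact h1.symm
  have hg2 : μ (olit ![0, 0, 0, 0] 0 0 0 ![0, 0, 1, 0] ![0, 0, (-1), 0] ![0, 0, 0, 0] 0 0 (1 / 20)) = 0 := by
    have h1 := hμ ((![0, 0, 1, 0], 0, 0, 0, ![0, 0, 0, 0], 0), (![0, 0, 0, 0], 0, 0, 0, ![0, 0, 0, 0], 0))
    rw [omh_z, hz0] at h1
    simp only [omD, oyg] at h1
    rw [ong_eq, ondg2, optg2, olg2] at h1
    exact h1.symm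
  have hg5 : μ (olit ![0, 0, 0, 0] 0 0 0 ![(-(1 / 2)), (-(1 / 202)), 0, 0] ![0, (1 / 101), 0, 0] ![(1 / 2), (-(1 / 101)), 0, 0] 0 0 (7 / 2020)) = 0 := by
    have h1 := hμ ((![0, 0, 0, 0], 0, 1, 0, ![0, 0, 0, 0], 0), (![0, 0, 0, 0], 0, 0, 0, ![0, 0, 0, 0], 0))
    rw [omh_z, hz0] at h1
    simp only [omD, oyg] at h1
    rw [ong_eq, ondg5, optg5, olg5] at h1
    exact h1.symm
  have hg6 : μ (olit ![0, 0, 0, 0] 0 0 0 ![0, 0, (-(1 / 2)), (-(1 / 202))] ![0, 0, 0, (-(1 / 101))] ![0, 0, (1 / 2), (-(1 / 101))] 0 0 (-(7 / 2020))) = 0 := by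
    have h1 := hμ ((![0, 0, 0, 0], 0, 0, 1, ![0, 0, 0, 0], 0), (![0, 0, 0, 0], 0, 0, 0, ![0, 0, 0, 0], 0))
    rw [omh_z, hz0] at h1
    simp only [omD, oyg] at h1
    rw [ong_eq, ondg6, optg6, olg6] at h1
    exact h1.symm
  have hg7 : μ (olit ![1, 0, 0, 0] 0 0 0 ![(-1), 0, 0, 0] ![0, 0, 0, 0] ![0, 0, 0, 0] 0 0 0) = 0 := by
    have h1 := hμ ((![0, 0, 0, 0], 0, 0, 0, ![1, 0, 0, 0], 0), (![0, 0, 0, 0], 0, 0, 0, ![0, 0, 0, 0], 0))
    rw [omh_z, hz0] at h1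
    simp only [omD, oyg] at h1
    rw [ong_eq, ondg_z, optg7, olg7] at h1
    exact h1.symm
  have hg8 : μ (olit ![0, 1, 0, 0] 0 0 0 ![0, (-1), 0, 0] ![0, (199 / 101), 0, 0] ![0, (-(300 / 101)), 0, 0] 0 0 (199 / 404)) = 0 := by
    have h1 := hμ ((![0, 0, 0, 0], 0, 0, 0, ![0, 1, 0, 0], 0), (![0, 0, 0, 0], 0, 0, 0, ![0, 0, 0, 0], 0))
    rw [omh_z, hz0] at h1
    simp only [omD, oyg] at h1
    rw [ong_eq, ondg_z, optg8, olg8] at h1
    exact h1.symm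
  have hg9 : μ (olit ![0, 0, 1, 0] (-1) 0 0 ![0, 0, (-1), 0] ![0, 0, 0, 0] ![0, 0, 0, 0] 1 0 0) = 0 := by
    have h1 := hμ ((![0, 0, 0, 0], 0, 0, 0, ![0, 0, 1, 0], 0), (![0, 0, 0, 0], 0, 0, 0, ![0, 0, 0, 0], 0))
    rw [omh_z, hz0] at h1
    simp only [omD, oyg] at h1
    rw [ong_eq, ondg_z, optg9, olg9] at h1
    exact h1.symm
  have hg10 : μ (olit ![0, 0, 0, 1] (-102) 0 0 ![0, 0, 0, (-1)] ![0, 0, 0, (-(205 / 101))] ![0, 0, 0, (-(306 / 101))] 102 0 (-(205 / 404))) = 0 := by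
    have h1 := hμ ((![0, 0, 0, 0], 0, 0, 0, ![0, 0, 0, 1], 0), (![0, 0, 0, 0], 0, 0, 0, ![0, 0, 0, 0], 0))
    rw [omh_z, hz0] at h1
    simp only [omD, oyg] at h1
    rw [ong_eq, ondg_z, optg10, olg10] at h1
    exact h1.symm
  have hg11 : μ (olit ![0, 0, 0, 0] (103 / 3) 1 0 ![0, 0, 0, 0] ![0, 0, 0, 0] ![0, 0, 0, 0] (-(103 / 3)) (-1) 0) = 0 := by
    have h1 := hμ ((![0, 0, 0, 0], 0, 0, 0, ![0, 0, 0, 0], 1), (![0, 0, 0, 0], 0, 0, 0, ![0, 0, 0, 0], 0))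
    rw [omh_z, hz0] at h1
    simp only [omD, oyg] at h1
    rw [ong_eq, ondg_z, optg11, olg11] at h1
    exact h1.symm
  have hh0 : μ (olit ![0, 0, 0, 0] (-1) 0 0 ![0, 0, 0, 0] ![(-1), 0, 0, 0] ![0, 0, 0, 0] 0 0 (1 / 20)) = 0 := by
    have h1 := hμ ((![0, 0, 0, 0], 0, 0, 0, ![0, 0, 0, 0], 0), (![1, 0, 0, 0], 0, 0, 0, ![0, 0, 0, 0], 0))
    rw [omg_z, olg_z, hz0] at h1
    simp only [omD, oyh] at h1
    rw [onh_eq, ondh0, opth0] at h1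
    exact h1
  have hh1 : μ (olit ![0, 0, 0, 0] (-1) 0 0 ![0, 0, 0, 0] ![0, (-(1 / 101)), 0, 0] ![0, 0, 0, 0] 0 0 (-(1 / 2020))) = 0 := by
    have h1 := hμ ((![0, 0, 0, 0], 0, 0, 0, ![0, 0, 0, 0], 0), (![0, 1, 0, 0], 0, 0, 0, ![0, 0, 0, 0], 0))
    rw [omg_z, olg_z, hz0] at h1
    simp only [omD, oyh] at h1
    rw [onh_eq, ondh1, opth1] at h1
    exact h1
  have hh2 : μ (olit ![0, 0, 0, 0] (-1) 0 0 ![0, 0, 0, 0] ![0, 0, (-1), 0] ![0, 0, 0, 0] 0 0 (1 / 20)) = 0 := by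
    have h1 := hμ ((![0, 0, 0, 0], 0, 0, 0, ![0, 0, 0, 0], 0), (![0, 0, 1, 0], 0, 0, 0, ![0, 0, 0, 0], 0))
    rw [omg_z, olg_z, hz0] at h1
    simp only [omD, oyh] at h1
    rw [onh_eq, ondh2, opth2] at h1
    exact h1
  have hh3 : μ (olit ![0, 0, 0, 0] (-1) 0 0 ![0, 0, 0, 0] ![0, 0, 0, (-(1 / 101))] ![0, 0, 0, 0] 0 0 (-(1 / 2020))) = 0 := by
    have h1 := hμ ((![0, 0, 0, 0], 0, 0, 0, ![0, 0, 0, 0], 0), (![0, 0, 0, 1], 0, 0, 0, ![0, 0, 0, 0], 0))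
    rw [omg_z, olg_z, hz0] at h1
    simp only [omD, oyh] at h1
    rw [onh_eq, ondh3, opth3] at h1
    exact h1
  have hh4 : μ (olit ![0, 0, 0, 0] 68 0 1 ![0, 0, 0, 0] ![0, 0, 0, 0] ![0, 0, 0, 0] 0 0 0) = 0 := by
    have h1 := hμ ((![0, 0, 0, 0], 0, 0, 0, ![0, 0, 0, 0], 0), (![0, 0, 0, 0], 1, 0, 0, ![0, 0, 0, 0], 0))
    rw [omg_z, olg_z, hz0] at h1
    simp only [omD, oyh] at h1
    rw [onh_eq, ondh4, opth4] at h1
    exact h1
  have hh5 : μ (olit ![0, 0, 0, 0] 0 0 0 ![(-(1 / 2)), (-(1 / 202)), 0, 0] ![0, 0, 0, 0] ![(1 / 2), (1 / 202), 0, 0] 0 0 0) = 0 := by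
    have h1 := hμ ((![0, 0, 0, 0], 0, 0, 0, ![0, 0, 0, 0], 0), (![0, 0, 0, 0], 0, 1, 0, ![0, 0, 0, 0], 0))
    rw [omg_z, olg_z, hz0] at h1
    simp only [omD, oyh] at h1
    rw [onh_eq, ondh5, opth5] at h1
    exact h1
  have hh6 : μ (olit ![0, 0, 0, 0] 0 0 0 ![0, 0, (-(1 / 2)), (-(1 / 202))] ![0, 0, 0, 0] ![0, 0, (1 / 2), (1 / 202)] 0 0 0) = 0 := by
    have h1 := hμ ((![0, 0, 0, 0], 0, 0, 0, ![0, 0, 0, 0], 0), (![0, 0, 0, 0], 0, 0, 1, ![0, 0, 0, 0], 0))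
    rw [omg_z, olg_z, hz0] at h1
    simp only [omD, oyh] at h1
    rw [onh_eq, ondh6, opth6] at h1
    exact h1
  have hh7 : μ (olit ![1, 0, 0, 0] 2 0 0 ![0, 0, 0, 0] ![0, 0, 0, 0] ![0, 0, 0, 0] 0 0 0) = 0 := by
    have h1 := hμ ((![0, 0, 0, 0], 0, 0, 0, ![0, 0, 0, 0], 0), (![0, 0, 0, 0], 0, 0, 0, ![1, 0, 0, 0], 0))
    rw [omg_z, olg_z, hz0] at h1
    simp only [omD, oyh] at h1
    rw [onh_eq, ondh_z, opth7] at h1
    exact h1
  have hh8 : μ (olit ![0, 1, 0, 0] 2 0 0 ![0, 0, 0, 0] ![0, 0, 0, 0] ![0, 0, 0, 0] 0 0 0) = 0 := by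
    have h1 := hμ ((![0, 0, 0, 0], 0, 0, 0, ![0, 0, 0, 0], 0), (![0, 0, 0, 0], 0, 0, 0, ![0, 1, 0, 0], 0))
    rw [omg_z, olg_z, hz0] at h1
    simp only [omD, oyh] at h1
    rw [onh_eq, ondh_z, opth8] at h1
    exact h1
  have hh9 : μ (olit ![0, 0, 1, 0] 2 0 0 ![0, 0, 0, 0] ![0, 0, 0, 0] ![0, 0, 0, 0] 0 0 0) = 0 := by
    have h1 := hμ ((![0, 0, 0, 0], 0, 0, 0, ![0, 0, 0, 0], 0), (![0, 0, 0, 0], 0, 0, 0, ![0, 0, 1, 0], 0))
    rw [omg_z, olg_z, hz0] at h1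
    simp only [omD, oyh] at h1
    rw [onh_eq, ondh_z, opth9] at h1
    exact h1
  have hh10 : μ (olit ![0, 0, 0, 1] 2 0 0 ![0, 0, 0, 0] ![0, 0, 0, 0] ![0, 0, 0, 0] 0 0 0) = 0 := by
    have h1 := hμ ((![0, 0, 0, 0], 0, 0, 0, ![0, 0, 0, 0], 0), (![0, 0, 0, 0], 0, 0, 0, ![0, 0, 0, 1], 0))
    rw [omg_z, olg_z, hz0] at h1
    simp only [omD, oyh] at h1
    rw [onh_eq, ondh_z, opth10] at h1
    exact h1
  have hh11 : μ (olit ![0, 0, 0, 0] 0 1 0 ![0, 0, 0, 0] ![0, 0, 0, 0] ![0, 0, 0, 0] 0 0 0) = 0 := by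
    have h1 := hμ ((![0, 0, 0, 0], 0, 0, 0, ![0, 0, 0, 0], 0), (![0, 0, 0, 0], 0, 0, 0, ![0, 0, 0, 0], 1))
    rw [omg_z, olg_z, hz0] at h1
    simp only [omD, oyh] at h1
    rw [onh_eq, ondh_z, opth11] at h1
    exact h1
  have hob := ofun hg0 hg1 hg2 hg5 hg6 hg7 hg8 hg9 hg10 hg11 hh0 hh1 hh2 hh3 hh4 hh5 hh6 hh7 hh8 hh9 hh10 hh11
  apply hf0
  ext w
  rw [← hμB w, omu_eq]
  simp only [hob, mul_zero, Finset.sum_const_zero, LinearMap.zero_apply]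

theorem open_image : ∃ U : Set SG, IsOpen U ∧ U.Nonempty ∧ ∀ q ∈ U,
    ∃ (a : Fin 4 → ℝ) (T pA pB : ℝ) (x : Fin 4 → ℝ) (r : ℝ)
      (a' : Fin 4 → ℝ) (T' pA' pB' : ℝ) (x' : Fin 4 → ℝ) (r' : ℝ),
      0 < pA ∧ 0 < pB ∧ r ≠ 0 ∧ 0 < pA' ∧ 0 < pB' ∧ r' ≠ 0 ∧
      q = (rpt' a T pA pB x r)⁻¹ * rpt' a' T' pA' pB' x' r' := by
  have hs : HasStrictFDerivAt oF (fderiv ℝ oF (oyg, oyh)) (oyg, oyh) :=
    oF_contDiffAt.hasStrictFDerivAt (by norm_num)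
  have hmap := hs.map_nhds_eq_of_surj oF_surj
  let O : Set (OQ × OQ) := {y | 0 < y.1.2.2.1 ∧ 0 < y.1.2.2.2.1 ∧ y.1.2.2.2.2.2 ≠ 0 ∧
    0 < y.2.2.2.1 ∧ 0 < y.2.2.2.2.1 ∧ y.2.2.2.2.2.2 ≠ 0}
  have hO : O ∈ 𝓝 ((oyg, oyh) : OQ × OQ) := by
    apply IsOpen.mem_nhds
    · have c1 : Continuous fun y : OQ × OQ => y.1.2.2.1 := by fun_prop
      have c2 : Continuous fun y : OQ × OQ => y.1.2.2.2.1 := by fun_prop
      have c3 : Continuous fun y : OQ × OQ => y.1.2.2.2.2.2 := by fun_prop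
      have c4 : Continuous fun y : OQ × OQ => y.2.2.2.1 := by fun_prop
      have c5 : Continuous fun y : OQ × OQ => y.2.2.2.2.1 := by fun_prop
      have c6 : Continuous fun y : OQ × OQ => y.2.2.2.2.2.2 := by fun_prop
      exact (isOpen_lt continuous_const c1).inter ((isOpen_lt continuous_const c2).inter
        ((isOpen_ne_fun c3 continuous_const).inter ((isOpen_lt continuous_const c4).inter
        ((isOpen_lt continuous_const c5).inter (isOpen_ne_fun c6 continuous_const)))))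
    · norm_num [O, oyg, oyh]
  have hI : oF '' O ∈ 𝓝 (oF (oyg, oyh)) := by
    rw [← hmap]
    exact image_mem_map hO
  obtain ⟨U, hUs, hUo, hUm⟩ := mem_nhds_iff.1 hI
  refine ⟨U, hUo, ⟨_, hUm⟩, fun q hq => ?_⟩
  obtain ⟨y, hy, rfl⟩ := hUs hq
  obtain ⟨h1, h2, h3, h4, h5, h6⟩ := hy
  exact ⟨y.1.1, y.1.2.1, y.1.2.2.1, y.1.2.2.2.1, y.1.2.2.2.2.1, y.1.2.2.2.2.2,
    y.2.1, y.2.2.1, y.2.2.2.1, y.2.2.2.2.1, y.2.2.2.2.2.1, y.2.2.2.2.2.2,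
    h1, h2, h3, h4, h5, h6, rfl⟩

end

end SRSard
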