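import Pool.Agent.Lib.SRSard.SteerC

/-!
# The set of points reached from the identity
-/

namespace SRSard

open MeasureTheory Set Filter Topology

noncomputable section

/-- the reachable points that we use: parameters `a T pA pB x r` -/
def rpt (a : Fin 4 → ℝ) (T pA pB : ℝ) (x : Fin 4 → ℝ) (r : ℝ) : SG :=
  setPos (node a T (prs pA pB)) x (- pot (node a T (prs pA pB)) x / r) r

theorem pe_prs (pA pB : ℝ) : pe (prs pA pB) := by
  simp [pe, prs, ep, Fin.sum_univ_four]

theorem reach_rpt (a : Fin 4 → ℝ) (T : ℝ) {pA pB : ℝ} (hA : 0 < pA) (hB : 0 < pB)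
    (x : Fin 4 → ℝ) {r : ℝ} (hr : r ≠ 0) : ∃ L, Reach L 1 (rpt a T pA pB x r) := by
  obtain ⟨L, hL⟩ := reach_node a T hA hB
  obtain ⟨L', hL'⟩ := reach_disp a T (pe_prs pA pB) x hr
  exact ⟨L + L', hL.trans hL'⟩

end

end SRSard
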