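import Pool.Agent.Lib.SRSard.General
import Pool.Agent.Lib.SRSard.Param
import Pool.Agent.Lib.SRSard.OpenImage
import Pool.Agent.Lib.SRSard.Crit

/-!
# Chunk FC: assembly
-/

namespace SRSard

open MeasureTheory Set Filter Topology
open scoped Manifold ContDiff

noncomputable section

theorem fc_abn_of_reach {L : ℝ} {g0 g1 : SG} (h : Reach L g0 g1) :
    g0⁻¹ * g1 ∈ Abn 𝓘(ℝ, SG) End := by
  obtain ⟨hL, w, hw, h1, hZ⟩ := h
  obtain ⟨W, hW⟩ := exists_L2_of_ctrl hw hL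
  refine ⟨W, ?_, ?_⟩
  · have e := hW 1 ⟨zero_le_one, le_rfl⟩
    rw [mul_one] at e
    change gam (ctl W) 1 = _
    rw [e, ← h1, inv_mul_cancel_left]
  · rw [mfderiv_eq_fderiv]
    apply crit (g0 := g0)
    intro t ht
    rw [hW t ht]
    exact hZ _ ⟨mul_nonneg hL ht.1, mul_le_of_le_one_right hL ht.2⟩

theorem interior_abn : (interior (Abn 𝓘(ℝ, SG) End)).Nonempty := by
  obtain ⟨U, hU, ⟨q, hq⟩, H⟩ := open_image
  refine ⟨q, mem_interior.2 ⟨U, ?_, hU, hq⟩⟩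
  intro q' hq'
  obtain ⟨a, T, pA, pB, x, r, a', T', pA', pB', x', r', h1, h2, h3, h4, h5, h6, rfl⟩ := H q' hq'
  obtain ⟨L, hL⟩ := reach_rpt a T h1 h2 x h3
  obtain ⟨L', hL'⟩ := reach_rpt a' T' h4 h5 x' h6
  exact fc_abn_of_reach (hL.symm.trans hL')

end

end SRSard
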