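import Pool.Agent.Lib.SRSard.Reach

/-!
# Chunk MA: node points and charging moves

`pe p : ∑ ep i * p i ^ 2 = 0` is the only condition for `node a T p ∈ Z`:
with `M1 = ndM1 g a T p` etc. one has `a^3 + g (T a^2 - 2 M1 a + M2) = 0` and
`a^4/4 + g/3 (T a^3 - 3 M1 a^2 + 3 M2 a - M3) = - p^2/12`.

* `reach_T`: the curve `t ↦ node a (T + t (T'-T)) p`, control constant `(T'-T) e_t`; its derivative
  in the coordinate `z` is right because `d/dT z(node) = Phi(node) + ∑ ep i p i^2 / 60`.
* `reach_line0`: straight line in the positions `x` with `u = v = 0` when the potential vanishes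
  identically on the line.
* `reach_via`: `v : 0 → r` (with `u = 0`), then `x` along the segment with `v = r`,
  `u = - pot(x(s)) / r`, then (if the potential vanishes at the end) `v : r → 0`.
* `reach_switch1`: `T` is tuned: `gg i * T = - (3/2 * ρ + 3 * a i)`, `ρ^2 = 2 * p i`; on the segment
  the potential is `ep i * ρ^4 * s^2 * (1-s)^2 / 4`; take `r = |ρ|`.
* `reach_switch2`: two coordinates `i, k` with `ep k = - ep i`, `p i = p k` and
  `gg i * T = -(ρ + p i / ρ + 3 a i)`, `gg k * T = -(ρ + p i/ρ + 3 a k)`: both positions move by `ρ`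
  at the same time; the potential is constant; the node parameters become `ρ^2 - p i`.
-/

namespace SRSard

open MeasureTheory Set Filter Topology
open scoped ContDiff

noncomputable section

/-- the energy condition -/
def pe (p : Fin 4 → ℝ) : Prop := ∑ i, ep i * p i ^ 2 = 0

theorem gg_pos (i : Fin 4) : 0 < gg i := by
  fin_cases i <;> simp [gg]

theorem ma_pot {g : ℝ} (hg : g ≠ 0) (a T p : ℝ) :
    a ^ 4 / 4 + g / 3 * (a ^ 3 * T - 3 * a ^ 2 * ndM1 g a T p + 3 * a * ndM2 g a T p
      - ndM3 g a T p) = - p ^ 2 / 12 := by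
  unfold ndM3 ndM2 ndM1
  field_simp
  ring

theorem ma_M1 {g : ℝ} (hg : g ≠ 0) (a T p : ℝ) : ndM1 g a T p = ndM1 g a 0 p + T * a := by
  unfold ndM1
  field_simp
  ring

theorem ma_M2 {g : ℝ} (hg : g ≠ 0) (a T p : ℝ) : ndM2 g a T p = ndM2 g a 0 p + T * a ^ 2 := by
  unfold ndM2
  field_simp
  ring

theorem ma_M3 {g : ℝ} (hg : g ≠ 0) (a T p : ℝ) : ndM3 g a T p = ndM3 g a 0 p + T * a ^ 3 := by
  unfold ndM3 ndM2 ndM1
  field_simp
  ring

theorem node_mem_Z (a : Fin 4 → ℝ) (T : ℝ) {p : Fin 4 → ℝ} (hp : pe p) : node a T p ∈ Z := by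
  refine ⟨?_, fun i => ?_, rfl, rfl⟩
  · have h : ∀ i, ep i / 4 * a i ^ 4 + ep i * gg i / 3 * (a i ^ 3 * T
        - 3 * a i ^ 2 * ndM1 (gg i) (a i) T (p i) + 3 * a i * ndM2 (gg i) (a i) T (p i)
        - ndM3 (gg i) (a i) T (p i)) = - (1 / 12) * (ep i * p i ^ 2) := by
      intro i
      have := ma_pot (gg_pos i).ne' (a i) T (p i)
      calc _ = ep i * (a i ^ 4 / 4 + gg i / 3 * (a i ^ 3 * T
        - 3 * a i ^ 2 * ndM1 (gg i) (a i) T (p i) + 3 * a i * ndM2 (gg i) (a i) T (p i)
        - ndM3 (gg i) (a i) T (p i))) := by ring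
        _ = _ := by rw [this]; ring
    show (0 : ℝ) * 0 + ∑ i, (ep i / 4 * a i ^ 4 + ep i * gg i / 3 * (a i ^ 3 * T
        - 3 * a i ^ 2 * ndM1 (gg i) (a i) T (p i) + 3 * a i * ndM2 (gg i) (a i) T (p i)
        - ndM3 (gg i) (a i) T (p i))) = 0
    rw [Finset.sum_congr rfl (fun i _ => h i), ← Finset.mul_sum]
    unfold pe at hp
    rw [hp]
    ring
  · show ndM3 (gg i) (a i) T (p i) + gg i * (T * ndM2 (gg i) (a i) T (p i)
      - ndM1 (gg i) (a i) T (p i) ^ 2) = 0
    unfold ndM3
    ring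

/-- the coordinate `z` of a node point is affine in `T` -/
theorem ma_z (a : Fin 4 → ℝ) (T T' : ℝ) (p : Fin 4 → ℝ) (hp : pe p) :
    node a T' p .z = node a T p .z + (T' - T) * ∑ i, (ep i / 4 * a i ^ 4 + ep i * gg i / 6 *
      (a i ^ 3 * T - 3 * a i ^ 2 * ndM1 (gg i) (a i) T (p i)
        + 3 * a i * ndM2 (gg i) (a i) T (p i) - ndM3 (gg i) (a i) T (p i))) := by
  have h : ∀ i, - (1 / 10) * (ep i * gg i * (T' * ndM3 (gg i) (a i) T' (p i)
      - ndM1 (gg i) (a i) T' (p i) * ndM2 (gg i) (a i) T' (p i))) =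
      - (1 / 10) * (ep i * gg i * (T * ndM3 (gg i) (a i) T (p i)
      - ndM1 (gg i) (a i) T (p i) * ndM2 (gg i) (a i) T (p i))) +
      (T' - T) * (ep i / 4 * a i ^ 4 + ep i * gg i / 6 *
      (a i ^ 3 * T - 3 * a i ^ 2 * ndM1 (gg i) (a i) T (p i)
        + 3 * a i * ndM2 (gg i) (a i) T (p i) - ndM3 (gg i) (a i) T (p i))) +
      (T' - T) / 60 * (ep i * p i ^ 2) := by
    intro i
    have hg := (gg_pos i).ne'
    unfold ndM3 ndM2 ndM1
    field_simp
    ring
  show - (1 / 10) * ∑ i, ep i * gg i * (T' * ndM3 (gg i) (a i) T' (p i)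
      - ndM1 (gg i) (a i) T' (p i) * ndM2 (gg i) (a i) T' (p i)) =
    - (1 / 10) * ∑ i, ep i * gg i * (T * ndM3 (gg i) (a i) T (p i)
      - ndM1 (gg i) (a i) T (p i) * ndM2 (gg i) (a i) T (p i)) + _
  rw [Finset.mul_sum, Finset.sum_congr rfl (fun i _ => h i), Finset.sum_add_distrib,
    Finset.sum_add_distrib, ← Finset.mul_sum, ← Finset.mul_sum, ← Finset.mul_sum]
  unfold pe at hp
  rw [hp]
  ring

/-- constant control in the direction `t` -/
def tvec (d : ℝ) : SG := fun k => match k with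
  | .t => d
  | _ => 0

theorem tvec_norm (d : ℝ) : ‖tvec d‖ ≤ |d| := by
  refine (pi_norm_le_iff_of_nonneg (abs_nonneg d)).2 fun k => ?_
  cases k <;> simp [tvec]

theorem reach_T (a : Fin 4 → ℝ) (T T' : ℝ) {p : Fin 4 → ℝ} (hp : pe p) :
    Reach |T' - T| (node a T p) (node a T' p) := by
  rcases eq_or_ne T' T with rfl | hne
  · rw [sub_self, abs_zero]
    exact Reach.refl (node_mem_Z a _ hp)
  have hd : T' - T ≠ 0 := sub_ne_zero.2 hne
  have hlin : ∀ t : ℝ, HasDerivAt (fun s : ℝ => T + s * (T' - T)) (T' - T) t := by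
    intro t
    simpa using ((hasDerivAt_id t).mul_const (T' - T)).const_add T
  have key := reach_of_smooth (η := fun t => node a (T + t * (T' - T)) p)
    (w := fun _ => tvec (T' - T)) (c := |T' - T|) (abs_pos.2 hd) continuous_const ?_
    (fun t _ => tvec_norm _) (fun t _ => node_mem_Z a _ hp)
  · have e0 : T + 0 * (T' - T) = T := by ring
    have e1 : T + 1 * (T' - T) = T' := by ring
    rw [e0, e1] at key
    exact key
  · intro t
    refine (hasDerivAt_pi (E' := fun _ : Idx => ℝ)).2 fun k => ?_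
    cases k with
    | x i => exact hasDerivAt_const _ _
    | u => exact hasDerivAt_const _ _
    | v => exact hasDerivAt_const _ _
    | t => exact hlin t
    | m1 i =>
      have e : (fun s => node a (T + s * (T' - T)) p (.m1 i)) = fun s =>
          ndM1 (gg i) (a i) 0 (p i) + (T + s * (T' - T)) * a i := by
        funext s; exact ma_M1 (gg_pos i).ne' _ _ _
      rw [e]
      exact ((hlin t).mul_const (a i)).const_add _
    | m2 i =>
      have e : (fun s => node a (T + s * (T' - T)) p (.m2 i)) = fun s =>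
          ndM2 (gg i) (a i) 0 (p i) + (T + s * (T' - T)) * a i ^ 2 := by
        funext s; exact ma_M2 (gg_pos i).ne' _ _ _
      rw [e]
      exact ((hlin t).mul_const (a i ^ 2)).const_add _
    | m3 i =>
      have e : (fun s => node a (T + s * (T' - T)) p (.m3 i)) = fun s =>
          ndM3 (gg i) (a i) 0 (p i) + (T + s * (T' - T)) * a i ^ 3 := by
        funext s; exact ma_M3 (gg_pos i).ne' _ _ _
      rw [e]
      exact ((hlin t).mul_const (a i ^ 3)).const_add _
    | mu => exact (hasDerivAt_const t (0:ℝ)).congr_deriv (by simp [hor, node])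
    | mv => exact (hasDerivAt_const t (0:ℝ)).congr_deriv (by simp [hor, node])
    | z =>
      set U := T + t * (T' - T) with hU
      have e : (fun s => node a (T + s * (T' - T)) p .z) = fun s =>
          node a U p .z + ((T + s * (T' - T)) - U) *
          ∑ i, (ep i / 4 * a i ^ 4 + ep i * gg i / 6 *
          (a i ^ 3 * U - 3 * a i ^ 2 * ndM1 (gg i) (a i) U (p i)
            + 3 * a i * ndM2 (gg i) (a i) U (p i) - ndM3 (gg i) (a i) U (p i))) := by
        funext s; exact ma_z a U (T + s * (T' - T)) p hp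
      rw [e]
      refine (((hlin t).sub_const U).mul_const _ |>.const_add _).congr_deriv ?_
      simp only [hor, node, tvec]
      ring

end

end SRSard
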