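import Pool.Agent.Lib.SRSard.MovesA

/-!
# Chunk MB: line moves inside the zero set of the potential

`pe p : ∑ ep i * p i ^ 2 = 0` is the only condition for `node a T p ∈ Z`:
with `M1 = ndM1 g a T p` etc. one has `a^3 + g (T a^2 - 2 M1 a + M2) = 0` and
`a^4/4 + g/3 (T a^3 - 3 M1 a^2 + 3 M2 a - M3) = - p^2/12`.

* `reach_T`: the curve `t ↦ node a (T + t (T'-T)) p`, control constant `(T'-T) e_t`; its derivative
  in the coordinate `z` is right because `d/dT z(node) = Phi(node) + ∑ ep i p i^2 / 60`.
* `reach_line0`: straight line in the positions `x` with `u = v = 0` when the potential vanishes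
  identically on the line.
* `reach_via`: `v : 0 → r` (with `u = 0`), then `x` along the segment with `v = r`,
  `u = - pot(x(s)) / r`, then (if the potential vanishes at the end) `v : r → 0`.
* `reach_switch1`: `T` is tuned: `gg i * T = - (3/2 * ρ + 3 * a i)`, `ρ^2 = 2 * p i`; on the segment
  the potential is `ep i * ρ^4 * s^2 * (1-s)^2 / 4`; take `r = |ρ|`.
* `reach_switch2`: two coordinates `i, k` with `ep k = - ep i`, `p i = p k` and
  `gg i * T = -(ρ + p i / ρ + 3 a i)`, `gg k * T = -(ρ + p i/ρ + 3 a k)`: both positions move by `ρ`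
  at the same time; the potential is constant; the node parameters become `ρ^2 - p i`.
-/

namespace SRSard

open MeasureTheory Set Filter Topology
open scoped ContDiff

noncomputable section

/-- control with vanishing `t`-component -/
def mbCtl (y : Fin 4 → ℝ) (a b : ℝ) : SG := fun k => match k with
  | .x i => y i
  | .u => a
  | .v => b
  | _ => 0

theorem mb_norm_le {w : SG} {c : ℝ} (hc : 0 ≤ c) (h : ∀ k, |w k| ≤ c) : ‖w‖ ≤ c := by
  have := (pi_norm_le_iff_of_nonneg (x := (w : Idx → ℝ)) hc).2 (fun k => by
    rw [Real.norm_eq_abs]; exact h k)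
  exact this

theorem mb_hasDerivAt {η : ℝ → SG} {η' : SG} {t : ℝ} (h : ∀ k, HasDerivAt (fun s => η s k) (η' k) t) :
    HasDerivAt η η' t := by
  have := (hasDerivAt_pi (φ := (η : ℝ → Idx → ℝ)) (φ' := (η' : Idx → ℝ)) (x := t)).2 h
  exact this

theorem mb_continuous {w : ℝ → SG} (h : ∀ k, Continuous (fun s => w s k)) : Continuous w := by
  have := (continuous_pi_iff (f := (w : ℝ → Idx → ℝ))).2 h
  exact this

theorem mb_mem_Z {g : SG} (hg : g ∈ Z) (x : Fin 4 → ℝ) (u v : ℝ) (h : u * v + pot g x = 0) :
    setPos g x u v ∈ Z := by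
  obtain ⟨_, h2, h3, h4⟩ := hg
  exact ⟨h, h2, h3, h4⟩

theorem mb_pot_self {g : SG} (hg : g ∈ Z) : g .u * g .v + pot g (fun i => g (.x i)) = 0 := hg.1

theorem mb_setPos_self (g : SG) : setPos g (fun i => g (.x i)) (g .u) (g .v) = g := by
  ext k
  cases k <;> rfl

/-- a smooth motion of the positions inside the zero set of the potential -/
theorem mb_move {g : SG} (hg : g ∈ Z) {c : ℝ} (hc : 0 < c) (X : ℝ → Fin 4 → ℝ) (U V : ℝ → ℝ)
    (X' : ℝ → Fin 4 → ℝ) (U' V' : ℝ → ℝ)
    (hX : ∀ i s, HasDerivAt (fun s => X s i) (X' s i) s) (hU : ∀ s, HasDerivAt U (U' s) s)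
    (hV : ∀ s, HasDerivAt V (V' s) s)
    (hX' : ∀ i, Continuous (fun s => X' s i)) (hU' : Continuous U') (hV' : Continuous V')
    (bX : ∀ i, ∀ s ∈ Icc (0:ℝ) 1, |X' s i| ≤ c) (bU : ∀ s ∈ Icc (0:ℝ) 1, |U' s| ≤ c)
    (bV : ∀ s ∈ Icc (0:ℝ) 1, |V' s| ≤ c)
    (hZ : ∀ s ∈ Icc (0:ℝ) 1, U s * V s + pot g (X s) = 0) :
    Reach c (setPos g (X 0) (U 0) (V 0)) (setPos g (X 1) (U 1) (V 1)) := by
  refine reach_of_smooth (η := fun s => setPos g (X s) (U s) (V s))
    (w := fun s => mbCtl (X' s) (U' s) (V' s)) hc ?_ ?_ ?_ ?_
  · apply mb_continuous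
    intro k
    cases k with
    | x i => exact hX' i
    | u => exact hU'
    | v => exact hV'
    | t => exact continuous_const
    | m1 i => exact continuous_const
    | m2 i => exact continuous_const
    | m3 i => exact continuous_const
    | mu => exact continuous_const
    | mv => exact continuous_const
    | z => exact continuous_const
  · intro t
    apply mb_hasDerivAt
    intro k
    cases k with
    | x i => exact hX i t
    | u => exact hU t
    | v => exact hV t
    | t => exact hasDerivAt_const t _
    | m1 i => simp only [hor, mbCtl, zero_mul]; exact hasDerivAt_const t _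
    | m2 i => simp only [hor, mbCtl, zero_mul]; exact hasDerivAt_const t _
    | m3 i => simp only [hor, mbCtl, zero_mul]; exact hasDerivAt_const t _
    | mu => simp only [hor, mbCtl, zero_mul]; exact hasDerivAt_const t _
    | mv => simp only [hor, mbCtl, zero_mul]; exact hasDerivAt_const t _
    | z => simp only [hor, mbCtl, zero_mul]; exact hasDerivAt_const t _
  · intro t ht
    apply mb_norm_le hc.le
    intro k
    cases k with
    | x i => exact bX i t ht
    | u => exact bU t ht
    | v => exact bV t ht
    | t => simpa [mbCtl] using hc.le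
    | m1 i => simpa [mbCtl] using hc.le
    | m2 i => simpa [mbCtl] using hc.le
    | m3 i => simpa [mbCtl] using hc.le
    | mu => simpa [mbCtl] using hc.le
    | mv => simpa [mbCtl] using hc.le
    | z => simpa [mbCtl] using hc.le
  · intro t ht
    exact mb_mem_Z hg _ _ _ (hZ t ht)

/-- from `v = r`, `u = 0` back to `v = 0` (and conversely by symmetry) -/
theorem reach_v {g : SG} (hg : g ∈ Z) (hu : g .u = 0) (v' : ℝ) :
    Reach |v' - g .v| g (setPos g (fun i => g (.x i)) 0 v') := by
  by_cases h : v' = g .v
  · subst h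
    have e : setPos g (fun i => g (.x i)) 0 (g .v) = g := by
      conv_rhs => rw [← mb_setPos_self g, hu]
    rw [e, sub_self, abs_zero]
    exact Reach.refl hg
  · have hc : 0 < |v' - g .v| := abs_pos.2 (sub_ne_zero.2 h)
    have hp : pot g (fun i => g (.x i)) = 0 := by
      have := mb_pot_self hg
      rw [hu, zero_mul, zero_add] at this
      exact this
    have key := mb_move hg hc (fun _ i => g (.x i)) (fun _ => 0) (fun s => g .v + s * (v' - g .v))
      (fun _ _ => 0) (fun _ => 0) (fun _ => v' - g .v)
      (fun i s => hasDerivAt_const s _) (fun s => hasDerivAt_const s _)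
      (fun s => by
        have := ((hasDerivAt_id s).mul_const (v' - g .v)).const_add (g .v)
        simpa using this)
      (fun _ => continuous_const) continuous_const continuous_const
      (fun _ _ _ => by simp) (fun _ _ => by simp)
      (fun _ _ => le_rfl) (fun s _ => by simp [hp])
    have e0 : setPos g (fun i => g (.x i)) 0 (g .v + 0 * (v' - g .v)) = g := by
      rw [zero_mul, add_zero]
      conv_rhs => rw [← mb_setPos_self g, hu]
    have e1 : g .v + 1 * (v' - g .v) = v' := by ring
    simp only [e0, e1] at key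
    exact key

theorem reach_line0 {g : SG} (hg : g ∈ Z) (hu : g .u = 0) (hv : g .v = 0) (y : Fin 4 → ℝ)
    {B : ℝ} (hy : ∀ i, |y i| ≤ B)
    (h0 : ∀ s, pot g (fun i => g (.x i) + s * y i) = 0) (hB0 : 0 < B) :
    Reach B g (setPos g (fun i => g (.x i) + y i) 0 0) := by
  have key := mb_move hg hB0 (fun s i => g (.x i) + s * y i) (fun _ => 0) (fun _ => 0)
      (fun _ i => y i) (fun _ => 0) (fun _ => 0)
      (fun i s => by
        have := ((hasDerivAt_id s).mul_const (y i)).const_add (g (.x i))
        simpa using this) (fun s => hasDerivAt_const s _)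
      (fun s => hasDerivAt_const s _)
      (fun _ => continuous_const) continuous_const continuous_const
      (fun i _ _ => hy i) (fun _ _ => by simpa using hB0.le)
      (fun _ _ => by simpa using hB0.le) (fun s _ => by simp [h0 s])
  have e0 : setPos g (fun i => g (.x i) + 0 * y i) 0 0 = g := by
    have : (fun i => g (.x i) + 0 * y i) = fun i => g (.x i) := by
      funext i; ring
    rw [this]
    conv_rhs => rw [← mb_setPos_self g, hu, hv]
  have e1 : (fun i => g (.x i) + 1 * y i) = fun i => g (.x i) + y i := by
    funext i; ring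
  simp only [e0, e1] at key
  exact key

/-- general line move: `g` has `u = v = 0`, `h s = pot g (x + s y)` vanishes at the ends -/
theorem reach_via {g : SG} (hg : g ∈ Z) (hu : g .u = 0) (hv : g .v = 0) (y : Fin 4 → ℝ)
    {r B : ℝ} (hr : r ≠ 0) (h' : ℝ → ℝ)
    (hd : ∀ s, HasDerivAt (fun s => pot g (fun i => g (.x i) + s * y i)) (h' s) s)
    (hc : Continuous h') (hB : ∀ s ∈ Icc (0:ℝ) 1, |h' s| ≤ B * |r|) (hy : ∀ i, |y i| ≤ B)
    (hB0 : 0 < B) :
    Reach (|r| + B) g (setPos g (fun i => g (.x i) + y i)
      (- pot g (fun i => g (.x i) + y i) / r) r) := by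
  have hp : pot g (fun i => g (.x i)) = 0 := by
    have := mb_pot_self hg
    rw [hu, zero_mul, zero_add] at this
    exact this
  have s1 := reach_v hg hu r
  rw [hv, sub_zero] at s1
  have key := mb_move hg hB0 (fun s i => g (.x i) + s * y i)
      (fun s => - pot g (fun i => g (.x i) + s * y i) / r) (fun _ => r)
      (fun _ i => y i) (fun s => - h' s / r) (fun _ => 0)
      (fun i s => by
        have := ((hasDerivAt_id s).mul_const (y i)).const_add (g (.x i))
        simpa using this) (fun s => (hd s).neg.div_const r)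
      (fun s => hasDerivAt_const s _)
      (fun _ => continuous_const) (hc.neg.div_const r) continuous_const
      (fun i _ _ => hy i) (fun s hs => by
        rw [abs_div, abs_neg, div_le_iff₀ (abs_pos.2 hr)]
        exact hB s hs)
      (fun _ _ => by simpa using hB0.le) (fun s _ => by
        field_simp
        ring)
  have e0 : (fun i => g (.x i) + 0 * y i) = fun i => g (.x i) := by
      funext i; ring
  have e1 : (fun i => g (.x i) + 1 * y i) = fun i => g (.x i) + y i := by
    funext i; ring
  simp only [e0, e1, hp, neg_zero, zero_div] at key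
  exact s1.trans key

end

end SRSard
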