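import Pool.Agent.Lib.SRSard.MovesB

/-!
# Chunk MC: the switches and the displacement

`pe p : ∑ ep i * p i ^ 2 = 0` is the only condition for `node a T p ∈ Z`:
with `M1 = ndM1 g a T p` etc. one has `a^3 + g (T a^2 - 2 M1 a + M2) = 0` and
`a^4/4 + g/3 (T a^3 - 3 M1 a^2 + 3 M2 a - M3) = - p^2/12`.

* `reach_T`: the curve `t ↦ node a (T + t (T'-T)) p`, control constant `(T'-T) e_t`; its derivative
  in the coordinate `z` is right because `d/dT z(node) = Phi(node) + ∑ ep i p i^2 / 60`.
* `reach_line0`: straight line in the positions `x` with `u = v = 0` when the potential vanishes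
  identically on the line.
* `reach_via`: `v : 0 → r` (with `u = 0`), then `x` along the segment with `v = r`,
  `u = - pot(x(s)) / r`, then (if the potential vanishes at the end) `v : r → 0`.
* `reach_switch1`: `T` is tuned: `gg i * T = - (3/2 * ρ + 3 * a i)`, `ρ^2 = 2 * p i`; on the segment
  the potential is `ep i * ρ^4 * s^2 * (1-s)^2 / 4`; take `r = |ρ|`.
* `reach_switch2`: two coordinates `i, k` with `ep k = - ep i`, `p i = p k` and
  `gg i * T = -(ρ + p i / ρ + 3 a i)`, `gg k * T = -(ρ + p i/ρ + 3 a k)`: both positions move by `ρ`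
  at the same time; the potential is constant; the node parameters become `ρ^2 - p i`.
-/

namespace SRSard

open MeasureTheory Set Filter Topology
open scoped ContDiff

noncomputable section

/-- one summand of the potential of a node point, in the variable `x = a + d`:
`pot = ep * (d^4/4 - S/3 d^3 + p/2 d^2 - p^2/12)`, `S = -3 a - g T`. -/
theorem mc_summand {e g a T p d : ℝ} (hg : g ≠ 0) :
    e / 4 * (a + d) ^ 4 + e * g / 3 * ((a + d) ^ 3 * T - 3 * (a + d) ^ 2 * ndM1 g a T p
      + 3 * (a + d) * ndM2 g a T p - ndM3 g a T p)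
      = e * (d ^ 4 / 4 + (3 * a + g * T) / 3 * d ^ 3 + p / 2 * d ^ 2 - p ^ 2 / 12) := by
  unfold ndM3 ndM2 ndM1
  field_simp
  ring

theorem mc_pot (a : Fin 4 → ℝ) (T : ℝ) (p d : Fin 4 → ℝ) :
    pot (node a T p) (fun i => a i + d i) = ∑ i, ep i * (d i ^ 4 / 4
      + (3 * a i + gg i * T) / 3 * d i ^ 3 + p i / 2 * d i ^ 2) - (∑ i, ep i * p i ^ 2) / 12 := by
  have h : ∀ i, (ep i / 4 * (a i + d i) ^ 4 + ep i * gg i / 3 * ((a i + d i) ^ 3 * node a T p .t
      - 3 * (a i + d i) ^ 2 * node a T p (.m1 i) + 3 * (a i + d i) * node a T p (.m2 i)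
      - node a T p (.m3 i))) = ep i * (d i ^ 4 / 4 + (3 * a i + gg i * T) / 3 * d i ^ 3
      + p i / 2 * d i ^ 2 - p i ^ 2 / 12) := fun i => mc_summand (gg_pos i).ne'
  unfold pot
  rw [Finset.sum_congr rfl (fun i _ => h i), Finset.sum_div, ← Finset.sum_sub_distrib]
  refine Finset.sum_congr rfl fun i _ => ?_
  ring

theorem mc_node_x (a : Fin 4 → ℝ) (T : ℝ) (p : Fin 4 → ℝ) (i : Fin 4) :
    node a T p (.x i) = a i := rfl

theorem mc_contDiff_pot (g : SG) (x y : Fin 4 → ℝ) :
    ContDiff ℝ ∞ (fun s : ℝ => pot g (fun i => x i + s * y i)) := by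
  unfold pot
  fun_prop

theorem mc_setPos_eq {a a' : Fin 4 → ℝ} {T : ℝ} {p p' : Fin 4 → ℝ}
    (h1 : ∀ i, ndM1 (gg i) (a i) T (p i) = ndM1 (gg i) (a' i) T (p' i))
    (h2 : ∀ i, ndM2 (gg i) (a i) T (p i) = ndM2 (gg i) (a' i) T (p' i)) :
    setPos (node a T p) a' 0 0 = node a' T p' := by
  have h3 : ∀ i, ndM3 (gg i) (a i) T (p i) = ndM3 (gg i) (a' i) T (p' i) := by
    intro i
    unfold ndM3
    rw [h1, h2]
  ext k
  cases k with
  | m1 i => exact h1 i
  | m2 i => exact h2 i
  | m3 i => exact h3 i
  | z =>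
    change - (1 / 10) * ∑ i, ep i * gg i * (T * ndM3 (gg i) (a i) T (p i)
      - ndM1 (gg i) (a i) T (p i) * ndM2 (gg i) (a i) T (p i))
      = - (1 / 10) * ∑ i, ep i * gg i * (T * ndM3 (gg i) (a' i) T (p' i)
      - ndM1 (gg i) (a' i) T (p' i) * ndM2 (gg i) (a' i) T (p' i))
    simp only [h1, h2, h3]
  | _ => rfl

theorem reach_switch1 (a : Fin 4 → ℝ) (T : ℝ) {p : Fin 4 → ℝ} (hp : pe p) (i : Fin 4) {ρ : ℝ}
    (h0 : ρ ≠ 0) (h1 : ρ ^ 2 = 2 * p i) (h2 : gg i * T = - (3 / 2 * ρ + 3 * a i)) :
    Reach (4 * |ρ| * (1 + ρ ^ 2)) (node a T p) (node (Function.update a i (a i + ρ)) T p) := by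
  have hg := (gg_pos i).ne'
  have hρ : 0 < |ρ| := abs_pos.mpr h0
  set y : Fin 4 → ℝ := fun k => if k = i then ρ else 0 with hy
  have hpot : ∀ s : ℝ, pot (node a T p) (fun k => a k + s * y k)
      = ep i * (ρ ^ 4 * (s ^ 2 * (1 - s) ^ 2) / 4) := by
    intro s
    rw [mc_pot a T p (fun k => s * y k)]
    unfold pe at hp
    rw [hp]
    have : ∀ k ∈ Finset.univ, k ≠ i → ep k * ((s * y k) ^ 4 / 4
        + (3 * a k + gg k * T) / 3 * (s * y k) ^ 3 + p k / 2 * (s * y k) ^ 2) = 0 := by
      intro k _ hk
      simp [hy, hk]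
    rw [Finset.sum_eq_single i this (by simp)]
    have hyi : y i = ρ := by simp [hy]
    rw [hyi, h2, show p i = ρ ^ 2 / 2 by rw [h1]; ring]
    ring
  have hep : |ep i| = 1 := by fin_cases i <;> simp [ep]
  have hx : ∀ k, a k + y k = Function.update a i (a i + ρ) k := by
    intro k
    by_cases hk : k = i
    · subst hk; simp [hy]
    · simp [hy, hk]
  have hN := node_mem_Z a T hp
  have hvia := reach_via (g := node a T p) hN rfl rfl y (r := |ρ|) (B := |ρ| * (1 + ρ ^ 2))
    hρ.ne' (fun s => ep i * (ρ ^ 4 * (s * (1 - s) * (1 - 2 * s)) / 2)) ?_ ?_ ?_ ?_ (by positivity)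
  · have hmid : ((fun k => node a T p (.x k) + y k) : Fin 4 → ℝ)
        = Function.update a i (a i + ρ) := funext hx
    have hp1 : pot (node a T p) (fun k => node a T p (.x k) + y k) = 0 := by
      have := hpot 1
      simp only [one_mul] at this
      simp only [mc_node_x]
      rw [this]; ring
    rw [hp1, hmid] at hvia
    have hZ : setPos (node a T p) (Function.update a i (a i + ρ)) (-0 / |ρ|) |ρ| ∈ Z := by
      obtain ⟨_, w, _, hw, hwZ⟩ := hvia
      rw [← hw]
      exact hwZ _ ⟨by positivity, le_refl _⟩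
    have hback := reach_v hZ (by simp [setPos]) 0
    have hfin : setPos (setPos (node a T p) (Function.update a i (a i + ρ)) (-0 / |ρ|) |ρ|)
        (fun k => (setPos (node a T p) (Function.update a i (a i + ρ)) (-0 / |ρ|) |ρ|) (.x k)) 0 0
        = node (Function.update a i (a i + ρ)) T p := by
      have : setPos (setPos (node a T p) (Function.update a i (a i + ρ)) (-0 / |ρ|) |ρ|)
        (fun k => (setPos (node a T p) (Function.update a i (a i + ρ)) (-0 / |ρ|) |ρ|) (.x k)) 0 0
        = setPos (node a T p) (Function.update a i (a i + ρ)) 0 0 := by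
        ext k
        cases k <;> rfl
      rw [this]
      apply mc_setPos_eq
      · intro k
        by_cases hk : k = i
        · subst hk
          simp only [Function.update_self]
          unfold ndM1
          have : 2 * gg k * T = 2 * (gg k * T) := by ring
          rw [this, h2]
          field_simp
          ring
        · simp [hk]
      · intro k
        by_cases hk : k = i
        · subst hk
          simp only [Function.update_self]
          unfold ndM2
          rw [h2]
          field_simp
          linear_combination (- ρ) * h1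
        · simp [hk]
    rw [hfin] at hback
    refine (hvia.trans hback).mono ?_
    have : |0 - setPos (node a T p) (Function.update a i (a i + ρ)) (-0 / |ρ|) |ρ| .v| = |ρ| := by
      simp [setPos]
    rw [this, abs_abs]
    nlinarith [mul_pos hρ (show (0:ℝ) < 1 + ρ ^ 2 by positivity), mul_nonneg hρ.le (sq_nonneg ρ)]
  · intro s
    have hfun : (fun s => pot (node a T p) (fun k => node a T p (.x k) + s * y k))
        = fun s => ep i * (ρ ^ 4 * (s ^ 2 * (1 - s) ^ 2) / 4) := by
      funext s
      simp only [mc_node_x]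
      exact hpot s
    rw [hfun]
    have hd : HasDerivAt (fun s : ℝ => s ^ 2 * (1 - s) ^ 2)
        (2 * (s * (1 - s) * (1 - 2 * s))) s := by
      have h1 : HasDerivAt (fun s : ℝ => s ^ 2) (2 * s) s := by
        simpa using hasDerivAt_pow 2 s
      have h2 : HasDerivAt (fun s : ℝ => (1 - s)) (-1) s := by
        simpa using (hasDerivAt_id s).const_sub 1
      have h3 := h2.pow 2
      exact (h1.mul h3).congr_deriv (by simp only [Pi.pow_apply]; push_cast; ring)
    exact (((hd.const_mul (ρ ^ 4)).div_const 4).const_mul (ep i)).congr_deriv (by ring)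
  · fun_prop
  · intro s hs
    rw [abs_mul, hep, one_mul, abs_div, abs_mul, abs_mul, abs_mul]
    have e1 : |s| ≤ 1 := abs_le.mpr ⟨by linarith [hs.1], hs.2⟩
    have e2 : |1 - s| ≤ 1 := abs_le.mpr ⟨by linarith [hs.2], by linarith [hs.1]⟩
    have e3 : |1 - 2 * s| ≤ 1 := abs_le.mpr ⟨by linarith [hs.2], by linarith [hs.1]⟩
    have e4 : |s| * |1 - s| * |1 - 2 * s| ≤ 1 := by
      calc |s| * |1 - s| * |1 - 2 * s| ≤ 1 * 1 * 1 := by gcongr
        _ = 1 := by norm_num
    have e5 : |ρ ^ 4| = ρ ^ 4 := abs_of_nonneg (by positivity)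
    rw [e5]
    have e6 : |(2:ℝ)| = 2 := by norm_num
    rw [e6]
    have e7 : |ρ| * (1 + ρ ^ 2) * |(|ρ|)| = ρ ^ 2 * (1 + ρ ^ 2) := by
      rw [abs_abs, show |ρ| * (1 + ρ ^ 2) * |ρ| = (|ρ| * |ρ|) * (1 + ρ ^ 2) by ring, abs_mul_abs_self]
      ring
    rw [e7]
    have e8 : 0 ≤ ρ ^ 4 := by positivity
    nlinarith [mul_le_mul_of_nonneg_left e4 e8, sq_nonneg ρ]
  · intro k
    by_cases hk : k = i
    · simp only [hy, hk, if_true]
      nlinarith [mul_nonneg hρ.le (sq_nonneg ρ)]
    · simp only [hy, hk, if_false, abs_zero]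
      positivity

theorem reach_switch2 (a : Fin 4 → ℝ) (T : ℝ) {p : Fin 4 → ℝ} (hp : pe p) (i k : Fin 4)
    (hik : i ≠ k) (hep : ep k = - ep i) (hpp : p k = p i) {ρ : ℝ} (h0 : ρ ≠ 0)
    (h1 : gg i * T = - (ρ + p i / ρ + 3 * a i)) (h2 : gg k * T = - (ρ + p i / ρ + 3 * a k)) :
    Reach |ρ| (node a T p) (node (Function.update (Function.update a i (a i + ρ)) k (a k + ρ)) T
      (Function.update (Function.update p i (ρ ^ 2 - p i)) k (ρ ^ 2 - p i))) := by
  have hρ : 0 < |ρ| := abs_pos.mpr h0
  set y : Fin 4 → ℝ := fun l => if l = i then ρ else if l = k then ρ else 0 with hy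
  have hyi : y i = ρ := by simp [hy]
  have hyk : y k = ρ := by simp [hy]
  have hyo : ∀ l, l ≠ i → l ≠ k → y l = 0 := by
    intro l h1 h2
    simp [hy, h1, h2]
  have hpot : ∀ s : ℝ, pot (node a T p) (fun l => node a T p (.x l) + s * y l) = 0 := by
    intro s
    simp only [mc_node_x]
    rw [mc_pot a T p (fun k => s * y k)]
    unfold pe at hp
    rw [hp]
    have hz : ∀ l ∈ Finset.univ, l ∉ ({i, k} : Finset (Fin 4)) → ep l * ((s * y l) ^ 4 / 4
        + (3 * a l + gg l * T) / 3 * (s * y l) ^ 3 + p l / 2 * (s * y l) ^ 2) = 0 := by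
      intro l _ hl
      simp only [Finset.mem_insert, Finset.mem_singleton, not_or] at hl
      rw [hyo l hl.1 hl.2]
      ring
    rw [← Finset.sum_subset (Finset.subset_univ ({i, k} : Finset (Fin 4))) hz,
      Finset.sum_pair hik, hyi, hyk, h1, h2, hep, hpp]
    ring
  have hx : ∀ l, node a T p (.x l) + y l
      = Function.update (Function.update a i (a i + ρ)) k (a k + ρ) l := by
    intro l
    rw [mc_node_x]
    by_cases hk : l = k
    · subst hk; simp [hyk]
    · by_cases hi : l = i
      · subst hi; simp [hyi, hk]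
      · simp [hk, hi, hyo l hi hk]
  have H := reach_line0 (g := node a T p) (node_mem_Z a T hp) rfl rfl y (B := |ρ|) ?_ hpot hρ
  · rw [show ((fun l => node a T p (.x l) + y l) : Fin 4 → ℝ)
        = Function.update (Function.update a i (a i + ρ)) k (a k + ρ) from funext hx] at H
    have hfin : setPos (node a T p) (Function.update (Function.update a i (a i + ρ)) k (a k + ρ)) 0 0
        = node (Function.update (Function.update a i (a i + ρ)) k (a k + ρ)) T
      (Function.update (Function.update p i (ρ ^ 2 - p i)) k (ρ ^ 2 - p i)) := by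
      apply mc_setPos_eq
      · intro l
        have hg := (gg_pos l).ne'
        by_cases hk : l = k
        · subst hk
          simp only [Function.update_self]
          unfold ndM1
          have : 2 * gg l * T = 2 * (gg l * T) := by ring
          rw [this, h2, hpp]
          field_simp
          ring
        · by_cases hi : l = i
          · subst hi
            simp only [Function.update_self, Function.update_of_ne hk]
            unfold ndM1
            have : 2 * gg l * T = 2 * (gg l * T) := by ring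
            rw [this, h1]
            field_simp
            ring
          · simp [hk, hi]
      · intro l
        have hg := (gg_pos l).ne'
        by_cases hk : l = k
        · subst hk
          simp only [Function.update_self]
          unfold ndM2
          rw [h2, hpp]
          field_simp
          ring
        · by_cases hi : l = i
          · subst hi
            simp only [Function.update_self, Function.update_of_ne hk]
            unfold ndM2
            rw [h1]
            field_simp
            ring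
          · simp [hk, hi]
    rw [hfin] at H
    exact H
  · intro l
    by_cases hi : l = i
    · rw [hi, hyi]
    · by_cases hk : l = k
      · rw [hk, hyk]
      · rw [hyo l hi hk, abs_zero]
        positivity

/-- leave a node point: arbitrary position `x`, `v = r ≠ 0` -/
theorem reach_disp (a : Fin 4 → ℝ) (T : ℝ) {p : Fin 4 → ℝ} (hp : pe p) (x : Fin 4 → ℝ) {r : ℝ}
    (hr : r ≠ 0) : ∃ L, Reach L (node a T p)
      (setPos (node a T p) x (- pot (node a T p) x / r) r) := by
  set y : Fin 4 → ℝ := fun i => x i - a i with hy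
  have hx : ((fun i => node a T p (.x i) + y i) : Fin 4 → ℝ) = x := by
    funext i
    simp [mc_node_x, hy]
  set f : ℝ → ℝ := fun s => pot (node a T p) (fun i => node a T p (.x i) + s * y i) with hf
  have hcd : ContDiff ℝ ∞ f := mc_contDiff_pot (node a T p) (fun i => node a T p (.x i)) y
  have hc : Continuous (deriv f) := hcd.continuous_deriv (by simp)
  have hd : ∀ s, HasDerivAt f (deriv f s) s := fun s =>
    (hcd.differentiable (by simp) s).hasDerivAt
  obtain ⟨B₁, hB₁⟩ := (isCompact_Icc (a := (0:ℝ)) (b := 1)).exists_bound_of_continuousOn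
    hc.continuousOn
  have hr' : 0 < |r| := abs_pos.mpr hr
  have hB₁0 : 0 ≤ B₁ := le_trans (norm_nonneg _) (hB₁ 0 (by simp))
  set B : ℝ := B₁ / |r| + (∑ i, |y i|) + 1 with hB
  have hs0 : 0 ≤ ∑ i, |y i| := Finset.sum_nonneg fun i _ => abs_nonneg _
  have hB0 : 0 < B := by positivity
  have H := reach_via (g := node a T p) (node_mem_Z a T hp) rfl rfl y (r := r) (B := B) hr
    (deriv f) hd hc ?_ ?_ hB0
  · rw [hx] at H
    exact ⟨_, H⟩
  · intro s hs
    have := hB₁ s hs
    rw [Real.norm_eq_abs] at this
    refine this.trans ?_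
    have e : B * |r| = B₁ + ((∑ i, |y i|) + 1) * |r| := by
      rw [hB]; field_simp; ring
    rw [e]
    have : 0 ≤ ((∑ i, |y i|) + 1) * |r| := by positivity
    linarith
  · intro i
    have : |y i| ≤ ∑ i, |y i| :=
      Finset.single_le_sum (f := fun i => |y i|) (fun i _ => abs_nonneg _) (Finset.mem_univ i)
    have h3 : 0 ≤ B₁ / |r| := by positivity
    rw [hB]
    linarith

end

end SRSard
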