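import Pool.Agent.Lib.SRSard.Basic

/-!
# `SG` is a nilpotent group
-/

namespace SRSard

noncomputable section

/-- the five steps of the central series, as sets of vanishing coordinates -/
def vanishSet : ℕ → Set SG
  | 0 => Set.univ
  | 1 => {g | (∀ i, g (.x i) = 0) ∧ g .u = 0 ∧ g .v = 0 ∧ g .t = 0}
  | 2 => {g | ((∀ i, g (.x i) = 0) ∧ g .u = 0 ∧ g .v = 0 ∧ g .t = 0) ∧
      (∀ i, g (.m1 i) = 0) ∧ g .mu = 0 ∧ g .mv = 0}
  | 3 => {g | (((∀ i, g (.x i) = 0) ∧ g .u = 0 ∧ g .v = 0 ∧ g .t = 0) ∧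
      (∀ i, g (.m1 i) = 0) ∧ g .mu = 0 ∧ g .mv = 0) ∧ (∀ i, g (.m2 i) = 0)}
  | 4 => {g | ((((∀ i, g (.x i) = 0) ∧ g .u = 0 ∧ g .v = 0 ∧ g .t = 0) ∧
      (∀ i, g (.m1 i) = 0) ∧ g .mu = 0 ∧ g .mv = 0) ∧ (∀ i, g (.m2 i) = 0)) ∧
      (∀ i, g (.m3 i) = 0)}
  | _ => {1}

theorem vanishSet_one (n : ℕ) : (1 : SG) ∈ vanishSet n := by
  match n with
  | 0 => trivial
  | 1 => simp [vanishSet, one_apply]
  | 2 => simp [vanishSet, one_apply]
  | 3 => simp [vanishSet, one_apply]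
  | 4 => simp [vanishSet, one_apply]
  | (n + 5) => simp [vanishSet]

theorem vanishSet_mul (n : ℕ) {a b : SG} (ha : a ∈ vanishSet n) (hb : b ∈ vanishSet n) :
    a * b ∈ vanishSet n := by
  match n with
  | 0 => trivial
  | 1 =>
    obtain ⟨h1, h2, h3, h4⟩ := ha
    obtain ⟨k1, k2, k3, k4⟩ := hb
    simp [vanishSet, mul_apply, mulFun, h1, h2, h3, h4, k1, k2, k3, k4]
  | 2 =>
    obtain ⟨⟨h1, h2, h3, h4⟩, h5, h6, h7⟩ := ha
    obtain ⟨⟨k1, k2, k3, k4⟩, k5, k6, k7⟩ := hb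
    simp [vanishSet, mul_apply, mulFun, h1, h2, h3, h4, k1, k2, k3, k4, h5, h6, h7, k5, k6, k7]
  | 3 =>
    obtain ⟨⟨⟨h1, h2, h3, h4⟩, h5, h6, h7⟩, h8⟩ := ha
    obtain ⟨⟨⟨k1, k2, k3, k4⟩, k5, k6, k7⟩, k8⟩ := hb
    simp [vanishSet, mul_apply, mulFun, h1, h2, h3, h4, k1, k2, k3, k4, h5, h6, h7, k5, k6, k7,
      h8, k8]
  | 4 =>
    obtain ⟨⟨⟨⟨h1, h2, h3, h4⟩, h5, h6, h7⟩, h8⟩, h9⟩ := ha
    obtain ⟨⟨⟨⟨k1, k2, k3, k4⟩, k5, k6, k7⟩, k8⟩, k9⟩ := hb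
    simp [vanishSet, mul_apply, mulFun, h1, h2, h3, h4, k1, k2, k3, k4, h5, h6, h7, k5, k6, k7,
      h8, k8, h9, k9]
  | (n + 5) =>
    simp only [vanishSet, Set.mem_singleton_iff] at ha hb ⊢
    rw [ha, hb, one_mul]

theorem vanishSet_inv (n : ℕ) {a : SG} (ha : a ∈ vanishSet n) : a⁻¹ ∈ vanishSet n := by
  match n with
  | 0 => trivial
  | 1 =>
    obtain ⟨h1, h2, h3, h4⟩ := ha
    simp [vanishSet, inv_apply, invFun, h1, h2, h3, h4]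
  | 2 =>
    obtain ⟨⟨h1, h2, h3, h4⟩, h5, h6, h7⟩ := ha
    simp [vanishSet, inv_apply, invFun, h1, h2, h3, h4, h5, h6, h7]
  | 3 =>
    obtain ⟨⟨⟨h1, h2, h3, h4⟩, h5, h6, h7⟩, h8⟩ := ha
    simp [vanishSet, inv_apply, invFun, h1, h2, h3, h4, h5, h6, h7, h8]
  | 4 =>
    obtain ⟨⟨⟨⟨h1, h2, h3, h4⟩, h5, h6, h7⟩, h8⟩, h9⟩ := ha
    simp [vanishSet, inv_apply, invFun, h1, h2, h3, h4, h5, h6, h7, h8, h9]
  | (n + 5) =>
    simp only [vanishSet, Set.mem_singleton_iff] at ha ⊢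
    rw [ha, inv_one]

/-- the central series -/
def vanish (n : ℕ) : Subgroup SG where
  carrier := vanishSet n
  mul_mem' := vanishSet_mul n
  one_mem' := vanishSet_one n
  inv_mem' := vanishSet_inv n

theorem vanish_comm (x : SG) (n : ℕ) (hx : x ∈ vanish n) (g : SG) :
    x * g * x⁻¹ * g⁻¹ ∈ vanish (n + 1) := by
  change x ∈ vanishSet n at hx
  change x * g * x⁻¹ * g⁻¹ ∈ vanishSet (n + 1)
  match n with
  | 0 => simp [vanishSet, mul_apply, inv_apply, mulFun, invFun]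
  | 1 =>
    obtain ⟨h1, h2, h3, h4⟩ := hx
    simp [vanishSet, mul_apply, inv_apply, mulFun, invFun, h1, h2, h3, h4]
  | 2 =>
    obtain ⟨⟨h1, h2, h3, h4⟩, h5, h6, h7⟩ := hx
    simp [vanishSet, mul_apply, inv_apply, mulFun, invFun, h1, h2, h3, h4, h5, h6, h7]
    intro i
    ring
  | 3 =>
    obtain ⟨⟨⟨h1, h2, h3, h4⟩, h5, h6, h7⟩, h8⟩ := hx
    simp [vanishSet, mul_apply, inv_apply, mulFun, invFun, h1, h2, h3, h4, h5, h6, h7, h8]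
    constructor
    · intro i
      ring
    · intro i
      ring
  | 4 =>
    obtain ⟨⟨⟨⟨h1, h2, h3, h4⟩, h5, h6, h7⟩, h8⟩, h9⟩ := hx
    simp only [vanishSet, Set.mem_singleton_iff]
    ext k
    cases k <;> simp [mul_apply, one_apply, inv_apply, mulFun, invFun, h1, h2, h3, h4, h5, h6, h7,
      h8, h9, Fin.sum_univ_four] <;> ring
  | (n + 5) =>
    simp only [vanishSet, Set.mem_singleton_iff] at hx ⊢
    rw [hx]
    simp

instance : Group.IsNilpotent SG := by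
  rw [Subgroup.nilpotent_iff_finite_descending_central_series]
  refine ⟨5, vanish, ⟨?_, fun x n hx g => vanish_comm x n hx g⟩, ?_⟩
  · ext x; exact ⟨fun _ => trivial, fun _ => trivial⟩
  · ext x
    change x ∈ vanishSet 5 ↔ _
    simp [vanishSet, Subgroup.mem_bot]

end

end SRSard
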