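import Pool.Agent.Lib.SRSard.OpenDeriv

/-!
# Chunk OPEN, part 2: the numerical data at the base point
-/

namespace SRSard

open Set Filter Topology

noncomputable section

/-- a point of the group given by its coordinates -/
def olit (x : Fin 4 → ℝ) (u v t : ℝ) (m1 m2 m3 : Fin 4 → ℝ) (mu mv z : ℝ) : SG :=
  fun k => match k with
  | .x i => x i
  | .u => u
  | .v => v
  | .t => t
  | .m1 i => m1 i
  | .m2 i => m2 i
  | .m3 i => m3 i
  | .mu => mu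
  | .mv => mv
  | .z => z

theorem ov2 (a b c d : ℝ) : (![a, b, c, d] : Fin 4 → ℝ) 2 = c := rfl
theorem ov3 (a b c d : ℝ) : (![a, b, c, d] : Fin 4 → ℝ) 3 = d := rfl

/-- the explicit point -/
def oNd (a : Fin 4 → ℝ) (T pA pB : ℝ) : SG := node a T (prs pA pB)

/-- its derivative -/
def oNdD (a : Fin 4 → ℝ) (T pA pB : ℝ) (a' : Fin 4 → ℝ) (T' pA' pB' : ℝ) : SG :=
  odNode a T (prs pA pB) a' T' (prs pA' pB')

def og : SG := olit ![0, (-1), (-1), 0] (103 / 3) (-1) 1 ![(-(1 / 2)), (-(100 / 101)), (-(1 / 2)), (102 / 101)] ![0, (100 / 101), 0, (102 / 101)] ![(1 / 4), (-(100 / 101)), (1 / 4), (102 / 101)] 0 0 (-(1 / 4))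

def oh : SG := olit ![(-1), 1, (-1), 1] 0 1 0 ![(-(1 / 2)), (-(1 / 202)), (-(1 / 2)), (-(1 / 202))] ![0, 0, 0, 0] ![(1 / 4), (1 / 404), (1 / 4), (1 / 404)] 0 0 0

def oq : SG := olit ![(-1), 2, 0, 1] (-(103 / 3)) 2 (-1) ![0, (-(3 / 202)), (-1), (-(205 / 202))] ![0, (-(2 / 101)), (-1), (-(102 / 101))] ![0, (-(9 / 404)), (-1), (-(407 / 404))] (103 / 3) (-1) (10178 / 303)

def ong : SG := olit ![0, (-1), 0, 1] 0 0 1 ![(-(1 / 2)), (-(100 / 101)), (-(1 / 2)), (102 / 101)] ![0, (100 / 101), 0, (102 / 101)] ![(1 / 4), (-(100 / 101)), (1 / 4), (102 / 101)] 0 0 (-(1 / 4))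

def onh : SG := olit ![0, 0, 0, 0] 0 0 0 ![(-(1 / 2)), (-(1 / 202)), (-(1 / 2)), (-(1 / 202))] ![0, 0, 0, 0] ![(1 / 4), (1 / 404), (1 / 4), (1 / 404)] 0 0 0

theorem ong_eq : oNd ![0, (-1), 0, 1] 1 1 1 = ong := by
  ext k
  cases k with
  | x i => fin_cases i <;> norm_num [olit, ep, gg, Fin.sum_univ_four, prs, ov2, ov3, oNd, node, ndM1, ndM2, ndM3, ong]
  | m1 i => fin_cases i <;> norm_num [olit, ep, gg, Fin.sum_univ_four, prs, ov2, ov3, oNd, node, ndM1, ndM2, ndM3, ong]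
  | m2 i => fin_cases i <;> norm_num [olit, ep, gg, Fin.sum_univ_four, prs, ov2, ov3, oNd, node, ndM1, ndM2, ndM3, ong]
  | m3 i => fin_cases i <;> norm_num [olit, ep, gg, Fin.sum_univ_four, prs, ov2, ov3, oNd, node, ndM1, ndM2, ndM3, ong]
  | _ => norm_num [olit, ep, gg, Fin.sum_univ_four, prs, ov2, ov3, oNd, node, ndM1, ndM2, ndM3, ong]

theorem onh_eq : oNd ![0, 0, 0, 0] 0 1 1 = onh := by
  ext k
  cases k with
  | x i => fin_cases i <;> norm_num [olit, ep, gg, Fin.sum_univ_four, prs, ov2, ov3, oNd, node, ndM1, ndM2, ndM3, onh]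
  | m1 i => fin_cases i <;> norm_num [olit, ep, gg, Fin.sum_univ_four, prs, ov2, ov3, oNd, node, ndM1, ndM2, ndM3, onh]
  | m2 i => fin_cases i <;> norm_num [olit, ep, gg, Fin.sum_univ_four, prs, ov2, ov3, oNd, node, ndM1, ndM2, ndM3, onh]
  | m3 i => fin_cases i <;> norm_num [olit, ep, gg, Fin.sum_univ_four, prs, ov2, ov3, oNd, node, ndM1, ndM2, ndM3, onh]
  | _ => norm_num [olit, ep, gg, Fin.sum_univ_four, prs, ov2, ov3, oNd, node, ndM1, ndM2, ndM3, onh]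

theorem og_eq : setPos ong ![0, (-1), (-1), 0] (- pot ong ![0, (-1), (-1), 0] / (-1)) (-1) = og := by
  ext k
  cases k with
  | x i => fin_cases i <;> norm_num [olit, ep, gg, Fin.sum_univ_four, prs, ov2, ov3, setPos, pot, ong, og]
  | m1 i => fin_cases i <;> norm_num [olit, ep, gg, Fin.sum_univ_four, prs, ov2, ov3, setPos, pot, ong, og]
  | m2 i => fin_cases i <;> norm_num [olit, ep, gg, Fin.sum_univ_four, prs, ov2, ov3, setPos, pot, ong, og]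
  | m3 i => fin_cases i <;> norm_num [olit, ep, gg, Fin.sum_univ_four, prs, ov2, ov3, setPos, pot, ong, og]
  | _ => norm_num [olit, ep, gg, Fin.sum_univ_four, prs, ov2, ov3, setPos, pot, ong, og]

theorem oh_eq : setPos onh ![(-1), 1, (-1), 1] (- pot onh ![(-1), 1, (-1), 1] / 1) 1 = oh := by
  ext k
  cases k with
  | x i => fin_cases i <;> norm_num [olit, ep, gg, Fin.sum_univ_four, prs, ov2, ov3, setPos, pot, onh, oh]
  | m1 i => fin_cases i <;> norm_num [olit, ep, gg, Fin.sum_univ_four, prs, ov2, ov3, setPos, pot, onh, oh]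
  | m2 i => fin_cases i <;> norm_num [olit, ep, gg, Fin.sum_univ_four, prs, ov2, ov3, setPos, pot, onh, oh]
  | m3 i => fin_cases i <;> norm_num [olit, ep, gg, Fin.sum_univ_four, prs, ov2, ov3, setPos, pot, onh, oh]
  | _ => norm_num [olit, ep, gg, Fin.sum_univ_four, prs, ov2, ov3, setPos, pot, onh, oh]

theorem oq_eq : og * oq = oh := by
  ext k
  cases k with
  | x i => fin_cases i <;> norm_num [olit, ep, gg, Fin.sum_univ_four, prs, ov2, ov3, mul_apply, mulFun, og, oq, oh]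
  | m1 i => fin_cases i <;> norm_num [olit, ep, gg, Fin.sum_univ_four, prs, ov2, ov3, mul_apply, mulFun, og, oq, oh]
  | m2 i => fin_cases i <;> norm_num [olit, ep, gg, Fin.sum_univ_four, prs, ov2, ov3, mul_apply, mulFun, og, oq, oh]
  | m3 i => fin_cases i <;> norm_num [olit, ep, gg, Fin.sum_univ_four, prs, ov2, ov3, mul_apply, mulFun, og, oq, oh]
  | _ => norm_num [olit, ep, gg, Fin.sum_univ_four, prs, ov2, ov3, mul_apply, mulFun, og, oq, oh]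

theorem ondg_z : oNdD ![0, (-1), 0, 1] 1 1 1 ![0, 0, 0, 0] 0 0 0 = olit ![0, 0, 0, 0] 0 0 0 ![0, 0, 0, 0] ![0, 0, 0, 0] ![0, 0, 0, 0] 0 0 0 := by
  ext k
  cases k with
  | x i => fin_cases i <;> norm_num [olit, ep, gg, Fin.sum_univ_four, prs, ov2, ov3, odNode, odM1, odM2, odM3, ndM1, ndM2, ndM3, oNdD]
  | m1 i => fin_cases i <;> norm_num [olit, ep, gg, Fin.sum_univ_four, prs, ov2, ov3, odNode, odM1, odM2, odM3, ndM1, ndM2, ndM3, oNdD]
  | m2 i => fin_cases i <;> norm_num [olit, ep, gg, Fin.sum_univ_four, prs, ov2, ov3, odNode, odM1, odM2, odM3, ndM1, ndM2, ndM3, oNdD]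
  | m3 i => fin_cases i <;> norm_num [olit, ep, gg, Fin.sum_univ_four, prs, ov2, ov3, odNode, odM1, odM2, odM3, ndM1, ndM2, ndM3, oNdD]
  | _ => norm_num [olit, ep, gg, Fin.sum_univ_four, prs, ov2, ov3, odNode, odM1, odM2, odM3, ndM1, ndM2, ndM3, oNdD]

theorem ondh_z : oNdD ![0, 0, 0, 0] 0 1 1 ![0, 0, 0, 0] 0 0 0 = olit ![0, 0, 0, 0] 0 0 0 ![0, 0, 0, 0] ![0, 0, 0, 0] ![0, 0, 0, 0] 0 0 0 := by
  ext k
  cases k with
  | x i => fin_cases i <;> norm_num [olit, ep, gg, Fin.sum_univ_four, prs, ov2, ov3, odNode, odM1, odM2, odM3, ndM1, ndM2, ndM3, oNdD]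
  | m1 i => fin_cases i <;> norm_num [olit, ep, gg, Fin.sum_univ_four, prs, ov2, ov3, odNode, odM1, odM2, odM3, ndM1, ndM2, ndM3, oNdD]
  | m2 i => fin_cases i <;> norm_num [olit, ep, gg, Fin.sum_univ_four, prs, ov2, ov3, odNode, odM1, odM2, odM3, ndM1, ndM2, ndM3, oNdD]
  | m3 i => fin_cases i <;> norm_num [olit, ep, gg, Fin.sum_univ_four, prs, ov2, ov3, odNode, odM1, odM2, odM3, ndM1, ndM2, ndM3, oNdD]
  | _ => norm_num [olit, ep, gg, Fin.sum_univ_four, prs, ov2, ov3, odNode, odM1, odM2, odM3, ndM1, ndM2, ndM3, oNdD]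

theorem ondg0 : oNdD ![0, (-1), 0, 1] 1 1 1 ![1, 0, 0, 0] 0 0 0 = olit ![1, 0, 0, 0] 0 0 0 ![1, 0, 0, 0] ![(-1), 0, 0, 0] ![0, 0, 0, 0] 0 0 (1 / 20) := by
  ext k
  cases k with
  | x i => fin_cases i <;> norm_num [olit, ep, gg, Fin.sum_univ_four, prs, ov2, ov3, odNode, odM1, odM2, odM3, ndM1, ndM2, ndM3, oNdD]
  | m1 i => fin_cases i <;> norm_num [olit, ep, gg, Fin.sum_univ_four, prs, ov2, ov3, odNode, odM1, odM2, odM3, ndM1, ndM2, ndM3, oNdD]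
  | m2 i => fin_cases i <;> norm_num [olit, ep, gg, Fin.sum_univ_four, prs, ov2, ov3, odNode, odM1, odM2, odM3, ndM1, ndM2, ndM3, oNdD]
  | m3 i => fin_cases i <;> norm_num [olit, ep, gg, Fin.sum_univ_four, prs, ov2, ov3, odNode, odM1, odM2, odM3, ndM1, ndM2, ndM3, oNdD]
  | _ => norm_num [olit, ep, gg, Fin.sum_univ_four, prs, ov2, ov3, odNode, odM1, odM2, odM3, ndM1, ndM2, ndM3, oNdD]

theorem optg0 : odPt ong (olit ![1, 0, 0, 0] 0 0 0 ![1, 0, 0, 0] ![(-1), 0, 0, 0] ![0, 0, 0, 0] 0 0 (1 / 20)) ![0, (-1), (-1), 0] ![0, 0, 0, 0] (-1) 0 = olit ![0, 0, 0, 0] 0 0 0 ![1, 0, 0, 0] ![(-1), 0, 0, 0] ![0, 0, 0, 0] 0 0 (1 / 20) := by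
  ext k
  cases k with
  | x i => fin_cases i <;> norm_num [olit, ep, gg, Fin.sum_univ_four, prs, ov2, ov3, odPt, odPot, pot, ong, onh]
  | m1 i => fin_cases i <;> norm_num [olit, ep, gg, Fin.sum_univ_four, prs, ov2, ov3, odPt, odPot, pot, ong, onh]
  | m2 i => fin_cases i <;> norm_num [olit, ep, gg, Fin.sum_univ_four, prs, ov2, ov3, odPt, odPot, pot, ong, onh]
  | m3 i => fin_cases i <;> norm_num [olit, ep, gg, Fin.sum_univ_four, prs, ov2, ov3, odPt, odPot, pot, ong, onh]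
  | _ => norm_num [olit, ep, gg, Fin.sum_univ_four, prs, ov2, ov3, odPt, odPot, pot, ong, onh]

theorem olg0 : odL og (olit ![0, 0, 0, 0] 0 0 0 ![1, 0, 0, 0] ![(-1), 0, 0, 0] ![0, 0, 0, 0] 0 0 (1 / 20)) oq = olit ![0, 0, 0, 0] 0 0 0 ![1, 0, 0, 0] ![(-1), 0, 0, 0] ![0, 0, 0, 0] 0 0 (1 / 20) := by
  ext k
  cases k with
  | x i => fin_cases i <;> norm_num [olit, ep, gg, Fin.sum_univ_four, prs, ov2, ov3, odL, og, oq]
  | m1 i => fin_cases i <;> norm_num [olit, ep, gg, Fin.sum_univ_four, prs, ov2, ov3, odL, og, oq]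
  | m2 i => fin_cases i <;> norm_num [olit, ep, gg, Fin.sum_univ_four, prs, ov2, ov3, odL, og, oq]
  | m3 i => fin_cases i <;> norm_num [olit, ep, gg, Fin.sum_univ_four, prs, ov2, ov3, odL, og, oq]
  | _ => norm_num [olit, ep, gg, Fin.sum_univ_four, prs, ov2, ov3, odL, og, oq]

theorem ondh0 : oNdD ![0, 0, 0, 0] 0 1 1 ![1, 0, 0, 0] 0 0 0 = olit ![1, 0, 0, 0] 0 0 0 ![0, 0, 0, 0] ![(-1), 0, 0, 0] ![0, 0, 0, 0] 0 0 (1 / 20) := by
  ext k
  cases k with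
  | x i => fin_cases i <;> norm_num [olit, ep, gg, Fin.sum_univ_four, prs, ov2, ov3, odNode, odM1, odM2, odM3, ndM1, ndM2, ndM3, oNdD]
  | m1 i => fin_cases i <;> norm_num [olit, ep, gg, Fin.sum_univ_four, prs, ov2, ov3, odNode, odM1, odM2, odM3, ndM1, ndM2, ndM3, oNdD]
  | m2 i => fin_cases i <;> norm_num [olit, ep, gg, Fin.sum_univ_four, prs, ov2, ov3, odNode, odM1, odM2, odM3, ndM1, ndM2, ndM3, oNdD]
  | m3 i => fin_cases i <;> norm_num [olit, ep, gg, Fin.sum_univ_four, prs, ov2, ov3, odNode, odM1, odM2, odM3, ndM1, ndM2, ndM3, oNdD]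
  | _ => norm_num [olit, ep, gg, Fin.sum_univ_four, prs, ov2, ov3, odNode, odM1, odM2, odM3, ndM1, ndM2, ndM3, oNdD]

theorem opth0 : odPt onh (olit ![1, 0, 0, 0] 0 0 0 ![0, 0, 0, 0] ![(-1), 0, 0, 0] ![0, 0, 0, 0] 0 0 (1 / 20)) ![(-1), 1, (-1), 1] ![0, 0, 0, 0] 1 0 = olit ![0, 0, 0, 0] (-1) 0 0 ![0, 0, 0, 0] ![(-1), 0, 0, 0] ![0, 0, 0, 0] 0 0 (1 / 20) := by
  ext k
  cases k with
  | x i => fin_cases i <;> norm_num [olit, ep, gg, Fin.sum_univ_four, prs, ov2, ov3, odPt, odPot, pot, ong, onh]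
  | m1 i => fin_cases i <;> norm_num [olit, ep, gg, Fin.sum_univ_four, prs, ov2, ov3, odPt, odPot, pot, ong, onh]
  | m2 i => fin_cases i <;> norm_num [olit, ep, gg, Fin.sum_univ_four, prs, ov2, ov3, odPt, odPot, pot, ong, onh]
  | m3 i => fin_cases i <;> norm_num [olit, ep, gg, Fin.sum_univ_four, prs, ov2, ov3, odPt, odPot, pot, ong, onh]
  | _ => norm_num [olit, ep, gg, Fin.sum_univ_four, prs, ov2, ov3, odPt, odPot, pot, ong, onh]

theorem ondg1 : oNdD ![0, (-1), 0, 1] 1 1 1 ![0, 1, 0, 0] 0 0 0 = olit ![0, 1, 0, 0] 0 0 0 ![0, (98 / 101), 0, 0] ![0, (-(197 / 101)), 0, 0] ![0, (297 / 101), 0, 0] 0 0 (497 / 1010) := by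
  ext k
  cases k with
  | x i => fin_cases i <;> norm_num [olit, ep, gg, Fin.sum_univ_four, prs, ov2, ov3, odNode, odM1, odM2, odM3, ndM1, ndM2, ndM3, oNdD]
  | m1 i => fin_cases i <;> norm_num [olit, ep, gg, Fin.sum_univ_four, prs, ov2, ov3, odNode, odM1, odM2, odM3, ndM1, ndM2, ndM3, oNdD]
  | m2 i => fin_cases i <;> norm_num [olit, ep, gg, Fin.sum_univ_four, prs, ov2, ov3, odNode, odM1, odM2, odM3, ndM1, ndM2, ndM3, oNdD]
  | m3 i => fin_cases i <;> norm_num [olit, ep, gg, Fin.sum_univ_four, prs, ov2, ov3, odNode, odM1, odM2, odM3, ndM1, ndM2, ndM3, oNdD]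
  | _ => norm_num [olit, ep, gg, Fin.sum_univ_four, prs, ov2, ov3, odNode, odM1, odM2, odM3, ndM1, ndM2, ndM3, oNdD]

theorem optg1 : odPt ong (olit ![0, 1, 0, 0] 0 0 0 ![0, (98 / 101), 0, 0] ![0, (-(197 / 101)), 0, 0] ![0, (297 / 101), 0, 0] 0 0 (497 / 1010)) ![0, (-1), (-1), 0] ![0, 0, 0, 0] (-1) 0 = olit ![0, 0, 0, 0] 0 0 0 ![0, (98 / 101), 0, 0] ![0, (-(197 / 101)), 0, 0] ![0, (297 / 101), 0, 0] 0 0 (497 / 1010) := by
  ext k
  cases k with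
  | x i => fin_cases i <;> norm_num [olit, ep, gg, Fin.sum_univ_four, prs, ov2, ov3, odPt, odPot, pot, ong, onh]
  | m1 i => fin_cases i <;> norm_num [olit, ep, gg, Fin.sum_univ_four, prs, ov2, ov3, odPt, odPot, pot, ong, onh]
  | m2 i => fin_cases i <;> norm_num [olit, ep, gg, Fin.sum_univ_four, prs, ov2, ov3, odPt, odPot, pot, ong, onh]
  | m3 i => fin_cases i <;> norm_num [olit, ep, gg, Fin.sum_univ_four, prs, ov2, ov3, odPt, odPot, pot, ong, onh]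
  | _ => norm_num [olit, ep, gg, Fin.sum_univ_four, prs, ov2, ov3, odPt, odPot, pot, ong, onh]

theorem olg1 : odL og (olit ![0, 0, 0, 0] 0 0 0 ![0, (98 / 101), 0, 0] ![0, (-(197 / 101)), 0, 0] ![0, (297 / 101), 0, 0] 0 0 (497 / 1010)) oq = olit ![0, 0, 0, 0] 0 0 0 ![0, (98 / 101), 0, 0] ![0, (-(197 / 101)), 0, 0] ![0, (297 / 101), 0, 0] 0 0 (-(981 / 2020)) := by
  ext k
  cases k with
  | x i => fin_cases i <;> norm_num [olit, ep, gg, Fin.sum_univ_four, prs, ov2, ov3, odL, og, oq]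
  | m1 i => fin_cases i <;> norm_num [olit, ep, gg, Fin.sum_univ_four, prs, ov2, ov3, odL, og, oq]
  | m2 i => fin_cases i <;> norm_num [olit, ep, gg, Fin.sum_univ_four, prs, ov2, ov3, odL, og, oq]
  | m3 i => fin_cases i <;> norm_num [olit, ep, gg, Fin.sum_univ_four, prs, ov2, ov3, odL, og, oq]
  | _ => norm_num [olit, ep, gg, Fin.sum_univ_four, prs, ov2, ov3, odL, og, oq]

theorem ondh1 : oNdD ![0, 0, 0, 0] 0 1 1 ![0, 1, 0, 0] 0 0 0 = olit ![0, 1, 0, 0] 0 0 0 ![0, 0, 0, 0] ![0, (-(1 / 101)), 0, 0] ![0, 0, 0, 0] 0 0 (-(1 / 2020)) := by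
  ext k
  cases k with
  | x i => fin_cases i <;> norm_num [olit, ep, gg, Fin.sum_univ_four, prs, ov2, ov3, odNode, odM1, odM2, odM3, ndM1, ndM2, ndM3, oNdD]
  | m1 i => fin_cases i <;> norm_num [olit, ep, gg, Fin.sum_univ_four, prs, ov2, ov3, odNode, odM1, odM2, odM3, ndM1, ndM2, ndM3, oNdD]
  | m2 i => fin_cases i <;> norm_num [olit, ep, gg, Fin.sum_univ_four, prs, ov2, ov3, odNode, odM1, odM2, odM3, ndM1, ndM2, ndM3, oNdD]
  | m3 i => fin_cases i <;> norm_num [olit, ep, gg, Fin.sum_univ_four, prs, ov2, ov3, odNode, odM1, odM2, odM3, ndM1, ndM2, ndM3, oNdD]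
  | _ => norm_num [olit, ep, gg, Fin.sum_univ_four, prs, ov2, ov3, odNode, odM1, odM2, odM3, ndM1, ndM2, ndM3, oNdD]

theorem opth1 : odPt onh (olit ![0, 1, 0, 0] 0 0 0 ![0, 0, 0, 0] ![0, (-(1 / 101)), 0, 0] ![0, 0, 0, 0] 0 0 (-(1 / 2020))) ![(-1), 1, (-1), 1] ![0, 0, 0, 0] 1 0 = olit ![0, 0, 0, 0] (-1) 0 0 ![0, 0, 0, 0] ![0, (-(1 / 101)), 0, 0] ![0, 0, 0, 0] 0 0 (-(1 / 2020)) := by
  ext k
  cases k with
  | x i => fin_cases i <;> norm_num [olit, ep, gg, Fin.sum_univ_four, prs, ov2, ov3, odPt, odPot, pot, ong, onh]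
  | m1 i => fin_cases i <;> norm_num [olit, ep, gg, Fin.sum_univ_four, prs, ov2, ov3, odPt, odPot, pot, ong, onh]
  | m2 i => fin_cases i <;> norm_num [olit, ep, gg, Fin.sum_univ_four, prs, ov2, ov3, odPt, odPot, pot, ong, onh]
  | m3 i => fin_cases i <;> norm_num [olit, ep, gg, Fin.sum_univ_four, prs, ov2, ov3, odPt, odPot, pot, ong, onh]
  | _ => norm_num [olit, ep, gg, Fin.sum_univ_four, prs, ov2, ov3, odPt, odPot, pot, ong, onh]

theorem ondg2 : oNdD ![0, (-1), 0, 1] 1 1 1 ![0, 0, 1, 0] 0 0 0 = olit ![0, 0, 1, 0] 0 0 0 ![0, 0, 1, 0] ![0, 0, (-1), 0] ![0, 0, 0, 0] 0 0 (1 / 20) := by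
  ext k
  cases k with
  | x i => fin_cases i <;> norm_num [olit, ep, gg, Fin.sum_univ_four, prs, ov2, ov3, odNode, odM1, odM2, odM3, ndM1, ndM2, ndM3, oNdD]
  | m1 i => fin_cases i <;> norm_num [olit, ep, gg, Fin.sum_univ_four, prs, ov2, ov3, odNode, odM1, odM2, odM3, ndM1, ndM2, ndM3, oNdD]
  | m2 i => fin_cases i <;> norm_num [olit, ep, gg, Fin.sum_univ_four, prs, ov2, ov3, odNode, odM1, odM2, odM3, ndM1, ndM2, ndM3, oNdD]
  | m3 i => fin_cases i <;> norm_num [olit, ep, gg, Fin.sum_univ_four, prs, ov2, ov3, odNode, odM1, odM2, odM3, ndM1, ndM2, ndM3, oNdD]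
  | _ => norm_num [olit, ep, gg, Fin.sum_univ_four, prs, ov2, ov3, odNode, odM1, odM2, odM3, ndM1, ndM2, ndM3, oNdD]

theorem optg2 : odPt ong (olit ![0, 0, 1, 0] 0 0 0 ![0, 0, 1, 0] ![0, 0, (-1), 0] ![0, 0, 0, 0] 0 0 (1 / 20)) ![0, (-1), (-1), 0] ![0, 0, 0, 0] (-1) 0 = olit ![0, 0, 0, 0] 0 0 0 ![0, 0, 1, 0] ![0, 0, (-1), 0] ![0, 0, 0, 0] 0 0 (1 / 20) := by
  ext k
  cases k with
  | x i => fin_cases i <;> norm_num [olit, ep, gg, Fin.sum_univ_four, prs, ov2, ov3, odPt, odPot, pot, ong, onh]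
  | m1 i => fin_cases i <;> norm_num [olit, ep, gg, Fin.sum_univ_four, prs, ov2, ov3, odPt, odPot, pot, ong, onh]
  | m2 i => fin_cases i <;> norm_num [olit, ep, gg, Fin.sum_univ_four, prs, ov2, ov3, odPt, odPot, pot, ong, onh]
  | m3 i => fin_cases i <;> norm_num [olit, ep, gg, Fin.sum_univ_four, prs, ov2, ov3, odPt, odPot, pot, ong, onh]
  | _ => norm_num [olit, ep, gg, Fin.sum_univ_four, prs, ov2, ov3, odPt, odPot, pot, ong, onh]

theorem olg2 : odL og (olit ![0, 0, 0, 0] 0 0 0 ![0, 0, 1, 0] ![0, 0, (-1), 0] ![0, 0, 0, 0] 0 0 (1 / 20)) oq = olit ![0, 0, 0, 0] 0 0 0 ![0, 0, 1, 0] ![0, 0, (-1), 0] ![0, 0, 0, 0] 0 0 (1 / 20) := by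
  ext k
  cases k with
  | x i => fin_cases i <;> norm_num [olit, ep, gg, Fin.sum_univ_four, prs, ov2, ov3, odL, og, oq]
  | m1 i => fin_cases i <;> norm_num [olit, ep, gg, Fin.sum_univ_four, prs, ov2, ov3, odL, og, oq]
  | m2 i => fin_cases i <;> norm_num [olit, ep, gg, Fin.sum_univ_four, prs, ov2, ov3, odL, og, oq]
  | m3 i => fin_cases i <;> norm_num [olit, ep, gg, Fin.sum_univ_four, prs, ov2, ov3, odL, og, oq]
  | _ => norm_num [olit, ep, gg, Fin.sum_univ_four, prs, ov2, ov3, odL, og, oq]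

theorem ondh2 : oNdD ![0, 0, 0, 0] 0 1 1 ![0, 0, 1, 0] 0 0 0 = olit ![0, 0, 1, 0] 0 0 0 ![0, 0, 0, 0] ![0, 0, (-1), 0] ![0, 0, 0, 0] 0 0 (1 / 20) := by
  ext k
  cases k with
  | x i => fin_cases i <;> norm_num [olit, ep, gg, Fin.sum_univ_four, prs, ov2, ov3, odNode, odM1, odM2, odM3, ndM1, ndM2, ndM3, oNdD]
  | m1 i => fin_cases i <;> norm_num [olit, ep, gg, Fin.sum_univ_four, prs, ov2, ov3, odNode, odM1, odM2, odM3, ndM1, ndM2, ndM3, oNdD]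
  | m2 i => fin_cases i <;> norm_num [olit, ep, gg, Fin.sum_univ_four, prs, ov2, ov3, odNode, odM1, odM2, odM3, ndM1, ndM2, ndM3, oNdD]
  | m3 i => fin_cases i <;> norm_num [olit, ep, gg, Fin.sum_univ_four, prs, ov2, ov3, odNode, odM1, odM2, odM3, ndM1, ndM2, ndM3, oNdD]
  | _ => norm_num [olit, ep, gg, Fin.sum_univ_four, prs, ov2, ov3, odNode, odM1, odM2, odM3, ndM1, ndM2, ndM3, oNdD]

theorem opth2 : odPt onh (olit ![0, 0, 1, 0] 0 0 0 ![0, 0, 0, 0] ![0, 0, (-1), 0] ![0, 0, 0, 0] 0 0 (1 / 20)) ![(-1), 1, (-1), 1] ![0, 0, 0, 0] 1 0 = olit ![0, 0, 0, 0] (-1) 0 0 ![0, 0, 0, 0] ![0, 0, (-1), 0] ![0, 0, 0, 0] 0 0 (1 / 20) := by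
  ext k
  cases k with
  | x i => fin_cases i <;> norm_num [olit, ep, gg, Fin.sum_univ_four, prs, ov2, ov3, odPt, odPot, pot, ong, onh]
  | m1 i => fin_cases i <;> norm_num [olit, ep, gg, Fin.sum_univ_four, prs, ov2, ov3, odPt, odPot, pot, ong, onh]
  | m2 i => fin_cases i <;> norm_num [olit, ep, gg, Fin.sum_univ_four, prs, ov2, ov3, odPt, odPot, pot, ong, onh]
  | m3 i => fin_cases i <;> norm_num [olit, ep, gg, Fin.sum_univ_four, prs, ov2, ov3, odPt, odPot, pot, ong, onh]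
  | _ => norm_num [olit, ep, gg, Fin.sum_univ_four, prs, ov2, ov3, odPt, odPot, pot, ong, onh]

theorem ondh3 : oNdD ![0, 0, 0, 0] 0 1 1 ![0, 0, 0, 1] 0 0 0 = olit ![0, 0, 0, 1] 0 0 0 ![0, 0, 0, 0] ![0, 0, 0, (-(1 / 101))] ![0, 0, 0, 0] 0 0 (-(1 / 2020)) := by
  ext k
  cases k with
  | x i => fin_cases i <;> norm_num [olit, ep, gg, Fin.sum_univ_four, prs, ov2, ov3, odNode, odM1, odM2, odM3, ndM1, ndM2, ndM3, oNdD]
  | m1 i => fin_cases i <;> norm_num [olit, ep, gg, Fin.sum_univ_four, prs, ov2, ov3, odNode, odM1, odM2, odM3, ndM1, ndM2, ndM3, oNdD]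
  | m2 i => fin_cases i <;> norm_num [olit, ep, gg, Fin.sum_univ_four, prs, ov2, ov3, odNode, odM1, odM2, odM3, ndM1, ndM2, ndM3, oNdD]
  | m3 i => fin_cases i <;> norm_num [olit, ep, gg, Fin.sum_univ_four, prs, ov2, ov3, odNode, odM1, odM2, odM3, ndM1, ndM2, ndM3, oNdD]
  | _ => norm_num [olit, ep, gg, Fin.sum_univ_four, prs, ov2, ov3, odNode, odM1, odM2, odM3, ndM1, ndM2, ndM3, oNdD]

theorem opth3 : odPt onh (olit ![0, 0, 0, 1] 0 0 0 ![0, 0, 0, 0] ![0, 0, 0, (-(1 / 101))] ![0, 0, 0, 0] 0 0 (-(1 / 2020))) ![(-1), 1, (-1), 1] ![0, 0, 0, 0] 1 0 = olit ![0, 0, 0, 0] (-1) 0 0 ![0, 0, 0, 0] ![0, 0, 0, (-(1 / 101))] ![0, 0, 0, 0] 0 0 (-(1 / 2020)) := by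
  ext k
  cases k with
  | x i => fin_cases i <;> norm_num [olit, ep, gg, Fin.sum_univ_four, prs, ov2, ov3, odPt, odPot, pot, ong, onh]
  | m1 i => fin_cases i <;> norm_num [olit, ep, gg, Fin.sum_univ_four, prs, ov2, ov3, odPt, odPot, pot, ong, onh]
  | m2 i => fin_cases i <;> norm_num [olit, ep, gg, Fin.sum_univ_four, prs, ov2, ov3, odPt, odPot, pot, ong, onh]
  | m3 i => fin_cases i <;> norm_num [olit, ep, gg, Fin.sum_univ_four, prs, ov2, ov3, odPt, odPot, pot, ong, onh]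
  | _ => norm_num [olit, ep, gg, Fin.sum_univ_four, prs, ov2, ov3, odPt, odPot, pot, ong, onh]

theorem ondh4 : oNdD ![0, 0, 0, 0] 0 1 1 ![0, 0, 0, 0] 1 0 0 = olit ![0, 0, 0, 0] 0 0 1 ![0, 0, 0, 0] ![0, 0, 0, 0] ![0, 0, 0, 0] 0 0 0 := by
  ext k
  cases k with
  | x i => fin_cases i <;> norm_num [olit, ep, gg, Fin.sum_univ_four, prs, ov2, ov3, odNode, odM1, odM2, odM3, ndM1, ndM2, ndM3, oNdD]
  | m1 i => fin_cases i <;> norm_num [olit, ep, gg, Fin.sum_univ_four, prs, ov2, ov3, odNode, odM1, odM2, odM3, ndM1, ndM2, ndM3, oNdD]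
  | m2 i => fin_cases i <;> norm_num [olit, ep, gg, Fin.sum_univ_four, prs, ov2, ov3, odNode, odM1, odM2, odM3, ndM1, ndM2, ndM3, oNdD]
  | m3 i => fin_cases i <;> norm_num [olit, ep, gg, Fin.sum_univ_four, prs, ov2, ov3, odNode, odM1, odM2, odM3, ndM1, ndM2, ndM3, oNdD]
  | _ => norm_num [olit, ep, gg, Fin.sum_univ_four, prs, ov2, ov3, odNode, odM1, odM2, odM3, ndM1, ndM2, ndM3, oNdD]

theorem opth4 : odPt onh (olit ![0, 0, 0, 0] 0 0 1 ![0, 0, 0, 0] ![0, 0, 0, 0] ![0, 0, 0, 0] 0 0 0) ![(-1), 1, (-1), 1] ![0, 0, 0, 0] 1 0 = olit ![0, 0, 0, 0] 68 0 1 ![0, 0, 0, 0] ![0, 0, 0, 0] ![0, 0, 0, 0] 0 0 0 := by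
  ext k
  cases k with
  | x i => fin_cases i <;> norm_num [olit, ep, gg, Fin.sum_univ_four, prs, ov2, ov3, odPt, odPot, pot, ong, onh]
  | m1 i => fin_cases i <;> norm_num [olit, ep, gg, Fin.sum_univ_four, prs, ov2, ov3, odPt, odPot, pot, ong, onh]
  | m2 i => fin_cases i <;> norm_num [olit, ep, gg, Fin.sum_univ_four, prs, ov2, ov3, odPt, odPot, pot, ong, onh]
  | m3 i => fin_cases i <;> norm_num [olit, ep, gg, Fin.sum_univ_four, prs, ov2, ov3, odPt, odPot, pot, ong, onh]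
  | _ => norm_num [olit, ep, gg, Fin.sum_univ_four, prs, ov2, ov3, odPt, odPot, pot, ong, onh]

theorem ondg5 : oNdD ![0, (-1), 0, 1] 1 1 1 ![0, 0, 0, 0] 0 1 0 = olit ![0, 0, 0, 0] 0 0 0 ![(-(1 / 2)), (-(1 / 202)), 0, 0] ![0, (1 / 101), 0, 0] ![(1 / 2), (-(1 / 101)), 0, 0] 0 0 (-(3 / 2020)) := by
  ext k
  cases k with
  | x i => fin_cases i <;> norm_num [olit, ep, gg, Fin.sum_univ_four, prs, ov2, ov3, odNode, odM1, odM2, odM3, ndM1, ndM2, ndM3, oNdD]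
  | m1 i => fin_cases i <;> norm_num [olit, ep, gg, Fin.sum_univ_four, prs, ov2, ov3, odNode, odM1, odM2, odM3, ndM1, ndM2, ndM3, oNdD]
  | m2 i => fin_cases i <;> norm_num [olit, ep, gg, Fin.sum_univ_four, prs, ov2, ov3, odNode, odM1, odM2, odM3, ndM1, ndM2, ndM3, oNdD]
  | m3 i => fin_cases i <;> norm_num [olit, ep, gg, Fin.sum_univ_four, prs, ov2, ov3, odNode, odM1, odM2, odM3, ndM1, ndM2, ndM3, oNdD]
  | _ => norm_num [olit, ep, gg, Fin.sum_univ_four, prs, ov2, ov3, odNode, odM1, odM2, odM3, ndM1, ndM2, ndM3, oNdD]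

theorem optg5 : odPt ong (olit ![0, 0, 0, 0] 0 0 0 ![(-(1 / 2)), (-(1 / 202)), 0, 0] ![0, (1 / 101), 0, 0] ![(1 / 2), (-(1 / 101)), 0, 0] 0 0 (-(3 / 2020))) ![0, (-1), (-1), 0] ![0, 0, 0, 0] (-1) 0 = olit ![0, 0, 0, 0] 0 0 0 ![(-(1 / 2)), (-(1 / 202)), 0, 0] ![0, (1 / 101), 0, 0] ![(1 / 2), (-(1 / 101)), 0, 0] 0 0 (-(3 / 2020)) := by
  ext k
  cases k with
  | x i => fin_cases i <;> norm_num [olit, ep, gg, Fin.sum_univ_four, prs, ov2, ov3, odPt, odPot, pot, ong, onh]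
  | m1 i => fin_cases i <;> norm_num [olit, ep, gg, Fin.sum_univ_four, prs, ov2, ov3, odPt, odPot, pot, ong, onh]
  | m2 i => fin_cases i <;> norm_num [olit, ep, gg, Fin.sum_univ_four, prs, ov2, ov3, odPt, odPot, pot, ong, onh]
  | m3 i => fin_cases i <;> norm_num [olit, ep, gg, Fin.sum_univ_four, prs, ov2, ov3, odPt, odPot, pot, ong, onh]
  | _ => norm_num [olit, ep, gg, Fin.sum_univ_four, prs, ov2, ov3, odPt, odPot, pot, ong, onh]

theorem olg5 : odL og (olit ![0, 0, 0, 0] 0 0 0 ![(-(1 / 2)), (-(1 / 202)), 0, 0] ![0, (1 / 101), 0, 0] ![(1 / 2), (-(1 / 101)), 0, 0] 0 0 (-(3 / 2020))) oq = olit ![0, 0, 0, 0] 0 0 0 ![(-(1 / 2)), (-(1 / 202)), 0, 0] ![0, (1 / 101), 0, 0] ![(1 / 2), (-(1 / 101)), 0, 0] 0 0 (7 / 2020) := by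
  ext k
  cases k with
  | x i => fin_cases i <;> norm_num [olit, ep, gg, Fin.sum_univ_four, prs, ov2, ov3, odL, og, oq]
  | m1 i => fin_cases i <;> norm_num [olit, ep, gg, Fin.sum_univ_four, prs, ov2, ov3, odL, og, oq]
  | m2 i => fin_cases i <;> norm_num [olit, ep, gg, Fin.sum_univ_four, prs, ov2, ov3, odL, og, oq]
  | m3 i => fin_cases i <;> norm_num [olit, ep, gg, Fin.sum_univ_four, prs, ov2, ov3, odL, og, oq]
  | _ => norm_num [olit, ep, gg, Fin.sum_univ_four, prs, ov2, ov3, odL, og, oq]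

theorem ondh5 : oNdD ![0, 0, 0, 0] 0 1 1 ![0, 0, 0, 0] 0 1 0 = olit ![0, 0, 0, 0] 0 0 0 ![(-(1 / 2)), (-(1 / 202)), 0, 0] ![0, 0, 0, 0] ![(1 / 2), (1 / 202), 0, 0] 0 0 0 := by
  ext k
  cases k with
  | x i => fin_cases i <;> norm_num [olit, ep, gg, Fin.sum_univ_four, prs, ov2, ov3, odNode, odM1, odM2, odM3, ndM1, ndM2, ndM3, oNdD]
  | m1 i => fin_cases i <;> norm_num [olit, ep, gg, Fin.sum_univ_four, prs, ov2, ov3, odNode, odM1, odM2, odM3, ndM1, ndM2, ndM3, oNdD]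
  | m2 i => fin_cases i <;> norm_num [olit, ep, gg, Fin.sum_univ_four, prs, ov2, ov3, odNode, odM1, odM2, odM3, ndM1, ndM2, ndM3, oNdD]
  | m3 i => fin_cases i <;> norm_num [olit, ep, gg, Fin.sum_univ_four, prs, ov2, ov3, odNode, odM1, odM2, odM3, ndM1, ndM2, ndM3, oNdD]
  | _ => norm_num [olit, ep, gg, Fin.sum_univ_four, prs, ov2, ov3, odNode, odM1, odM2, odM3, ndM1, ndM2, ndM3, oNdD]

theorem opth5 : odPt onh (olit ![0, 0, 0, 0] 0 0 0 ![(-(1 / 2)), (-(1 / 202)), 0, 0] ![0, 0, 0, 0] ![(1 / 2), (1 / 202), 0, 0] 0 0 0) ![(-1), 1, (-1), 1] ![0, 0, 0, 0] 1 0 = olit ![0, 0, 0, 0] 0 0 0 ![(-(1 / 2)), (-(1 / 202)), 0, 0] ![0, 0, 0, 0] ![(1 / 2), (1 / 202), 0, 0] 0 0 0 := by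
  ext k
  cases k with
  | x i => fin_cases i <;> norm_num [olit, ep, gg, Fin.sum_univ_four, prs, ov2, ov3, odPt, odPot, pot, ong, onh]
  | m1 i => fin_cases i <;> norm_num [olit, ep, gg, Fin.sum_univ_four, prs, ov2, ov3, odPt, odPot, pot, ong, onh]
  | m2 i => fin_cases i <;> norm_num [olit, ep, gg, Fin.sum_univ_four, prs, ov2, ov3, odPt, odPot, pot, ong, onh]
  | m3 i => fin_cases i <;> norm_num [olit, ep, gg, Fin.sum_univ_four, prs, ov2, ov3, odPt, odPot, pot, ong, onh]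
  | _ => norm_num [olit, ep, gg, Fin.sum_univ_four, prs, ov2, ov3, odPt, odPot, pot, ong, onh]

theorem ondg6 : oNdD ![0, (-1), 0, 1] 1 1 1 ![0, 0, 0, 0] 0 0 1 = olit ![0, 0, 0, 0] 0 0 0 ![0, 0, (-(1 / 2)), (-(1 / 202))] ![0, 0, 0, (-(1 / 101))] ![0, 0, (1 / 2), (-(1 / 101))] 0 0 (3 / 2020) := by
  ext k
  cases k with
  | x i => fin_cases i <;> norm_num [olit, ep, gg, Fin.sum_univ_four, prs, ov2, ov3, odNode, odM1, odM2, odM3, ndM1, ndM2, ndM3, oNdD]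
  | m1 i => fin_cases i <;> norm_num [olit, ep, gg, Fin.sum_univ_four, prs, ov2, ov3, odNode, odM1, odM2, odM3, ndM1, ndM2, ndM3, oNdD]
  | m2 i => fin_cases i <;> norm_num [olit, ep, gg, Fin.sum_univ_four, prs, ov2, ov3, odNode, odM1, odM2, odM3, ndM1, ndM2, ndM3, oNdD]
  | m3 i => fin_cases i <;> norm_num [olit, ep, gg, Fin.sum_univ_four, prs, ov2, ov3, odNode, odM1, odM2, odM3, ndM1, ndM2, ndM3, oNdD]
  | _ => norm_num [olit, ep, gg, Fin.sum_univ_four, prs, ov2, ov3, odNode, odM1, odM2, odM3, ndM1, ndM2, ndM3, oNdD]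

theorem optg6 : odPt ong (olit ![0, 0, 0, 0] 0 0 0 ![0, 0, (-(1 / 2)), (-(1 / 202))] ![0, 0, 0, (-(1 / 101))] ![0, 0, (1 / 2), (-(1 / 101))] 0 0 (3 / 2020)) ![0, (-1), (-1), 0] ![0, 0, 0, 0] (-1) 0 = olit ![0, 0, 0, 0] 0 0 0 ![0, 0, (-(1 / 2)), (-(1 / 202))] ![0, 0, 0, (-(1 / 101))] ![0, 0, (1 / 2), (-(1 / 101))] 0 0 (3 / 2020) := by
  ext k
  cases k with
  | x i => fin_cases i <;> norm_num [olit, ep, gg, Fin.sum_univ_four, prs, ov2, ov3, odPt, odPot, pot, ong, onh]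
  | m1 i => fin_cases i <;> norm_num [olit, ep, gg, Fin.sum_univ_four, prs, ov2, ov3, odPt, odPot, pot, ong, onh]
  | m2 i => fin_cases i <;> norm_num [olit, ep, gg, Fin.sum_univ_four, prs, ov2, ov3, odPt, odPot, pot, ong, onh]
  | m3 i => fin_cases i <;> norm_num [olit, ep, gg, Fin.sum_univ_four, prs, ov2, ov3, odPt, odPot, pot, ong, onh]
  | _ => norm_num [olit, ep, gg, Fin.sum_univ_four, prs, ov2, ov3, odPt, odPot, pot, ong, onh]

theorem olg6 : odL og (olit ![0, 0, 0, 0] 0 0 0 ![0, 0, (-(1 / 2)), (-(1 / 202))] ![0, 0, 0, (-(1 / 101))] ![0, 0, (1 / 2), (-(1 / 101))] 0 0 (3 / 2020)) oq = olit ![0, 0, 0, 0] 0 0 0 ![0, 0, (-(1 / 2)), (-(1 / 202))] ![0, 0, 0, (-(1 / 101))] ![0, 0, (1 / 2), (-(1 / 101))] 0 0 (-(7 / 2020)) := by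
  ext k
  cases k with
  | x i => fin_cases i <;> norm_num [olit, ep, gg, Fin.sum_univ_four, prs, ov2, ov3, odL, og, oq]
  | m1 i => fin_cases i <;> norm_num [olit, ep, gg, Fin.sum_univ_four, prs, ov2, ov3, odL, og, oq]
  | m2 i => fin_cases i <;> norm_num [olit, ep, gg, Fin.sum_univ_four, prs, ov2, ov3, odL, og, oq]
  | m3 i => fin_cases i <;> norm_num [olit, ep, gg, Fin.sum_univ_four, prs, ov2, ov3, odL, og, oq]
  | _ => norm_num [olit, ep, gg, Fin.sum_univ_four, prs, ov2, ov3, odL, og, oq]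

theorem ondh6 : oNdD ![0, 0, 0, 0] 0 1 1 ![0, 0, 0, 0] 0 0 1 = olit ![0, 0, 0, 0] 0 0 0 ![0, 0, (-(1 / 2)), (-(1 / 202))] ![0, 0, 0, 0] ![0, 0, (1 / 2), (1 / 202)] 0 0 0 := by
  ext k
  cases k with
  | x i => fin_cases i <;> norm_num [olit, ep, gg, Fin.sum_univ_four, prs, ov2, ov3, odNode, odM1, odM2, odM3, ndM1, ndM2, ndM3, oNdD]
  | m1 i => fin_cases i <;> norm_num [olit, ep, gg, Fin.sum_univ_four, prs, ov2, ov3, odNode, odM1, odM2, odM3, ndM1, ndM2, ndM3, oNdD]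
  | m2 i => fin_cases i <;> norm_num [olit, ep, gg, Fin.sum_univ_four, prs, ov2, ov3, odNode, odM1, odM2, odM3, ndM1, ndM2, ndM3, oNdD]
  | m3 i => fin_cases i <;> norm_num [olit, ep, gg, Fin.sum_univ_four, prs, ov2, ov3, odNode, odM1, odM2, odM3, ndM1, ndM2, ndM3, oNdD]
  | _ => norm_num [olit, ep, gg, Fin.sum_univ_four, prs, ov2, ov3, odNode, odM1, odM2, odM3, ndM1, ndM2, ndM3, oNdD]

theorem opth6 : odPt onh (olit ![0, 0, 0, 0] 0 0 0 ![0, 0, (-(1 / 2)), (-(1 / 202))] ![0, 0, 0, 0] ![0, 0, (1 / 2), (1 / 202)] 0 0 0) ![(-1), 1, (-1), 1] ![0, 0, 0, 0] 1 0 = olit ![0, 0, 0, 0] 0 0 0 ![0, 0, (-(1 / 2)), (-(1 / 202))] ![0, 0, 0, 0] ![0, 0, (1 / 2), (1 / 202)] 0 0 0 := by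
  ext k
  cases k with
  | x i => fin_cases i <;> norm_num [olit, ep, gg, Fin.sum_univ_four, prs, ov2, ov3, odPt, odPot, pot, ong, onh]
  | m1 i => fin_cases i <;> norm_num [olit, ep, gg, Fin.sum_univ_four, prs, ov2, ov3, odPt, odPot, pot, ong, onh]
  | m2 i => fin_cases i <;> norm_num [olit, ep, gg, Fin.sum_univ_four, prs, ov2, ov3, odPt, odPot, pot, ong, onh]
  | m3 i => fin_cases i <;> norm_num [olit, ep, gg, Fin.sum_univ_four, prs, ov2, ov3, odPt, odPot, pot, ong, onh]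
  | _ => norm_num [olit, ep, gg, Fin.sum_univ_four, prs, ov2, ov3, odPt, odPot, pot, ong, onh]

theorem optg7 : odPt ong (olit ![0, 0, 0, 0] 0 0 0 ![0, 0, 0, 0] ![0, 0, 0, 0] ![0, 0, 0, 0] 0 0 0) ![0, (-1), (-1), 0] ![1, 0, 0, 0] (-1) 0 = olit ![1, 0, 0, 0] 0 0 0 ![0, 0, 0, 0] ![0, 0, 0, 0] ![0, 0, 0, 0] 0 0 0 := by
  ext k
  cases k with
  | x i => fin_cases i <;> norm_num [olit, ep, gg, Fin.sum_univ_four, prs, ov2, ov3, odPt, odPot, pot, ong, onh]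
  | m1 i => fin_cases i <;> norm_num [olit, ep, gg, Fin.sum_univ_four, prs, ov2, ov3, odPt, odPot, pot, ong, onh]
  | m2 i => fin_cases i <;> norm_num [olit, ep, gg, Fin.sum_univ_four, prs, ov2, ov3, odPt, odPot, pot, ong, onh]
  | m3 i => fin_cases i <;> norm_num [olit, ep, gg, Fin.sum_univ_four, prs, ov2, ov3, odPt, odPot, pot, ong, onh]
  | _ => norm_num [olit, ep, gg, Fin.sum_univ_four, prs, ov2, ov3, odPt, odPot, pot, ong, onh]

theorem olg7 : odL og (olit ![1, 0, 0, 0] 0 0 0 ![0, 0, 0, 0] ![0, 0, 0, 0] ![0, 0, 0, 0] 0 0 0) oq = olit ![1, 0, 0, 0] 0 0 0 ![(-1), 0, 0, 0] ![0, 0, 0, 0] ![0, 0, 0, 0] 0 0 0 := by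
  ext k
  cases k with
  | x i => fin_cases i <;> norm_num [olit, ep, gg, Fin.sum_univ_four, prs, ov2, ov3, odL, og, oq]
  | m1 i => fin_cases i <;> norm_num [olit, ep, gg, Fin.sum_univ_four, prs, ov2, ov3, odL, og, oq]
  | m2 i => fin_cases i <;> norm_num [olit, ep, gg, Fin.sum_univ_four, prs, ov2, ov3, odL, og, oq]
  | m3 i => fin_cases i <;> norm_num [olit, ep, gg, Fin.sum_univ_four, prs, ov2, ov3, odL, og, oq]
  | _ => norm_num [olit, ep, gg, Fin.sum_univ_four, prs, ov2, ov3, odL, og, oq]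

theorem opth7 : odPt onh (olit ![0, 0, 0, 0] 0 0 0 ![0, 0, 0, 0] ![0, 0, 0, 0] ![0, 0, 0, 0] 0 0 0) ![(-1), 1, (-1), 1] ![1, 0, 0, 0] 1 0 = olit ![1, 0, 0, 0] 2 0 0 ![0, 0, 0, 0] ![0, 0, 0, 0] ![0, 0, 0, 0] 0 0 0 := by
  ext k
  cases k with
  | x i => fin_cases i <;> norm_num [olit, ep, gg, Fin.sum_univ_four, prs, ov2, ov3, odPt, odPot, pot, ong, onh]
  | m1 i => fin_cases i <;> norm_num [olit, ep, gg, Fin.sum_univ_four, prs, ov2, ov3, odPt, odPot, pot, ong, onh]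
  | m2 i => fin_cases i <;> norm_num [olit, ep, gg, Fin.sum_univ_four, prs, ov2, ov3, odPt, odPot, pot, ong, onh]
  | m3 i => fin_cases i <;> norm_num [olit, ep, gg, Fin.sum_univ_four, prs, ov2, ov3, odPt, odPot, pot, ong, onh]
  | _ => norm_num [olit, ep, gg, Fin.sum_univ_four, prs, ov2, ov3, odPt, odPot, pot, ong, onh]

theorem optg8 : odPt ong (olit ![0, 0, 0, 0] 0 0 0 ![0, 0, 0, 0] ![0, 0, 0, 0] ![0, 0, 0, 0] 0 0 0) ![0, (-1), (-1), 0] ![0, 1, 0, 0] (-1) 0 = olit ![0, 1, 0, 0] 0 0 0 ![0, 0, 0, 0] ![0, 0, 0, 0] ![0, 0, 0, 0] 0 0 0 := by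
  ext k
  cases k with
  | x i => fin_cases i <;> norm_num [olit, ep, gg, Fin.sum_univ_four, prs, ov2, ov3, odPt, odPot, pot, ong, onh]
  | m1 i => fin_cases i <;> norm_num [olit, ep, gg, Fin.sum_univ_four, prs, ov2, ov3, odPt, odPot, pot, ong, onh]
  | m2 i => fin_cases i <;> norm_num [olit, ep, gg, Fin.sum_univ_four, prs, ov2, ov3, odPt, odPot, pot, ong, onh]
  | m3 i => fin_cases i <;> norm_num [olit, ep, gg, Fin.sum_univ_four, prs, ov2, ov3, odPt, odPot, pot, ong, onh]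
  | _ => norm_num [olit, ep, gg, Fin.sum_univ_four, prs, ov2, ov3, odPt, odPot, pot, ong, onh]

theorem olg8 : odL og (olit ![0, 1, 0, 0] 0 0 0 ![0, 0, 0, 0] ![0, 0, 0, 0] ![0, 0, 0, 0] 0 0 0) oq = olit ![0, 1, 0, 0] 0 0 0 ![0, (-1), 0, 0] ![0, (199 / 101), 0, 0] ![0, (-(300 / 101)), 0, 0] 0 0 (199 / 404) := by
  ext k
  cases k with
  | x i => fin_cases i <;> norm_num [olit, ep, gg, Fin.sum_univ_four, prs, ov2, ov3, odL, og, oq]
  | m1 i => fin_cases i <;> norm_num [olit, ep, gg, Fin.sum_univ_four, prs, ov2, ov3, odL, og, oq]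
  | m2 i => fin_cases i <;> norm_num [olit, ep, gg, Fin.sum_univ_four, prs, ov2, ov3, odL, og, oq]
  | m3 i => fin_cases i <;> norm_num [olit, ep, gg, Fin.sum_univ_four, prs, ov2, ov3, odL, og, oq]
  | _ => norm_num [olit, ep, gg, Fin.sum_univ_four, prs, ov2, ov3, odL, og, oq]

theorem opth8 : odPt onh (olit ![0, 0, 0, 0] 0 0 0 ![0, 0, 0, 0] ![0, 0, 0, 0] ![0, 0, 0, 0] 0 0 0) ![(-1), 1, (-1), 1] ![0, 1, 0, 0] 1 0 = olit ![0, 1, 0, 0] 2 0 0 ![0, 0, 0, 0] ![0, 0, 0, 0] ![0, 0, 0, 0] 0 0 0 := by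
  ext k
  cases k with
  | x i => fin_cases i <;> norm_num [olit, ep, gg, Fin.sum_univ_four, prs, ov2, ov3, odPt, odPot, pot, ong, onh]
  | m1 i => fin_cases i <;> norm_num [olit, ep, gg, Fin.sum_univ_four, prs, ov2, ov3, odPt, odPot, pot, ong, onh]
  | m2 i => fin_cases i <;> norm_num [olit, ep, gg, Fin.sum_univ_four, prs, ov2, ov3, odPt, odPot, pot, ong, onh]
  | m3 i => fin_cases i <;> norm_num [olit, ep, gg, Fin.sum_univ_four, prs, ov2, ov3, odPt, odPot, pot, ong, onh]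
  | _ => norm_num [olit, ep, gg, Fin.sum_univ_four, prs, ov2, ov3, odPt, odPot, pot, ong, onh]

theorem optg9 : odPt ong (olit ![0, 0, 0, 0] 0 0 0 ![0, 0, 0, 0] ![0, 0, 0, 0] ![0, 0, 0, 0] 0 0 0) ![0, (-1), (-1), 0] ![0, 0, 1, 0] (-1) 0 = olit ![0, 0, 1, 0] (-1) 0 0 ![0, 0, 0, 0] ![0, 0, 0, 0] ![0, 0, 0, 0] 0 0 0 := by
  ext k
  cases k with
  | x i => fin_cases i <;> norm_num [olit, ep, gg, Fin.sum_univ_four, prs, ov2, ov3, odPt, odPot, pot, ong, onh]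
  | m1 i => fin_cases i <;> norm_num [olit, ep, gg, Fin.sum_univ_four, prs, ov2, ov3, odPt, odPot, pot, ong, onh]
  | m2 i => fin_cases i <;> norm_num [olit, ep, gg, Fin.sum_univ_four, prs, ov2, ov3, odPt, odPot, pot, ong, onh]
  | m3 i => fin_cases i <;> norm_num [olit, ep, gg, Fin.sum_univ_four, prs, ov2, ov3, odPt, odPot, pot, ong, onh]
  | _ => norm_num [olit, ep, gg, Fin.sum_univ_four, prs, ov2, ov3, odPt, odPot, pot, ong, onh]

theorem olg9 : odL og (olit ![0, 0, 1, 0] (-1) 0 0 ![0, 0, 0, 0] ![0, 0, 0, 0] ![0, 0, 0, 0] 0 0 0) oq = olit ![0, 0, 1, 0] (-1) 0 0 ![0, 0, (-1), 0] ![0, 0, 0, 0] ![0, 0, 0, 0] 1 0 0 := by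
  ext k
  cases k with
  | x i => fin_cases i <;> norm_num [olit, ep, gg, Fin.sum_univ_four, prs, ov2, ov3, odL, og, oq]
  | m1 i => fin_cases i <;> norm_num [olit, ep, gg, Fin.sum_univ_four, prs, ov2, ov3, odL, og, oq]
  | m2 i => fin_cases i <;> norm_num [olit, ep, gg, Fin.sum_univ_four, prs, ov2, ov3, odL, og, oq]
  | m3 i => fin_cases i <;> norm_num [olit, ep, gg, Fin.sum_univ_four, prs, ov2, ov3, odL, og, oq]
  | _ => norm_num [olit, ep, gg, Fin.sum_univ_four, prs, ov2, ov3, odL, og, oq]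

theorem opth9 : odPt onh (olit ![0, 0, 0, 0] 0 0 0 ![0, 0, 0, 0] ![0, 0, 0, 0] ![0, 0, 0, 0] 0 0 0) ![(-1), 1, (-1), 1] ![0, 0, 1, 0] 1 0 = olit ![0, 0, 1, 0] 2 0 0 ![0, 0, 0, 0] ![0, 0, 0, 0] ![0, 0, 0, 0] 0 0 0 := by
  ext k
  cases k with
  | x i => fin_cases i <;> norm_num [olit, ep, gg, Fin.sum_univ_four, prs, ov2, ov3, odPt, odPot, pot, ong, onh]
  | m1 i => fin_cases i <;> norm_num [olit, ep, gg, Fin.sum_univ_four, prs, ov2, ov3, odPt, odPot, pot, ong, onh]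
  | m2 i => fin_cases i <;> norm_num [olit, ep, gg, Fin.sum_univ_four, prs, ov2, ov3, odPt, odPot, pot, ong, onh]
  | m3 i => fin_cases i <;> norm_num [olit, ep, gg, Fin.sum_univ_four, prs, ov2, ov3, odPt, odPot, pot, ong, onh]
  | _ => norm_num [olit, ep, gg, Fin.sum_univ_four, prs, ov2, ov3, odPt, odPot, pot, ong, onh]

theorem optg10 : odPt ong (olit ![0, 0, 0, 0] 0 0 0 ![0, 0, 0, 0] ![0, 0, 0, 0] ![0, 0, 0, 0] 0 0 0) ![0, (-1), (-1), 0] ![0, 0, 0, 1] (-1) 0 = olit ![0, 0, 0, 1] (-102) 0 0 ![0, 0, 0, 0] ![0, 0, 0, 0] ![0, 0, 0, 0] 0 0 0 := by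
  ext k
  cases k with
  | x i => fin_cases i <;> norm_num [olit, ep, gg, Fin.sum_univ_four, prs, ov2, ov3, odPt, odPot, pot, ong, onh]
  | m1 i => fin_cases i <;> norm_num [olit, ep, gg, Fin.sum_univ_four, prs, ov2, ov3, odPt, odPot, pot, ong, onh]
  | m2 i => fin_cases i <;> norm_num [olit, ep, gg, Fin.sum_univ_four, prs, ov2, ov3, odPt, odPot, pot, ong, onh]
  | m3 i => fin_cases i <;> norm_num [olit, ep, gg, Fin.sum_univ_four, prs, ov2, ov3, odPt, odPot, pot, ong, onh]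
  | _ => norm_num [olit, ep, gg, Fin.sum_univ_four, prs, ov2, ov3, odPt, odPot, pot, ong, onh]

theorem olg10 : odL og (olit ![0, 0, 0, 1] (-102) 0 0 ![0, 0, 0, 0] ![0, 0, 0, 0] ![0, 0, 0, 0] 0 0 0) oq = olit ![0, 0, 0, 1] (-102) 0 0 ![0, 0, 0, (-1)] ![0, 0, 0, (-(205 / 101))] ![0, 0, 0, (-(306 / 101))] 102 0 (-(205 / 404)) := by
  ext k
  cases k with
  | x i => fin_cases i <;> norm_num [olit, ep, gg, Fin.sum_univ_four, prs, ov2, ov3, odL, og, oq]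
  | m1 i => fin_cases i <;> norm_num [olit, ep, gg, Fin.sum_univ_four, prs, ov2, ov3, odL, og, oq]
  | m2 i => fin_cases i <;> norm_num [olit, ep, gg, Fin.sum_univ_four, prs, ov2, ov3, odL, og, oq]
  | m3 i => fin_cases i <;> norm_num [olit, ep, gg, Fin.sum_univ_four, prs, ov2, ov3, odL, og, oq]
  | _ => norm_num [olit, ep, gg, Fin.sum_univ_four, prs, ov2, ov3, odL, og, oq]

theorem opth10 : odPt onh (olit ![0, 0, 0, 0] 0 0 0 ![0, 0, 0, 0] ![0, 0, 0, 0] ![0, 0, 0, 0] 0 0 0) ![(-1), 1, (-1), 1] ![0, 0, 0, 1] 1 0 = olit ![0, 0, 0, 1] 2 0 0 ![0, 0, 0, 0] ![0, 0, 0, 0] ![0, 0, 0, 0] 0 0 0 := by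
  ext k
  cases k with
  | x i => fin_cases i <;> norm_num [olit, ep, gg, Fin.sum_univ_four, prs, ov2, ov3, odPt, odPot, pot, ong, onh]
  | m1 i => fin_cases i <;> norm_num [olit, ep, gg, Fin.sum_univ_four, prs, ov2, ov3, odPt, odPot, pot, ong, onh]
  | m2 i => fin_cases i <;> norm_num [olit, ep, gg, Fin.sum_univ_four, prs, ov2, ov3, odPt, odPot, pot, ong, onh]
  | m3 i => fin_cases i <;> norm_num [olit, ep, gg, Fin.sum_univ_four, prs, ov2, ov3, odPt, odPot, pot, ong, onh]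
  | _ => norm_num [olit, ep, gg, Fin.sum_univ_four, prs, ov2, ov3, odPt, odPot, pot, ong, onh]

theorem optg11 : odPt ong (olit ![0, 0, 0, 0] 0 0 0 ![0, 0, 0, 0] ![0, 0, 0, 0] ![0, 0, 0, 0] 0 0 0) ![0, (-1), (-1), 0] ![0, 0, 0, 0] (-1) 1 = olit ![0, 0, 0, 0] (103 / 3) 1 0 ![0, 0, 0, 0] ![0, 0, 0, 0] ![0, 0, 0, 0] 0 0 0 := by
  ext k
  cases k with
  | x i => fin_cases i <;> norm_num [olit, ep, gg, Fin.sum_univ_four, prs, ov2, ov3, odPt, odPot, pot, ong, onh]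
  | m1 i => fin_cases i <;> norm_num [olit, ep, gg, Fin.sum_univ_four, prs, ov2, ov3, odPt, odPot, pot, ong, onh]
  | m2 i => fin_cases i <;> norm_num [olit, ep, gg, Fin.sum_univ_four, prs, ov2, ov3, odPt, odPot, pot, ong, onh]
  | m3 i => fin_cases i <;> norm_num [olit, ep, gg, Fin.sum_univ_four, prs, ov2, ov3, odPt, odPot, pot, ong, onh]
  | _ => norm_num [olit, ep, gg, Fin.sum_univ_four, prs, ov2, ov3, odPt, odPot, pot, ong, onh]

theorem olg11 : odL og (olit ![0, 0, 0, 0] (103 / 3) 1 0 ![0, 0, 0, 0] ![0, 0, 0, 0] ![0, 0, 0, 0] 0 0 0) oq = olit ![0, 0, 0, 0] (103 / 3) 1 0 ![0, 0, 0, 0] ![0, 0, 0, 0] ![0, 0, 0, 0] (-(103 / 3)) (-1) 0 := by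
  ext k
  cases k with
  | x i => fin_cases i <;> norm_num [olit, ep, gg, Fin.sum_univ_four, prs, ov2, ov3, odL, og, oq]
  | m1 i => fin_cases i <;> norm_num [olit, ep, gg, Fin.sum_univ_four, prs, ov2, ov3, odL, og, oq]
  | m2 i => fin_cases i <;> norm_num [olit, ep, gg, Fin.sum_univ_four, prs, ov2, ov3, odL, og, oq]
  | m3 i => fin_cases i <;> norm_num [olit, ep, gg, Fin.sum_univ_four, prs, ov2, ov3, odL, og, oq]
  | _ => norm_num [olit, ep, gg, Fin.sum_univ_four, prs, ov2, ov3, odL, og, oq]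

theorem opth11 : odPt onh (olit ![0, 0, 0, 0] 0 0 0 ![0, 0, 0, 0] ![0, 0, 0, 0] ![0, 0, 0, 0] 0 0 0) ![(-1), 1, (-1), 1] ![0, 0, 0, 0] 1 1 = olit ![0, 0, 0, 0] 0 1 0 ![0, 0, 0, 0] ![0, 0, 0, 0] ![0, 0, 0, 0] 0 0 0 := by
  ext k
  cases k with
  | x i => fin_cases i <;> norm_num [olit, ep, gg, Fin.sum_univ_four, prs, ov2, ov3, odPt, odPot, pot, ong, onh]
  | m1 i => fin_cases i <;> norm_num [olit, ep, gg, Fin.sum_univ_four, prs, ov2, ov3, odPt, odPot, pot, ong, onh]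
  | m2 i => fin_cases i <;> norm_num [olit, ep, gg, Fin.sum_univ_four, prs, ov2, ov3, odPt, odPot, pot, ong, onh]
  | m3 i => fin_cases i <;> norm_num [olit, ep, gg, Fin.sum_univ_four, prs, ov2, ov3, odPt, odPot, pot, ong, onh]
  | _ => norm_num [olit, ep, gg, Fin.sum_univ_four, prs, ov2, ov3, odPt, odPot, pot, ong, onh]

theorem optg_z : odPt ong (olit ![0, 0, 0, 0] 0 0 0 ![0, 0, 0, 0] ![0, 0, 0, 0] ![0, 0, 0, 0] 0 0 0) ![0, (-1), (-1), 0] ![0, 0, 0, 0] (-1) 0 = olit ![0, 0, 0, 0] 0 0 0 ![0, 0, 0, 0] ![0, 0, 0, 0] ![0, 0, 0, 0] 0 0 0 := by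
  ext k
  cases k with
  | x i => fin_cases i <;> norm_num [olit, ep, gg, Fin.sum_univ_four, prs, ov2, ov3, odPt, odPot, pot, ong, onh]
  | m1 i => fin_cases i <;> norm_num [olit, ep, gg, Fin.sum_univ_four, prs, ov2, ov3, odPt, odPot, pot, ong, onh]
  | m2 i => fin_cases i <;> norm_num [olit, ep, gg, Fin.sum_univ_four, prs, ov2, ov3, odPt, odPot, pot, ong, onh]
  | m3 i => fin_cases i <;> norm_num [olit, ep, gg, Fin.sum_univ_four, prs, ov2, ov3, odPt, odPot, pot, ong, onh]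
  | _ => norm_num [olit, ep, gg, Fin.sum_univ_four, prs, ov2, ov3, odPt, odPot, pot, ong, onh]

theorem opth_z : odPt onh (olit ![0, 0, 0, 0] 0 0 0 ![0, 0, 0, 0] ![0, 0, 0, 0] ![0, 0, 0, 0] 0 0 0) ![(-1), 1, (-1), 1] ![0, 0, 0, 0] 1 0 = olit ![0, 0, 0, 0] 0 0 0 ![0, 0, 0, 0] ![0, 0, 0, 0] ![0, 0, 0, 0] 0 0 0 := by
  ext k
  cases k with
  | x i => fin_cases i <;> norm_num [olit, ep, gg, Fin.sum_univ_four, prs, ov2, ov3, odPt, odPot, pot, ong, onh]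
  | m1 i => fin_cases i <;> norm_num [olit, ep, gg, Fin.sum_univ_four, prs, ov2, ov3, odPt, odPot, pot, ong, onh]
  | m2 i => fin_cases i <;> norm_num [olit, ep, gg, Fin.sum_univ_four, prs, ov2, ov3, odPt, odPot, pot, ong, onh]
  | m3 i => fin_cases i <;> norm_num [olit, ep, gg, Fin.sum_univ_four, prs, ov2, ov3, odPt, odPot, pot, ong, onh]
  | _ => norm_num [olit, ep, gg, Fin.sum_univ_four, prs, ov2, ov3, odPt, odPot, pot, ong, onh]

theorem olg_z : odL og (olit ![0, 0, 0, 0] 0 0 0 ![0, 0, 0, 0] ![0, 0, 0, 0] ![0, 0, 0, 0] 0 0 0) oq = olit ![0, 0, 0, 0] 0 0 0 ![0, 0, 0, 0] ![0, 0, 0, 0] ![0, 0, 0, 0] 0 0 0 := by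
  ext k
  cases k with
  | x i => fin_cases i <;> norm_num [olit, ep, gg, Fin.sum_univ_four, prs, ov2, ov3, odL, og, oq]
  | m1 i => fin_cases i <;> norm_num [olit, ep, gg, Fin.sum_univ_four, prs, ov2, ov3, odL, og, oq]
  | m2 i => fin_cases i <;> norm_num [olit, ep, gg, Fin.sum_univ_four, prs, ov2, ov3, odL, og, oq]
  | m3 i => fin_cases i <;> norm_num [olit, ep, gg, Fin.sum_univ_four, prs, ov2, ov3, odL, og, oq]
  | _ => norm_num [olit, ep, gg, Fin.sum_univ_four, prs, ov2, ov3, odL, og, oq]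

end

end SRSard
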