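import Pool.Agent.Lib.SRSard.Defs

/-!
# Chunk OPEN, part 1: derivatives of the multiplication and of the explicit points
-/

namespace SRSard

open Set Filter Topology

noncomputable section

/-- derivative of the product in the first argument, direction `a'` -/
def odL (a a' b : SG) : SG := fun k => match k with
  | .x i => a' (.x i)
  | .u => a' .u
  | .v => a' .v
  | .t => a' .t
  | .m1 i => a' (.m1 i) + a' (.x i) * b .t
  | .m2 i => a' (.m2 i) + 2 * a' (.x i) * b (.m1 i) + 2 * a (.x i) * a' (.x i) * b .t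
  | .m3 i => a' (.m3 i) + 3 * a' (.x i) * b (.m2 i) + 6 * a (.x i) * a' (.x i) * b (.m1 i)
      + 3 * a (.x i) ^ 2 * a' (.x i) * b .t
  | .mu => a' .mu + a' .u * b .t
  | .mv => a' .mv + a' .v * b .t
  | .z => a' .z + a' .u * b .mv + a' .v * b .mu + (a' .u * a .v + a .u * a' .v) * b .t
      + ∑ i, (ep i / 4 * (4 * a' (.x i) * b (.m3 i) + 12 * a (.x i) * a' (.x i) * b (.m2 i)
          + 12 * a (.x i) ^ 2 * a' (.x i) * b (.m1 i) + 4 * a (.x i) ^ 3 * a' (.x i) * b .t)
        + ep i * gg i / 6 *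
          ((3 * a' (.x i) * b (.m2 i) + 6 * a (.x i) * a' (.x i) * b (.m1 i)
              + 3 * a (.x i) ^ 2 * a' (.x i) * b .t) * a .t
            + (b (.m3 i) + 3 * a (.x i) * b (.m2 i) + 3 * a (.x i) ^ 2 * b (.m1 i)
              + a (.x i) ^ 3 * b .t) * a' .t
            - 3 * (2 * a' (.x i) * b (.m1 i) + 2 * a (.x i) * a' (.x i) * b .t) * a (.m1 i)
            - 3 * (b (.m2 i) + 2 * a (.x i) * b (.m1 i) + a (.x i) ^ 2 * b .t) * a' (.m1 i)
            + 3 * (a' (.x i) * b .t) * a (.m2 i)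
            + 3 * (b (.m1 i) + a (.x i) * b .t) * a' (.m2 i)
            - b .t * a' (.m3 i)))

/-- derivative of the product in the second argument: linear part of the left multiplication -/
def odR (a b' : SG) : SG := fun k => match k with
  | .x i => b' (.x i)
  | .u => b' .u
  | .v => b' .v
  | .t => b' .t
  | .m1 i => b' (.m1 i) + a (.x i) * b' .t
  | .m2 i => b' (.m2 i) + 2 * a (.x i) * b' (.m1 i) + a (.x i) ^ 2 * b' .t
  | .m3 i => b' (.m3 i) + 3 * a (.x i) * b' (.m2 i) + 3 * a (.x i) ^ 2 * b' (.m1 i)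
      + a (.x i) ^ 3 * b' .t
  | .mu => b' .mu + a .u * b' .t
  | .mv => b' .mv + a .v * b' .t
  | .z => b' .z + a .u * b' .mv + a .v * b' .mu + a .u * a .v * b' .t
      + ∑ i, (ep i / 4 * (4 * a (.x i) * b' (.m3 i) + 6 * a (.x i) ^ 2 * b' (.m2 i)
          + 4 * a (.x i) ^ 3 * b' (.m1 i) + a (.x i) ^ 4 * b' .t)
        + ep i * gg i / 6 *
          ((b' (.m3 i) + 3 * a (.x i) * b' (.m2 i) + 3 * a (.x i) ^ 2 * b' (.m1 i)
              + a (.x i) ^ 3 * b' .t) * a .t
            - 3 * (b' (.m2 i) + 2 * a (.x i) * b' (.m1 i) + a (.x i) ^ 2 * b' .t) * a (.m1 i)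
            + 3 * (b' (.m1 i) + a (.x i) * b' .t) * a (.m2 i)
            - b' .t * a (.m3 i)))

theorem mul_eq_add_odR (a b : SG) : a * b = a + odR a b := by
  ext k
  cases k <;>
    simp only [mul_apply, mulFun, odR, show ∀ (p q : SG) (j : Idx), (p + q) j = p j + q j from
      fun _ _ _ => rfl] <;> ring

theorem odR_injective (a : SG) : Function.Injective (odR a) := by
  intro b c h
  have h1 : a * b = a * c := by rw [mul_eq_add_odR, mul_eq_add_odR, h]
  exact mul_left_cancel h1

theorem od_mul {a b : ℝ → SG} {a' b' : SG} {s : ℝ} (ha : ∀ k, HasDerivAt (fun t => a t k) (a' k) s)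
    (hb : ∀ k, HasDerivAt (fun t => b t k) (b' k) s) (k : Idx) :
    HasDerivAt (fun t => (a t * b t) k) (odL (a s) a' (b s) k + odR (a s) b' k) s := by
  cases k with
  | z =>
    have key : ∀ i : Fin 4, HasDerivAt (fun t =>
        (ep i / 4 * (4 * a t (.x i) * b t (.m3 i) + 6 * a t (.x i) ^ 2 * b t (.m2 i)
          + 4 * a t (.x i) ^ 3 * b t (.m1 i) + a t (.x i) ^ 4 * b t .t)
        + ep i * gg i / 6 *
          ((b t (.m3 i) + 3 * a t (.x i) * b t (.m2 i) + 3 * a t (.x i) ^ 2 * b t (.m1 i)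
              + a t (.x i) ^ 3 * b t .t) * a t .t
            - 3 * (b t (.m2 i) + 2 * a t (.x i) * b t (.m1 i) + a t (.x i) ^ 2 * b t .t)
              * a t (.m1 i)
            + 3 * (b t (.m1 i) + a t (.x i) * b t .t) * a t (.m2 i)
            - b t .t * a t (.m3 i))))
        ((ep i / 4 * (4 * a' (.x i) * b s (.m3 i) + 12 * a s (.x i) * a' (.x i) * b s (.m2 i)
          + 12 * a s (.x i) ^ 2 * a' (.x i) * b s (.m1 i) + 4 * a s (.x i) ^ 3 * a' (.x i) * b s .t)
        + ep i * gg i / 6 *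
          ((3 * a' (.x i) * b s (.m2 i) + 6 * a s (.x i) * a' (.x i) * b s (.m1 i)
              + 3 * a s (.x i) ^ 2 * a' (.x i) * b s .t) * a s .t
            + (b s (.m3 i) + 3 * a s (.x i) * b s (.m2 i) + 3 * a s (.x i) ^ 2 * b s (.m1 i)
              + a s (.x i) ^ 3 * b s .t) * a' .t
            - 3 * (2 * a' (.x i) * b s (.m1 i) + 2 * a s (.x i) * a' (.x i) * b s .t) * a s (.m1 i)
            - 3 * (b s (.m2 i) + 2 * a s (.x i) * b s (.m1 i) + a s (.x i) ^ 2 * b s .t) * a' (.m1 i)
            + 3 * (a' (.x i) * b s .t) * a s (.m2 i)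
            + 3 * (b s (.m1 i) + a s (.x i) * b s .t) * a' (.m2 i)
            - b s .t * a' (.m3 i))) +
        (ep i / 4 * (4 * a s (.x i) * b' (.m3 i) + 6 * a s (.x i) ^ 2 * b' (.m2 i)
          + 4 * a s (.x i) ^ 3 * b' (.m1 i) + a s (.x i) ^ 4 * b' .t)
        + ep i * gg i / 6 *
          ((b' (.m3 i) + 3 * a s (.x i) * b' (.m2 i) + 3 * a s (.x i) ^ 2 * b' (.m1 i)
              + a s (.x i) ^ 3 * b' .t) * a s .t
            - 3 * (b' (.m2 i) + 2 * a s (.x i) * b' (.m1 i) + a s (.x i) ^ 2 * b' .t) * a s (.m1 i)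
            + 3 * (b' (.m1 i) + a s (.x i) * b' .t) * a s (.m2 i)
            - b' .t * a s (.m3 i)))) s := by
      intro i
      apply HasDerivAt.congr_deriv
      · repeat' (with_reducible first
          | exact hasDerivAt_const _ _
          | exact ha _
          | exact hb _
          | apply HasDerivAt.fun_add
          | apply HasDerivAt.fun_sub
          | apply HasDerivAt.fun_mul
          | apply HasDerivAt.fun_neg
          | apply HasDerivAt.fun_pow)
      · push_cast
        ring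
    have h0 : HasDerivAt (fun t => a t .z + b t .z + a t .u * b t .mv + a t .v * b t .mu
        + a t .u * a t .v * b t .t)
        ((a' .z + a' .u * b s .mv + a' .v * b s .mu + (a' .u * a s .v + a s .u * a' .v) * b s .t)
        + (b' .z + a s .u * b' .mv + a s .v * b' .mu + a s .u * a s .v * b' .t)) s := by
      apply HasDerivAt.congr_deriv
      · repeat' (with_reducible first
          | exact hasDerivAt_const _ _
          | exact ha _
          | exact hb _
          | apply HasDerivAt.fun_add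
          | apply HasDerivAt.fun_sub
          | apply HasDerivAt.fun_mul
          | apply HasDerivAt.fun_neg
          | apply HasDerivAt.fun_pow)
      · ring
    have h1 := h0.fun_add (HasDerivAt.fun_sum (u := Finset.univ) fun i _ => key i)
    simp only [mul_apply, mulFun, odL, odR]
    refine h1.congr_deriv ?_
    rw [Finset.sum_add_distrib]
    ring
  | _ =>
    simp only [mul_apply, mulFun, odL, odR]
    apply HasDerivAt.congr_deriv
    · repeat' (with_reducible first
        | exact hasDerivAt_const _ _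
        | exact ha _
        | exact hb _
        | apply HasDerivAt.fun_add
        | apply HasDerivAt.fun_sub
        | apply HasDerivAt.fun_mul
        | apply HasDerivAt.fun_neg
        | apply HasDerivAt.fun_pow)
    · push_cast
      ring

/-- derivatives of the moments of a node point -/
def odM1 (g a T a' T' p' : ℝ) : ℝ := (6 * a * a' + 2 * g * (T' * a + T * a') - p') / (2 * g)
def odM2 (g a T p a' T' p' : ℝ) : ℝ :=
  (6 * a ^ 2 * a' + g * (T' * a ^ 2 + 2 * T * a * a') - p' * a - p * a') / g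
def odM3 (g a T p a' T' p' : ℝ) : ℝ := - g * (T' * ndM2 g a T p + T * odM2 g a T p a' T' p'
  - 2 * ndM1 g a T p * odM1 g a T a' T' p')

theorem od_ndM1 {a T p : ℝ → ℝ} {a' T' p' s : ℝ} (g : ℝ) (ha : HasDerivAt a a' s)
    (hT : HasDerivAt T T' s) (hp : HasDerivAt p p' s) :
    HasDerivAt (fun t => ndM1 g (a t) (T t) (p t)) (odM1 g (a s) (T s) a' T' p') s := by
  unfold ndM1 odM1
  apply HasDerivAt.congr_deriv
  · apply HasDerivAt.div_const
    repeat' (with_reducible first
    | exact hasDerivAt_const _ _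
    | exact ha
    | exact hT
    | exact hp
    | apply HasDerivAt.fun_add
    | apply HasDerivAt.fun_sub
    | apply HasDerivAt.fun_mul
    | apply HasDerivAt.fun_neg
    | apply HasDerivAt.fun_pow)
  · push_cast
    ring

theorem od_ndM2 {a T p : ℝ → ℝ} {a' T' p' s : ℝ} (g : ℝ) (ha : HasDerivAt a a' s)
    (hT : HasDerivAt T T' s) (hp : HasDerivAt p p' s) :
    HasDerivAt (fun t => ndM2 g (a t) (T t) (p t)) (odM2 g (a s) (T s) (p s) a' T' p') s := by
  unfold ndM2 odM2
  apply HasDerivAt.congr_deriv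
  · apply HasDerivAt.div_const
    repeat' (with_reducible first
    | exact hasDerivAt_const _ _
    | exact ha
    | exact hT
    | exact hp
    | apply HasDerivAt.fun_add
    | apply HasDerivAt.fun_sub
    | apply HasDerivAt.fun_mul
    | apply HasDerivAt.fun_neg
    | apply HasDerivAt.fun_pow)
  · push_cast
    ring

theorem od_ndM3 {a T p : ℝ → ℝ} {a' T' p' s : ℝ} (g : ℝ) (ha : HasDerivAt a a' s)
    (hT : HasDerivAt T T' s) (hp : HasDerivAt p p' s) :
    HasDerivAt (fun t => ndM3 g (a t) (T t) (p t)) (odM3 g (a s) (T s) (p s) a' T' p') s := by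
  have h1 := od_ndM1 g ha hT hp
  have h2 := od_ndM2 g ha hT hp
  unfold ndM3 odM3
  apply HasDerivAt.congr_deriv
  · repeat' (with_reducible first
    | exact hasDerivAt_const _ _
    | exact ha
    | exact hT
    | exact hp
    | exact h1
    | exact h2
    | apply HasDerivAt.fun_add
    | apply HasDerivAt.fun_sub
    | apply HasDerivAt.fun_mul
    | apply HasDerivAt.fun_neg
    | apply HasDerivAt.fun_pow)
  · push_cast
    ring

/-- derivative of the node point -/
def odNode (a : Fin 4 → ℝ) (T : ℝ) (p : Fin 4 → ℝ) (a' : Fin 4 → ℝ) (T' : ℝ) (p' : Fin 4 → ℝ) :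
    SG := fun k => match k with
  | .x i => a' i
  | .u => 0
  | .v => 0
  | .t => T'
  | .m1 i => odM1 (gg i) (a i) T (a' i) T' (p' i)
  | .m2 i => odM2 (gg i) (a i) T (p i) (a' i) T' (p' i)
  | .m3 i => odM3 (gg i) (a i) T (p i) (a' i) T' (p' i)
  | .mu => 0
  | .mv => 0
  | .z => - (1 / 10) * ∑ i, ep i * gg i * (T' * ndM3 (gg i) (a i) T (p i)
      + T * odM3 (gg i) (a i) T (p i) (a' i) T' (p' i)
      - odM1 (gg i) (a i) T (a' i) T' (p' i) * ndM2 (gg i) (a i) T (p i)
      - ndM1 (gg i) (a i) T (p i) * odM2 (gg i) (a i) T (p i) (a' i) T' (p' i))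

theorem od_node {a : ℝ → Fin 4 → ℝ} {T : ℝ → ℝ} {p : ℝ → Fin 4 → ℝ} {a' : Fin 4 → ℝ} {T' : ℝ}
    {p' : Fin 4 → ℝ} {s : ℝ} (ha : ∀ i, HasDerivAt (fun t => a t i) (a' i) s)
    (hT : HasDerivAt T T' s) (hp : ∀ i, HasDerivAt (fun t => p t i) (p' i) s) (k : Idx) :
    HasDerivAt (fun t => node (a t) (T t) (p t) k) (odNode (a s) (T s) (p s) a' T' p' k) s := by
  cases k with
  | x i => exact ha i
  | u => exact hasDerivAt_const _ _
  | v => exact hasDerivAt_const _ _
  | t => exact hT
  | m1 i => exact od_ndM1 (gg i) (ha i) hT (hp i)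
  | m2 i => exact od_ndM2 (gg i) (ha i) hT (hp i)
  | m3 i => exact od_ndM3 (gg i) (ha i) hT (hp i)
  | mu => exact hasDerivAt_const _ _
  | mv => exact hasDerivAt_const _ _
  | z =>
    simp only [node, odNode]
    refine HasDerivAt.const_mul _ (HasDerivAt.fun_sum fun i _ => ?_)
    refine (((hT.fun_mul (od_ndM3 (gg i) (ha i) hT (hp i))).fun_sub
      ((od_ndM1 (gg i) (ha i) hT (hp i)).fun_mul (od_ndM2 (gg i) (ha i) hT (hp i)))).const_mul
      (ep i * gg i)).congr_deriv ?_
    ring

/-- derivative of the potential -/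
def odPot (g g' : SG) (x x' : Fin 4 → ℝ) : ℝ := ∑ i, (ep i * x i ^ 3 * x' i + ep i * gg i / 3 *
      (3 * x i ^ 2 * x' i * g .t + x i ^ 3 * g' .t - 6 * x i * x' i * g (.m1 i)
        - 3 * x i ^ 2 * g' (.m1 i) + 3 * x' i * g (.m2 i) + 3 * x i * g' (.m2 i) - g' (.m3 i)))

theorem od_pot {g : ℝ → SG} {g' : SG} {x : ℝ → Fin 4 → ℝ} {x' : Fin 4 → ℝ} {s : ℝ}
    (hg : ∀ k, HasDerivAt (fun t => g t k) (g' k) s)
    (hx : ∀ i, HasDerivAt (fun t => x t i) (x' i) s) :
    HasDerivAt (fun t => pot (g t) (x t)) (odPot (g s) g' (x s) x') s := by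
  unfold pot odPot
  refine HasDerivAt.fun_sum fun i _ => ?_
  apply HasDerivAt.congr_deriv
  · repeat' (with_reducible first
      | exact hasDerivAt_const _ _
      | exact hg _
      | exact hx _
      | apply HasDerivAt.fun_add
      | apply HasDerivAt.fun_sub
      | apply HasDerivAt.fun_mul
      | apply HasDerivAt.fun_neg
      | apply HasDerivAt.fun_pow)
  · push_cast
    ring

/-- derivative of the explicit points -/
def odPt (g g' : SG) (x x' : Fin 4 → ℝ) (r r' : ℝ) : SG := fun k => match k with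
  | .x i => x' i
  | .u => - (odPot g g' x x' * r - pot g x * r') / r ^ 2
  | .v => r'
  | .t => g' .t
  | .m1 i => g' (.m1 i)
  | .m2 i => g' (.m2 i)
  | .m3 i => g' (.m3 i)
  | .mu => g' .mu
  | .mv => g' .mv
  | .z => g' .z

theorem od_pt {g : ℝ → SG} {g' : SG} {x : ℝ → Fin 4 → ℝ} {x' : Fin 4 → ℝ} {r : ℝ → ℝ} {r' s : ℝ}
    (hg : ∀ k, HasDerivAt (fun t => g t k) (g' k) s)
    (hx : ∀ i, HasDerivAt (fun t => x t i) (x' i) s) (hr : HasDerivAt r r' s) (h0 : r s ≠ 0)
    (k : Idx) :
    HasDerivAt (fun t => setPos (g t) (x t) (- pot (g t) (x t) / r t) (r t) k)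
      (odPt (g s) g' (x s) x' (r s) r' k) s := by
  cases k with
  | x i => exact hx i
  | u =>
    refine ((od_pot hg hx).fun_neg.fun_div hr h0).congr_deriv ?_
    simp only [odPt]
    ring
  | v => exact hr
  | t => exact hg _
  | m1 i => exact hg _
  | m2 i => exact hg _
  | m3 i => exact hg _
  | mu => exact hg _
  | mv => exact hg _
  | z => exact hg _

end

end SRSard
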