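import Pool.Agent.Lib.SRSard.Traj

/-!
# Chunk REACH: the relation `Reach`

All statements follow from the calculus in `Traj.lean`.

* `Reach.infinite`: put `T n = ∑ k < n, ℓ k`, `T n → L = ∑' ℓ`.  The control is
  `w s = w_n (s - T n)` for `T n < s ≤ T (n+1)` and `0` for the other `s`.  By
  `gam_congr` and `gam_add`, `g 0 * gam w (T n) = g n` and the points
  `g 0 * gam w s = g n * gam w_n (s - T n)` for `s ∈ [T n, T (n+1)]` lie in `Z`; at `s = L` use
  continuity of `gam w` and closedness of `Z`.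
* `reach_of_smooth`: `gam_eq_of_hasDerivAt` and `gam_scale`.
-/

namespace SRSard

open MeasureTheory Set Filter Topology

noncomputable section

theorem reach_coord (k : Idx) : Continuous (fun g : SG => g k) :=
  continuous_apply (A := fun _ : Idx => ℝ) k

theorem reach_phi_cont : Continuous phi := by
  have hc := reach_coord
  unfold phi
  refine ((hc .u).mul (hc .v)).add (continuous_finsetSum _ fun i _ => ?_)
  have h1 := hc (.x i)
  have h2 := hc .t
  have h3 := hc (.m1 i)
  have h4 := hc (.m2 i)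
  have h5 := hc (.m3 i)
  exact (continuous_const.mul (h1.pow 4)).add (continuous_const.mul
    (((((h1.pow 3).mul h2).sub ((continuous_const.mul (h1.pow 2)).mul h3)).add
      ((continuous_const.mul h1).mul h4)).sub h5))

theorem reach_chi_cont (i : Fin 4) : Continuous (fun g => chi g i) := by
  have hc := reach_coord
  unfold chi
  exact (hc (.m3 i)).add (continuous_const.mul (((hc .t).mul (hc (.m2 i))).sub
    ((hc (.m1 i)).pow 2)))

theorem isClosed_Z : IsClosed Z := by
  have h1 : Z = {g | phi g = 0} ∩ ({g | ∀ i, chi g i = 0} ∩ ({g | g .mu = 0} ∩ {g | g .mv = 0})) := by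
    ext g
    rfl
  rw [h1]
  refine (isClosed_eq reach_phi_cont continuous_const).inter
    (IsClosed.inter ?_ ((isClosed_eq (reach_coord .mu) continuous_const).inter
      (isClosed_eq (reach_coord .mv) continuous_const)))
  have h2 : {g : SG | ∀ i, chi g i = 0} = ⋂ i, {g | chi g i = 0} := by
    ext g
    simp
  rw [h2]
  exact isClosed_iInter fun i => isClosed_eq (reach_chi_cont i) continuous_const

theorem reach_mul_left (g : SG) : Continuous (fun h : SG => g * h) := by
  have hc := reach_coord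
  refine continuous_pi (A := fun _ : Idx => ℝ) fun k => ?_
  cases k with
  | x i => exact continuous_const.add (hc (.x i))
  | u => exact continuous_const.add (hc .u)
  | v => exact continuous_const.add (hc .v)
  | t => exact continuous_const.add (hc .t)
  | m1 i => exact continuous_const.add ((hc (.m1 i)).add (continuous_const.mul (hc .t)))
  | m2 i =>
    exact continuous_const.add (((hc (.m2 i)).add (continuous_const.mul (hc (.m1 i)))).add
      (continuous_const.mul (hc .t)))
  | m3 i =>
    exact continuous_const.add ((((hc (.m3 i)).add (continuous_const.mul (hc (.m2 i)))).add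
      (continuous_const.mul (hc (.m1 i)))).add (continuous_const.mul (hc .t)))
  | mu => exact (continuous_const.add (hc .mu)).add (continuous_const.mul (hc .t))
  | mv => exact (continuous_const.add (hc .mv)).add (continuous_const.mul (hc .t))
  | z =>
    have h3 := fun i => hc (.m3 i)
    have h2 := fun i => hc (.m2 i)
    have h1 := fun i => hc (.m1 i)
    have ht := hc .t
    refine ((((continuous_const.add (hc .z)).add (continuous_const.mul (hc .mv))).add
      (continuous_const.mul (hc .mu))).add (continuous_const.mul ht)).add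
      (continuous_finsetSum _ fun i _ => ?_)
    have e3 : Continuous fun b : SG => b (.m3 i) + 3 * g (.x i) * b (.m2 i) +
        3 * g (.x i) ^ 2 * b (.m1 i) + g (.x i) ^ 3 * b .t :=
      (((h3 i).add (continuous_const.mul (h2 i))).add (continuous_const.mul (h1 i))).add
        (continuous_const.mul ht)
    have e2 : Continuous fun b : SG => b (.m2 i) + 2 * g (.x i) * b (.m1 i) +
        g (.x i) ^ 2 * b .t :=
      ((h2 i).add (continuous_const.mul (h1 i))).add (continuous_const.mul ht)
    have e1 : Continuous fun b : SG => b (.m1 i) + g (.x i) * b .t :=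
      (h1 i).add (continuous_const.mul ht)
    have e4 : Continuous fun b : SG => 4 * g (.x i) * b (.m3 i) + 6 * g (.x i) ^ 2 * b (.m2 i)
        + 4 * g (.x i) ^ 3 * b (.m1 i) + g (.x i) ^ 4 * b .t :=
      (((continuous_const.mul (h3 i)).add (continuous_const.mul (h2 i))).add
        (continuous_const.mul (h1 i))).add (continuous_const.mul ht)
    exact (continuous_const.mul e4).add (continuous_const.mul
      ((((e3.mul continuous_const).sub ((continuous_const.mul e2).mul continuous_const)).add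
        ((continuous_const.mul e1).mul continuous_const)).sub (ht.mul continuous_const)))

theorem reach_mem_left {L : ℝ} {g h : SG} (H : Reach L g h) : g ∈ Z := by
  obtain ⟨hL, w, hw, -, hZ⟩ := H
  have := hZ 0 ⟨le_rfl, hL⟩
  rwa [gam_zero, mul_one] at this

theorem reach_mem_right {L : ℝ} {g h : SG} (H : Reach L g h) : h ∈ Z := by
  obtain ⟨hL, w, hw, he, hZ⟩ := H
  have := hZ L ⟨hL, le_rfl⟩
  rwa [he] at this

theorem reach_gam_zero_ctrl (t : ℝ) : gam (fun _ => 0) t = 1 := by
  have h0 : ∀ k : Idx, (0 : SG) k = 0 := fun _ => rfl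
  ext k
  cases k <;> simp [gam, gx, gm, one_apply, h0]

theorem reach_zero_ctrl : Ctrl (fun _ => 0) :=
  ⟨measurable_const, fun _ => by rw [norm_zero]; exact zero_le_one⟩

theorem reach_const {L : ℝ} (hL : 0 ≤ L) {g : SG} (hg : g ∈ Z) : Reach L g g := by
  refine ⟨hL, fun _ => 0, reach_zero_ctrl, ?_, fun t _ => ?_⟩
  · rw [reach_gam_zero_ctrl, mul_one]
  · rw [reach_gam_zero_ctrl, mul_one]; exact hg

theorem Reach.refl {g : SG} (hg : g ∈ Z) : Reach 0 g g := reach_const le_rfl hg

theorem Reach.symm {L : ℝ} {g h : SG} (H : Reach L g h) : Reach L h g := by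
  obtain ⟨hL, w, hw, he, hZ⟩ := H
  have key : ∀ t, h * gam (fun r => - w (L - r)) t = g * gam w (L - t) := by
    intro t
    rw [gam_rev hw, ← he, mul_assoc, mul_inv_cancel_left]
  refine ⟨hL, fun r => - w (L - r), ⟨?_, fun t => ?_⟩, ?_, fun t ht => ?_⟩
  · exact (hw.meas.comp (measurable_const.sub measurable_id)).neg
  · rw [norm_neg]; exact hw.bound _
  · rw [key, sub_self, gam_zero, mul_one]
  · rw [key]
    exact hZ _ ⟨by linarith [ht.2], by linarith [ht.1]⟩

theorem Reach.trans {L₁ L₂ : ℝ} {g h k : SG} (H₁ : Reach L₁ g h) (H₂ : Reach L₂ h k) :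
    Reach (L₁ + L₂) g k := by
  classical
  obtain ⟨hL₁, w₁, hw₁, he₁, hZ₁⟩ := H₁
  obtain ⟨hL₂, w₂, hw₂, he₂, hZ₂⟩ := H₂
  set w : ℝ → SG := fun t => if t ≤ L₁ then w₁ t else w₂ (t - L₁) with hwdef
  have hw : Ctrl w := by
    refine ⟨Measurable.ite measurableSet_Iic hw₁.meas
      (hw₂.meas.comp (measurable_id.sub measurable_const)), fun t => ?_⟩
    simp only [hwdef]
    split_ifs
    · exact hw₁.bound _
    · exact hw₂.bound _
  have e1 : ∀ t, 0 ≤ t → t ≤ L₁ → gam w t = gam w₁ t := by
    intro t ht0 ht1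
    refine gam_congr ht0 fun s hs => ?_
    simp only [hwdef]
    rw [if_pos (hs.2.trans ht1)]
  have e2 : ∀ r, 0 ≤ r → g * gam w (L₁ + r) = h * gam w₂ r := by
    intro r hr
    rw [gam_add hw, e1 L₁ hL₁ le_rfl, ← mul_assoc, he₁]
    congr 1
    refine gam_congr hr fun s hs => ?_
    simp only [hwdef]
    rw [if_neg (by linarith [hs.1]), add_sub_cancel_left]
  refine ⟨by linarith, w, hw, ?_, fun t ht => ?_⟩
  · rw [e2 L₂ hL₂, he₂]
  · rcases le_total t L₁ with h1 | h1
    · rw [e1 t ht.1 h1]
      exact hZ₁ t ⟨ht.1, h1⟩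
    · have h2 := e2 (t - L₁) (by linarith)
      rw [add_sub_cancel] at h2
      rw [h2]
      exact hZ₂ _ ⟨by linarith, by linarith [ht.2]⟩

theorem Reach.mono {L L' : ℝ} {g h : SG} (H : Reach L g h) (hL : L ≤ L') : Reach L' g h := by
  have h1 := H.trans (reach_const (L := L' - L) (by linarith) (reach_mem_right H))
  rwa [add_sub_cancel] at h1

/-- gluing countably many controls -/
theorem reach_glue {T : ℕ → ℝ} (hT : Monotone T) {v : ℕ → ℝ → SG} (hv : ∀ n, Ctrl (v n)) :
    ∃ w : ℝ → SG, Ctrl w ∧ ∀ n, ∀ s ∈ Ioc (T n) (T (n + 1)), w s = v n (s - T n) := by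
  classical
  set p : ℕ → ℝ → Prop := fun n s => s ∈ Ioc (T n) (T (n + 1)) ∨
    ∀ m, s ∉ Ioc (T m) (T (m + 1)) with hp
  set f : ℕ → ℝ → SG := fun n s => if s ∈ Ioc (T n) (T (n + 1)) then v n (s - T n) else 0 with hf
  have hex : ∀ s, ∃ n, p n s := by
    intro s
    by_cases h : ∃ n, s ∈ Ioc (T n) (T (n + 1))
    · obtain ⟨n, hn⟩ := h
      exact ⟨n, Or.inl hn⟩
    · exact ⟨0, Or.inr fun m hm => h ⟨m, hm⟩⟩
  have hfm : ∀ n, Measurable (f n) := fun n =>
    Measurable.ite measurableSet_Ioc ((hv n).meas.comp (measurable_id.sub measurable_const))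
      measurable_const
  have hpm : ∀ n, MeasurableSet {s | p n s} := by
    intro n
    have : {s | p n s} = Ioc (T n) (T (n + 1)) ∪ ⋂ m, (Ioc (T m) (T (m + 1)))ᶜ := by
      ext s
      simp [hp]
    rw [this]
    exact measurableSet_Ioc.union (MeasurableSet.iInter fun m => measurableSet_Ioc.compl)
  refine ⟨fun s => f (Nat.find (hex s)) s, ⟨Measurable.find hfm hpm hex, fun s => ?_⟩,
    fun n s hs => ?_⟩
  · simp only [hf]
    split_ifs
    · exact (hv _).bound _
    · rw [norm_zero]; exact zero_le_one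
  · have h1 := Nat.find_spec (hex s)
    set m := Nat.find (hex s) with hm
    have h2 : s ∈ Ioc (T m) (T (m + 1)) := by
      rcases h1 with h1 | h1
      · exact h1
      · exact absurd hs (h1 n)
    have hmn : m = n := by
      rcases lt_trichotomy m n with h3 | h3 | h3
      · have h4 := hT (show m + 1 ≤ n from h3)
        have h5 := h2.2
        have h6 := hs.1
        exact absurd (lt_of_lt_of_le h6 (h5.trans h4)) (lt_irrefl _)
      · exact h3
      · have h4 := hT (show n + 1 ≤ m from h3)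
        have h5 := hs.2
        have h6 := h2.1
        exact absurd (lt_of_lt_of_le h6 (h5.trans h4)) (lt_irrefl _)
    change f m s = v n (s - T n)
    rw [hmn]
    simp only [hf]
    rw [if_pos hs]

theorem Reach.infinite {g : ℕ → SG} {ℓ : ℕ → ℝ} {g' : SG}
    (H : ∀ n, Reach (ℓ n) (g n) (g (n + 1))) (hs : Summable ℓ)
    (hg : Tendsto g atTop (𝓝 g')) : Reach (∑' n, ℓ n) (g 0) g' := by
  have hℓ : ∀ n, 0 ≤ ℓ n := fun n => (H n).1
  choose v hv hve hvZ using fun n => (H n).2
  set T : ℕ → ℝ := fun n => ∑ k ∈ Finset.range n, ℓ k with hTdef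
  have hT0 : T 0 = 0 := by simp [hTdef]
  have hTs : ∀ n, T (n + 1) = T n + ℓ n := fun n => by
    simp only [hTdef]; rw [Finset.sum_range_succ]
  have hT : Monotone T := monotone_nat_of_le_succ fun n => by rw [hTs]; linarith [hℓ n]
  have hTL : Tendsto T atTop (𝓝 (∑' n, ℓ n)) := hs.hasSum.tendsto_sum_nat
  have hTle : ∀ n, T n ≤ ∑' n, ℓ n := fun n => hT.ge_of_tendsto hTL n
  obtain ⟨w, hw, hwv⟩ := reach_glue hT hv
  have hTn0 : ∀ n, 0 ≤ T n := fun n => by
    have := hT (Nat.zero_le n)
    rwa [hT0] at this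
  have hstep : ∀ n r, 0 ≤ r → r ≤ ℓ n → gam w (T n + r) = gam w (T n) * gam (v n) r := by
    intro n r hr0 hr1
    rw [gam_add hw]
    congr 1
    refine gam_congr hr0 fun s hs' => ?_
    rw [hwv n (T n + s) ⟨by linarith [hs'.1], by rw [hTs]; linarith [hs'.2]⟩,
      add_sub_cancel_left]
  have hA : ∀ n, g 0 * gam w (T n) = g n := by
    intro n
    induction n with
    | zero => rw [hT0, gam_zero, mul_one]
    | succ n ih =>
      rw [hTs, hstep n (ℓ n) (hℓ n) le_rfl, ← mul_assoc, ih, hve]
  have hB : ∀ n s, T n ≤ s → s ≤ T (n + 1) → g 0 * gam w s ∈ Z := by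
    intro n s h1 h2
    have h3 := hstep n (s - T n) (by linarith) (by rw [hTs] at h2; linarith)
    rw [add_sub_cancel] at h3
    rw [h3, ← mul_assoc, hA]
    exact hvZ n _ ⟨by linarith, by rw [hTs] at h2; linarith⟩
  have hend : g 0 * gam w (∑' n, ℓ n) = g' := by
    have h1 : Tendsto (fun n => g 0 * gam w (T n)) atTop (𝓝 (g 0 * gam w (∑' n, ℓ n))) :=
      ((reach_mul_left (g 0)).comp (gam_continuous hw)).continuousAt.tendsto.comp hTL
    have h2 : Tendsto (fun n => g 0 * gam w (T n)) atTop (𝓝 g') := by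
      simp only [hA]
      exact hg
    exact tendsto_nhds_unique h1 h2
  refine ⟨(hTn0 0).trans (hTle 0), w, hw, hend, fun s hs' => ?_⟩
  rcases eq_or_lt_of_le hs'.2 with h1 | h1
  · rw [h1, hend]
    exact isClosed_Z.mem_of_tendsto hg (Eventually.of_forall fun n => reach_mem_left (H n))
  · have hex : ∃ n, s < T n := (hTL.eventually_const_lt h1).exists
    classical
    set N := Nat.find hex with hN
    have h2 : s < T N := Nat.find_spec hex
    have h3 : N ≠ 0 := by
      intro h0
      rw [h0, hT0] at h2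
      linarith [hs'.1]
    obtain ⟨m, hm⟩ := Nat.exists_eq_succ_of_ne_zero h3
    have h4 : T m ≤ s := by
      have := Nat.find_min hex (m := m) (by omega)
      exact not_lt.1 this
    refine hB m s h4 ?_
    rw [hm] at h2
    exact h2.le

theorem reach_of_smooth {η w : ℝ → SG} {c : ℝ} (hc : 0 < c) (hw : Continuous w)
    (h : ∀ t, HasDerivAt η (hor (η t) (w t)) t) (hb : ∀ t ∈ Icc (0:ℝ) 1, ‖w t‖ ≤ c)
    (hZ : ∀ t ∈ Icc (0:ℝ) 1, η t ∈ Z) : Reach c (η 0) (η 1) := by
  classical
  set w' : ℝ → SG := fun r => if r ∈ Icc (0 : ℝ) c then c⁻¹ • w (c⁻¹ * r) else 0 with hw'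
  have hcont : Continuous fun r => c⁻¹ • w (c⁻¹ * r) :=
    (hw.comp (continuous_const.mul continuous_id)).const_smul c⁻¹
  have hC : Ctrl w' := by
    refine ⟨Measurable.ite measurableSet_Icc hcont.measurable measurable_const, fun r => ?_⟩
    simp only [hw']
    split_ifs with hr
    · rw [norm_smul, norm_inv, Real.norm_eq_abs, abs_of_pos hc]
      have h1 : c⁻¹ * r ∈ Icc (0 : ℝ) 1 := by
        refine ⟨mul_nonneg (inv_nonneg.2 hc.le) hr.1, ?_⟩
        rw [inv_mul_le_iff₀ hc, mul_one]
        exact hr.2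
      rw [inv_mul_le_iff₀ hc, mul_one]
      exact hb _ h1
    · rw [norm_zero]; exact zero_le_one
  have key : ∀ r ∈ Icc (0 : ℝ) c, η 0 * gam w' r = η (c⁻¹ * r) := by
    intro r hr
    have h1 : gam w' r = gam (fun r => c⁻¹ • w (c⁻¹ * r)) r := by
      refine gam_congr hr.1 fun s hs => ?_
      simp only [hw']
      rw [if_pos ⟨hs.1.le, hs.2.trans hr.2⟩]
    have h2 := gam_scale w hc.ne' (c⁻¹ * r)
    rw [mul_inv_cancel_left₀ hc.ne'] at h2
    rw [h1, h2, ← gam_eq_of_hasDerivAt hw h]
  refine ⟨hc.le, w', hC, ?_, fun r hr => ?_⟩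
  · rw [key c ⟨hc.le, le_rfl⟩, inv_mul_cancel₀ hc.ne']
  · rw [key r hr]
    refine hZ _ ⟨mul_nonneg (inv_nonneg.2 hc.le) hr.1, ?_⟩
    rw [inv_mul_le_iff₀ hc, mul_one]
    exact hr.2

end

end SRSard
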