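import Pool.Agent.Lib.SRSard.MovesC

/-!
# Chunk SA (hop1, hop2): a pair `i, k` is steered to the singular point

`ep i = 1, gg i = 1`, `ep k = -1, gg k = 101` (`(i,k) = (0,1)` or `(2,3)`), `p i = p k = π > 0`.

* `hop1`: from `node a 0 p` to `node (a + n η e_j) 0 p`, `η = sqrt (2 π)`, `n : ℤ`
  (induction on `|n|`: at each step go to the tuned value of `T`, switch; consecutive tuned values
  of `T` differ by `3 η / gg j`); final cost `≤ C (|a j| + (|n| + 1) η) (1 + η^2)`.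
* `hop2`: from `node a 0 p`, if `c = 3 (a k - 101 a i) / 100` and `ρ + π / ρ = c` (`ρ > 0`), to
  `node (a + ρ e_i + ρ e_k) 0 p'`, `p' = ρ^2 - π`.
* `steer_step`: with `s = sqrt π`: first `hop1` brings `a i` into `[-η, η]`, then `hop1` brings `a k`
  into the interval `101 a i + (100/3) [2.01 s, 2.06 s]` (its length is `5/3 s > η`); then
  `ρ = (c + sqrt (c^2 - 4 s^2))/2` satisfies `1.1 s ≤ ρ ≤ 1.28 s`, so
  `0.2 s^2 ≤ ρ^2 - s^2 ≤ 0.64 s^2`.
* `steer_pair`: iterate (`s_{n+1} ≤ 0.8 s_n`), costs are summable, `Reach.infinite`.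
-/

namespace SRSard

open MeasureTheory Set Filter Topology
open scoped ContDiff

noncomputable section

/-- a good pair of coordinates -/
def GoodPair (i k : Fin 4) : Prop :=
  i ≠ k ∧ ep i = 1 ∧ ep k = -1 ∧ gg i = 1 ∧ gg k = 101

theorem goodPair01 : GoodPair 0 1 := by
  refine ⟨by decide, ?_, ?_, ?_, ?_⟩ <;> simp [ep, gg]

theorem goodPair23 : GoodPair 2 3 := by
  refine ⟨by decide, ?_, ?_, ?_, ?_⟩ <;> simp [ep, gg]

theorem sa_gg_one (i : Fin 4) : 1 ≤ gg i := by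
  fin_cases i <;> simp [gg]

/-- the tuned value of `T` -/
def saT (g x ρ : ℝ) : ℝ := - (3 / 2 * ρ + 3 * x) / g

theorem sa_abs_div {g : ℝ} (hg : 1 ≤ g) {x B : ℝ} (hx : |x| ≤ B) : |x / g| ≤ B := by
  rw [abs_div, abs_of_pos (by linarith : 0 < g)]
  exact (div_le_self (abs_nonneg x) hg).trans hx

theorem sa_iter (a : Fin 4 → ℝ) {p : Fin 4 → ℝ} (hp : pe p) (j : Fin 4) {ρ : ℝ} (h0 : ρ ≠ 0)
    (h1 : ρ ^ 2 = 2 * p j) (n : ℕ) :
    Reach (n * (4 * |ρ| * (1 + ρ ^ 2) + 3 * |ρ|)) (node a (saT (gg j) (a j) ρ) p)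
      (node (Function.update a j (a j + n * ρ)) (saT (gg j) (a j + n * ρ) ρ) p) := by
  have hg := (gg_pos j).ne'
  induction n with
  | zero =>
    have e : Function.update a j (a j + ((0:ℕ):ℝ) * ρ) = a := by simp
    rw [e]
    have e1 : a j + ((0:ℕ):ℝ) * ρ = a j := by simp
    rw [e1]
    simpa using Reach.refl (node_mem_Z a _ hp)
  | succ n ih =>
    set a' := Function.update a j (a j + n * ρ) with ha'
    have haj : a' j = a j + n * ρ := by rw [ha', Function.update_self]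
    have hsw := reach_switch1 a' (saT (gg j) (a j + n * ρ) ρ) hp j h0 h1 (by
      rw [haj, saT]; field_simp)
    rw [haj] at hsw
    have e : Function.update a' j (a j + n * ρ + ρ) =
        Function.update a j (a j + ((n + 1 : ℕ) : ℝ) * ρ) := by
      rw [ha', Function.update_idem]
      congr 1
      push_cast
      ring
    rw [e] at hsw
    have hT := reach_T (Function.update a j (a j + ((n + 1 : ℕ) : ℝ) * ρ))
      (saT (gg j) (a j + n * ρ) ρ) (saT (gg j) (a j + ((n + 1 : ℕ) : ℝ) * ρ) ρ) hp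
    have hle : |saT (gg j) (a j + ((n + 1 : ℕ) : ℝ) * ρ) ρ - saT (gg j) (a j + n * ρ) ρ| ≤ 3 * |ρ| := by
      have e2 : saT (gg j) (a j + ((n + 1 : ℕ) : ℝ) * ρ) ρ - saT (gg j) (a j + n * ρ) ρ =
          (- (3 * ρ)) / gg j := by
        unfold saT
        push_cast
        field_simp
        ring
      rw [e2]
      apply sa_abs_div (sa_gg_one j)
      rw [abs_neg, abs_mul, abs_of_pos (by norm_num : (0:ℝ) < 3)]
    have := (ih.trans hsw).trans (hT.mono hle)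
    refine this.mono (le_of_eq ?_)
    push_cast
    ring

theorem sa_hop (a : Fin 4 → ℝ) {p : Fin 4 → ℝ} (hp : pe p) (j : Fin 4) {ρ : ℝ} (h0 : ρ ≠ 0)
    (h1 : ρ ^ 2 = 2 * p j) (n : ℕ) :
    ∃ L, L ≤ 30 * (|a j| + (n + 1) * |ρ|) * (1 + ρ ^ 2) ∧
      Reach L (node a 0 p) (node (Function.update a j (a j + n * ρ)) 0 p) := by
  have hb : ∀ x B : ℝ, |x| ≤ B → |saT (gg j) x ρ| ≤ 3 / 2 * |ρ| + 3 * B := by
    intro x B hx
    unfold saT
    apply sa_abs_div (sa_gg_one j)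
    rw [abs_neg]
    refine (abs_add_le _ _).trans ?_
    rw [abs_mul, abs_mul, abs_of_pos (by norm_num : (0:ℝ) < 3 / 2),
      abs_of_pos (by norm_num : (0:ℝ) < 3)]
    linarith
  have hr1 := reach_T a 0 (saT (gg j) (a j) ρ) hp
  have hr2 := sa_iter a hp j h0 h1 n
  have hr3 := reach_T (Function.update a j (a j + n * ρ)) (saT (gg j) (a j + n * ρ) ρ) 0 hp
  refine ⟨_, ?_, (hr1.trans hr2).trans hr3⟩
  rw [sub_zero, zero_sub, abs_neg]
  have k1 := hb (a j) |a j| le_rfl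
  have k2 : |a j + n * ρ| ≤ |a j| + n * |ρ| := by
    refine (abs_add_le _ _).trans ?_
    rw [abs_mul, Nat.abs_cast]
  have k3 := hb _ _ k2
  have hn : (0:ℝ) ≤ n := Nat.cast_nonneg n
  have hρ : 0 ≤ |ρ| := abs_nonneg ρ
  have ha : 0 ≤ |a j| := abs_nonneg _
  have e : 30 * (|a j| + (n + 1) * |ρ|) * (1 + ρ ^ 2) - ((3 / 2 * |ρ| + 3 * |a j|) +
      n * (4 * |ρ| * (1 + ρ ^ 2) + 3 * |ρ|) + (3 / 2 * |ρ| + 3 * (|a j| + n * |ρ|))) =
      24 * |a j| + 27 * |ρ| + 20 * (n * |ρ|) + 30 * (|a j| * ρ ^ 2) + 30 * (|ρ| * ρ ^ 2) +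
        26 * (n * |ρ| * ρ ^ 2) := by ring
  have e2 : 0 ≤ 24 * |a j| + 27 * |ρ| + 20 * (n * |ρ|) + 30 * (|a j| * ρ ^ 2) +
      30 * (|ρ| * ρ ^ 2) + 26 * (n * |ρ| * ρ ^ 2) := by positivity
  linarith

theorem hop1 (a : Fin 4 → ℝ) {p : Fin 4 → ℝ} (hp : pe p) (j : Fin 4) (hj : 0 < p j) (n : ℤ) :
    ∃ L, L ≤ 30 * (|a j| + (|(n:ℝ)| + 1) * Real.sqrt (2 * p j)) * (1 + 2 * p j) ∧
      Reach L (node a 0 p) (node (Function.update a j (a j + n * Real.sqrt (2 * p j))) 0 p) := by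
  set η := Real.sqrt (2 * p j) with hη
  have hη0 : 0 < η := Real.sqrt_pos.2 (by linarith)
  have hη2 : η ^ 2 = 2 * p j := Real.sq_sqrt (by linarith)
  obtain ⟨m, rfl | rfl⟩ := Int.eq_nat_or_neg n
  · obtain ⟨L, hL, hR⟩ := sa_hop a hp j hη0.ne' hη2 m
    refine ⟨L, ?_, ?_⟩
    · rw [abs_of_pos hη0, hη2] at hL
      simpa using hL
    · simpa using hR
  · obtain ⟨L, hL, hR⟩ := sa_hop a hp j (neg_ne_zero.2 hη0.ne') (by rw [neg_sq]; exact hη2) m
    refine ⟨L, ?_, ?_⟩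
    · rw [abs_neg, abs_of_pos hη0, neg_sq, hη2] at hL
      simpa using hL
    · simpa using hR

theorem sa_pe_update {p : Fin 4 → ℝ} (hp : pe p) {i k : Fin 4} (hik : i ≠ k)
    (hep : ep k = - ep i) (hpp : p k = p i) (c : ℝ) :
    pe (Function.update (Function.update p i c) k c) := by
  unfold pe at hp ⊢
  have h1 : ∀ q : Fin 4 → ℝ, ∑ j, ep j * q j ^ 2 =
      ep k * q k ^ 2 + (ep i * q i ^ 2 + ∑ j ∈ (Finset.univ.erase k).erase i, ep j * q j ^ 2) := by
    intro q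
    rw [← Finset.add_sum_erase Finset.univ _ (Finset.mem_univ k),
      ← Finset.add_sum_erase (Finset.univ.erase k) _ (Finset.mem_erase.mpr ⟨hik, Finset.mem_univ i⟩)]
  rw [h1] at hp ⊢
  have h2 : ∑ j ∈ (Finset.univ.erase k).erase i,
      ep j * (Function.update (Function.update p i c) k c) j ^ 2 =
      ∑ j ∈ (Finset.univ.erase k).erase i, ep j * p j ^ 2 := by
    apply Finset.sum_congr rfl
    intro j hj
    rw [Finset.mem_erase, Finset.mem_erase] at hj
    rw [Function.update_of_ne hj.2.1, Function.update_of_ne hj.1]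
  rw [h2, Function.update_self, Function.update_of_ne hik, Function.update_self, hep]
  rw [hpp, hep] at hp
  linarith

theorem hop2 (a : Fin 4 → ℝ) {p : Fin 4 → ℝ} (hp : pe p) {i k : Fin 4} (hG : GoodPair i k)
    (hpp : p k = p i) {ρ : ℝ} (h0 : 0 < ρ) (h1 : ρ + p i / ρ = 3 * (a k - 101 * a i) / 100) :
    ∃ L, L ≤ 10 * (|a i| + |ρ| + |p i / ρ|) ∧
      Reach L (node a 0 p)
      (node (Function.update (Function.update a i (a i + ρ)) k (a k + ρ)) 0
      (Function.update (Function.update p i (ρ ^ 2 - p i)) k (ρ ^ 2 - p i))) := by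
  obtain ⟨hik, hei, hek, hgi, hgk⟩ := hG
  have hep : ep k = - ep i := by rw [hei, hek]
  set T : ℝ := - (ρ + p i / ρ + 3 * a i) with hT
  have hsw := reach_switch2 a T hp i k hik hep hpp h0.ne' (by rw [hgi, one_mul])
    (by rw [hgk, hT]; linarith)
  have hr1 := reach_T a 0 T hp
  have hr3 := reach_T (Function.update (Function.update a i (a i + ρ)) k (a k + ρ)) T 0
    (sa_pe_update hp hik hep hpp (ρ ^ 2 - p i))
  refine ⟨_, ?_, (hr1.trans hsw).trans hr3⟩
  rw [sub_zero, zero_sub, abs_neg T]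
  have hTle : |T| ≤ |ρ| + |p i / ρ| + 3 * |a i| := by
    rw [hT, abs_neg]
    refine (abs_add_le _ _).trans ?_
    have := abs_add_le ρ (p i / ρ)
    rw [abs_mul, abs_of_pos (by norm_num : (0:ℝ) < 3)]
    linarith
  have b1 := abs_nonneg ρ
  have b2 := abs_nonneg (p i / ρ)
  have b3 := abs_nonneg (a i)
  linarith

end

end SRSard
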