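import Pool.Agent.Lib.SRSard.SteerB

/-!
# Chunk SC (steer_pair, node_zero, reach_node): a pair `i, k` is steered to the singular point

`ep i = 1, gg i = 1`, `ep k = -1, gg k = 101` (`(i,k) = (0,1)` or `(2,3)`), `p i = p k = π > 0`.

* `hop1`: from `node a 0 p` to `node (a + n η e_j) 0 p`, `η = sqrt (2 π)`, `n : ℤ`
  (induction on `|n|`: at each step go to the tuned value of `T`, switch; consecutive tuned values
  of `T` differ by `3 η / gg j`); final cost `≤ C (|a j| + (|n| + 1) η) (1 + η^2)`.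
* `hop2`: from `node a 0 p`, if `c = 3 (a k - 101 a i) / 100` and `ρ + π / ρ = c` (`ρ > 0`), to
  `node (a + ρ e_i + ρ e_k) 0 p'`, `p' = ρ^2 - π`.
* `steer_step`: with `s = sqrt π`: first `hop1` brings `a i` into `[-η, η]`, then `hop1` brings `a k`
  into the interval `101 a i + (100/3) [2.01 s, 2.06 s]` (its length is `5/3 s > η`); then
  `ρ = (c + sqrt (c^2 - 4 s^2))/2` satisfies `1.1 s ≤ ρ ≤ 1.28 s`, so
  `0.2 s^2 ≤ ρ^2 - s^2 ≤ 0.64 s^2`.
* `steer_pair`: iterate (`s_{n+1} ≤ 0.8 s_n`), costs are summable, `Reach.infinite`.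
-/

namespace SRSard

open MeasureTheory Set Filter Topology
open scoped ContDiff

noncomputable section

theorem SC_pe_update {p : Fin 4 → ℝ} (hp : pe p) {i k : Fin 4} (hG : GoodPair i k)
    (hpp : p k = p i) (c : ℝ) :
    pe (Function.update (Function.update p i c) k c) := by
  obtain ⟨hik, hi, hk, -, -⟩ := hG
  unfold pe at hp ⊢
  have h1 : ∀ q : Fin 4 → ℝ, ∑ j, ep j * q j ^ 2 =
      ep k * q k ^ 2 + (ep i * q i ^ 2 + ∑ j ∈ (Finset.univ.erase k).erase i, ep j * q j ^ 2) := by
    intro q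
    rw [← Finset.add_sum_erase Finset.univ _ (Finset.mem_univ k),
      ← Finset.add_sum_erase (Finset.univ.erase k) _ (Finset.mem_erase.mpr ⟨hik, Finset.mem_univ i⟩)]
  rw [h1] at hp ⊢
  have h2 : ∑ j ∈ (Finset.univ.erase k).erase i,
      ep j * (Function.update (Function.update p i c) k c) j ^ 2 =
      ∑ j ∈ (Finset.univ.erase k).erase i, ep j * p j ^ 2 := by
    apply Finset.sum_congr rfl
    intro j hj
    rw [Finset.mem_erase, Finset.mem_erase] at hj
    rw [Function.update_of_ne hj.2.1, Function.update_of_ne hj.1]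
  rw [h2]
  rw [Function.update_self, Function.update_of_ne hik, Function.update_self]
  rw [hpp, hi, hk] at hp
  rw [hi, hk]
  linarith

theorem SC_continuous_node :
    Continuous (fun r : (Fin 4 → ℝ) × (Fin 4 → ℝ) => node r.1 0 r.2) := by
  have h1 : ∀ i, Continuous fun r : (Fin 4 → ℝ) × (Fin 4 → ℝ) => r.1 i := fun i => by fun_prop
  have h2 : ∀ i, Continuous fun r : (Fin 4 → ℝ) × (Fin 4 → ℝ) => r.2 i := fun i => by fun_prop
  have h : ∀ k : Idx, Continuous (fun r : (Fin 4 → ℝ) × (Fin 4 → ℝ) => (node r.1 0 r.2 k : ℝ)) := by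
    intro k
    cases k <;> simp only [node, ndM1, ndM2, ndM3] <;> fun_prop
  exact continuous_pi h

/-- the node points of the iteration -/
def SC_nd (a p : Fin 4 → ℝ) (i k : Fin 4) (q : ℝ × ℝ × ℝ) : SG :=
  node (Function.update (Function.update a i q.1) k q.2.1) 0
    (Function.update (Function.update p i (q.2.2 ^ 2)) k (q.2.2 ^ 2))

theorem SC_nd_cont (a p : Fin 4 → ℝ) (i k : Fin 4) : Continuous (SC_nd a p i k) := by
  unfold SC_nd
  have hu : ∀ (b : Fin 4 → ℝ) (f g : ℝ × ℝ × ℝ → ℝ), Continuous f → Continuous g →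
      Continuous (fun q => Function.update (Function.update b i (f q)) k (g q)) := by
    intro b f g hf hg
    exact Continuous.update (f := fun q => Function.update b i (f q))
      (Continuous.update (f := fun _ => b) continuous_const i hf) k hg
  have h : Continuous fun q : ℝ × ℝ × ℝ =>
      ((Function.update (Function.update a i q.1) k q.2.1,
        Function.update (Function.update p i (q.2.2 ^ 2)) k (q.2.2 ^ 2)) :
          (Fin 4 → ℝ) × (Fin 4 → ℝ)) :=
    (hu a _ _ continuous_fst (continuous_fst.comp continuous_snd)).prodMk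
      (hu p (fun q => q.2.2 ^ 2) (fun q => q.2.2 ^ 2) (by fun_prop) (by fun_prop))
  exact SC_continuous_node.comp h

theorem SC_update (a : Fin 4 → ℝ) {i k : Fin 4} (hik : i ≠ k) (x y x' y' : ℝ) :
    Function.update (Function.update (Function.update (Function.update a i x) k y) i x') k y' =
      Function.update (Function.update a i x') k y' := by
  funext j
  by_cases h1 : j = k
  · subst h1; simp
  · by_cases h2 : j = i
    · subst h2; simp [h1]
    · simp [h1, h2]

theorem SC_iter (a : Fin 4 → ℝ) {p : Fin 4 → ℝ} (hp : pe p) {i k : Fin 4}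
    (hG : GoodPair i k) (hpp : p k = p i) {s : ℝ} (hs : 0 < s) (x y : ℝ) :
    ∃ L, Reach L (SC_nd a p i k (x, y, s)) (SC_nd a p i k (0, 0, 0)) := by
  have hik := hG.1
  have step : ∀ q : {q : ℝ × ℝ × ℝ // 0 < q.2.2}, ∃ (q' : {q : ℝ × ℝ × ℝ // 0 < q.2.2}) (L : ℝ),
      L ≤ 100000 * (|q.1.1| + |q.1.2.1| + q.1.2.2) * (1 + q.1.2.2 ^ 2) ∧
      q'.1.2.2 ≤ 4 / 5 * q.1.2.2 ∧ |q'.1.1| ≤ 300 * q.1.2.2 ∧ |q'.1.2.1| ≤ 300 * q.1.2.2 ∧
      Reach L (SC_nd a p i k q.1) (SC_nd a p i k q'.1) := by
    rintro ⟨⟨x, y, s⟩, hs⟩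
    simp only at hs
    have hp' := SC_pe_update hp hG hpp (s ^ 2)
    obtain ⟨L, ai, ak, s', h1, h2, h3, h4, h5, h6⟩ := steer_step
      (Function.update (Function.update a i x) k y) hp' hG
      (by rw [Function.update_self, Function.update_of_ne hik, Function.update_self]) hs
      (by rw [Function.update_of_ne hik, Function.update_self])
    rw [Function.update_of_ne hik, Function.update_self, Function.update_self] at h1
    rw [SC_update _ hik, SC_update _ hik] at h6
    exact ⟨⟨(ai, ak, s'), h2⟩, L, h1, h3, h4, h5, h6⟩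
  choose next len hlen hS hA hK hR using step
  let Q : ℕ → {q : ℝ × ℝ × ℝ // 0 < q.2.2} := fun n => next^[n] ⟨(x, y, s), hs⟩
  have hQ0 : Q 0 = ⟨(x, y, s), hs⟩ := rfl
  have hQs : ∀ n, Q (n + 1) = next (Q n) := fun n => Function.iterate_succ_apply' _ _ _
  have hSn : ∀ n, (Q n).1.2.2 ≤ (4 / 5) ^ n * s := by
    intro n
    induction n with
    | zero => simp [hQ0]
    | succ n ih =>
      rw [hQs]
      calc _ ≤ 4 / 5 * (Q n).1.2.2 := hS _
        _ ≤ 4 / 5 * ((4 / 5) ^ n * s) := by linarith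
        _ = (4 / 5) ^ (n + 1) * s := by ring
  have hpos : ∀ n, 0 < (Q n).1.2.2 := fun n => (Q n).2
  have hAn : ∀ n, |(Q (n + 1)).1.1| ≤ 300 * ((4 / 5) ^ n * s) := by
    intro n
    rw [hQs]
    exact (hA _).trans (by linarith [hSn n])
  have hKn : ∀ n, |(Q (n + 1)).1.2.1| ≤ 300 * ((4 / 5) ^ n * s) := by
    intro n
    rw [hQs]
    exact (hK _).trans (by linarith [hSn n])
  have hgeo : Tendsto (fun n : ℕ => (4 / 5 : ℝ) ^ n) atTop (𝓝 0) :=
    tendsto_pow_atTop_nhds_zero_of_lt_one (by norm_num) (by norm_num)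
  have hS0 : Tendsto (fun n => (Q n).1.2.2) atTop (𝓝 0) := by
    have h1 : Tendsto (fun n : ℕ => (4 / 5 : ℝ) ^ n * s) atTop (𝓝 0) := by
      simpa using hgeo.mul_const s
    exact squeeze_zero (fun n => (hpos n).le) hSn h1
  have h300 : Tendsto (fun n : ℕ => 300 * ((4 / 5 : ℝ) ^ n * s)) atTop (𝓝 0) := by
    simpa using (hgeo.mul_const s).const_mul 300
  have hA0 : Tendsto (fun n => (Q n).1.1) atTop (𝓝 0) := by
    rw [← tendsto_add_atTop_iff_nat 1]
    exact squeeze_zero_norm (fun n => by rw [Real.norm_eq_abs]; exact hAn n) h300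
  have hK0 : Tendsto (fun n => (Q n).1.2.1) atTop (𝓝 0) := by
    rw [← tendsto_add_atTop_iff_nat 1]
    exact squeeze_zero_norm (fun n => by rw [Real.norm_eq_abs]; exact hKn n) h300
  have hQt : Tendsto (fun n => (Q n).1) atTop (𝓝 (0, 0, 0)) :=
    hA0.prodMk_nhds (hK0.prodMk_nhds hS0)
  have hnd : Tendsto (fun n => SC_nd a p i k (Q n).1) atTop (𝓝 (SC_nd a p i k (0, 0, 0))) :=
    ((SC_nd_cont a p i k).tendsto _).comp hQt
  have hsum : Summable (fun n => len (Q n)) := by
    rw [← summable_nat_add_iff 1]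
    have hs1 : ∀ n, (Q n).1.2.2 ≤ s := by
      intro n
      refine (hSn n).trans ?_
      have : ((4:ℝ) / 5) ^ n ≤ 1 := pow_le_one₀ (by norm_num) (by norm_num)
      nlinarith
    refine Summable.of_nonneg_of_le (fun n => (hR (Q (n + 1))).1) (fun n => ?_)
      ((summable_geometric_of_lt_one (r := (4 / 5 : ℝ)) (by norm_num) (by norm_num)).mul_left
        (100000 * (601 * s) * (1 + s ^ 2)))
    refine (hlen (Q (n + 1))).trans ?_
    have e1 := hAn n
    have e2 := hKn n
    have e3 : (Q (n + 1)).1.2.2 ≤ (4 / 5) ^ n * s := by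
      refine (hSn (n + 1)).trans ?_
      have : ((4:ℝ) / 5) ^ (n + 1) ≤ (4 / 5) ^ n := pow_le_pow_of_le_one (by norm_num) (by norm_num)
        (Nat.le_succ n)
      nlinarith
    have e4 : (Q (n + 1)).1.2.2 ^ 2 ≤ s ^ 2 := by
      have := hs1 (n + 1)
      have := (hpos (n + 1)).le
      gcongr
    have e5 : 0 < (4 / 5 : ℝ) ^ n := by positivity
    have e6 : |(Q (n + 1)).1.1| + |(Q (n + 1)).1.2.1| + (Q (n + 1)).1.2.2 ≤ 601 * ((4 / 5) ^ n * s) := by
      linarith
    calc 100000 * (|(Q (n + 1)).1.1| + |(Q (n + 1)).1.2.1| + (Q (n + 1)).1.2.2) *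
          (1 + (Q (n + 1)).1.2.2 ^ 2)
        ≤ 100000 * (601 * ((4 / 5) ^ n * s)) * (1 + s ^ 2) := by
          gcongr
      _ = 100000 * (601 * s) * (1 + s ^ 2) * (4 / 5) ^ n := by ring
  have := Reach.infinite (g := fun n => SC_nd a p i k (Q n).1) (ℓ := fun n => len (Q n))
    (g' := SC_nd a p i k (0, 0, 0)) (fun n => by
      have h := hR (Q n)
      rw [← hQs] at h
      exact h) hsum hnd
  exact ⟨_, this⟩

theorem steer_pair (a : Fin 4 → ℝ) (T : ℝ) {p : Fin 4 → ℝ} (hp : pe p) {i k : Fin 4}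
    (hG : GoodPair i k) (hpp : p k = p i) (hpos : 0 < p i) :
    ∃ L, Reach L (node a T p)
      (node (Function.update (Function.update a i 0) k 0) 0
      (Function.update (Function.update p i 0) k 0)) := by
  have hs : 0 < Real.sqrt (p i) := Real.sqrt_pos.mpr hpos
  obtain ⟨L, hL⟩ := SC_iter a hp hG hpp hs (a i) (a k)
  have h1 : SC_nd a p i k (a i, a k, Real.sqrt (p i)) = node a 0 p := by
    unfold SC_nd
    simp only
    rw [Real.sq_sqrt hpos.le]
    congr 1
    · simp
    · rw [Function.update_eq_self, ← hpp, Function.update_eq_self]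
  have h2 : SC_nd a p i k (0, 0, 0) = node (Function.update (Function.update a i 0) k 0) 0
      (Function.update (Function.update p i 0) k 0) := by
    unfold SC_nd
    simp
  rw [h1, h2] at hL
  exact ⟨_, (reach_T a T 0 hp).trans hL⟩

theorem node_zero : node 0 0 0 = 1 := by
  ext k
  cases k <;> simp [node, ndM1, ndM2, ndM3, one_apply]

/-- every node point with positive parameters is reached from the identity inside `Z` -/
theorem reach_node (a : Fin 4 → ℝ) (T : ℝ) {pA pB : ℝ} (hA : 0 < pA) (hB : 0 < pB) :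
    ∃ L, Reach L 1 (node a T (prs pA pB)) := by
  have hp : pe (prs pA pB) := by
    unfold pe prs ep
    simp [Fin.sum_univ_four]
  obtain ⟨L₁, h1⟩ := steer_pair a T hp goodPair01 (by simp [prs]) (by simpa [prs] using hA)
  have hp2 := SC_pe_update hp goodPair01 (by simp [prs]) 0
  obtain ⟨L₂, h2⟩ := steer_pair (Function.update (Function.update a 0 0) 1 0) 0 hp2 goodPair23
    (by simp [prs, Function.update]) (by simpa [prs, Function.update] using hB)
  have e1 : Function.update (Function.update (Function.update (Function.update a 0 0) 1 0) 2 0) 3 0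
      = (0 : Fin 4 → ℝ) := by
    funext j
    fin_cases j <;> simp [Function.update]
  have e2 : Function.update (Function.update
      (Function.update (Function.update (prs pA pB) 0 0) 1 0) 2 0) 3 0 = (0 : Fin 4 → ℝ) := by
    funext j
    fin_cases j <;> simp [Function.update]
  rw [e1, e2, node_zero] at h2
  exact ⟨_, (h1.trans h2).symm⟩

end

end SRSard
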