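import Pool.Agent.Lib.SRSard.TrajA

/-!
# Chunk TB
* `gam_add`: semigroup property: additivity of integrals, then `ring` coordinate by coordinate
  (`gx`, then the moments `gm`, then `z`); every integrand is bounded measurable on bounded
  intervals.
* `gam_rev`: consequence of `gam_add` and `gam_scale` with `c = -1`.
* `gam_continuous`.
-/

namespace SRSard

open MeasureTheory Set Filter Topology
open scoped ContDiff

noncomputable section

theorem tb_meas {w : ℝ → SG} (hw : Ctrl w) (k : Idx) : Measurable (fun s => w s k) :=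
  (measurable_pi_apply k).comp hw.meas

theorem tb_bound {w : ℝ → SG} (hw : Ctrl w) (k : Idx) (s : ℝ) : ‖w s k‖ ≤ 1 := by
  have h1 : ‖w s k‖ ≤ ‖w s‖ := norm_le_pi_norm (f := (w s : Idx → ℝ)) k
  exact h1.trans (hw.bound s)

/-- bounded measurable times continuous is interval integrable -/
theorem tb_int {w : ℝ → SG} (hw : Ctrl w) (k : Idx) {f : ℝ → ℝ} (hf : Continuous f) (a b : ℝ) :
    IntervalIntegrable (fun s => w s k * f s) volume a b := by
  have h1 : IntervalIntegrable f volume a b := hf.intervalIntegrable a b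
  rw [intervalIntegrable_iff] at h1 ⊢
  exact h1.bdd_mul (c := 1) (tb_meas hw k).aestronglyMeasurable
    (Filter.Eventually.of_forall fun s => tb_bound hw k s)

theorem tb_int1 {w : ℝ → SG} (hw : Ctrl w) (k : Idx) (a b : ℝ) :
    IntervalIntegrable (fun s => w s k) volume a b := by
  have h := tb_int hw k (f := fun _ => (1:ℝ)) continuous_const a b
  simpa using h

theorem tb_gx_cont {w : ℝ → SG} (hw : Ctrl w) (k : Idx) : Continuous (gx w k) :=
  intervalIntegral.continuous_primitive (fun a b => tb_int1 hw k a b) 0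

theorem tb_pow_cont {w : ℝ → SG} (hw : Ctrl w) (k : Idx) (n : ℕ) :
    Continuous (fun r => gx w k r ^ n) := (tb_gx_cont hw k).pow n

theorem tb_prim_cont {w : ℝ → SG} (hw : Ctrl w) (k : Idx) {f : ℝ → ℝ} (hf : Continuous f) :
    Continuous (fun t => ∫ s in (0:ℝ)..t, w s k * f s) :=
  intervalIntegral.continuous_primitive (fun a b => tb_int hw k hf a b) 0

theorem tb_gm_cont {w : ℝ → SG} (hw : Ctrl w) (n : ℕ) (k : Idx) : Continuous (gm w n k) :=
  tb_prim_cont hw .t (tb_pow_cont hw k n)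

theorem tb_gPhi_cont {w : ℝ → SG} (hw : Ctrl w) : Continuous (gPhi w) := by
  unfold gPhi
  refine ((tb_gx_cont hw .u).mul (tb_gx_cont hw .v)).add (continuous_finsetSum _ fun i _ => ?_)
  have h1 := tb_gx_cont hw (.x i)
  have h2 := tb_gx_cont hw .t
  have h3 := tb_gm_cont hw 1 (.x i)
  have h4 := tb_gm_cont hw 2 (.x i)
  have h5 := tb_gm_cont hw 3 (.x i)
  fun_prop

theorem tb_shift {w : ℝ → SG} (hw : Ctrl w) (s : ℝ) : Ctrl (fun r => w (s + r)) :=
  ⟨hw.meas.comp (measurable_const_add s), fun t => hw.bound (s + t)⟩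

/-- splitting of an integral with shift of the second part -/
theorem tb_split {F : ℝ → ℝ} (hF : ∀ a b, IntervalIntegrable F volume a b) (s t : ℝ) :
    ∫ r in (0:ℝ)..(s + t), F r = (∫ r in (0:ℝ)..s, F r) + ∫ r in (0:ℝ)..t, F (s + r) := by
  rw [← intervalIntegral.integral_add_adjacent_intervals (hF 0 s) (hF s (s + t)),
    intervalIntegral.integral_comp_add_left (fun x => F x) s, add_zero]

theorem tb_gx_add {w : ℝ → SG} (hw : Ctrl w) (k : Idx) (s t : ℝ) :
    gx w k (s + t) = gx w k s + gx (fun r => w (s + r)) k t :=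
  tb_split (fun a b => tb_int1 hw k a b) s t

/-- cubic polynomials in a position, integrated against `w t` -/
theorem tb_cubic {w : ℝ → SG} (hw : Ctrl w) (k : Idx) (t c0 c1 c2 c3 : ℝ) :
    ∫ r in (0:ℝ)..t, w r .t * (c0 + c1 * gx w k r + c2 * gx w k r ^ 2 + c3 * gx w k r ^ 3)
      = c0 * gx w .t t + c1 * gm w 1 k t + c2 * gm w 2 k t + c3 * gm w 3 k t := by
  have i0 := (tb_int1 hw .t 0 t).const_mul c0
  have i1 := (tb_int hw .t (tb_pow_cont hw k 1) 0 t).const_mul c1
  have i2 := (tb_int hw .t (tb_pow_cont hw k 2) 0 t).const_mul c2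
  have i3 := (tb_int hw .t (tb_pow_cont hw k 3) 0 t).const_mul c3
  have e : (fun r => w r .t * (c0 + c1 * gx w k r + c2 * gx w k r ^ 2 + c3 * gx w k r ^ 3))
      = fun r => c0 * w r .t + c1 * (w r .t * gx w k r ^ 1) + c2 * (w r .t * gx w k r ^ 2)
        + c3 * (w r .t * gx w k r ^ 3) := by
    funext r; ring
  rw [e, intervalIntegral.integral_add ((i0.add i1).add i2) i3,
    intervalIntegral.integral_add (i0.add i1) i2, intervalIntegral.integral_add i0 i1,
    intervalIntegral.integral_const_mul, intervalIntegral.integral_const_mul,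
    intervalIntegral.integral_const_mul, intervalIntegral.integral_const_mul]
  rfl

theorem tb_gm1_add {w : ℝ → SG} (hw : Ctrl w) (k : Idx) (s t : ℝ) :
    gm w 1 k (s + t) = gm w 1 k s + (gm (fun r => w (s + r)) 1 k t
      + gx w k s * gx (fun r => w (s + r)) .t t) := by
  have hW := tb_shift hw s
  have h1 := tb_split (fun a b => tb_int hw .t (tb_pow_cont hw k 1) a b) s t
  have h2 := tb_cubic hW k t (gx w k s) 1 0 0
  have e : (fun r => w (s + r) .t * gx w k (s + r) ^ 1)
      = fun r => (fun r => w (s + r)) r .t * (gx w k s + 1 * gx (fun r => w (s + r)) k r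
        + 0 * gx (fun r => w (s + r)) k r ^ 2 + 0 * gx (fun r => w (s + r)) k r ^ 3) := by
    funext r; rw [tb_gx_add hw k s r]; ring
  change ∫ r in (0:ℝ)..(s + t), w r .t * gx w k r ^ 1 = _
  rw [h1, e, h2]
  change gm w 1 k s + _ = _
  ring

theorem tb_gm2_add {w : ℝ → SG} (hw : Ctrl w) (k : Idx) (s t : ℝ) :
    gm w 2 k (s + t) = gm w 2 k s + (gm (fun r => w (s + r)) 2 k t
      + 2 * gx w k s * gm (fun r => w (s + r)) 1 k t
      + gx w k s ^ 2 * gx (fun r => w (s + r)) .t t) := by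
  have hW := tb_shift hw s
  have h1 := tb_split (fun a b => tb_int hw .t (tb_pow_cont hw k 2) a b) s t
  have h2 := tb_cubic hW k t (gx w k s ^ 2) (2 * gx w k s) 1 0
  have e : (fun r => w (s + r) .t * gx w k (s + r) ^ 2)
      = fun r => (fun r => w (s + r)) r .t * (gx w k s ^ 2
        + 2 * gx w k s * gx (fun r => w (s + r)) k r
        + 1 * gx (fun r => w (s + r)) k r ^ 2 + 0 * gx (fun r => w (s + r)) k r ^ 3) := by
    funext r; rw [tb_gx_add hw k s r]; ring
  change ∫ r in (0:ℝ)..(s + t), w r .t * gx w k r ^ 2 = _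
  rw [h1, e, h2]
  change gm w 2 k s + _ = _
  ring

theorem tb_gm3_add {w : ℝ → SG} (hw : Ctrl w) (k : Idx) (s t : ℝ) :
    gm w 3 k (s + t) = gm w 3 k s + (gm (fun r => w (s + r)) 3 k t
      + 3 * gx w k s * gm (fun r => w (s + r)) 2 k t
      + 3 * gx w k s ^ 2 * gm (fun r => w (s + r)) 1 k t
      + gx w k s ^ 3 * gx (fun r => w (s + r)) .t t) := by
  have hW := tb_shift hw s
  have h1 := tb_split (fun a b => tb_int hw .t (tb_pow_cont hw k 3) a b) s t
  have h2 := tb_cubic hW k t (gx w k s ^ 3) (3 * gx w k s ^ 2) (3 * gx w k s) 1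
  have e : (fun r => w (s + r) .t * gx w k (s + r) ^ 3)
      = fun r => (fun r => w (s + r)) r .t * (gx w k s ^ 3
        + 3 * gx w k s ^ 2 * gx (fun r => w (s + r)) k r
        + 3 * gx w k s * gx (fun r => w (s + r)) k r ^ 2
        + 1 * gx (fun r => w (s + r)) k r ^ 3) := by
    funext r; rw [tb_gx_add hw k s r]; ring
  change ∫ r in (0:ℝ)..(s + t), w r .t * gx w k r ^ 3 = _
  rw [h1, e, h2]
  change gm w 3 k s + _ = _
  ring

/-- the cubic polynomial which appears in the `z` coordinate -/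
def tbH (w : ℝ → SG) (s : ℝ) (i : Fin 4) (x : ℝ) : ℝ :=
  (ep i / 4 * gx w (.x i) s ^ 4 + ep i * gg i / 6 * (gx w (.x i) s ^ 3 * gx w .t s
      - 3 * gx w (.x i) s ^ 2 * gm w 1 (.x i) s + 3 * gx w (.x i) s * gm w 2 (.x i) s
      - gm w 3 (.x i) s))
  + (ep i * gx w (.x i) s ^ 3 + ep i * gg i / 6 * (3 * gx w (.x i) s ^ 2 * gx w .t s
      - 6 * gx w (.x i) s * gm w 1 (.x i) s + 3 * gm w 2 (.x i) s)) * x
  + (3 / 2 * ep i * gx w (.x i) s ^ 2 + ep i * gg i / 6 * (3 * gx w (.x i) s * gx w .t s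
      - 3 * gm w 1 (.x i) s)) * x ^ 2
  + (ep i * gx w (.x i) s + ep i * gg i / 6 * gx w .t s) * x ^ 3

theorem tb_gPhi_add {w : ℝ → SG} (hw : Ctrl w) (s r : ℝ) :
    gPhi w (s + r) = (gPhi (fun r => w (s + r)) r + (gx w .u s * gx w .v s
      + (gx w .u s * gx (fun r => w (s + r)) .v r + gx w .v s * gx (fun r => w (s + r)) .u r)))
      + ∑ i, tbH w s i (gx (fun r => w (s + r)) (.x i) r) := by
  unfold gPhi
  have e : ∀ i, ep i / 4 * gx w (.x i) (s + r) ^ 4 + ep i * gg i / 6 *
      (gx w (.x i) (s + r) ^ 3 * gx w .t (s + r)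
        - 3 * gx w (.x i) (s + r) ^ 2 * gm w 1 (.x i) (s + r)
        + 3 * gx w (.x i) (s + r) * gm w 2 (.x i) (s + r) - gm w 3 (.x i) (s + r))
      = (ep i / 4 * gx (fun r => w (s + r)) (.x i) r ^ 4 + ep i * gg i / 6 *
      (gx (fun r => w (s + r)) (.x i) r ^ 3 * gx (fun r => w (s + r)) .t r
        - 3 * gx (fun r => w (s + r)) (.x i) r ^ 2 * gm (fun r => w (s + r)) 1 (.x i) r
        + 3 * gx (fun r => w (s + r)) (.x i) r * gm (fun r => w (s + r)) 2 (.x i) r
        - gm (fun r => w (s + r)) 3 (.x i) r))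
        + tbH w s i (gx (fun r => w (s + r)) (.x i) r) := by
    intro i
    rw [tb_gx_add hw, tb_gx_add hw, tb_gm1_add hw, tb_gm2_add hw, tb_gm3_add hw, tbH]
    ring
  rw [Finset.sum_congr rfl fun i _ => e i, Finset.sum_add_distrib, tb_gx_add hw, tb_gx_add hw]
  ring

theorem tb_int_add {w : ℝ → SG} (hw : Ctrl w) {f g : ℝ → ℝ} (hf : Continuous f)
    (hg : Continuous g) (t : ℝ) :
    ∫ r in (0:ℝ)..t, w r .t * (f r + g r)
      = (∫ r in (0:ℝ)..t, w r .t * f r) + ∫ r in (0:ℝ)..t, w r .t * g r := by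
  rw [← intervalIntegral.integral_add (tb_int hw .t hf 0 t) (tb_int hw .t hg 0 t)]
  congr 1
  funext r
  ring

theorem tb_int_sum {w : ℝ → SG} (hw : Ctrl w) {f : Fin 4 → ℝ → ℝ} (hf : ∀ i, Continuous (f i))
    (t : ℝ) :
    ∫ r in (0:ℝ)..t, w r .t * (∑ i, f i r) = ∑ i, ∫ r in (0:ℝ)..t, w r .t * f i r := by
  rw [← intervalIntegral.integral_finsetSum (fun i _ => tb_int hw .t (hf i) 0 t)]
  congr 1
  funext r
  rw [Finset.mul_sum]

theorem tb_gz_add {w : ℝ → SG} (hw : Ctrl w) (s t : ℝ) :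
    gam w (s + t) .z = (gam w s * gam (fun r => w (s + r)) t) .z := by
  have hW := tb_shift hw s
  have h1 := tb_split (fun a b => tb_int hw .t (tb_gPhi_cont hw) a b) s t
  change ∫ r in (0:ℝ)..(s + t), w r .t * gPhi w r = _
  rw [h1]
  have e : (fun r => w (s + r) .t * gPhi w (s + r))
      = fun r => (fun r => w (s + r)) r .t * ((gPhi (fun r => w (s + r)) r
        + (gx w .u s * gx w .v s
      + (gx w .u s * gx (fun r => w (s + r)) .v r + gx w .v s * gx (fun r => w (s + r)) .u r)))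
      + ∑ i, tbH w s i (gx (fun r => w (s + r)) (.x i) r)) := by
    funext r; rw [tb_gPhi_add hw]
  have cu := tb_gx_cont hW .u
  have cv := tb_gx_cont hW .v
  have cx : ∀ i, Continuous (fun r => tbH w s i (gx (fun r => w (s + r)) (.x i) r)) := by
    intro i
    have := tb_gx_cont hW (.x i)
    unfold tbH
    fun_prop
  rw [e, tb_int_add hW (f := fun r => gPhi (fun r => w (s + r)) r
        + (gx w .u s * gx w .v s
      + (gx w .u s * gx (fun r => w (s + r)) .v r + gx w .v s * gx (fun r => w (s + r)) .u r)))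
      (g := fun r => ∑ i, tbH w s i (gx (fun r => w (s + r)) (.x i) r))
      ((tb_gPhi_cont hW).add (by fun_prop)) (continuous_finsetSum _ fun i _ => cx i),
    tb_int_add hW (f := gPhi (fun r => w (s + r)))
      (g := fun r => gx w .u s * gx w .v s
      + (gx w .u s * gx (fun r => w (s + r)) .v r + gx w .v s * gx (fun r => w (s + r)) .u r))
      (tb_gPhi_cont hW) (by fun_prop),
    tb_int_sum hW cx]
  have e2 : ∀ i, (∫ r in (0:ℝ)..t, (fun r => w (s + r)) r .t *
      tbH w s i (gx (fun r => w (s + r)) (.x i) r)) = 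
      (ep i / 4 * gx w (.x i) s ^ 4 + ep i * gg i / 6 * (gx w (.x i) s ^ 3 * gx w .t s
      - 3 * gx w (.x i) s ^ 2 * gm w 1 (.x i) s + 3 * gx w (.x i) s * gm w 2 (.x i) s
      - gm w 3 (.x i) s)) * gx (fun r => w (s + r)) .t t
  + (ep i * gx w (.x i) s ^ 3 + ep i * gg i / 6 * (3 * gx w (.x i) s ^ 2 * gx w .t s
      - 6 * gx w (.x i) s * gm w 1 (.x i) s + 3 * gm w 2 (.x i) s))
        * gm (fun r => w (s + r)) 1 (.x i) t
  + (3 / 2 * ep i * gx w (.x i) s ^ 2 + ep i * gg i / 6 * (3 * gx w (.x i) s * gx w .t s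
      - 3 * gm w 1 (.x i) s)) * gm (fun r => w (s + r)) 2 (.x i) t
  + (ep i * gx w (.x i) s + ep i * gg i / 6 * gx w .t s)
        * gm (fun r => w (s + r)) 3 (.x i) t := by
    intro i
    rw [← tb_cubic hW (.x i) t]
    rfl
  rw [Finset.sum_congr rfl fun i _ => e2 i]
  have e3 : (∫ r in (0:ℝ)..t, (fun r => w (s + r)) r .t * (gx w .u s * gx w .v s
      + (gx w .u s * gx (fun r => w (s + r)) .v r + gx w .v s * gx (fun r => w (s + r)) .u r)))
      = gx w .u s * gx w .v s * gx (fun r => w (s + r)) .t t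
        + (gx w .u s * gm (fun r => w (s + r)) 1 .v t
          + gx w .v s * gm (fun r => w (s + r)) 1 .u t) := by
    rw [tb_int_add hW (f := fun _ => gx w .u s * gx w .v s)
      (g := fun r => gx w .u s * gx (fun r => w (s + r)) .v r
        + gx w .v s * gx (fun r => w (s + r)) .u r) continuous_const (by fun_prop),
      tb_int_add hW (f := fun r => gx w .u s * gx (fun r => w (s + r)) .v r)
      (g := fun r => gx w .v s * gx (fun r => w (s + r)) .u r) (by fun_prop) (by fun_prop)]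
    have a1 : (∫ r in (0:ℝ)..t, (fun r => w (s + r)) r .t * (gx w .u s * gx w .v s))
        = gx w .u s * gx w .v s * gx (fun r => w (s + r)) .t t := by
      rw [intervalIntegral.integral_mul_const, mul_comm]
      rfl
    have a2 : ∀ (c : ℝ) (k : Idx), (∫ r in (0:ℝ)..t, (fun r => w (s + r)) r .t
        * (c * gx (fun r => w (s + r)) k r)) = c * gm (fun r => w (s + r)) 1 k t := by
      intro c k
      have := tb_cubic hW k t 0 c 0 0
      simp only [zero_mul, add_zero, zero_add] at this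
      exact this
    rw [a1, a2, a2]
  rw [e3, mul_apply]
  simp only [mulFun, gam, Fin.sum_univ_four]
  ring

theorem gam_add {w : ℝ → SG} (hw : Ctrl w) (s t : ℝ) :
    gam w (s + t) = gam w s * gam (fun r => w (s + r)) t := by
  ext k
  cases k with
  | x i => exact tb_gx_add hw _ s t
  | u => exact tb_gx_add hw _ s t
  | v => exact tb_gx_add hw _ s t
  | t => exact tb_gx_add hw _ s t
  | m1 i => exact tb_gm1_add hw _ s t
  | m2 i => exact tb_gm2_add hw _ s t
  | m3 i => exact tb_gm3_add hw _ s t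
  | mu =>
    have := tb_gm1_add hw .u s t
    rw [mul_apply]
    simp only [mulFun, gam]
    rw [this]
    ring
  | mv =>
    have := tb_gm1_add hw .v s t
    rw [mul_apply]
    simp only [mulFun, gam]
    rw [this]
    ring
  | z => exact tb_gz_add hw s t

theorem gam_rev {w : ℝ → SG} (hw : Ctrl w) (L t : ℝ) :
    gam (fun r => - w (L - r)) t = (gam w L)⁻¹ * gam w (L - t) := by
  have h1 := gam_add hw L (-t)
  have h2 := gam_scale (fun r => w (L + r)) (c := -1) (by norm_num) (-t)
  rw [show L - t = L + -t by ring, h1, inv_mul_cancel_left, ← h2]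
  have e : (fun r => - w (L - r)) = fun r => (-1 : ℝ)⁻¹ • (fun r => w (L + r)) ((-1)⁻¹ * r) := by
    funext r
    norm_num
    rfl
  rw [e]
  congr 1
  ring

/-- `gam w` is continuous. -/
theorem gam_continuous {w : ℝ → SG} (hw : Ctrl w) : Continuous (gam w) := by
  refine continuous_pi (fun k => ?_)
  cases k with
  | x i => exact tb_gx_cont hw _
  | u => exact tb_gx_cont hw _
  | v => exact tb_gx_cont hw _
  | t => exact tb_gx_cont hw _
  | m1 i => exact tb_gm_cont hw _ _
  | m2 i => exact tb_gm_cont hw _ _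
  | m3 i => exact tb_gm_cont hw _ _
  | mu => exact tb_gm_cont hw _ _
  | mv => exact tb_gm_cont hw _ _
  | z => exact tb_prim_cont hw .t (tb_gPhi_cont hw)

end

end SRSard
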