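import Pool.Agent.Lib.SRSard.Defs

/-!
# Chunk TA
* `gam_congr`
* `gam_scale`: substitution in interval integrals (`intervalIntegral.integral_comp_mul_left` and
  friends), no integrability needed: first `gx`, then `gm`, then `z`.
* `hor_left_invariant`: derivative coordinate by coordinate (`hasDerivAt_pi`), then `ring`.
* `gam_eq_of_hasDerivAt`: `ζ t = (η 0)⁻¹ * η t` solves the same ODE with `ζ 0 = 1`; integrate the
  coordinates in the order x, u, v, t, m1, m2, m3, mu, mv, z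
  (`intervalIntegral.integral_eq_sub_of_hasDerivAt`).
-/

namespace SRSard

open MeasureTheory Set Filter Topology
open scoped ContDiff

noncomputable section

theorem gam_zero (w : ℝ → SG) : gam w 0 = 1 := by
  ext k; cases k <;> simp [gam, gx, gm, one_apply]

theorem ta_icongr {f g : ℝ → ℝ} {t : ℝ} (ht : 0 ≤ t) (h : ∀ s ∈ Ioc (0:ℝ) t, f s = g s) :
    ∫ s in (0:ℝ)..t, f s = ∫ s in (0:ℝ)..t, g s := by
  apply intervalIntegral.integral_congr_ae
  refine Eventually.of_forall fun s hs => h s ?_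
  rwa [uIoc_of_le ht] at hs

/-- `gam w t` depends only on the restriction of `w` to `[0,t]`. -/
theorem gam_congr {w w' : ℝ → SG} {t : ℝ} (ht : 0 ≤ t) (h : ∀ s ∈ Ioc (0:ℝ) t, w s = w' s) :
    gam w t = gam w' t := by
  have hx : ∀ k, ∀ s ∈ Icc (0:ℝ) t, gx w k s = gx w' k s := by
    intro k s hs
    exact ta_icongr hs.1 fun r hr => by rw [h r ⟨hr.1, hr.2.trans hs.2⟩]
  have hm : ∀ n k, ∀ s ∈ Icc (0:ℝ) t, gm w n k s = gm w' n k s := by
    intro n k s hs
    exact ta_icongr hs.1 fun r hr => by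
      rw [h r ⟨hr.1, hr.2.trans hs.2⟩, hx k r ⟨hr.1.le, hr.2.trans hs.2⟩]
  have ht' : t ∈ Icc (0:ℝ) t := ⟨ht, le_rfl⟩
  ext k
  cases k with
  | x i => exact hx _ t ht'
  | u => exact hx _ t ht'
  | v => exact hx _ t ht'
  | t => exact hx _ t ht'
  | m1 i => exact hm _ _ t ht'
  | m2 i => exact hm _ _ t ht'
  | m3 i => exact hm _ _ t ht'
  | mu => exact hm _ _ t ht'
  | mv => exact hm _ _ t ht'
  | z =>
    refine ta_icongr ht fun s hs => ?_
    have hs' : s ∈ Icc (0:ℝ) t := ⟨hs.1.le, hs.2⟩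
    have e : gPhi w s = gPhi w' s := by
      unfold gPhi
      rw [hx _ s hs', hx _ s hs']
      congr 1
      apply Finset.sum_congr rfl
      intro i _
      rw [hx _ s hs', hx _ s hs', hm _ _ s hs', hm _ _ s hs', hm _ _ s hs']
    rw [h s hs, e]

theorem ta_sub {c : ℝ} (hc : c ≠ 0) (G : ℝ → ℝ) (t : ℝ) :
    ∫ s in (0:ℝ)..c * t, c⁻¹ * G (c⁻¹ * s) = ∫ s in (0:ℝ)..t, G s := by
  rw [intervalIntegral.integral_const_mul, intervalIntegral.mul_integral_comp_mul_left, mul_zero,
    inv_mul_cancel_left₀ hc]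

theorem ta_sub' {c : ℝ} (hc : c ≠ 0) (G : ℝ → ℝ) (t : ℝ) :
    ∫ s in (0:ℝ)..t, c⁻¹ * G (c⁻¹ * s) = ∫ s in (0:ℝ)..c⁻¹ * t, G s := by
  have := ta_sub hc G (c⁻¹ * t)
  rwa [mul_inv_cancel_left₀ hc] at this

theorem gam_scale (w : ℝ → SG) {c : ℝ} (hc : c ≠ 0) (t : ℝ) :
    gam (fun r => c⁻¹ • w (c⁻¹ * r)) (c * t) = gam w t := by
  have hx : ∀ k s, gx (fun r => c⁻¹ • w (c⁻¹ * r)) k s = gx w k (c⁻¹ * s) := fun k s =>
    ta_sub' hc (fun r => w r k) s
  have hm : ∀ n k s, gm (fun r => c⁻¹ • w (c⁻¹ * r)) n k s = gm w n k (c⁻¹ * s) := by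
    intro n k s
    rw [gm, gm, ← ta_sub' hc]
    congr 1
    ext r
    rw [hx]
    show c⁻¹ * w (c⁻¹ * r) .t * _ = _
    ring
  have hP : ∀ s, gPhi (fun r => c⁻¹ • w (c⁻¹ * r)) s = gPhi w (c⁻¹ * s) := by
    intro s
    simp only [gPhi, hx, hm]
  have hct : c⁻¹ * (c * t) = t := inv_mul_cancel_left₀ hc t
  ext k
  cases k with
  | x i => show gx _ _ _ = gx _ _ _; rw [hx, hct]
  | u => show gx _ _ _ = gx _ _ _; rw [hx, hct]
  | v => show gx _ _ _ = gx _ _ _; rw [hx, hct]
  | t => show gx _ _ _ = gx _ _ _; rw [hx, hct]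
  | m1 i => show gm _ _ _ _ = gm _ _ _ _; rw [hm, hct]
  | m2 i => show gm _ _ _ _ = gm _ _ _ _; rw [hm, hct]
  | m3 i => show gm _ _ _ _ = gm _ _ _ _; rw [hm, hct]
  | mu => show gm _ _ _ _ = gm _ _ _ _; rw [hm, hct]
  | mv => show gm _ _ _ _ = gm _ _ _ _; rw [hm, hct]
  | z =>
    show ∫ s in (0:ℝ)..c * t, (c⁻¹ * w (c⁻¹ * s) .t) * gPhi _ s = ∫ s in (0:ℝ)..t, w s .t * gPhi w s
    refine Eq.trans ?_ (ta_sub hc (fun s => w s .t * gPhi w s) t)
    congr 1
    ext s
    rw [hP]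
    ring

/-- The vector fields `hor` are left invariant. -/
theorem hor_left_invariant {η : ℝ → SG} {c : SG} {t : ℝ} (k : SG)
    (h : HasDerivAt η (hor (η t) c) t) :
    HasDerivAt (fun s => k * η s) (hor (k * η t) c) t := by
  have h' : ∀ j : Idx, HasDerivAt (fun s => η s j) (hor (η t) c j) t :=
    (hasDerivAt_pi (E' := fun _ : Idx => ℝ)).1 h
  have ht : HasDerivAt (fun s => η s .t) (c .t) t := h' .t
  refine (hasDerivAt_pi (E' := fun _ : Idx => ℝ)).2 fun j => ?_
  cases j with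
  | x i => exact (h' (.x i)).const_add _
  | u => exact (h' .u).const_add _
  | v => exact (h' .v).const_add _
  | t => exact (h' .t).const_add _
  | m1 i =>
    refine HasDerivAt.congr_deriv
      (((h' (.m1 i)).add (ht.const_mul (k (.x i)))).const_add (k (.m1 i))) ?_
    simp only [hor, mul_apply, mulFun]
    ring
  | m2 i =>
    refine HasDerivAt.congr_deriv
      ((((h' (.m2 i)).add ((h' (.m1 i)).const_mul (2 * k (.x i)))).add
        (ht.const_mul (k (.x i) ^ 2))).const_add (k (.m2 i))) ?_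
    simp only [hor, mul_apply, mulFun]
    ring
  | m3 i =>
    refine HasDerivAt.congr_deriv
      (((((h' (.m3 i)).add ((h' (.m2 i)).const_mul (3 * k (.x i)))).add
        ((h' (.m1 i)).const_mul (3 * k (.x i) ^ 2))).add
        (ht.const_mul (k (.x i) ^ 3))).const_add (k (.m3 i))) ?_
    simp only [hor, mul_apply, mulFun]
    ring
  | mu =>
    refine HasDerivAt.congr_deriv
      (((h' .mu).const_add (k .mu)).add (ht.const_mul (k .u))) ?_
    simp only [hor, mul_apply, mulFun]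
    ring
  | mv =>
    refine HasDerivAt.congr_deriv
      (((h' .mv).const_add (k .mv)).add (ht.const_mul (k .v))) ?_
    simp only [hor, mul_apply, mulFun]
    ring
  | z =>
    have hsum : HasDerivAt (fun s => ∑ i, (ep i / 4 * (4 * k (.x i) * η s (.m3 i)
          + 6 * k (.x i) ^ 2 * η s (.m2 i)
          + 4 * k (.x i) ^ 3 * η s (.m1 i) + k (.x i) ^ 4 * η s .t)
        + ep i * gg i / 6 *
          ((η s (.m3 i) + 3 * k (.x i) * η s (.m2 i) + 3 * k (.x i) ^ 2 * η s (.m1 i)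
              + k (.x i) ^ 3 * η s .t) * k .t
            - 3 * (η s (.m2 i) + 2 * k (.x i) * η s (.m1 i) + k (.x i) ^ 2 * η s .t) * k (.m1 i)
            + 3 * (η s (.m1 i) + k (.x i) * η s .t) * k (.m2 i)
            - η s .t * k (.m3 i))))
        (∑ i, (ep i / 4 * (4 * k (.x i) * hor (η t) c (.m3 i)
          + 6 * k (.x i) ^ 2 * hor (η t) c (.m2 i)
          + 4 * k (.x i) ^ 3 * hor (η t) c (.m1 i) + k (.x i) ^ 4 * c .t)
        + ep i * gg i / 6 *
          ((hor (η t) c (.m3 i) + 3 * k (.x i) * hor (η t) c (.m2 i)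
              + 3 * k (.x i) ^ 2 * hor (η t) c (.m1 i)
              + k (.x i) ^ 3 * c .t) * k .t
            - 3 * (hor (η t) c (.m2 i) + 2 * k (.x i) * hor (η t) c (.m1 i)
              + k (.x i) ^ 2 * c .t) * k (.m1 i)
            + 3 * (hor (η t) c (.m1 i) + k (.x i) * c .t) * k (.m2 i)
            - c .t * k (.m3 i)))) t := by
      apply HasDerivAt.fun_sum
      intro i _
      have d3 := h' (.m3 i)
      have d2 := h' (.m2 i)
      have d1 := h' (.m1 i)
      exact (((((d3.const_mul (4 * k (.x i))).add (d2.const_mul (6 * k (.x i) ^ 2))).add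
          (d1.const_mul (4 * k (.x i) ^ 3))).add (ht.const_mul (k (.x i) ^ 4))).const_mul
          (ep i / 4)).add
        ((((((((d3.add (d2.const_mul (3 * k (.x i)))).add (d1.const_mul (3 * k (.x i) ^ 2))).add
          (ht.const_mul (k (.x i) ^ 3))).mul_const (k .t)).sub
          ((((d2.add (d1.const_mul (2 * k (.x i)))).add (ht.const_mul (k (.x i) ^ 2))).const_mul
            3).mul_const (k (.m1 i)))).add
          (((d1.add (ht.const_mul (k (.x i)))).const_mul 3).mul_const (k (.m2 i)))).sub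
          (ht.mul_const (k (.m3 i)))).const_mul (ep i * gg i / 6))
    refine HasDerivAt.congr_deriv
      ((((((h' .z).const_add (k .z)).add ((h' .mv).const_mul (k .u))).add
        ((h' .mu).const_mul (k .v))).add (ht.const_mul (k .u * k .v))).add hsum) ?_
    simp only [hor, mul_apply, mulFun, Fin.sum_univ_four]
    ring

theorem gam_eq_of_hasDerivAt {η w : ℝ → SG} (hw : Continuous w)
    (h : ∀ t, HasDerivAt η (hor (η t) (w t)) t) (t : ℝ) : η t = η 0 * gam w t := by
  have hwc : ∀ k : Idx, Continuous fun s => w s k := fun k =>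
    (continuous_apply (A := fun _ : Idx => ℝ) k).comp hw
  let ζ : ℝ → SG := fun s => (η 0)⁻¹ * η s
  have hζ : ∀ s, HasDerivAt ζ (hor (ζ s) (w s)) s := fun s => hor_left_invariant _ (h s)
  have hζ0 : ζ 0 = 1 := inv_mul_cancel _
  have hζk : ∀ (k : Idx) (s : ℝ), HasDerivAt (fun s => ζ s k) (hor (ζ s) (w s) k) s := fun k s =>
    (hasDerivAt_pi (E' := fun _ : Idx => ℝ)).1 (hζ s) k
  have hζc : ∀ k : Idx, Continuous fun s => ζ s k := fun k =>
    continuous_iff_continuousAt.2 fun s => (hζk k s).continuousAt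
  have ftc : ∀ (k : Idx) (s : ℝ), Continuous (fun r => hor (ζ r) (w r) k) →
      ζ s k = ∫ r in (0:ℝ)..s, hor (ζ r) (w r) k := by
    intro k s hc
    rw [intervalIntegral.integral_eq_sub_of_hasDerivAt (fun r _ => hζk k r)
      (hc.intervalIntegrable _ _), hζ0, one_apply, sub_zero]
  have hx : ∀ (i : Fin 4) (s : ℝ), ζ s (.x i) = gx w (.x i) s := fun i s => ftc (.x i) s (hwc (.x i))
  have hu : ∀ s : ℝ, ζ s .u = gx w .u s := fun s => ftc .u s (hwc .u)
  have hv : ∀ s : ℝ, ζ s .v = gx w .v s := fun s => ftc .v s (hwc .v)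
  have ht : ∀ s : ℝ, ζ s .t = gx w .t s := fun s => ftc .t s (hwc .t)
  have hm1 : ∀ (i : Fin 4) (s : ℝ), ζ s (.m1 i) = gm w 1 (.x i) s := by
    intro i s
    rw [ftc (.m1 i) s ((hwc .t).mul (hζc (.x i)))]
    simp only [hor, gm, hx, pow_one]
  have hm2 : ∀ (i : Fin 4) (s : ℝ), ζ s (.m2 i) = gm w 2 (.x i) s := by
    intro i s
    rw [ftc (.m2 i) s ((hwc .t).mul ((hζc (.x i)).pow 2))]
    simp only [hor, gm, hx]
  have hm3 : ∀ (i : Fin 4) (s : ℝ), ζ s (.m3 i) = gm w 3 (.x i) s := by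
    intro i s
    rw [ftc (.m3 i) s ((hwc .t).mul ((hζc (.x i)).pow 3))]
    simp only [hor, gm, hx]
  have hmu : ∀ s : ℝ, ζ s .mu = gm w 1 .u s := by
    intro s
    rw [ftc .mu s ((hwc .t).mul (hζc .u))]
    simp only [hor, gm, hu, pow_one]
  have hmv : ∀ s : ℝ, ζ s .mv = gm w 1 .v s := by
    intro s
    rw [ftc .mv s ((hwc .t).mul (hζc .v))]
    simp only [hor, gm, hv, pow_one]
  have key : ζ t = gam w t := by
    ext k
    cases k with
    | x i => exact hx i t
    | u => exact hu t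
    | v => exact hv t
    | t => exact ht t
    | m1 i => exact hm1 i t
    | m2 i => exact hm2 i t
    | m3 i => exact hm3 i t
    | mu => exact hmu t
    | mv => exact hmv t
    | z =>
      have h1 := hζc .u
      have h2 := hζc .v
      have h3 := hζc .t
      have h4 := fun i => hζc (.x i)
      have h5 := fun i => hζc (.m1 i)
      have h6 := fun i => hζc (.m2 i)
      have h7 := fun i => hζc (.m3 i)
      have h8 := hwc .t
      rw [ftc .z t (by simp only [hor]; fun_prop)]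
      simp only [hor, gam, gPhi, hx, hu, hv, ht, hm1, hm2, hm3]
  rw [← key]
  show η t = η 0 * ((η 0)⁻¹ * η t)
  rw [mul_inv_cancel_left]

end

end SRSard
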